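import Pool.Agent.N912.ED.W78EGDefs
import Pool.Agent.W762.EC.Swc

/-!
The Siegel-Walfisz theorem for the sums over all primes of `(Q, 2Q]` (adapted from `W588.EG.Swc`).
-/

set_option autoImplicit false

open Finset Filter Topology
open DirichletCharacter

namespace Pool.Agent.N912.ED

open Pool.Agent.N912.ED.W78EG
open Pool.Agent.H262R3.Lk.SWQ (SS)
open Pool.Agent.W762.EC (SS_sub SS_diff theta_nat theta_bound)

variable {f : ℕ}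

theorem th_nat (χ : DirichletCharacter ℂ f) (Q m : ℕ) (h1 : Q < m) (h2 : m ≤ 2 * Q) :
    th χ Q (m : ℤ) = if m.Prime then Real.log m else 0 := by
  unfold th PQ
  have e : ((m : ℤ)).toNat = m := Int.toNat_natCast m
  rw [e]
  have h3 : (0 : ℤ) < m := by omega
  simp only [mem_filter, mem_Ioc, h1, h2, h3, true_and, and_true, Int.cast_natCast]

theorem part1u (χ : DirichletCharacter ℂ f) (A B : ℕ) : ∃ C : ℝ, ∃ Q₀ : ℕ, ∀ Q : ℕ, Q₀ ≤ Q →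
    ∀ x : ℕ, Q ≤ x →
    x ≤ 2 * Q → ∀ q : ℕ, 2 ≤ q → (q : ℝ) ≤ Real.log Q ^ B → ∀ ψ : DirichletCharacter ℂ q,
    ψ.IsPrimitive →
    ‖∑ m ∈ Ioc Q x, (th χ Q m : ℂ) * ψ (m : ZMod q)‖ ≤ C * Q / Real.log Q ^ A := by
  obtain ⟨n₁, h⟩ := SS_diff A B
  refine ⟨36, n₁, fun Q hQ x h1 h2 q hq hqB ψ hψ => ?_⟩
  have e : ∑ m ∈ Ioc Q x, (th χ Q m : ℂ) * ψ (m : ZMod q) = SS ψ x - SS ψ Q := by
    rw [SS_sub _ Q x h1]
    apply sum_congr rfl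
    intro m hm
    rw [mem_Ioc] at hm
    rw [th_nat χ Q m hm.1 (by omega)]
    unfold Pool.Agent.H262R3.Lk.SWQ.av
    split_ifs
    · ring
    · simp
  rw [e]
  exact h Q hQ x h1 h2 q (by omega) hqB ψ hψ

theorem part1 (χ : DirichletCharacter ℂ f) (A B : ℕ) : ∃ C : ℝ, ∃ Q₀ : ℕ, ∀ Q : ℕ, Q₀ ≤ Q →
    ∀ x : ℕ, Q ≤ x →
    x ≤ 2 * Q → ∀ q : ℕ, 2 ≤ q → (q : ℝ) ≤ Real.log Q ^ B → ∀ ψ : DirichletCharacter ℂ q,
    ψ.IsPrimitive → (∃ n : ℕ, ψ (n : ZMod q) ≠ χ (n : ZMod f)) →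
    ‖∑ m ∈ Ioc Q x, (th χ Q m : ℂ) * ψ (m : ZMod q)‖ ≤ C * Q / Real.log Q ^ A := by
  obtain ⟨C, Q₀, h⟩ := part1u χ A B
  exact ⟨C, Q₀, fun Q hQ x h1 h2 q hq hqB ψ hψ _ => h Q hQ x h1 h2 q hq hqB ψ hψ⟩

theorem part2 (χ : DirichletCharacter ℂ f) (A : ℕ) : ∃ C : ℝ, ∃ Q₀ : ℕ, ∀ Q : ℕ, Q₀ ≤ Q →
    ∀ x : ℕ, Q ≤ x →
    x ≤ 2 * Q → |∑ m ∈ Ioc Q x, th χ Q m - ((x : ℝ) - Q)| ≤ C * Q / Real.log Q ^ A := by
  classical
  obtain ⟨n₂, h'⟩ := theta_bound A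
  refine ⟨3 * (37 + 16 * 8 ^ (A + 1)), max n₂ ⌈Real.exp 1⌉₊,
    fun Q hQ x h1 h2 => ?_⟩
  have hQ2 : n₂ ≤ Q := (le_max_left _ _).trans hQ
  have hQ3 : Real.exp 1 ≤ Q := (Nat.le_ceil _).trans
    (by exact_mod_cast (le_max_right _ _).trans hQ)
  have hQp : (0 : ℝ) < Q := lt_of_lt_of_le (Real.exp_pos 1) hQ3
  have hL : (1 : ℝ) ≤ Real.log Q := by rw [Real.le_log_iff_exp_le hQp]; exact hQ3
  have htQ : (Q : ℝ) ≤ x := by exact_mod_cast h1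
  have htQ2 : (x : ℝ) ≤ 2 * Q := by exact_mod_cast h2
  have hLt : Real.log Q ≤ Real.log x := Real.log_le_log hQp htQ
  have k2 := h' Q hQ2
  have k3 := h' x (hQ2.trans h1)
  have e1 : ∑ m ∈ Ioc Q x, Pool.Agent.W762.EC.lp m = Chebyshev.theta (x : ℝ) - Chebyshev.theta (Q : ℝ) := by
    rw [theta_nat, theta_nat, ← sum_Ioc_consecutive _ (Nat.zero_le Q) h1]
    ring
  have e3 : ∑ m ∈ Ioc Q x, th χ Q m = ∑ m ∈ Ioc Q x, Pool.Agent.W762.EC.lp m := by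
    apply sum_congr rfl
    intro m hm
    rw [mem_Ioc] at hm
    rw [th_nat χ Q m hm.1 (by omega)]
    rfl
  have e5 : (x : ℝ) / Real.log x ^ A ≤ 2 * (Q / Real.log Q ^ A) := by
    have hLp : 0 < Real.log Q := by linarith
    rw [mul_div_assoc']
    apply div_le_div₀ (by positivity) (by linarith) (by positivity)
    exact pow_le_pow_left₀ hLp.le hLt _
  have hC : (0 : ℝ) ≤ 37 + 16 * 8 ^ (A + 1) := by positivity
  have e6 := mul_le_mul_of_nonneg_left e5 hC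
  have e7 : 3 * (37 + 16 * 8 ^ (A + 1)) * (Q : ℝ) / Real.log Q ^ A =
      3 * ((37 + 16 * 8 ^ (A + 1)) * (Q / Real.log Q ^ A)) := by ring
  rw [e3, e1, e7]
  rw [abs_le] at k2 k3 ⊢
  constructor <;> linarith [k2.1, k2.2, k3.1, k3.2]

theorem swc (χ : DirichletCharacter ℂ f) : S_SWC χ := ⟨part1 χ, part2 χ⟩

end Pool.Agent.N912.ED
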