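import Pool.Agent.N912.ED.W78EGDefs
import Pool.Agent.W683.EC.JB

/-!
Project EG (helper78): bounds and variation of the main term (S_JB, S_JV), port of W683.EC.JB.
-/

set_option autoImplicit false

namespace Pool.Agent.N912.ED.W131EG

open Finset Filter
open Pool.Agent.W78.GA (Qd nm prim dt ip lat ball pball ang tc nm_castR norm_tc tc_re tc_im ip_dt
  nm_mul nm_natCast disc_pos nm_nonneg)
open Pool.Agent.W78.EC (psi)
open Pool.Agent.N912.ED.W78EG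
open Pool.Agent.W683.EC (psi_nonneg psi_le psi_eq_zero psi_lip card_diam sin_lip dd_bound ii_bound
  arg_bound)

variable {t c : ℤ} {f : ℕ} {χ : DirichletCharacter ℂ f}

lemma Fd_hD (hF : Fd t c f χ) : t ^ 2 < 4 * c := by
  have h1 := hF.disc
  have h2 : (3 : ℤ) ≤ f := by exact_mod_cast hF.three
  linarith

lemma nm_comb (hD : t ^ 2 < 4 * c) (w₁ w₂ : Qd t c) (m₁ m₂ : ℕ) :
    (nm ((m₂ : Qd t c) * w₁ - (m₁ : Qd t c) * w₂) : ℝ) =
    (m₂ : ℝ) ^ 2 * nm w₁ - 2 * m₁ * m₂ * ((pp w₁ w₂ : ℝ) / 2) + (m₁ : ℝ) ^ 2 * nm w₂ := by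
  rw [nm_castR hD, nm_castR hD, nm_castR hD]
  unfold pp ip dt
  simp only [QuadraticAlgebra.re_sub, QuadraticAlgebra.im_sub, QuadraticAlgebra.re_mul,
    QuadraticAlgebra.im_mul, QuadraticAlgebra.re_natCast, QuadraticAlgebra.im_natCast]
  push_cast
  ring

lemma nm_sub_le (hD : t ^ 2 < 4 * c) (a b : Qd t c) :
    (nm (a - b) : ℝ) ≤ 2 * nm a + 2 * nm b := by
  have h0 : (0 : ℝ) ≤ (nm (a + b) : ℝ) := Nat.cast_nonneg _
  rw [nm_castR hD] at h0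
  rw [nm_castR hD, nm_castR hD, nm_castR hD]
  simp only [QuadraticAlgebra.re_sub, QuadraticAlgebra.im_sub, QuadraticAlgebra.re_add,
    QuadraticAlgebra.im_add] at h0 ⊢
  push_cast at h0 ⊢
  nlinarith [h0]

theorem jb (hF : Fd t c f χ) : S_JB t c χ := by
  have hDD := Fd_hD hF
  intro s hs
  refine ⟨8 * (4 / Real.sqrt s + 1), ?_⟩
  intro Q X w₁ w₂ hQ hX h1 h1' h2 h2' hD
  have hX0 : 0 < X := by linarith
  have hsq : 0 < Real.sqrt s := Real.sqrt_pos.2 hs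
  set D : ℝ := (dt w₁ w₂ : ℝ) with hDdef
  have hD1 : 1 ≤ D := by
    have : (1 : ℤ) ≤ dt w₁ w₂ := hD
    rw [hDdef]; exact_mod_cast this
  have hD0' : 0 < D := by linarith
  have hDX : 0 < D ^ 2 * X := by positivity
  -- sum over m₂
  have hsum : ∀ m₁ ∈ Ioc Q (2 * Q), ∑ m₂ ∈ Ioc Q (2 * Q),
      psi (nm ((m₂ : Qd t c) * w₁ - (m₁ : Qd t c) * w₂) / (D ^ 2 * X)) ≤ 16 * (4 * D / Real.sqrt s + 1) := by
    intro m₁ _
    classical
    set S := (Ioc Q (2 * Q)).filter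
      (fun m₂ : ℕ => (nm ((m₂ : Qd t c) * w₁ - (m₁ : Qd t c) * w₂) : ℝ) < 4 * (D ^ 2 * X)) with hS
    have e1 : ∑ m₂ ∈ Ioc Q (2 * Q), psi (nm ((m₂ : Qd t c) * w₁ - (m₁ : Qd t c) * w₂) / (D ^ 2 * X)) =
        ∑ m₂ ∈ S, psi (nm ((m₂ : Qd t c) * w₁ - (m₁ : Qd t c) * w₂) / (D ^ 2 * X)) := by
      rw [hS, Finset.sum_filter]
      refine Finset.sum_congr rfl fun m₂ _ => ?_
      split_ifs with h
      · rfl
      · exact psi_eq_zero (by rw [le_div_iff₀ hDX]; exact not_lt.1 h)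
    rw [e1]
    have e2 : ∑ m₂ ∈ S, psi (nm ((m₂ : Qd t c) * w₁ - (m₁ : Qd t c) * w₂) / (D ^ 2 * X)) ≤
        S.card * 16 := by
      calc _ ≤ ∑ _m ∈ S, (16 : ℝ) := Finset.sum_le_sum fun m₂ _ => psi_le (by positivity)
        _ = _ := by rw [Finset.sum_const, nsmul_eq_mul]
    refine e2.trans ?_
    have e3 : (S.card : ℝ) ≤ 4 * D / Real.sqrt s + 1 := by
      refine card_diam S _ (by positivity) fun a ha b hb => ?_
      have ha' := (Finset.mem_filter.1 ha).2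
      have hb' := (Finset.mem_filter.1 hb).2
      have h3 := nm_sub_le hDD ((b : Qd t c) * w₁ - (m₁ : Qd t c) * w₂) ((a : Qd t c) * w₁ - (m₁ : Qd t c) * w₂)
      have h4 : (nm ((b : Qd t c) * w₁ - (m₁ : Qd t c) * w₂ - ((a : Qd t c) * w₁ - (m₁ : Qd t c) * w₂)) : ℝ) =
          ((b : ℝ) - a) ^ 2 * nm w₁ := by
        rw [nm_castR hDD, nm_castR hDD]
        simp only [QuadraticAlgebra.re_sub, QuadraticAlgebra.im_sub, QuadraticAlgebra.re_mul,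
          QuadraticAlgebra.im_mul, QuadraticAlgebra.re_natCast, QuadraticAlgebra.im_natCast]
        push_cast
        ring
      rw [h4] at h3
      have h5 : ((b : ℝ) - a) ^ 2 * (s * X) ≤ 16 * (D ^ 2 * X) := by
        have := mul_le_mul_of_nonneg_left h1.le (sq_nonneg ((b : ℝ) - a))
        linarith
      have h6 : ((b : ℝ) - a) ^ 2 * s ≤ 16 * D ^ 2 := by
        have h7 : (((b : ℝ) - a) ^ 2 * s) * X ≤ (16 * D ^ 2) * X := by linarith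
        exact le_of_mul_le_mul_right h7 hX0
      rw [le_div_iff₀ hsq]
      refine le_of_sq_le_sq ?_ (by positivity) |>.trans le_rfl
      rw [mul_pow, Real.sq_sqrt hs.le]
      linarith
    linarith
  have htot : ∑ m₁ ∈ Ioc Q (2 * Q), ∑ m₂ ∈ Ioc Q (2 * Q),
      psi (nm ((m₂ : Qd t c) * w₁ - (m₁ : Qd t c) * w₂) / (D ^ 2 * X)) ≤
      Q * (16 * (4 * D / Real.sqrt s + 1)) := by
    have hc : ((Ioc Q (2 * Q)).card : ℝ) = Q := by
      rw [Nat.card_Ioc]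
      have : 2 * Q - Q = Q := by omega
      rw [this]
    calc _ ≤ ∑ _m₁ ∈ Ioc Q (2 * Q), (16 * (4 * D / Real.sqrt s + 1)) := Finset.sum_le_sum hsum
      _ = _ := by rw [Finset.sum_const, nsmul_eq_mul, hc]
  have htot0 : 0 ≤ ∑ m₁ ∈ Ioc Q (2 * Q), ∑ m₂ ∈ Ioc Q (2 * Q),
      psi (nm ((m₂ : Qd t c) * w₁ - (m₁ : Qd t c) * w₂) / (D ^ 2 * X)) :=
    Finset.sum_nonneg fun _ _ => Finset.sum_nonneg fun _ _ => psi_nonneg _
  have hxi : |1 + xi χ w₁ w₂| ≤ 2 := by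
    unfold xi
    split_ifs <;> norm_num
  have hphi : (0 : ℝ) < (Nat.totient (dt w₁ w₂).toNat : ℝ) := by
    have : 0 < (dt w₁ w₂).toNat := by omega
    exact_mod_cast Nat.totient_pos.2 this
  unfold G0
  rw [abs_mul, abs_div, abs_of_pos (by positivity : (0:ℝ) < 4 * (Nat.totient (dt w₁ w₂).toNat : ℝ)),
    abs_of_nonneg htot0]
  calc |1 + xi χ w₁ w₂| / (4 * (Nat.totient (dt w₁ w₂).toNat : ℝ)) *
        (∑ m₁ ∈ Ioc Q (2 * Q), ∑ m₂ ∈ Ioc Q (2 * Q),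
          psi (nm ((m₂ : Qd t c) * w₁ - (m₁ : Qd t c) * w₂) / (D ^ 2 * X)))
      ≤ 2 / (4 * (Nat.totient (dt w₁ w₂).toNat : ℝ)) *
        (Q * (16 * (4 * D / Real.sqrt s + 1))) := by
        refine mul_le_mul ?_ htot htot0 (by positivity)
        exact div_le_div_of_nonneg_right hxi (by positivity)
    _ ≤ 2 / (4 * (Nat.totient (dt w₁ w₂).toNat : ℝ)) *
        (Q * (16 * ((4 / Real.sqrt s + 1) * D))) := by
        refine mul_le_mul_of_nonneg_left ?_ (by positivity)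
        refine mul_le_mul_of_nonneg_left ?_ (by positivity)
        have : 4 * D / Real.sqrt s = 4 / Real.sqrt s * D := by ring
        rw [this]
        nlinarith
    _ = 8 * (4 / Real.sqrt s + 1) * Q * (D / (Nat.totient (dt w₁ w₂).toNat : ℝ)) := by
        field_simp
        ring

/-! ### variation of `kk` -/

lemma re_eq (hD : t ^ 2 < 4 * c) (z : Qd t c) : (z.re : ℝ) + t * z.im / 2 =
    Real.sqrt (nm z) * Real.cos (ang z) := by
  have h1 := Complex.norm_mul_cos_arg (tc z)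
  rw [norm_tc hD, tc_re] at h1
  unfold ang
  rw [h1]

lemma im_eq (hD : t ^ 2 < 4 * c) (z : Qd t c) :
    (z.im : ℝ) * Real.sqrt (4 * c - t ^ 2) / 2 = Real.sqrt (nm z) * Real.sin (ang z) := by
  have h1 := Complex.norm_mul_sin_arg (tc z)
  rw [norm_tc hD, tc_im] at h1
  unfold ang
  rw [h1]

lemma dt_eq (hD : t ^ 2 < 4 * c) (v u : Qd t c) :
    (dt v u : ℝ) * (Real.sqrt (4 * c - t ^ 2) / 2) =
    Real.sqrt (nm v) * Real.sqrt (nm u) * Real.sin (ang u - ang v) := by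
  rw [Real.sin_sub]
  have e : Real.sqrt (nm v) * Real.sqrt (nm u) * (Real.sin (ang u) * Real.cos (ang v) -
      Real.cos (ang u) * Real.sin (ang v)) =
      (Real.sqrt (nm u) * Real.sin (ang u)) * (Real.sqrt (nm v) * Real.cos (ang v)) -
      (Real.sqrt (nm u) * Real.cos (ang u)) * (Real.sqrt (nm v) * Real.sin (ang v)) := by ring
  rw [e, ← re_eq hD v, ← im_eq hD v, ← re_eq hD u, ← im_eq hD u]
  unfold dt
  push_cast
  ring

lemma pp_sq (hD : t ^ 2 < 4 * c) (v u : Qd t c) : ((pp v u : ℝ) / 2) ^ 2 = nm v * nm u -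
    ((dt v u : ℝ) * (Real.sqrt (4 * c - t ^ 2) / 2)) ^ 2 := by
  have h := ip_dt hD v u
  have h2 : (nm v : ℝ) * (nm u : ℝ) = (ip v u : ℝ) ^ 2 +
      (t : ℝ) * (ip v u : ℝ) * (dt v u : ℝ) + (c : ℝ) * (dt v u : ℝ) ^ 2 := by
    exact_mod_cast h
  have h3 := Real.sq_sqrt (disc_pos hD).le
  have h4 : (pp v u : ℝ) = 2 * (ip v u : ℝ) + t * (dt v u : ℝ) := by
    unfold pp
    push_cast
    ring
  rw [mul_pow, div_pow, div_pow, h3, h2, h4]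
  ring

lemma nm_comb_le (hD : t ^ 2 < 4 * c) (w₁ w₂ : Qd t c) (m₁ m₂ Q : ℕ) {X : ℝ} (h1 : (nm w₁ : ℝ) ≤ X) (h2 : (nm w₂ : ℝ) ≤ X)
    (hm₁ : m₁ ≤ 2 * Q) (hm₂ : m₂ ≤ 2 * Q) :
    (nm ((m₂ : Qd t c) * w₁ - (m₁ : Qd t c) * w₂) : ℝ) ≤ 16 * (Q : ℝ) ^ 2 * X := by
  refine (nm_sub_le hD _ _).trans ?_
  have e : ∀ (m : ℕ) (w : Qd t c), (nm ((m : Qd t c) * w) : ℝ) = (m : ℝ) ^ 2 * nm w := by
    intro m w
    rw [nm_mul, nm_natCast]; push_cast; ring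
  rw [e, e]
  have a : ∀ (m : ℕ) (w : Qd t c), m ≤ 2 * Q → (nm w : ℝ) ≤ X → (m : ℝ) ^ 2 * nm w ≤ 4 * (Q : ℝ) ^ 2 * X := by
    intro m w hm hw
    have b1 : (m : ℝ) ≤ 2 * Q := by exact_mod_cast hm
    have b2 : (m : ℝ) ^ 2 ≤ 4 * (Q : ℝ) ^ 2 := by
      have := pow_le_pow_left₀ (Nat.cast_nonneg m) b1 2
      linarith
    exact mul_le_mul b2 hw (Nat.cast_nonneg _) (by positivity)
  have := a m₂ w₁ hm₂ h1
  have := a m₁ w₂ hm₁ h2
  linarith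

theorem jv (hF : Fd t c f χ) : S_JV t c := by
  have hDD0 := Fd_hD hF
  have hkap : 0 < Real.sqrt (4 * c - t ^ 2) / 2 :=
    div_pos (Real.sqrt_pos.2 (disc_pos hDD0)) (by norm_num)
  set kap : ℝ := Real.sqrt (4 * c - t ^ 2) / 2 with hkapdef
  intro C₀ s δ ε hC hs hδ hε
  set C₁ : ℝ := C₀ * kap with hC₁
  have hC₁p : 0 < C₁ := by positivity
  set K0 : ℝ := C₁ / s ^ 2 + 2 with hK0
  have hK0p : 0 < K0 := by positivity
  set K1 : ℝ := K0 / kap with hK1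
  have hK : 0 < K1 := by positivity
  set cc : ℝ := (2 + 2 * C₁ * K0) / s with hc
  have hcp : 0 < cc := by positivity
  set c2 : ℝ := 8 * (1 + cc) / δ ^ 2 + 32 * C₀ * K1 / δ ^ 4 with hc2
  have hc2p : 0 < c2 := by positivity
  set F : ℝ := 2 * c2 / δ + 4 * K1 / δ ^ 2 with hF
  have hFp : 0 < F := by positivity
  refine ⟨min 1 (min (s / (2 * C₁)) (ε / F)), by positivity, ?_⟩
  intro Q X w₁ w₂ w₁' w₂' hQ hX1 hQX hw hD hDu hD' hDu' d1 d2 hI hI' ha1 ha2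
  set ε₁ : ℝ := min 1 (min (s / (2 * C₁)) (ε / F)) with hε₁
  have he : 0 < ε₁ := by rw [hε₁]; positivity
  have he1 : ε₁ ≤ 1 := min_le_left _ _
  have he2 : ε₁ ≤ s / (2 * C₁) := (min_le_right _ _).trans (min_le_left _ _)
  have he3 : ε₁ ≤ ε / F := (min_le_right _ _).trans (min_le_right _ _)
  have hX0 : 0 < X := by
    by_contra hcon
    have := mul_nonpos_of_nonneg_of_nonpos he.le (not_lt.1 hcon)
    linarith
  have hQ0 : (0 : ℝ) < Q := by exact_mod_cast hQ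
  obtain ⟨l1, u1⟩ := hw w₁ (by simp)
  obtain ⟨l2, u2⟩ := hw w₂ (by simp)
  obtain ⟨l1', u1'⟩ := hw w₁' (by simp)
  obtain ⟨l2', u2'⟩ := hw w₂' (by simp)
  have hδQ : 0 < δ * Q := by positivity
  have hDp : (0 : ℝ) < dt w₁ w₂ := by linarith
  have hDp' : (0 : ℝ) < dt w₁' w₂' := by linarith
  have hS : |Real.sin (ang w₂ - ang w₁) - Real.sin (ang w₂' - ang w₁')| ≤ 2 * ε₁ * Q / X := by
    refine (sin_lip _ _).trans ?_
    have e1 : ang w₂ - ang w₁ - (ang w₂' - ang w₁') = (ang w₂ - ang w₂') - (ang w₁ - ang w₁') := by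
      ring
    rw [e1]
    refine (abs_sub _ _).trans ((add_le_add ha2 ha1).trans (le_of_eq ?_))
    ring
  have hDk : |(dt w₁ w₂ : ℝ) * kap - (dt w₁' w₂' : ℝ) * kap| ≤ ε₁ * Q * K0 :=
    dd_bound (C₀ := C₁) (s := s) hC₁p hs he hX0 hQ0 (Real.sqrt_nonneg (nm w₁))
      (Real.sqrt_nonneg (nm w₂)) (Real.sqrt_nonneg (nm w₁')) (Real.sqrt_nonneg (nm w₂'))
      (Real.sq_sqrt (Nat.cast_nonneg _)) (Real.sq_sqrt (Nat.cast_nonneg _))
      (Real.sq_sqrt (Nat.cast_nonneg _)) (Real.sq_sqrt (Nat.cast_nonneg _)) l1 u1 l2 u2 l1' u1'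
      l2' u2' d1 d2 (dt_eq hDD0 w₁ w₂) (dt_eq hDD0 w₁' w₂') (by positivity)
      (by rw [hC₁]; nlinarith) hS
  have hDD : |(dt w₁ w₂ : ℝ) - dt w₁' w₂'| ≤ ε₁ * Q * K1 := by
    have e1 : (dt w₁ w₂ : ℝ) * kap - (dt w₁' w₂' : ℝ) * kap =
      ((dt w₁ w₂ : ℝ) - dt w₁' w₂') * kap := by ring
    rw [e1, abs_mul, abs_of_pos hkap] at hDk
    rw [hK1, ← mul_div_assoc, le_div_iff₀ hkap]
    exact hDk
  have hpI : (0 : ℝ) < (pp w₁ w₂ : ℝ) / 2 := by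
    have : (0 : ℝ) < (pp w₁ w₂ : ℝ) := by exact_mod_cast hI
    linarith
  have hpI' : (0 : ℝ) < (pp w₁' w₂' : ℝ) / 2 := by
    have : (0 : ℝ) < (pp w₁' w₂' : ℝ) := by exact_mod_cast hI'
    linarith
  have hII : |(pp w₁ w₂ : ℝ) / 2 - (pp w₁' w₂' : ℝ) / 2| ≤ cc * (ε₁ * X) :=
    ii_bound (C₀ := C₁) (s := s) hC₁p hs he he1 he2 hX0 hQ0 hQX hK0p.le l1 l2 u2 l1' u1' l2' d1 d2
      hpI hpI' (pp_sq hDD0 w₁ w₂) (pp_sq hDD0 w₁' w₂') (by positivity)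
      (by rw [hC₁]; nlinarith) (by positivity) (by rw [hC₁]; nlinarith) hDk
  have hpsi : ∀ m₁ ∈ Ioc Q (2 * Q), ∀ m₂ ∈ Ioc Q (2 * Q),
      |psi (nm ((m₂ : Qd t c) * w₁ - (m₁ : Qd t c) * w₂) / ((dt w₁ w₂ : ℝ) ^ 2 * X)) -
        psi (nm ((m₂ : Qd t c) * w₁' - (m₁ : Qd t c) * w₂') / ((dt w₁' w₂' : ℝ) ^ 2 * X))| ≤
        8 * (c2 * ε₁) := by
    intro m₁ hm₁ m₂ hm₂
    have hm₁' := (Finset.mem_Ioc.1 hm₁).2
    have hm₂' := (Finset.mem_Ioc.1 hm₂).2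
    refine (psi_lip (by positivity) (by positivity)).trans ?_
    refine mul_le_mul_of_nonneg_left ?_ (by norm_num)
    exact arg_bound (C₀ := C₀) (δ := δ) hC hδ he hX0 hQ0 hK.le hcp.le (Nat.cast_nonneg m₁)
      (Nat.cast_nonneg m₂) (by exact_mod_cast hm₁') (by exact_mod_cast hm₂') d1 d2 hII
      (nm_comb hDD0 w₁ w₂ m₁ m₂) (nm_comb hDD0 w₁' w₂' m₁ m₂) (Nat.cast_nonneg _)
      (nm_comb_le hDD0 w₁' w₂' m₁ m₂ Q u1' u2' hm₁' hm₂') hD hDu hD' hDu' hDD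
  have hcard : ((Ioc Q (2 * Q)).card : ℝ) = Q := by
    rw [Nat.card_Ioc]
    have : 2 * Q - Q = Q := by omega
    rw [this]
  set T1 : ℝ := ∑ m₁ ∈ Ioc Q (2 * Q), ∑ m₂ ∈ Ioc Q (2 * Q),
      psi (nm ((m₂ : Qd t c) * w₁ - (m₁ : Qd t c) * w₂) / ((dt w₁ w₂ : ℝ) ^ 2 * X)) with hT1
  set T2 : ℝ := ∑ m₁ ∈ Ioc Q (2 * Q), ∑ m₂ ∈ Ioc Q (2 * Q),
      psi (nm ((m₂ : Qd t c) * w₁' - (m₁ : Qd t c) * w₂') / ((dt w₁' w₂' : ℝ) ^ 2 * X)) with hT2
  have hdiff : |T1 - T2| ≤ (Q : ℝ) * (Q * (8 * (c2 * ε₁))) := by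
    rw [hT1, hT2, ← Finset.sum_sub_distrib]
    refine (Finset.abs_sum_le_sum_abs _ _).trans ?_
    calc _ ≤ ∑ _m₁ ∈ Ioc Q (2 * Q), (Q : ℝ) * (8 * (c2 * ε₁)) := by
          refine Finset.sum_le_sum fun m₁ hm₁ => ?_
          rw [← Finset.sum_sub_distrib]
          refine (Finset.abs_sum_le_sum_abs _ _).trans ?_
          calc _ ≤ ∑ _m₂ ∈ Ioc Q (2 * Q), (8 * (c2 * ε₁)) :=
                Finset.sum_le_sum fun m₂ hm₂ => hpsi m₁ hm₁ m₂ hm₂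
            _ = _ := by rw [Finset.sum_const, nsmul_eq_mul, hcard]
      _ = _ := by rw [Finset.sum_const, nsmul_eq_mul, hcard]
  have hT20 : 0 ≤ T2 := Finset.sum_nonneg fun _ _ => Finset.sum_nonneg fun _ _ => psi_nonneg _
  have hT2u : T2 ≤ (Q : ℝ) * (Q * 16) := by
    rw [hT2]
    calc _ ≤ ∑ _m₁ ∈ Ioc Q (2 * Q), (Q : ℝ) * 16 := by
          refine Finset.sum_le_sum fun m₁ hm₁ => ?_
          calc _ ≤ ∑ _m₂ ∈ Ioc Q (2 * Q), (16 : ℝ) :=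
                Finset.sum_le_sum fun m₂ hm₂ => psi_le (by positivity)
            _ = _ := by rw [Finset.sum_const, nsmul_eq_mul, hcard]
      _ = _ := by rw [Finset.sum_const, nsmul_eq_mul, hcard]
  set D : ℝ := (dt w₁ w₂ : ℝ) with hDdef
  set D' : ℝ := (dt w₁' w₂' : ℝ) with hDdef'
  have hkk : kk Q X w₁ w₂ - kk Q X w₁' w₂' =
      (T1 - T2) / (4 * D) + T2 * ((D' - D) / (4 * (D * D'))) := by
    have e1 : kk Q X w₁ w₂ = 1 / (4 * D) * T1 := rfl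
    have e2 : kk Q X w₁' w₂' = 1 / (4 * D') * T2 := rfl
    rw [e1, e2]
    field_simp
    ring
  rw [hkk]
  refine (abs_add_le _ _).trans ?_
  have b1 : |(T1 - T2) / (4 * D)| ≤ 2 * c2 / δ * (ε₁ * Q) := by
    rw [abs_div, abs_of_pos (by positivity : 0 < 4 * D), div_le_iff₀ (by positivity)]
    refine hdiff.trans ?_
    have : 2 * c2 / δ * (ε₁ * Q) * (4 * (δ * Q)) ≤ 2 * c2 / δ * (ε₁ * Q) * (4 * D) :=
      mul_le_mul_of_nonneg_left (by linarith) (by positivity)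
    refine le_trans (le_of_eq ?_) this
    field_simp
    ring
  have b2 : |T2 * ((D' - D) / (4 * (D * D')))| ≤ 4 * K1 / δ ^ 2 * (ε₁ * Q) := by
    rw [abs_mul, abs_of_nonneg hT20, abs_div, abs_of_pos (by positivity : 0 < 4 * (D * D')),
      abs_sub_comm D' D]
    have a3 : (δ * Q) * (δ * Q) ≤ D * D' := mul_le_mul hD hD' hδQ.le hDp.le
    have a4 : |D - D'| / (4 * (D * D')) ≤ (ε₁ * Q * K1) / (4 * ((δ * Q) * (δ * Q))) :=
      div_le_div₀ (by positivity) hDD (by positivity) (by linarith)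
    refine (mul_le_mul hT2u a4 (by positivity) (by positivity)).trans (le_of_eq ?_)
    field_simp
    ring
  calc _ ≤ 2 * c2 / δ * (ε₁ * Q) + 4 * K1 / δ ^ 2 * (ε₁ * Q) := add_le_add b1 b2
    _ = F * ε₁ * Q := by rw [hF]; ring
    _ ≤ ε * Q := by
        refine mul_le_mul_of_nonneg_right ?_ hQ0.le
        rw [le_div_iff₀ hFp] at he3
        linarith

end Pool.Agent.N912.ED.W131EG
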