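import Pool.Agent.W251.EX.Defs3

/-!
Port (helper912) of `Pool.Agent.W78.EG.Defs` to all imaginary quadratic orders: the class number one
hypothesis is removed from `Fd`, and `PQ` is the set of all primes in `(Q, 2Q]`.

Project EG (helper78): projects EC (helper78) and EX (helper251) for the imaginary quadratic orders
of class number one and fundamental discriminant `-f`: equidistribution modulo `k` of the numbers of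
prime factors of the values of `n^2 + t n + c`. Definitions and statements; everything is a port of
`W78/EC/Defs`, `Defs2`, `Defs4`, `W251/EX/Defs`, `Defs2`, `Defs3` from `Gi = Qd 0 1` to `Qd t c`.
-/

set_option autoImplicit false

namespace Pool.Agent.N912.ED.W78EG

open Finset Filter
open Pool.Agent.H376R2.MR (FK lam)
open Pool.Agent.W78.GA (Qd nm prim dt ip lat cellM mE ps DPG ball pball edge dedge ang Ele kap)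
open Pool.Agent.W78.EC (Rw Tr SL av rs cd dv psi pts)
open Pool.Agent.W251.GX (Cm PF)
open Pool.Agent.W251.EX (GW Tx Ld S_MRG Sv Tm)
open Pool.Agent.H304R3.HK (Lg)

/-- `t^2 - 4c = -f`, a discriminant; `χ` is not used -/
structure Fd (t c : ℤ) (f : ℕ) (χ : DirichletCharacter ℂ f) : Prop where
  tt : t = 0 ∨ t = 1
  disc : 4 * c = t ^ 2 + f
  three : 3 ≤ f

variable {t c : ℤ} {f : ℕ}

/-- PID: every ideal is principal -/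
def S_PID (t c : ℤ) : Prop := IsPrincipalIdealRing (Qd t c)

/-! ### Cones over Farey edges -/

/-- twice the inner product; `nm (v + u) = nm v + pp v u + nm u` -/
def pp (v u : Qd t c) : ℤ := 2 * ip v u + t * dt v u

/-- primitive vectors of norm at most `X` strictly between `a` and `b` -/
noncomputable def cone (X : ℝ) (a b : Qd t c) : Finset (Qd t c) :=
  (pball t c X).filter (fun z => 0 < dt a z ∧ 0 < dt z b)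

open scoped Classical in
/-- the part of the cone with `s₁ X < nm z ≤ s₂ X` -/
noncomputable def cw (X s₁ s₂ : ℝ) (a b : Qd t c) : Finset (Qd t c) :=
  (cone X a b).filter (fun z => s₁ * X < (nm z : ℝ) ∧ (nm z : ℝ) ≤ s₂ * X)

open scoped Classical in
/-- the primes `p` with `Q < p ≤ 2 Q` (`χ` is not used) -/
noncomputable def PQ (_χ : DirichletCharacter ℂ f) (Q : ℕ) : Finset ℕ :=
  (Ioc Q (2 * Q)).filter (fun p => p.Prime ∧ True)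

open scoped Classical in
/-- `log m` if `m` is in `PQ χ Q`, otherwise `0` -/
noncomputable def th (χ : DirichletCharacter ℂ f) (Q : ℕ) (m : ℤ) : ℝ :=
  if 0 < m ∧ m.toNat ∈ PQ χ Q then Real.log m else 0

open scoped Classical in
/-- the Farey edges `(a, b)` at the coarse level `Y = X/(K Q)` with `nm a, nm b > κ Y` -/
noncomputable def good (t c : ℤ) (K : ℕ) (κ : ℝ) (Q : ℕ) (X : ℝ) : Finset (Qd t c × Qd t c) :=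
  (edge t c (X / (K * Q))).filter
    (fun e => κ * (X / (K * Q)) < (nm e.1 : ℝ) ∧ κ * (X / (K * Q)) < (nm e.2 : ℝ))

/-! ### Part P: the prime number theorem -/

/-- `b^Ω(nm z)` -/
noncomputable def bO (b : ℂ) (z : Qd t c) : ℂ := b ^ ArithmeticFunction.cardFactors (nm z)

/-- characters of the multiplicative group modulo `M`, trivial on the units -/
structure HCh (M : ℕ) (φ : Qd t c → ℂ) : Prop where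
  per : ∀ z z' : Qd t c, (M : ℤ) ∣ z.re - z'.re → (M : ℤ) ∣ z.im - z'.im → φ z = φ z'
  mul : ∀ z z' : Qd t c, φ (z * z') = φ z * φ z'
  one : φ 1 = 1
  unit : ∀ u : Qd t c, nm u = 1 → φ u = 1
  ne : ∀ z, φ z ≠ 0 ↔ IsCoprime z (M : Qd t c)

/-- the number of units -/
noncomputable def uc (t c : ℤ) : ℕ := (ball t c 1).card

/-- the coefficients of the L-function: `∑_{nm z = n} φ(z)` divided by the number of units -/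
noncomputable def aL (φ : Qd t c → ℂ) (n : ℕ) : ℂ :=
  (∑ z ∈ (ball t c n).filter (fun z => nm z = n), φ z) / (uc t c : ℂ)

/-- LCON: entire continuation of the L-functions -/
def S_LCON (t c : ℤ) : Prop := ∀ (M : ℕ) (φ : Qd t c → ℂ), 1 ≤ M → HCh M φ →
  ((∃ z, φ z ≠ 0 ∧ φ z ≠ 1) → ∃ g : ℂ → ℂ, Differentiable ℂ g ∧
    ∀ s : ℂ, 1 < s.re → LSeriesSummable (aL φ) s ∧ g s = LSeries (aL φ) s) ∧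
  ((∀ z, φ z ≠ 0 → φ z = 1) → ∃ g : ℂ → ℂ, Differentiable ℂ g ∧ g 1 ≠ 0 ∧
    ∀ s : ℂ, 1 < s.re → LSeriesSummable (aL φ) s ∧ g s = (s - 1) * LSeries (aL φ) s)

/-- LNV: the L-functions do not vanish on the line `Re s = 1` -/
def S_LNV (t c : ℤ) : Prop := ∀ (M : ℕ) (φ : Qd t c → ℂ), 1 ≤ M → HCh M φ → ∀ g : ℂ → ℂ,
  Differentiable ℂ g →
  (∃ z, φ z ≠ 0 ∧ φ z ≠ 1) ∧ (∀ s : ℂ, 1 < s.re → g s = LSeries (aL φ) s) ∨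
  (∀ z, φ z ≠ 0 → φ z = 1) ∧ (∀ s : ℂ, 1 < s.re → g s = (s - 1) * LSeries (aL φ) s) →
  ∀ τ : ℝ, g (1 + τ * Complex.I) ≠ 0

/-- PNTC: the prime number theorem for the characters `φ` -/
def S_PNTC (t c : ℤ) : Prop := ∀ (M : ℕ) (φ : Qd t c → ℂ), 1 ≤ M → HCh M φ →
  ∃ (g : ℕ → ℂ) (δ : ℝ),
  Lg (aL φ) g ∧ (δ = 0 ∨ δ = 1) ∧ Tendsto (fun x : ℝ => (∑ n ∈ Icc 1 ⌊x⌋₊,
    (ArithmeticFunction.vonMangoldt n : ℂ) * g n) / (x : ℂ)) atTop (nhds (δ : ℂ))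

/-- LMX: mean values of `b^Ω` times a character -/
def S_LMX (t c : ℤ) : Prop := ∀ (N : ℕ) (b : ℂ), 1 ≤ N → b ^ N = 1 → b ≠ 1 →
  ∀ (M : ℕ) (φ : Qd t c → ℂ), 1 ≤ M → HCh M φ → ∀ ε : ℝ, 0 < ε → ∃ X₀ : ℝ, ∀ X : ℝ, X₀ ≤ X →
  ‖∑ z ∈ ball t c X, bO b z * φ z‖ ≤ ε * X

/-- aperiodic completely multiplicative functions: mean value `0` on all residue classes -/
structure Apd (N : ℕ) (F : Qd t c → ℂ) : Prop where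
  cm : Cm N F
  mean : ∀ (M : ℕ) (r₁ r₂ : ℤ), 1 ≤ M → ∀ ε : ℝ, 0 < ε → ∃ X₀ : ℝ, ∀ X : ℝ, X₀ ≤ X →
    ‖∑ z ∈ (ball t c X).filter (fun z => (M : ℤ) ∣ z.re - r₁ ∧ (M : ℤ) ∣ z.im - r₂), F z‖ ≤ ε * X

/-- PNTX: `b^Ω` is aperiodic -/
def S_PNTX (t c : ℤ) : Prop := ∀ (N : ℕ) (b : ℂ), 1 ≤ N → b ^ N = 1 → b ≠ 1 →
  Apd N (bO b : Qd t c → ℂ)

/-! ### Part M: Matomaki-Radziwill in residue classes -/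

/-- periodic sets -/
def Per (M : ℕ) (S : Qd t c → Prop) : Prop := ∀ z z' : Qd t c, (M : ℤ) ∣ z.re - z'.re →
  (M : ℤ) ∣ z.im - z'.im → (S z ↔ S z')

open scoped Classical in
/-- `1_S F` -/
noncomputable def FS (S : Qd t c → Prop) (F : Qd t c → ℂ) (z : Qd t c) : ℂ := if S z then F z else 0

/-- MRX: the Matomaki-Radziwill theorem with a general radial weight, in residue classes -/
def S_MRX (t c : ℤ) : Prop := ∀ (N : ℕ) (F : Qd t c → ℂ), Cm N F → ∀ (M : ℕ)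
  (S : Qd t c → Prop), 1 ≤ M →
  Per M S → ∀ (Λ : ℝ) (wt : ℝ → ℝ), Rw Λ wt → ∀ η : ℝ, 0 < η → ∃ h : ℝ, 1 ≤ h ∧ ∃ Y₀ : ℝ,
  ∀ Y : ℝ, Y₀ ≤ Y → ∑ k ∈ (FK ⌊Y / h⌋₊).erase 0, ‖GW wt (FS S F) Y k‖ ^ 2 ≤ η

/-- MW0X: the frequency `0` -/
def S_MW0X (t c : ℤ) : Prop := ∀ (N : ℕ) (F : Qd t c → ℂ), Apd N F → ∀ (M : ℕ)
  (S : Qd t c → Prop), 1 ≤ M →
  Per M S → ∀ (Λ : ℝ) (wt : ℝ → ℝ), Rw Λ wt → ∀ η : ℝ, 0 < η → ∃ Y₀ : ℝ, ∀ Y : ℝ, Y₀ ≤ Y →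
    ‖GW wt (FS S F) Y 0‖ ≤ η

/-- index of the arc of `z` in the division of the circle into `n` equal arcs -/
noncomputable def aix (n : ℕ) (z : Qd t c) : ℤ := ⌊(ang z + Real.pi) * n / (2 * Real.pi)⌋

open scoped Classical in
/-- the sums of `A` over most pieces of thin sectors are small -/
def Mrs (A : Qd t c → ℝ) : Prop := ∀ (M : ℕ) (S : Qd t c → Prop), 1 ≤ M → Per M S →
  ∀ σ : ℝ, 0 < σ →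
  σ < 1 → ∀ ε : ℝ, 0 < ε → ∃ H : ℝ, 1 ≤ H ∧ ∃ X₀ : ℝ, ∀ X : ℝ, X₀ ≤ X → ∀ n : ℕ, 1 ≤ n →
    n * H ≤ X → ∑ j ∈ range (n + 1), |∑ z ∈ (pball t c X).filter
      (fun z => σ * X < (nm z : ℝ) ∧ S z ∧ aix n z = (j : ℤ)), A z| ≤ ε * X

/-- MRSX -/
def S_MRSX (t c : ℤ) : Prop := ∀ (N : ℕ) (F : Qd t c → ℂ), Apd N F →
  Mrs (fun z => (F z).re) ∧ Mrs (fun z => (F z).im)

/-! ### Part B: the bilinear estimate for prime determinants -/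

/-- `(1 + ch χ D b)/(4 φ(D))` is the density of the pairs `m₁, m₂` of primes with `χ = 1` (with weight
`log m₁ log m₂`) with `m₂ ≡ b m₁ mod D` -/
noncomputable def ch (χ : DirichletCharacter ℂ f) (D b : ℕ) : ℝ :=
  if f ∣ D then (χ (b : ZMod f)).re else 0

/-- the error term -/
noncomputable def EE (χ : DirichletCharacter ℂ f) (Q D b x y : ℕ) : ℝ :=
  (∑ m₁ ∈ Ioc Q x, ∑ m₂ ∈ Ioc Q y, if m₂ ≡ b * m₁ [MOD D] then th χ Q m₁ * th χ Q m₂ else 0) -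
    (1 + ch χ D b) / (4 * (Nat.totient D : ℝ)) * ((x : ℝ) - Q) * ((y : ℝ) - Q)

/-- SWC: the sums of primitive characters of small conductor over the primes with `χ = 1` -/
def S_SWC (χ : DirichletCharacter ℂ f) : Prop :=
  (∀ A B : ℕ, ∃ C : ℝ, ∃ Q₀ : ℕ, ∀ Q : ℕ, Q₀ ≤ Q → ∀ x : ℕ, Q ≤ x → x ≤ 2 * Q →
    ∀ q : ℕ, 2 ≤ q → (q : ℝ) ≤ Real.log Q ^ B → ∀ ψ : DirichletCharacter ℂ q,
    ψ.IsPrimitive → (∃ n : ℕ, ψ (n : ZMod q) ≠ χ (n : ZMod f)) →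
    ‖∑ m ∈ Ioc Q x, (th χ Q m : ℂ) * ψ (m : ZMod q)‖ ≤ C * Q / Real.log Q ^ A) ∧
  ∀ A : ℕ, ∃ C : ℝ, ∃ Q₀ : ℕ, ∀ Q : ℕ, Q₀ ≤ Q → ∀ x : ℕ, Q ≤ x → x ≤ 2 * Q →
    |∑ m ∈ Ioc Q x, th χ Q m - ((x : ℝ) - Q)| ≤ C * Q / Real.log Q ^ A

/-- LS4: fourth moment of the sums over primes for primitive characters of large conductor -/
def S_LS4 (χ : DirichletCharacter ℂ f) : Prop := ∀ C₀ A : ℕ, ∃ (B : ℕ) (C : ℝ) (Q₀ : ℕ),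
  ∀ Q : ℕ, Q₀ ≤ Q → ∀ x : ℕ, Q ≤ x →
  x ≤ 2 * Q → ∑ q ∈ (Icc 1 (C₀ * Q)).filter (fun q : ℕ => Real.log Q ^ B < (q : ℝ)),
    1 / (Nat.totient q : ℝ) *
    (open scoped Classical in
      ∑ ψ ∈ (univ : Finset (DirichletCharacter ℂ q)).filter (fun ψ => ψ.IsPrimitive),
      ‖∑ m ∈ Ioc Q x, (th χ Q m : ℂ) * ψ (m : ZMod q)‖ ^ 4) ≤ C * (Q : ℝ) ^ 4 / Real.log Q ^ A

/-- LSV: pairs of primes in residue classes, on average -/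
def S_LSV (χ : DirichletCharacter ℂ f) : Prop := ∀ C₀ A : ℕ, ∃ C : ℝ, ∃ Q₀ : ℕ, ∀ Q : ℕ, Q₀ ≤ Q →
  ∀ x y : ℕ, Q ≤ x → x ≤ 2 * Q →
  Q ≤ y → y ≤ 2 * Q → ∑ D ∈ Icc 1 (C₀ * Q), ∑ b ∈ (range D).filter (fun b => Nat.Coprime b D),
    |EE χ Q D b x y| ≤ C * (Q : ℝ) ^ 3 / Real.log Q ^ A

/-- `∑_v psi(nm v/X) θ(dt v w₁) θ(dt v w₂)` -/
noncomputable def Gv (χ : DirichletCharacter ℂ f) (Q : ℕ) (X : ℝ) (w₁ w₂ : Qd t c) : ℝ :=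
  ∑ v ∈ ball t c (4 * X), psi (nm v / X) * th χ Q (dt v w₁) * th χ Q (dt v w₂)

open scoped Classical in
/-- value of `ch` for the pair `w₁, w₂` -/
noncomputable def xi (χ : DirichletCharacter ℂ f) (w₁ w₂ : Qd t c) : ℝ :=
  if (f : ℤ) ∣ dt w₁ w₂ then
    (if ∃ b : ℕ, χ (b : ZMod f) = 1 ∧ (f : ℤ) ∣ w₂.re - b * w₁.re ∧ (f : ℤ) ∣ w₂.im - b * w₁.im
      then 1 else -1) else 0

/-- main term of `Gv`, if `dt w₁ w₂ > 0` -/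
noncomputable def G0 (χ : DirichletCharacter ℂ f) (Q : ℕ) (X : ℝ) (w₁ w₂ : Qd t c) : ℝ :=
  (1 + xi χ w₁ w₂) / (4 * (Nat.totient (dt w₁ w₂).toNat : ℝ)) *
    ∑ m₁ ∈ Ioc Q (2 * Q), ∑ m₂ ∈ Ioc Q (2 * Q),
      psi (nm ((m₂ : Qd t c) * w₁ - (m₁ : Qd t c) * w₂) / ((dt w₁ w₂ : ℝ) ^ 2 * X))

/-- GVL: `Gv` as a sum over pairs of integers -/
def S_GVL (t c : ℤ) (χ : DirichletCharacter ℂ f) : Prop := ∀ (Q : ℕ) (X : ℝ) (w₁ w₂ : Qd t c),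
  1 ≤ X → prim w₁ → prim w₂ → 0 < dt w₁ w₂ →
  ∃ b : ℕ, b < (dt w₁ w₂).toNat ∧ Nat.Coprime b (dt w₁ w₂).toNat ∧
    dt w₁ w₂ ∣ w₂.re - b * w₁.re ∧ dt w₁ w₂ ∣ w₂.im - b * w₁.im ∧
    xi χ w₁ w₂ = ch χ (dt w₁ w₂).toNat b ∧
    Gv χ Q X w₁ w₂ = ∑ m₁ ∈ Ioc Q (2 * Q), ∑ m₂ ∈ Ioc Q (2 * Q),
      (if m₂ ≡ b * m₁ [MOD (dt w₁ w₂).toNat] then th χ Q m₁ * th χ Q m₂ else 0) *
      psi (nm ((m₂ : Qd t c) * w₁ - (m₁ : Qd t c) * w₂) / ((dt w₁ w₂ : ℝ) ^ 2 * X))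

/-- PSID: differences of the weight -/
def S_PSID (t c : ℤ) : Prop := ∃ C : ℝ, 0 < C ∧ ∀ (Q : ℕ) (X L : ℝ) (w₁ w₂ : Qd t c), 1 ≤ Q →
  1 ≤ X → 1 ≤ L →
  (nm w₁ : ℝ) ≤ X → (nm w₂ : ℝ) ≤ X → (Q : ℝ) / L ≤ (dt w₁ w₂ : ℝ) → ∀ Ψ : ℕ → ℕ → ℝ,
  (∀ m₁ m₂, Ψ m₁ m₂ =
    psi (nm ((m₂ : Qd t c) * w₁ - (m₁ : Qd t c) * w₂) / ((dt w₁ w₂ : ℝ) ^ 2 * X))) →
  ∀ m n, m ∈ Ioc Q (2 * Q) → n ∈ Ioc Q (2 * Q) → |Ψ m n| ≤ C * L ^ 4 ∧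
    |Ψ (m + 1) n - Ψ m n| ≤ C * L ^ 4 / Q ∧ |Ψ m (n + 1) - Ψ m n| ≤ C * L ^ 4 / Q ∧
    |Ψ (m + 1) (n + 1) - Ψ (m + 1) n - Ψ m (n + 1) + Ψ m n| ≤ C * L ^ 4 / (Q : ℝ) ^ 2

open scoped Classical in
/-- MULT: multiplicity of the pair `(D, b)` -/
def S_MULT (t c : ℤ) (f : ℕ) : Prop := ∀ (K : ℕ) (κ : ℝ) (Q : ℕ) (X : ℝ) (D : ℕ) (b : ℤ), 1 ≤ K →
  0 < κ → 1 ≤ Q → f * (K * Q : ℝ) ≤ X → 1 ≤ D → ∀ e ∈ good t c K κ Q X,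
  (((cone X e.1 e.2 ×ˢ cone X e.1 e.2).filter (fun w => dt w.1 w.2 = D ∧
    (D : ℤ) ∣ w.2.re - b * w.1.re ∧ (D : ℤ) ∣ w.2.im - b * w.1.im)).card : ℝ) ≤
    (4 * (K * Q / κ) / D + 1) ^ 4

/-- DTB: the determinants in a cone over a good edge are bounded, and so is the number of points -/
def S_DTB (t c : ℤ) (f : ℕ) : Prop := ∀ (K : ℕ) (κ : ℝ) (Q : ℕ) (X : ℝ), 1 ≤ K → 0 < κ → 1 ≤ Q →
  f * (K * Q : ℝ) ≤ X → ∀ e ∈ good t c K κ Q X,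
    ((cone X e.1 e.2).card : ℝ) ≤ 4 * (K * Q / κ + 1) ∧
    ∀ v ∈ cone X e.1 e.2, ∃ x y : ℕ, 1 ≤ x ∧ 1 ≤ y ∧ (x : ℝ) ^ 2 ≤ K * Q / κ ∧
      (y : ℝ) ^ 2 ≤ K * Q / κ ∧ v = (x : Qd t c) * e.1 + (y : Qd t c) * e.2

/-- LN: few points on a line -/
def S_LN (t c : ℤ) : Prop := ∀ s : ℝ, 0 < s → ∃ C : ℕ, ∀ (X : ℝ) (w : Qd t c) (m : ℤ), 1 ≤ X →
  prim w → s * X < (nm w : ℝ) → ((ball t c (4 * X)).filter (fun z => dt w z = m)).card ≤ C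

/-- JB: bound for the main term -/
def S_JB (t c : ℤ) (χ : DirichletCharacter ℂ f) : Prop := ∀ s : ℝ, 0 < s → ∃ C : ℝ,
  ∀ (Q : ℕ) (X : ℝ) (w₁ w₂ : Qd t c), 1 ≤ Q → 1 ≤ X →
  s * X < (nm w₁ : ℝ) → (nm w₁ : ℝ) ≤ X → s * X < (nm w₂ : ℝ) → (nm w₂ : ℝ) ≤ X → 0 < dt w₁ w₂ →
  |G0 χ Q X w₁ w₂| ≤ C * Q * ((dt w₁ w₂ : ℝ) / (Nat.totient (dt w₁ w₂).toNat : ℝ))

/-- the smooth part of `G0` -/
noncomputable def kk (Q : ℕ) (X : ℝ) (w₁ w₂ : Qd t c) : ℝ :=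
  1 / (4 * (dt w₁ w₂ : ℝ)) * ∑ m₁ ∈ Ioc Q (2 * Q), ∑ m₂ ∈ Ioc Q (2 * Q),
      psi (nm ((m₂ : Qd t c) * w₁ - (m₁ : Qd t c) * w₂) / ((dt w₁ w₂ : ℝ) ^ 2 * X))

/-- JV: `kk` is almost constant on small cells -/
def S_JV (t c : ℤ) : Prop := ∀ (C₀ s δ ε : ℝ), 0 < C₀ → 0 < s → 0 < δ → 0 < ε →
  ∃ ε₁ : ℝ, 0 < ε₁ ∧ ∀ (Q : ℕ)
  (X : ℝ) (w₁ w₂ w₁' w₂' : Qd t c), 1 ≤ Q → 1 ≤ ε₁ * X → Q ≤ ε₁ * X →
  (∀ w ∈ ({w₁, w₂, w₁', w₂'} : Set (Qd t c)), s * X < (nm w : ℝ) ∧ (nm w : ℝ) ≤ X) →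
  δ * Q ≤ (dt w₁ w₂ : ℝ) → (dt w₁ w₂ : ℝ) ≤ C₀ * Q → δ * Q ≤ (dt w₁' w₂' : ℝ) →
  (dt w₁' w₂' : ℝ) ≤ C₀ * Q → |(nm w₁ : ℝ) - nm w₁'| ≤ ε₁ * X → |(nm w₂ : ℝ) - nm w₂'| ≤ ε₁ * X →
  0 < pp w₁ w₂ → 0 < pp w₁' w₂' →
  |ang w₁ - ang w₁'| ≤ ε₁ * Q / X → |ang w₂ - ang w₂'| ≤ ε₁ * Q / X →
  |kk Q X w₁ w₂ - kk Q X w₁' w₂'| ≤ ε * Q

open scoped Classical in
/-- GG0: `Gv = G0` on average over the pairs in a cone -/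
def S_GG0 (t c : ℤ) (χ : DirichletCharacter ℂ f) : Prop := ∀ (K : ℕ) (κ s₁ ε : ℝ), 1 ≤ K →
  0 < κ → 0 < s₁ → 0 < ε → ∃ Q₀ : ℕ, ∀ Q : ℕ,
  Q₀ ≤ Q → ∀ X : ℝ, f * (K * Q : ℝ) ≤ X → ∀ e ∈ good t c K κ Q X,
    (∑ w₁ ∈ cw X s₁ 1 e.1 e.2, ∑ w₂ ∈ cw X s₁ 1 e.1 e.2,
      if (Q : ℝ) / Real.log Q ^ 3 ≤ (dt w₁ w₂ : ℝ) then |Gv χ Q X w₁ w₂ - G0 χ Q X w₁ w₂| else 0) ≤
      ε * (Q : ℝ) ^ 3

open scoped Classical in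
/-- the main term, compare `W251.EX.Btm` -/
def Btm (χ : DirichletCharacter ℂ f) (A : Qd t c → ℝ) : Prop := ∀ (K : ℕ) (κ s₁ s₂ ε : ℝ), 1 ≤ K →
  0 < κ → 0 < s₁ → s₁ < s₂ →
  s₂ ≤ 1 → 0 < ε → ∃ Q₀ : ℕ, ∀ Q : ℕ, Q₀ ≤ Q → ∃ X₀ : ℝ, ∀ X : ℝ, X₀ ≤ X →
    |∑ e ∈ good t c K κ Q X, ∑ w₁ ∈ cw X s₁ s₂ e.1 e.2, ∑ w₂ ∈ cw X s₁ s₂ e.1 e.2,
      if (Q : ℝ) / Real.log Q ^ 3 ≤ (dt w₁ w₂ : ℝ) then A w₁ * A w₂ * G0 χ Q X w₁ w₂ else 0| ≤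
      ε * X * (Q : ℝ) ^ 2

/-- the bilinear estimate, compare `W251.EX.Bt` -/
def Bt (χ : DirichletCharacter ℂ f) (A : Qd t c → ℝ) : Prop := ∀ (K : ℕ) (κ s s₁ s₂ ε : ℝ),
  1 ≤ K → 0 < κ → 0 < s → 0 < s₁ →
  s₁ < s₂ → s₂ ≤ 1 → 0 < ε → ∃ Q₀ : ℕ, ∀ Q : ℕ, Q₀ ≤ Q → ∃ X₀ : ℝ, ∀ X : ℝ, X₀ ≤ X →
    ∀ α : Qd t c → ℝ, (∀ z, |α z| ≤ 1) → (∀ z, α z ≠ 0 → s * X < (nm z : ℝ)) →
    |∑ e ∈ good t c K κ Q X, ∑ v ∈ cone X e.1 e.2, ∑ w ∈ cw X s₁ s₂ e.1 e.2,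
      α v * A w * th χ Q (dt v w)| ≤ ε * X * Q

/-- BTMX -/
def S_BTMX (t c : ℤ) (χ : DirichletCharacter ℂ f) : Prop := ∀ A : Qd t c → ℝ, (∀ z, |A z| ≤ 1) →
  Mrs A → Btm χ A

/-- BTX -/
def S_BTX (t c : ℤ) (χ : DirichletCharacter ℂ f) : Prop := ∀ A : Qd t c → ℝ, (∀ z, |A z| ≤ 1) →
  Btm χ A → Bt χ A

/-! ### Part D: decoupling by the entropy decrement method -/

/-- the tree of the vectors of norm at most `X` in the cone over `(a, b)`, cut off at depth `n` -/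
noncomputable def tr {A : Type} (lab : Qd t c → A) (X : ℝ) : ℕ → Qd t c → Qd t c → Tr A
  | 0, _, _ => .leaf
  | n + 1, a, b => if (nm (a + b) : ℝ) ≤ X then
      .node (lab (a + b)) (tr lab X n a (a + b)) (tr lab X n (a + b) b) else .leaf

/-- the whole tree -/
noncomputable def TT {A : Type} (lab : Qd t c → A) (X : ℝ) (e : Qd t c × Qd t c) : Tr A :=
  tr lab X (⌊X⌋₊ + 1) e.1 e.2

/-- the residues of an edge -/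
def res (p : ℕ) (e : Qd t c × Qd t c) : ℕ × ℕ × ℕ × ℕ :=
  (rs p e.1.re, rs p e.1.im, rs p e.2.re, rs p e.2.im)

/-- the edges at the leaves of a tree -/
def lv {A : Type} : Tr A → Qd t c → Qd t c → List (Qd t c × Qd t c)
  | .leaf, a, b => [(a, b)]
  | .node _ l r, a, b => lv l a (a + b) ++ lv r (a + b) b

/-- TREE: structure of the trees -/
def S_TREE (t c : ℤ) (f : ℕ) : Prop := ∀ A : Type,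
  (∀ (lab : Qd t c → A) (Y Y' : ℝ) (e : Qd t c × Qd t c), f ≤ Y → Y ≤ Y' → e ∈ edge t c Y →
    (lv (TT lab Y' e) e.1 e.2).Nodup ∧ (∀ g ∈ lv (TT lab Y' e) e.1 e.2, g ∈ edge t c Y') ∧
    (TT lab Y' e).size + 1 = (lv (TT lab Y' e) e.1 e.2).length) ∧
  (∀ (lab : Qd t c → A) (Y Y' : ℝ), f ≤ Y → Y ≤ Y' → ∀ g ∈ edge t c Y', ∃! e : Qd t c × Qd t c,
    e ∈ edge t c Y ∧ g ∈ lv (TT lab Y' e) e.1 e.2) ∧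
  (∃ Φ : Tr A → List (Tr A) → Tr A, ∀ (lab : Qd t c → A) (Y Y' X : ℝ) (e : Qd t c × Qd t c),
    f ≤ Y → Y ≤ Y' → Y' ≤ X → e ∈ edge t c Y →
    TT lab X e = Φ (TT lab Y' e) ((lv (TT lab Y' e) e.1 e.2).map (TT lab X))) ∧
  (∃ Ψ : Tr A → ℕ → ℕ → ℕ × ℕ × ℕ × ℕ → ℕ × ℕ × ℕ × ℕ, ∀ (T : Tr A) (e g : Qd t c × Qd t c)
    (j p : ℕ), 1 ≤ p → (lv T e.1 e.2)[j]? = some g → res p g = Ψ T j p (res p e))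

/-- ECNT: the number of Farey edges -/
def S_ECNT (t c : ℤ) : Prop := ∃ c₁ C Y₀ : ℝ, 0 < c₁ ∧ ∀ Y : ℝ, Y₀ ≤ Y →
  c₁ * Y ≤ ((edge t c Y).card : ℝ) ∧ ((edge t c Y).card : ℝ) ≤ C * Y

/-- PCNT: the number of primes -/
def S_PCNT (χ : DirichletCharacter ℂ f) : Prop := ∃ c₁ C : ℝ, 0 < c₁ ∧ ∃ Q₀ : ℕ, ∀ Q : ℕ, Q₀ ≤ Q →
  c₁ * Q / Real.log Q ≤ ((PQ χ Q).card : ℝ) ∧ ((PQ χ Q).card : ℝ) ≤ C * Q / Real.log Q ∧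
  c₁ * Q ≤ ∑ p ∈ PQ χ Q, Real.log p ∧ ∑ p ∈ PQ χ Q, Real.log p ≤ C * Q

open scoped Classical in
/-- RESC: upper bound for the number of edges with given residues -/
def S_RESC (t c : ℤ) : Prop := ∃ C : ℝ, 0 < C ∧ ∀ P : Finset ℕ, (∀ p ∈ P, p.Prime) → ∃ Y₀ : ℝ,
  ∀ Y : ℝ, Y₀ ≤ Y → ∀ y : ℕ → ℕ × ℕ × ℕ × ℕ,
    (((edge t c Y).filter (fun e => ∀ p ∈ P, res p e = y p)).card : ℝ) ≤
      C * Y / ∏ p ∈ P, ((SL p).card : ℝ)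

/-- DCP: decoupling. For some `Q` in a bounded range, functions of the tree and of the residues
modulo `p`, `p ∈ PQ χ Q`, may be replaced by their averages over the residues. -/
def S_DCP (t c : ℤ) (χ : DirichletCharacter ℂ f) : Prop := ∀ (A : Type) [Fintype A] (K : ℕ)
  (B ε : ℝ), 1 ≤ K → 0 < ε → ∀ Q₁ : ℕ,
  ∃ Q₂ X₀ N₀ : ℕ, ∀ N : ℕ, N₀ ≤ N → ∀ lab : ℕ → Qd t c → A, ∃ Q : ℕ, Q₁ ≤ Q ∧ Q ≤ Q₂ ∧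
    ∀ ζ : ℕ → Tr A → ℕ × ℕ × ℕ × ℕ → ℝ, (∀ p T y, |ζ p T y| ≤ B) →
    ∑ X ∈ Ioc X₀ N, 1 / (X : ℝ) ^ 2 * ∑ e ∈ edge t c ((X : ℝ) / (K * Q)),
      |∑ p ∈ PQ χ Q, Real.log p *
        (ζ p (TT (lab X) X e) (res p e) - av p (ζ p) (TT (lab X) X e))| ≤ ε * Real.log N

/-! ### Part F: dilation by prime elements -/

/-- the pair is in the cone over a good edge after multiplication by `π` -/
def InG (K : ℕ) (κ : ℝ) (Q : ℕ) (X : ℝ) (π : Qd t c) (e : Qd t c × Qd t c) : Prop :=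
  ∃ g ∈ good t c K κ Q X, π * e.1 ∈ cone X g.1 g.2 ∧ π * e.2 ∈ cone X g.1 g.2

open scoped Classical in
/-- LOSS: few pairs of determinant `1` with positive inner product do not lie in the cone over a good
edge after multiplication by a prime element `π` of norm `p` -/
def S_LOSS (t c : ℤ) (χ : DirichletCharacter ℂ f) : Prop := ∀ s ε : ℝ, 0 < s → 0 < ε →
  ∃ K₀ : ℕ, ∀ K : ℕ, K₀ ≤ K → ∃ κ₀ : ℝ, 0 < κ₀ ∧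
  ∀ κ : ℝ, 0 < κ → κ ≤ κ₀ → ∃ Q₀ : ℕ, ∀ Q : ℕ, Q₀ ≤ Q → ∃ X₀ : ℝ, ∀ X : ℝ, X₀ ≤ X →
    ∀ p ∈ PQ χ Q, ∀ π : Qd t c, nm π = p →
    (((dedge t c (X / p)).filter (fun e => 0 < pp e.1 e.2 ∧ s * (X / p) < (nm e.1 : ℝ) ∧
      s * (X / p) < (nm e.2 : ℝ) ∧ ¬ InG K κ Q X π e)).card : ℝ) ≤ ε * (X / p)

open scoped Classical in
/-- BIJ: the pairs of determinant `p` of vectors divisible by `π` in the cones -/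
def S_BIJ (t c : ℤ) (χ : DirichletCharacter ℂ f) : Prop := ∀ (K : ℕ) (κ : ℝ) (Q : ℕ) (X : ℝ)
  (p : ℕ) (π : Qd t c) (r : ℤ) (u v : Qd t c → ℝ),
  1 ≤ K → 0 < κ → 1 ≤ Q → f * (K * Q : ℝ) ≤ X → p ∈ PQ χ Q → nm π = p → lat p r π →
  (p : ℤ) ∣ r ^ 2 - t * r + c →
  ∑ e ∈ good t c K κ Q X, ∑ v' ∈ cone X e.1 e.2, ∑ w' ∈ cone X e.1 e.2,
    (if dt v' w' = p ∧ lat p r v' then u v' * v w' else 0) =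
  ∑ e ∈ (dedge t c (X / p)).filter (InG K κ Q X π), u (π * e.1) * v (π * e.2)

/-- PTS: the points of the tree are the vectors of the cone -/
def S_PTS (t c : ℤ) (f : ℕ) : Prop := ∀ (A : Type) (lab : Qd t c → A) (Y X : ℝ)
  (e : Qd t c × Qd t c) (F : ℕ × ℕ → A → ℝ)
  (F' : Qd t c → ℝ), f ≤ Y → Y ≤ X → e ∈ edge t c Y →
  (∀ x : ℕ × ℕ, F' ((x.1 : Qd t c) * e.1 + (x.2 : Qd t c) * e.2) =
    F x (lab ((x.1 : Qd t c) * e.1 + (x.2 : Qd t c) * e.2))) →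
  ((pts (TT lab X e) (1, 0) (0, 1)).map (fun q => F q.1 q.2)).sum = ∑ z ∈ cone X e.1 e.2, F' z

/-- BDD: few pairs of determinant `p` with the divisibility condition in a box -/
def S_BDD : Prop := ∀ C₀ : ℕ, ∃ B : ℕ, ∀ (Q p : ℕ) (r : ℤ) (y : ℕ × ℕ × ℕ × ℕ) (R : ℕ), p.Prime →
  Q < p → p ≤ 2 * Q → R ^ 2 ≤ C₀ * Q → y ∈ SL p →
  (((range (R + 1) ×ˢ range (R + 1)) ×ˢ (range (R + 1) ×ˢ range (R + 1))).filter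
    (fun q => cd q.1 q.2 = p ∧ dv p r y q.1 ∧ dv p r y q.2)).card ≤ B

open scoped Classical in
/-- pairs of determinant `1` with positive inner product and norms in given windows, weighted by
`g` -/
noncomputable def AG (g : Qd t c × Qd t c → ℂ) (s₁ s₂ s₃ s₄ : ℝ) (X : ℝ) : ℂ :=
  ∑ e ∈ (dedge t c X).filter (fun e => 0 < pp e.1 e.2 ∧ s₁ * X < (nm e.1 : ℝ) ∧
    (nm e.1 : ℝ) ≤ s₂ * X ∧ s₃ * X < (nm e.2 : ℝ) ∧ (nm e.2 : ℝ) ≤ s₄ * X), g e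

/-- DILX: invariance under dilation of the logarithmic average -/
def S_DILX (t c : ℤ) : Prop := ∀ g : Qd t c × Qd t c → ℂ, (∀ e, ‖g e‖ ≤ 1) →
  ∀ (s₁ s₂ s₃ s₄ : ℝ), 0 < s₁ →
  s₁ < s₂ → s₂ ≤ 1 → 0 < s₃ → s₃ < s₄ → s₄ ≤ 1 → ∃ C : ℝ, ∀ p N : ℕ, 1 ≤ p → 1 ≤ N →
    ‖∑ X ∈ Icc 1 N, (((p : ℝ) / (X : ℝ) ^ 2 : ℝ) : ℂ) * AG g s₁ s₂ s₃ s₄ ((X : ℝ) / p) -
      ∑ X ∈ Icc 1 N, ((1 / (X : ℝ) ^ 2 : ℝ) : ℂ) * AG g s₁ s₂ s₃ s₄ X‖ ≤ C * (1 + Real.log p)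

/-- ZX: the functions on the trees. `d₁`, `d₂` are functions of the labels; `ζ₁ + i ζ₂` is the sum of
`d₁(v) d₂(w)` over the pairs of determinant `p` divisible by a prime element of norm `p` -/
def S_ZX (t c : ℤ) (χ : DirichletCharacter ℂ f) : Prop := ∀ (K : ℕ) (κ : ℝ), 1 ≤ K → 0 < κ →
  ∃ B : ℝ, ∀ Q : ℕ, (K : ℝ) / κ < Q →
  ∀ (A : Type) (d₁ d₂ : A → ℂ), (∀ a, ‖d₁ a‖ ≤ 1) → (∀ a, ‖d₂ a‖ ≤ 1) → ∀ r : ℕ → ℤ,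
  ∃ ζ₁ ζ₂ : ℕ → Tr A → ℕ × ℕ × ℕ × ℕ → ℝ, (∀ p T y, |ζ₁ p T y| ≤ B ∧ |ζ₂ p T y| ≤ B) ∧
  ∀ (lab : Qd t c → A) (X : ℝ), f * (K * Q : ℝ) ≤ X → ∀ e ∈ good t c K κ Q X, ∀ p ∈ PQ χ Q,
  (((ζ₁ p (TT lab X e) (res p e) : ℝ) : ℂ) + Complex.I * ((ζ₂ p (TT lab X e) (res p e) : ℝ) : ℂ) =
    (((p : ℝ) + 1) / (2 * Q) : ℝ) * ∑ z ∈ cone X e.1 e.2, ∑ w ∈ cone X e.1 e.2,
      (open scoped Classical in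
        if dt z w = p ∧ lat p (r p) z then d₁ (lab z) * d₂ (lab w) else 0)) ∧
  (((av p (ζ₁ p) (TT lab X e) : ℝ) : ℂ) + Complex.I * ((av p (ζ₂ p) (TT lab X e) : ℝ) : ℂ) =
    (1 / (2 * (Q : ℝ)) : ℝ) * ∑ z ∈ cone X e.1 e.2, ∑ w ∈ cone X e.1 e.2,
      (if dt z w = p then d₁ (lab z) * d₂ (lab w) else 0))

open scoped Classical in
/-- PERX: the estimate for fixed `X` -/
def S_PERX (t c : ℤ) (χ : DirichletCharacter ℂ f) : Prop := ∀ (K : ℕ) (κ : ℝ) (Q : ℕ) (X : ℝ)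
  (A : Type) (d₁ d₂ : A → ℂ) (lab : Qd t c → A)
  (ϖ : ℕ → Qd t c) (r : ℕ → ℤ) (ζ₁ ζ₂ : ℕ → Tr A → ℕ × ℕ × ℕ × ℕ → ℝ), 1 ≤ K → 0 < κ → 1 ≤ Q →
  f * (K * Q : ℝ) ≤ X →
  (∀ p ∈ PQ χ Q, nm (ϖ p) = p ∧ lat p (r p) (ϖ p) ∧ (p : ℤ) ∣ r p ^ 2 - t * r p + c) →
  (∀ e ∈ good t c K κ Q X, ∀ p ∈ PQ χ Q,
    (((ζ₁ p (TT lab X e) (res p e) : ℝ) : ℂ) + Complex.I * ((ζ₂ p (TT lab X e) (res p e) : ℝ) : ℂ) =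
      (((p : ℝ) + 1) / (2 * Q) : ℝ) * ∑ z ∈ cone X e.1 e.2, ∑ w ∈ cone X e.1 e.2,
        (if dt z w = p ∧ lat p (r p) z then d₁ (lab z) * d₂ (lab w) else 0)) ∧
    (((av p (ζ₁ p) (TT lab X e) : ℝ) : ℂ) + Complex.I * ((av p (ζ₂ p) (TT lab X e) : ℝ) : ℂ) =
      (1 / (2 * (Q : ℝ)) : ℝ) * ∑ z ∈ cone X e.1 e.2, ∑ w ∈ cone X e.1 e.2,
        (if dt z w = p then d₁ (lab z) * d₂ (lab w) else 0))) →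
  ‖∑ p ∈ PQ χ Q, ((Real.log p * ((p : ℝ) + 1) : ℝ) : ℂ) *
      ∑ e ∈ (dedge t c (X / p)).filter (InG K κ Q X (ϖ p)),
        d₁ (lab (ϖ p * e.1)) * d₂ (lab (ϖ p * e.2))‖ ≤
    2 * Q * ∑ e ∈ edge t c (X / (K * Q)),
      (|∑ p ∈ PQ χ Q, Real.log p * (ζ₁ p (TT lab X e) (res p e) - av p (ζ₁ p) (TT lab X e))| +
        |∑ p ∈ PQ χ Q, Real.log p * (ζ₂ p (TT lab X e) (res p e) - av p (ζ₂ p) (TT lab X e))|) +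
    ‖∑ e ∈ good t c K κ Q X, ∑ v ∈ cone X e.1 e.2, ∑ w ∈ cone X e.1 e.2,
      d₁ (lab v) * d₂ (lab w) * (th χ Q (dt v w) : ℂ)‖

/-- the hypotheses on the two functions; `F₁(π) F₂(π) = τ` for the elements of prime norm -/
structure Pr (N : ℕ) (τ : ℂ) (F₁ F₂ : Qd t c → ℂ) : Prop where
  cm₁ : Cm N F₁
  cm₂ : Cm N F₂
  tw : ∀ π : Qd t c, (nm π).Prime → F₁ π * F₂ π = τ

/-- relations between residue classes which are invariant under dilation -/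
structure Rel (q : ℕ) (R : Qd t c → Qd t c → Prop) : Prop where
  per : ∀ v w v' w' : Qd t c, (q : ℤ) ∣ v.re - v'.re → (q : ℤ) ∣ v.im - v'.im →
    (q : ℤ) ∣ w.re - w'.re → (q : ℤ) ∣ w.im - w'.im → (R v w ↔ R v' w')
  dil : ∀ π v w : Qd t c, Nat.Coprime (nm π) q → (R (π * v) (π * w) ↔ R v w)

open scoped Classical in
/-- the function `A` on the residue class of `β` -/
noncomputable def cl (q : ℕ) (β : Qd t c) (A : Qd t c → ℝ) (z : Qd t c) : ℝ :=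
  if (q : ℤ) ∣ z.re - β.re ∧ (q : ℤ) ∣ z.im - β.im then A z else 0

open scoped Classical in
/-- `F₁(v) F₂(w)` for the pairs `v, w` with `R v w` -/
noncomputable def g2 (F₁ F₂ : Qd t c → ℂ) (R : Qd t c → Qd t c → Prop) (e : Qd t c × Qd t c) : ℂ :=
  if R e.1 e.2 then F₁ e.1 * F₂ e.2 else 0

/-- MAINX: the logarithmic average is small -/
def S_MAINX (t c : ℤ) (χ : DirichletCharacter ℂ f) : Prop := ∀ (N : ℕ) (τ : ℂ)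
  (F₁ F₂ : Qd t c → ℂ), Pr N τ F₁ F₂ → ∀ q : ℕ, 1 ≤ q →
  (∀ β : Qd t c, Bt χ (cl q β (fun z => (F₂ z).re)) ∧ Bt χ (cl q β (fun z => (F₂ z).im))) →
  ∀ R : Qd t c → Qd t c → Prop, Rel q R → ∀ (s₁ s₂ s₃ s₄ : ℝ), 0 < s₁ → s₁ < s₂ → s₂ ≤ 1 →
  0 < s₃ → s₃ < s₄ → s₄ ≤ 1 → ∀ ε : ℝ, 0 < ε → ∃ N₀ : ℕ, ∀ N' : ℕ, N₀ ≤ N' →
    ‖∑ X ∈ Icc 1 N', ((1 / (X : ℝ) ^ 2 : ℝ) : ℂ) * AG (g2 F₁ F₂ R) s₁ s₂ s₃ s₄ X‖ ≤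
      ε * Real.log N'

/-! ### From pairs of vectors to the values of `n^2 + t n + c` -/

open scoped Classical in
/-- the pairs `(d, d')` of positive integers at most `N` such that `d d' = n^2 + t n + c`,
`2 n + t > 0` -/
noncomputable def SP (t c : ℤ) (N : ℕ) : Finset (ℕ × ℕ) :=
  ((Icc 1 N) ×ˢ (Icc 1 N)).filter
    (fun p => ∃ n : ℕ, 0 < 2 * (n : ℤ) + t ∧ (p.1 * p.2 : ℤ) = (n : ℤ) ^ 2 + t * n + c)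

/-- `n^2 + t n + c` as a natural number -/
def fv (t c : ℤ) (n : ℕ) : ℕ := ((n : ℤ) ^ 2 + t * n + c).toNat

/-- the weight `∑_{d d' = n^2+tn+c} 1/max(d,d')` -/
noncomputable def wn (t c : ℤ) (n : ℕ) : ℝ := ∑ d ∈ Nat.divisors (fv t c n),
  1 / ((max d (fv t c n / d) : ℕ) : ℝ)

open scoped Classical in
/-- SCNT: number of pairs in a box -/
def S_SCNT (t c : ℤ) : Prop := ∃ C : ℝ, ∀ m M : ℕ, 1 ≤ m → m ≤ M →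
  ((((Icc 1 m) ×ˢ (Icc 1 M)).filter (fun p => ∃ n : ℕ, 0 < 2 * (n : ℤ) + t ∧
    (p.1 * p.2 : ℤ) = (n : ℤ) ^ 2 + t * n + c)).card : ℝ) ≤ C * Real.sqrt (m * M)

open scoped Classical in
/-- CORR: every factorisation `d d' = n^2+tn+c`, `2n+t > 0`, comes from exactly `uc t c` pairs of
determinant `1` -/
def S_CORR (t c : ℤ) : Prop := ∀ (X : ℝ) (F : ℕ → ℕ → ℝ), 1 ≤ X →
  ∑ e ∈ (dedge t c X).filter (fun e => 0 < pp e.1 e.2), F (nm e.1) (nm e.2) =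
    uc t c * ∑ p ∈ SP t c ⌊X⌋₊, F p.1 p.2

/-- FINX: logarithmic means over the pairs -/
def S_FINX (t c : ℤ) : Prop := ∀ F : ℕ → ℕ → ℂ, (∀ a b, ‖F a b‖ ≤ 1) →
  (∀ s : ℝ, 0 < s → s < 1 → ∀ ε : ℝ, 0 < ε → ∃ N₀ : ℕ, ∀ N : ℕ, N₀ ≤ N →
    ‖∑ X ∈ Icc 1 N, ((1 / (X : ℝ) ^ 2 : ℝ) : ℂ) *
      AG (fun e : Qd t c × Qd t c => F (nm e.1) (nm e.2)) s 1 s 1 X‖ ≤ ε * Real.log N) →
  Tendsto (fun N : ℕ => (∑ p ∈ SP t c N, F p.1 p.2 / ((max p.1 p.2 : ℕ) : ℂ)) / (Real.log N : ℂ))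
    atTop (nhds 0)

/-- `n ≡ a` and `d ≡ r mod q`, where `d d' = n^2+tn+c` -/
def Cd (t c : ℤ) (q a r : ℕ) (p : ℕ × ℕ) : Prop := ∃ n : ℕ, 0 < 2 * (n : ℤ) + t ∧
  (p.1 * p.2 : ℤ) = (n : ℤ) ^ 2 + t * n + c ∧ n ≡ a [MOD q] ∧ p.1 ≡ r [MOD q]

open scoped Classical in
/-- CHR: the means of `b₁^Ω(d) b₂^Ω(d')` -/
def S_CHR (t c : ℤ) : Prop := ∀ (k : ℕ) (b₁ b₂ : ℂ), 1 ≤ k → b₁ ^ k = 1 → b₂ ^ k = 1 →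
  (b₁ ≠ 1 ∨ b₂ ≠ 1) →
  ∀ q a r : ℕ, 1 ≤ q → Tendsto (fun N : ℕ => (∑ p ∈ (SP t c N).filter (Cd t c q a r),
    b₁ ^ ArithmeticFunction.cardFactors p.1 * b₂ ^ ArithmeticFunction.cardFactors p.2 /
      ((max p.1 p.2 : ℕ) : ℂ)) / (Real.log N : ℂ)) atTop (nhds 0)

/-- SLOWQ: lower bound for the weights in a residue class -/
def S_SLOWQ (t c : ℤ) : Prop := ∀ q a : ℕ, 1 ≤ q → ∃ c₁ : ℝ, 0 < c₁ ∧ ∃ N₀ : ℕ, ∀ N : ℕ, N₀ ≤ N →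
  c₁ * Real.log N ≤ ∑ n ∈ (Icc 1 N).filter (fun n => n ≡ a [MOD q]), wn t c n

open scoped Classical in
/-- FINJ: joint equidistribution modulo `k` of `Ω(d)` and `Ω(d')` -/
def S_FINJ (t c : ℤ) : Prop := ∀ k : ℕ, 1 ≤ k → ∀ q a r : ℕ, 1 ≤ q → ∀ i j : ℕ,
  Tendsto (fun N : ℕ =>
  ((∑ p ∈ (SP t c N).filter (fun p => Cd t c q a r p ∧
    ArithmeticFunction.cardFactors p.1 ≡ i [MOD k] ∧
    ArithmeticFunction.cardFactors p.2 ≡ j [MOD k]), 1 / ((max p.1 p.2 : ℕ) : ℝ)) -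
    1 / (k : ℝ) ^ 2 * ∑ p ∈ (SP t c N).filter (Cd t c q a r), 1 / ((max p.1 p.2 : ℕ) : ℝ)) /
      Real.log N) atTop (nhds 0)

open scoped Classical in
/-- FINN: equidistribution modulo `k` of `Ω(n^2+tn+c)` -/
def S_FINN (t c : ℤ) : Prop := ∀ k : ℕ, 1 ≤ k → ∀ q a : ℕ, 1 ≤ q → ∀ j : ℕ,
  Tendsto (fun N : ℕ =>
  (∑ n ∈ (Icc 1 N).filter (fun n => n ≡ a [MOD q] ∧
    ArithmeticFunction.cardFactors (fv t c n) ≡ j [MOD k]), wn t c n) /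
    ∑ n ∈ (Icc 1 N).filter (fun n => n ≡ a [MOD q]), wn t c n) atTop (nhds (1 / (k : ℝ)))

/-! ### Almost all scales -/

/-- AVX: the mean over the primes of `PQ χ Q`, for most scales -/
def S_AVX (t c : ℤ) (χ : DirichletCharacter ℂ f) : Prop := ∀ (N : ℕ) (τ : ℂ)
  (F₁ F₂ : Qd t c → ℂ), Pr N τ F₁ F₂ → ∀ q : ℕ, 1 ≤ q →
  (∀ β : Qd t c, Bt χ (cl q β (fun z => (F₂ z).re)) ∧ Bt χ (cl q β (fun z => (F₂ z).im))) →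
  ∀ R : Qd t c → Qd t c → Prop, Rel q R → ∀ (s₁ s₂ s₃ s₄ : ℝ), 0 < s₁ → s₁ < s₂ → s₂ ≤ 1 →
  0 < s₃ → s₃ < s₄ → s₄ ≤ 1 → ∀ ε : ℝ, 0 < ε → ∀ Q₁ : ℕ, ∃ Q₂ N₀ : ℕ, ∀ N' : ℕ, N₀ ≤ N' →
    ∃ Q : ℕ, Q₁ ≤ Q ∧ Q ≤ Q₂ ∧ ∑ X ∈ Icc 1 N', 1 / (X : ℝ) ^ 2 *
      ‖∑ p ∈ PQ χ Q, ((Real.log p * ((p : ℝ) + 1) : ℝ) : ℂ) *
        AG (g2 F₁ F₂ R) s₁ s₂ s₃ s₄ ((X : ℝ) / p)‖ ≤ ε * Q * Real.log N'

/-- REGX: `AG` varies slowly -/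
def S_REGX (t c : ℤ) : Prop := ∀ g : Qd t c × Qd t c → ℂ, (∀ e, ‖g e‖ ≤ 1) →
  ∀ (s₁ s₂ s₃ s₄ : ℝ), 0 < s₁ →
  s₁ < s₂ → s₂ ≤ 1 → 0 < s₃ → s₃ < s₄ → s₄ ≤ 1 → ∃ C : ℝ, 0 < C ∧
    (∀ X : ℝ, 0 < X → ‖AG g s₁ s₂ s₃ s₄ X‖ ≤ C * X) ∧
    ∀ δ : ℝ, 0 < δ → δ ≤ 1 → ∃ X₀ : ℝ, ∀ X X' : ℝ, X₀ ≤ X → X ≤ X' → X' ≤ (1 + δ) * X →
      ‖AG g s₁ s₂ s₃ s₄ X' - AG g s₁ s₂ s₃ s₄ X‖ ≤ C * δ * X

/-- PW: sums over primes and mesh sums -/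
def S_PW (χ : DirichletCharacter ℂ f) : Prop := ∀ (a : ℝ → ℂ) (C : ℝ), Sv a C → ∀ m : ℕ, 1 ≤ m →
  ∃ Q₀ : ℕ, ∀ Q : ℕ, Q₀ ≤ Q → ∃ x₀ : ℝ, ∀ x : ℝ, x₀ ≤ x →
    ‖∑ p ∈ PQ χ Q, (Real.log p : ℂ) * a (x / p) - ((Q : ℂ) / 2) * Tm m a (x / Q)‖ ≤
      5 * C / m * Q

/-- DCV: deconvolution -/
def S_DCV (χ : DirichletCharacter ℂ f) : Prop := ∀ (a : ℝ → ℂ) (C : ℝ), Sv a C →
  (∀ ε : ℝ, 0 < ε → ∀ Q₁ : ℕ,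
  ∃ Q₂ N₀ : ℕ, ∀ N : ℕ, N₀ ≤ N → ∃ Q : ℕ, Q₁ ≤ Q ∧ Q ≤ Q₂ ∧
    ∑ X ∈ Icc 1 N, 1 / (X : ℝ) * ‖∑ p ∈ PQ χ Q, (Real.log p : ℂ) * a ((X : ℝ) / p)‖ ≤
      ε * Q * Real.log N) →
  ∀ ε : ℝ, 0 < ε → ∃ N₀ : ℕ, ∀ N : ℕ, N₀ ≤ N →
    ∑ X ∈ Icc 1 N, 1 / (X : ℝ) * ‖a X‖ ≤ ε * Real.log N

/-- MAINY: the means are small at almost all scales -/
def S_MAINY (t c : ℤ) (χ : DirichletCharacter ℂ f) : Prop := ∀ (N : ℕ) (τ : ℂ)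
  (F₁ F₂ : Qd t c → ℂ), Pr N τ F₁ F₂ → ∀ q : ℕ, 1 ≤ q →
  (∀ β : Qd t c, Bt χ (cl q β (fun z => (F₂ z).re)) ∧ Bt χ (cl q β (fun z => (F₂ z).im))) →
  ∀ R : Qd t c → Qd t c → Prop, Rel q R → ∀ (s₁ s₂ s₃ s₄ : ℝ), 0 < s₁ → s₁ < s₂ → s₂ ≤ 1 →
  0 < s₃ → s₃ < s₄ → s₄ ≤ 1 → ∀ ε : ℝ, 0 < ε → ∃ N₀ : ℕ, ∀ N' : ℕ, N₀ ≤ N' →
    ∑ X ∈ Icc 1 N', 1 / (X : ℝ) ^ 2 * ‖AG (g2 F₁ F₂ R) s₁ s₂ s₃ s₄ X‖ ≤ ε * Real.log N'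

open scoped Classical in
/-- SPQ: lower bound for the number of pairs -/
def S_SPQ (t c : ℤ) : Prop := ∀ q a : ℕ, 1 ≤ q → ∃ c₁ : ℝ, 0 < c₁ ∧ ∃ X₀ : ℕ, ∀ X : ℕ, X₀ ≤ X →
  c₁ * X ≤ (((SP t c X).filter (fun p => ∃ n : ℕ, 0 < 2 * (n : ℤ) + t ∧
    (p.1 * p.2 : ℤ) = (n : ℤ) ^ 2 + t * n + c ∧ n ≡ a [MOD q])).card : ℝ)

open scoped Classical in
/-- the pairs with `s₁ X < d ≤ s₂ X`, `s₃ X < d' ≤ s₄ X`, `n ≡ a`, `d ≡ r mod q` -/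
noncomputable def SW (t c : ℤ) (q a r : ℕ) (s₁ s₂ s₃ s₄ : ℝ) (X : ℕ) : Finset (ℕ × ℕ) :=
  (SP t c X).filter (fun p => Cd t c q a r p ∧ s₁ * X < (p.1 : ℝ) ∧ (p.1 : ℝ) ≤ s₂ * X ∧
    s₃ * X < (p.2 : ℝ) ∧ (p.2 : ℝ) ≤ s₄ * X)

/-- CHRW: the means of `b₁^Ω(d) b₂^Ω(d')` at almost all scales, with windows -/
def S_CHRW (t c : ℤ) : Prop := ∀ (k : ℕ) (b₁ b₂ : ℂ), 1 ≤ k → b₁ ^ k = 1 → b₂ ^ k = 1 →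
  (b₁ ≠ 1 ∨ b₂ ≠ 1) → ∀ q a r : ℕ, 1 ≤ q → ∀ (s₁ s₂ s₃ s₄ : ℝ), 0 ≤ s₁ → s₁ < s₂ → s₂ ≤ 1 →
  0 ≤ s₃ → s₃ < s₄ → s₄ ≤ 1 → ∀ ε : ℝ, 0 < ε → ∃ N₀ : ℕ, ∀ N : ℕ, N₀ ≤ N →
    ∑ X ∈ Icc 1 N, 1 / (X : ℝ) ^ 2 * ‖∑ p ∈ SW t c q a r s₁ s₂ s₃ s₄ X,
      b₁ ^ ArithmeticFunction.cardFactors p.1 * b₂ ^ ArithmeticFunction.cardFactors p.2‖ ≤
      ε * Real.log N

/-- the deviation at scale `X` from equidistribution modulo `k` -/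
noncomputable def devW (t c : ℤ) (k q a r i j : ℕ) (s₁ s₂ s₃ s₄ : ℝ) (X : ℕ) : ℝ :=
  |(((SW t c q a r s₁ s₂ s₃ s₄ X).filter (fun p => ArithmeticFunction.cardFactors p.1 ≡ i [MOD k] ∧
    ArithmeticFunction.cardFactors p.2 ≡ j [MOD k])).card : ℝ) -
    1 / (k : ℝ) ^ 2 * ((SW t c q a r s₁ s₂ s₃ s₄ X).card : ℝ)|

/-- FINW: for almost all scales `X` the residues modulo `k` of `(Ω(d), Ω(d'))` are equidistributed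
over the pairs in every window -/
def S_FINW (t c : ℤ) : Prop := ∀ k : ℕ, 1 ≤ k → ∀ q a r : ℕ, 1 ≤ q → ∀ i j : ℕ,
  ∀ (s₁ s₂ s₃ s₄ : ℝ), 0 ≤ s₁ → s₁ < s₂ → s₂ ≤ 1 → 0 ≤ s₃ → s₃ < s₄ → s₄ ≤ 1 → ∀ ε : ℝ, 0 < ε →
  Tendsto (fun N : ℕ => (∑ X ∈ (Icc 1 N).filter
    (fun X : ℕ => ε * X < devW t c k q a r i j s₁ s₂ s₃ s₄ X), 1 / (X : ℝ)) / Real.log N)
    atTop (nhds 0)

end Pool.Agent.N912.ED.W78EG
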