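import Pool.Agent.N912.ED.Em1

/-!
Project EM (helper912): complex coefficients, residue classes, arbitrary windows.
-/

set_option autoImplicit false

namespace Pool.Agent.N912.ED

open Finset Filter
open Pool.Agent.W78.GA (Qd nm prim dt ip ball pball mem_ball mem_pball edge one_le_nm prim_ne_zero)
open Pool.Agent.N912.ED.W78EG
open Pool.Agent.N912.ED.N912EL
open Pool.Agent.N912.ED.W465EGL

variable {t c : ℤ} {f : ℕ} {χ : DirichletCharacter ℂ f}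

theorem em1n (hF : Fd t c f χ) {A : Qd t c → ℝ} (hA : ∀ z, |A z| ≤ 1) (hB : Bta χ A)
    (hL : S_LOSP t c) (s₁ s₂ s₃ s₄ : ℝ) (g1 : 0 < s₁) (g3 : 0 < s₃)
    (g4 : s₃ < s₄) (g5 : s₄ ≤ 1) (ε : ℝ) (hε : 0 < ε) :
    ∃ Q₀ : ℕ, ∀ Q : ℕ, Q₀ ≤ Q → ∃ X₀ : ℝ, ∀ X : ℝ, X₀ ≤ X →
      ∀ α : Qd t c → ℝ, (∀ z, |α z| ≤ 1) →
      ∑ p ∈ PQ χ Q, Real.log p * |∑ x ∈ PD t c s₁ s₂ s₃ s₄ X p, α x.1 * A x.2| ≤
        ε * X * Q := by
  obtain ⟨Q₀, h⟩ := em1 hF hA hB hL s₁ s₂ s₃ s₄ g1 g3 g4 g5 ε hε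
  refine ⟨Q₀, fun Q hQ => ?_⟩
  obtain ⟨X₀, h⟩ := h Q hQ
  refine ⟨X₀, fun X hX α hα => ?_⟩
  have h1 := h X hX (fun p => if 0 ≤ ∑ x ∈ PD t c s₁ s₂ s₃ s₄ X p, α x.1 * A x.2 then 1 else -1)
    (fun m => by split_ifs <;> simp) α hα
  refine le_trans (le_of_eq ?_) ((le_abs_self _).trans h1)
  refine sum_congr rfl fun p _ => ?_
  split_ifs with h2
  · rw [abs_of_nonneg h2]; ring
  · rw [abs_of_neg (not_le.1 h2)]; ring

/-- residues modulo `q` -/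
noncomputable def rsd (t c : ℤ) (q : ℕ) : Finset (Qd t c) :=
  ((range q ×ˢ range q).image (fun x : ℕ × ℕ => (⟨(x.1 : ℤ), (x.2 : ℤ)⟩ : Qd t c)))

theorem exists_rsd {q : ℕ} (hq : 1 ≤ q) (w : Qd t c) : ∃! β : Qd t c, β ∈ rsd t c q ∧
    (q : ℤ) ∣ w.re - β.re ∧ (q : ℤ) ∣ w.im - β.im := by
  have hq0 : (0 : ℤ) < q := by exact_mod_cast hq
  refine ⟨⟨w.re % q, w.im % q⟩, ⟨?_, ?_, ?_⟩, ?_⟩
  · unfold rsd
    rw [mem_image]
    refine ⟨((w.re % q).toNat, (w.im % q).toNat), ?_, ?_⟩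
    · rw [mem_product, mem_range, mem_range]
      have h1 := Int.emod_nonneg w.re hq0.ne'
      have h2 := Int.emod_lt_of_pos w.re hq0
      have h3 := Int.emod_nonneg w.im hq0.ne'
      have h4 := Int.emod_lt_of_pos w.im hq0
      constructor <;> dsimp only <;> omega
    · dsimp only
      rw [Int.toNat_of_nonneg (Int.emod_nonneg w.re hq0.ne'),
        Int.toNat_of_nonneg (Int.emod_nonneg w.im hq0.ne')]
  · exact Int.dvd_self_sub_emod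
  · exact Int.dvd_self_sub_emod
  · rintro β ⟨h1, h2, h3⟩
    unfold rsd at h1
    rw [mem_image] at h1
    obtain ⟨x, hx, rfl⟩ := h1
    rw [mem_product, mem_range, mem_range] at hx
    dsimp only at h2 h3
    have k1 : w.re % q = (x.1 : ℤ) := by
      have h4 : w.re % q = (x.1 : ℤ) % q := (Int.emod_emod_of_dvd _ (dvd_refl _) ▸
        (Int.emod_emod_of_dvd _ (dvd_refl _)).symm ▸ (Int.ModEq.symm
          ((Int.modEq_iff_dvd).2 h2 : (x.1 : ℤ) ≡ w.re [ZMOD q])))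
      rw [h4, Int.emod_eq_of_lt (by omega) (by omega)]
    have k2 : w.im % q = (x.2 : ℤ) := by
      have h4 : w.im % q = (x.2 : ℤ) % q := (Int.ModEq.symm
          ((Int.modEq_iff_dvd).2 h3 : (x.2 : ℤ) ≡ w.im [ZMOD q]))
      rw [h4, Int.emod_eq_of_lt (by omega) (by omega)]
    rw [k1, k2]

theorem sum_rsd {q : ℕ} (hq : 1 ≤ q) (A : Qd t c → ℝ) (w : Qd t c) (G : Qd t c → ℝ)
    (hG : ∀ β β' : Qd t c, (q : ℤ) ∣ β.re - β'.re → (q : ℤ) ∣ β.im - β'.im → G β = G β') :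
    G w * A w = ∑ β ∈ rsd t c q, G β * cl q β A w := by
  classical
  obtain ⟨β, ⟨h1, h2, h3⟩, h4⟩ := exists_rsd hq w
  rw [sum_eq_single β]
  · unfold cl
    rw [if_pos ⟨h2, h3⟩, hG w β h2 h3]
  · intro γ hγ hne
    unfold cl
    rw [if_neg, mul_zero]
    intro h5
    exact hne (h4 γ ⟨hγ, h5⟩)
  · exact fun h => absurd h1 h

theorem ip_congr {q : ℕ} {v w w' : Qd t c} (h1 : (q : ℤ) ∣ w.re - w'.re)
    (h2 : (q : ℤ) ∣ w.im - w'.im) : (q : ℤ) ∣ ip v w - ip v w' := by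
  have e : ip v w - ip v w' = (v.re + t * v.im) * (w.re - w'.re) + c * v.im * (w.im - w'.im) := by
    unfold ip; ring
  rw [e]
  exact dvd_add (h1.mul_left _) (h2.mul_left _)

open scoped Classical in
/-- the indicator function of `ip v w ≡ u mod q` -/
noncomputable def iq (q : ℕ) (u : ℤ) (v w : Qd t c) : ℝ :=
  if (q : ℤ) ∣ ip v w - u then 1 else 0

theorem iq_abs (q : ℕ) (u : ℤ) (v w : Qd t c) : |iq q u v w| ≤ 1 := by
  unfold iq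
  split_ifs <;> simp

theorem iq_congr {q : ℕ} (u : ℤ) (v : Qd t c) {w w' : Qd t c} (h1 : (q : ℤ) ∣ w.re - w'.re)
    (h2 : (q : ℤ) ∣ w.im - w'.im) : iq q u v w = iq q u v w' := by
  unfold iq
  have h3 := ip_congr (v := v) h1 h2
  have h4 : (q : ℤ) ∣ ip v w - u ↔ (q : ℤ) ∣ ip v w' - u := by
    constructor
    · intro h
      have := dvd_sub h h3
      have e : ip v w - u - (ip v w - ip v w') = ip v w' - u := by ring
      rwa [e] at this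
    · intro h
      have := dvd_add h h3
      have e : ip v w' - u + (ip v w - ip v w') = ip v w - u := by ring
      rwa [e] at this
  by_cases h : (q : ℤ) ∣ ip v w - u
  · rw [if_pos h, if_pos (h4.1 h)]
  · rw [if_neg h, if_neg (fun h' => h (h4.2 h'))]

/-- residue classes -/
theorem em1r (hF : Fd t c f χ) {A : Qd t c → ℝ} (hA : ∀ z, |A z| ≤ 1) {q : ℕ} (hq : 1 ≤ q)
    (hB : ∀ β : Qd t c, Bta χ (cl q β A)) (hL : S_LOSP t c) (u : ℤ) (s₁ s₂ s₃ s₄ : ℝ)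
    (g1 : 0 < s₁) (g3 : 0 < s₃) (g4 : s₃ < s₄) (g5 : s₄ ≤ 1) (ε : ℝ) (hε : 0 < ε) :
    ∃ Q₀ : ℕ, ∀ Q : ℕ, Q₀ ≤ Q → ∃ X₀ : ℝ, ∀ X : ℝ, X₀ ≤ X →
      ∀ α : Qd t c → ℝ, (∀ z, |α z| ≤ 1) →
      ∑ p ∈ PQ χ Q, Real.log p *
        |∑ x ∈ PD t c s₁ s₂ s₃ s₄ X p, α x.1 * (iq q u x.1 x.2 * A x.2)| ≤ ε * X * Q := by
  classical
  set n : ℕ := (rsd t c q).card with hn
  have hcl : ∀ β z, |cl q β A z| ≤ 1 := by
    intro β z
    unfold cl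
    split_ifs
    · exact hA z
    · simp
  have h1 : ∀ β : Qd t c, ∃ Q₀ : ℕ, ∀ Q : ℕ, Q₀ ≤ Q → ∃ X₀ : ℝ, ∀ X : ℝ, X₀ ≤ X →
      ∀ α : Qd t c → ℝ, (∀ z, |α z| ≤ 1) →
      ∑ p ∈ PQ χ Q, Real.log p * |∑ x ∈ PD t c s₁ s₂ s₃ s₄ X p, α x.1 * cl q β A x.2| ≤
        ε / (n + 1) * X * Q := fun β =>
    em1n hF (hcl β) (hB β) hL s₁ s₂ s₃ s₄ g1 g3 g4 g5 (ε / (n + 1)) (by positivity)
  choose Q₀ h2 using h1
  refine ⟨(rsd t c q).sup Q₀, fun Q hQ => ?_⟩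
  have h3 : ∀ β : Qd t c, ∃ X₀ : ℝ, β ∈ rsd t c q → ∀ X : ℝ, X₀ ≤ X →
      ∀ α : Qd t c → ℝ, (∀ z, |α z| ≤ 1) →
      ∑ p ∈ PQ χ Q, Real.log p * |∑ x ∈ PD t c s₁ s₂ s₃ s₄ X p, α x.1 * cl q β A x.2| ≤
        ε / (n + 1) * X * Q := by
    intro β
    by_cases hβ : β ∈ rsd t c q
    · obtain ⟨X₀, h⟩ := h2 β Q ((le_sup hβ).trans hQ)
      exact ⟨X₀, fun _ => h⟩
    · exact ⟨0, fun h => absurd h hβ⟩
  choose X₀ h4 using h3
  refine ⟨max 0 (∑ β ∈ rsd t c q, |X₀ β|), fun X hX α hα => ?_⟩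
  have hX0 : 0 ≤ X := (le_max_left _ _).trans hX
  have h5 : ∀ β ∈ rsd t c q, ∑ p ∈ PQ χ Q, Real.log p *
      |∑ x ∈ PD t c s₁ s₂ s₃ s₄ X p, (α x.1 * iq q u x.1 β) * cl q β A x.2| ≤
        ε / (n + 1) * X * Q := by
    intro β hβ
    refine h4 β hβ X ?_ (fun z => α z * iq q u z β) ?_
    · refine (le_abs_self _).trans (le_trans ?_ ((le_max_right _ _).trans hX))
      exact single_le_sum (f := fun β => |X₀ β|) (fun _ _ => abs_nonneg _) hβ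
    · intro z
      rw [abs_mul]
      exact mul_le_one₀ (hα z) (abs_nonneg _) (iq_abs _ _ _ _)
  have h6 : ∀ p ∈ PQ χ Q, Real.log p *
      |∑ x ∈ PD t c s₁ s₂ s₃ s₄ X p, α x.1 * (iq q u x.1 x.2 * A x.2)| ≤
      ∑ β ∈ rsd t c q, Real.log p *
      |∑ x ∈ PD t c s₁ s₂ s₃ s₄ X p, (α x.1 * iq q u x.1 β) * cl q β A x.2| := by
    intro p _
    rw [← mul_sum]
    refine mul_le_mul_of_nonneg_left ?_ (Real.log_natCast_nonneg p)
    refine le_trans (le_of_eq ?_) (abs_sum_le_sum_abs _ _)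
    congr 1
    rw [sum_comm]
    refine sum_congr rfl fun x _ => ?_
    rw [sum_rsd hq A x.2 (fun w => iq q u x.1 w) (fun β β' k1 k2 => iq_congr u x.1 k1 k2),
      mul_sum]
    refine sum_congr rfl fun β _ => ?_
    ring
  refine (sum_le_sum h6).trans ?_
  rw [sum_comm]
  refine (sum_le_sum h5).trans ?_
  rw [sum_const, nsmul_eq_mul, ← hn]
  have h7 : (n : ℝ) * (ε / (n + 1) * X * Q) ≤ (n + 1) * (ε / (n + 1) * X * Q) :=
    mul_le_mul_of_nonneg_right (by linarith) (by positivity)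
  refine h7.trans (le_of_eq ?_)
  field_simp

/-- complex coefficients -/
theorem em2 (hF : Fd t c f χ) {A : Qd t c → ℂ} (hA : ∀ z, ‖A z‖ ≤ 1) {q : ℕ} (hq : 1 ≤ q)
    (hB : ∀ β : Qd t c, Bta χ (cl q β (fun z => (A z).re)) ∧ Bta χ (cl q β (fun z => (A z).im)))
    (hL : S_LOSP t c) (u : ℤ) (s₁ s₂ s₃ s₄ : ℝ)
    (g1 : 0 < s₁) (g3 : 0 < s₃) (g4 : s₃ < s₄) (g5 : s₄ ≤ 1) (ε : ℝ) (hε : 0 < ε) :
    ∃ Q₀ : ℕ, ∀ Q : ℕ, Q₀ ≤ Q → ∃ X₀ : ℝ, ∀ X : ℝ, X₀ ≤ X →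
      ∀ α : Qd t c → ℂ, (∀ z, ‖α z‖ ≤ 1) →
      ∑ p ∈ PQ χ Q, Real.log p *
        ‖∑ x ∈ PD t c s₁ s₂ s₃ s₄ X p, α x.1 * ((iq q u x.1 x.2 : ℂ) * A x.2)‖ ≤ ε * X * Q := by
  classical
  have hre : ∀ z, |(A z).re| ≤ 1 := fun z => (Complex.abs_re_le_norm _).trans (hA z)
  have him : ∀ z, |(A z).im| ≤ 1 := fun z => (Complex.abs_im_le_norm _).trans (hA z)
  obtain ⟨Q₁, h1⟩ := em1r hF hre hq (fun β => (hB β).1) hL u s₁ s₂ s₃ s₄ g1 g3 g4 g5 (ε / 4)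
    (by positivity)
  obtain ⟨Q₂, h2⟩ := em1r hF him hq (fun β => (hB β).2) hL u s₁ s₂ s₃ s₄ g1 g3 g4 g5 (ε / 4)
    (by positivity)
  refine ⟨max Q₁ Q₂, fun Q hQ => ?_⟩
  obtain ⟨X₁, h3⟩ := h1 Q ((le_max_left _ _).trans hQ)
  obtain ⟨X₂, h4⟩ := h2 Q ((le_max_right _ _).trans hQ)
  refine ⟨max X₁ X₂, fun X hX α hα => ?_⟩
  have hX1 := (le_max_left _ _).trans hX
  have hX2 := (le_max_right _ _).trans hX
  have hαr : ∀ z, |(α z).re| ≤ 1 := fun z => (Complex.abs_re_le_norm _).trans (hα z)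
  have hαi : ∀ z, |(α z).im| ≤ 1 := fun z => (Complex.abs_im_le_norm _).trans (hα z)
  have k1 := h3 X hX1 (fun z => (α z).re) hαr
  have k2 := h3 X hX1 (fun z => (α z).im) hαi
  have k3 := h4 X hX2 (fun z => (α z).re) hαr
  have k4 := h4 X hX2 (fun z => (α z).im) hαi
  have key : ∀ p ∈ PQ χ Q, Real.log p *
      ‖∑ x ∈ PD t c s₁ s₂ s₃ s₄ X p, α x.1 * ((iq q u x.1 x.2 : ℂ) * A x.2)‖ ≤
      Real.log p * |∑ x ∈ PD t c s₁ s₂ s₃ s₄ X p, (α x.1).re * (iq q u x.1 x.2 * (A x.2).re)| +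
      Real.log p * |∑ x ∈ PD t c s₁ s₂ s₃ s₄ X p, (α x.1).im * (iq q u x.1 x.2 * (A x.2).re)| +
      Real.log p * |∑ x ∈ PD t c s₁ s₂ s₃ s₄ X p, (α x.1).re * (iq q u x.1 x.2 * (A x.2).im)| +
      Real.log p *
        |∑ x ∈ PD t c s₁ s₂ s₃ s₄ X p, (α x.1).im * (iq q u x.1 x.2 * (A x.2).im)| := by
    intro p _
    rw [← mul_add, ← mul_add, ← mul_add]
    refine mul_le_mul_of_nonneg_left ?_ (Real.log_natCast_nonneg p)
    have e1 : ∑ x ∈ PD t c s₁ s₂ s₃ s₄ X p, α x.1 * ((iq q u x.1 x.2 : ℂ) * A x.2) =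
        (((∑ x ∈ PD t c s₁ s₂ s₃ s₄ X p, (α x.1).re * (iq q u x.1 x.2 * (A x.2).re) : ℝ) : ℂ) -
        ((∑ x ∈ PD t c s₁ s₂ s₃ s₄ X p, (α x.1).im * (iq q u x.1 x.2 * (A x.2).im) : ℝ) : ℂ)) +
        (((∑ x ∈ PD t c s₁ s₂ s₃ s₄ X p, (α x.1).re * (iq q u x.1 x.2 * (A x.2).im) : ℝ) : ℂ) +
        ((∑ x ∈ PD t c s₁ s₂ s₃ s₄ X p, (α x.1).im * (iq q u x.1 x.2 * (A x.2).re) : ℝ) : ℂ)) *
          Complex.I := by
      push_cast
      rw [← sum_sub_distrib, ← sum_add_distrib, sum_mul, ← sum_add_distrib]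
      refine sum_congr rfl fun x _ => ?_
      conv_lhs => rw [← Complex.re_add_im (α x.1), ← Complex.re_add_im (A x.2)]
      have hI : Complex.I * Complex.I = -1 := Complex.I_mul_I
      linear_combination ((α x.1).im * (iq q u x.1 x.2 : ℂ) * (A x.2).im : ℂ) * hI
    rw [e1]
    refine (norm_add_le _ _).trans ?_
    rw [norm_mul, Complex.norm_I, mul_one]
    refine (add_le_add (norm_sub_le _ _) (norm_add_le _ _)).trans ?_
    simp only [Complex.norm_real, Real.norm_eq_abs]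
    linarith
  refine (sum_le_sum key).trans ?_
  rw [sum_add_distrib, sum_add_distrib, sum_add_distrib]
  linarith

end Pool.Agent.N912.ED
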