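import Pool.Agent.N912.ED.N912ELStm
import Pool.Agent.N912.ED.W372EGBtmx

/-!
Project EL (helper912), part 8: the main term with coefficients.
-/

set_option autoImplicit false
set_option linter.all false

namespace Pool.Agent.N912.ED.N400ELBTMA

open Finset Filter
open Pool.Agent.W78.GA (Qd nm prim dt ip lat ball pball edge dedge ang)
open Pool.Agent.W78.EC (psi)
open Pool.Agent.N912.ED.W78EG
open Pool.Agent.N912.ED.N912EL
open Pool.Agent.N912.ED.W372EG (Fd_D hD01 dvd_sub_congr weight_sum toNat_cast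
  fin_comb2 floor_mem aa_aa exists_cst Cst mem_cw mem_good mem_cone pp_cone)
open Pool.Agent.W125.EC (tl tl_nonneg tail_small split)

variable {t c : ℤ} {f : ℕ} {χ : DirichletCharacter ℂ f}

/-! ### The cutoff function -/

lemma rho_nonneg (δ x : ℝ) : 0 ≤ rho δ x := le_max_left _ _

lemma rho_le_one (δ x : ℝ) : rho δ x ≤ 1 := max_le (by norm_num) (min_le_left _ _)

lemma rho_zero {δ x : ℝ} (hδ : 0 < δ) (hx : x ≤ δ) : rho δ x = 0 := by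
  unfold rho
  apply max_eq_left
  refine (min_le_right _ _).trans ?_
  have : x / δ ≤ 1 := by rw [div_le_one hδ]; exact hx
  linarith

lemma rho_lip1 {δ : ℝ} (hδ : 0 < δ) (x y : ℝ) : |rho δ x - rho δ y| ≤ |x - y| / δ := by
  unfold rho
  have h1 : |max 0 (min 1 (x / δ - 1)) - max 0 (min 1 (y / δ - 1))| ≤
      |min 1 (x / δ - 1) - min 1 (y / δ - 1)| := by
    rw [max_comm 0, max_comm 0]
    exact abs_max_sub_max_le_abs _ _ _
  have h2 : |min 1 (x / δ - 1) - min 1 (y / δ - 1)| ≤ |(x / δ - 1) - (y / δ - 1)| := by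
    have := abs_min_sub_min_le_max 1 (x / δ - 1) 1 (y / δ - 1)
    simpa using this
  refine (h1.trans h2).trans (le_of_eq ?_)
  have : (x / δ - 1) - (y / δ - 1) = (x - y) / δ := by ring
  rw [this, abs_div, abs_of_pos hδ]

lemma rho_div_le {δ x : ℝ} (hδ : 0 < δ) : |rho δ x / x| ≤ 1 / δ := by
  rcases le_or_gt x δ with h | h
  · rw [rho_zero hδ h, zero_div, abs_zero]; positivity
  · have hx : 0 < x := hδ.trans h
    rw [abs_of_nonneg (div_nonneg (rho_nonneg _ _) hx.le), div_le_div_iff₀ hx hδ]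
    have := rho_le_one δ x
    nlinarith

lemma rho_lip_aux {δ x y : ℝ} (hδ : 0 < δ) (hxy : x ≤ y) :
    |rho δ x / x - rho δ y / y| ≤ 2 / δ ^ 2 * (y - x) := by
  rcases le_or_gt y δ with h | h
  · rw [rho_zero hδ h, rho_zero hδ (hxy.trans h), zero_div, zero_div, sub_zero, abs_zero]
    have : 0 ≤ y - x := by linarith
    positivity
  · have hy : 0 < y := hδ.trans h
    rcases le_or_gt x δ with h' | h'
    · rw [rho_zero hδ h', zero_div, zero_sub, abs_neg,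
        abs_of_nonneg (div_nonneg (rho_nonneg _ _) hy.le)]
      have h1 : rho δ y ≤ (y - x) / δ := by
        have := rho_lip1 hδ y x
        rw [rho_zero hδ h', sub_zero, abs_of_nonneg (rho_nonneg _ _),
          abs_of_nonneg (by linarith)] at this
        exact this
      rw [div_le_iff₀ hy]
      refine h1.trans ?_
      have h2 : 0 ≤ y - x := by linarith
      have h3 : (y - x) / δ = 1 / δ ^ 2 * (y - x) * δ := by field_simp
      rw [h3]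
      have h4 : 0 ≤ 1 / δ ^ 2 * (y - x) := by positivity
      calc 1 / δ ^ 2 * (y - x) * δ ≤ 1 / δ ^ 2 * (y - x) * y :=
            mul_le_mul_of_nonneg_left h.le h4
        _ ≤ 2 * (1 / δ ^ 2 * (y - x) * y) := by
            have : 0 ≤ 1 / δ ^ 2 * (y - x) * y := by positivity
            linarith
        _ = 2 / δ ^ 2 * (y - x) * y := by ring
    · have hx : 0 < x := hδ.trans h'
      have e : rho δ x / x - rho δ y / y = (rho δ x - rho δ y) / x + rho δ y * ((y - x) / (x * y)) := by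
        field_simp
        ring
      rw [e]
      refine (abs_add_le _ _).trans ?_
      have a1 : |(rho δ x - rho δ y) / x| ≤ 1 / δ ^ 2 * (y - x) := by
        rw [abs_div, abs_of_pos hx, div_le_iff₀ hx]
        have := rho_lip1 hδ x y
        rw [abs_sub_comm x y, abs_of_nonneg (by linarith : 0 ≤ y - x)] at this
        refine this.trans ?_
        have h2 : 0 ≤ y - x := by linarith
        have h3 : (y - x) / δ = 1 / δ ^ 2 * (y - x) * δ := by field_simp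
        rw [h3]
        exact mul_le_mul_of_nonneg_left h'.le (by positivity)
      have a2 : |rho δ y * ((y - x) / (x * y))| ≤ 1 / δ ^ 2 * (y - x) := by
        have h2 : 0 ≤ y - x := by linarith
        rw [abs_mul, abs_of_nonneg (rho_nonneg _ _), abs_of_nonneg (by positivity)]
        calc rho δ y * ((y - x) / (x * y)) ≤ 1 * ((y - x) / (x * y)) :=
              mul_le_mul_of_nonneg_right (rho_le_one _ _) (by positivity)
          _ = (y - x) / (x * y) := one_mul _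
          _ ≤ (y - x) / (δ * δ) := by gcongr
          _ = _ := by field_simp
      calc _ ≤ 1 / δ ^ 2 * (y - x) + 1 / δ ^ 2 * (y - x) := add_le_add a1 a2
        _ = _ := by ring

lemma rho_lip {δ : ℝ} (hδ : 0 < δ) (x y : ℝ) :
    |rho δ x / x - rho δ y / y| ≤ 2 / δ ^ 2 * |x - y| := by
  rcases le_total x y with h | h
  · rw [abs_sub_comm x y, abs_of_nonneg (by linarith : 0 ≤ y - x)]
    exact rho_lip_aux hδ h
  · rw [abs_of_nonneg (by linarith : 0 ≤ x - y), abs_sub_comm]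
    exact rho_lip_aux hδ h

/-- `rho δ (D/Q) / D` -/
noncomputable def RR (δ : ℝ) (Q : ℕ) (D : ℤ) : ℝ := rho δ ((D : ℝ) / Q) / D

lemma RR_eq {δ : ℝ} {Q : ℕ} (hQ : 1 ≤ Q) (D : ℤ) :
    RR δ Q D = 1 / Q * (rho δ ((D : ℝ) / Q) / ((D : ℝ) / Q)) := by
  have hQ' : (Q : ℝ) ≠ 0 := by positivity
  unfold RR
  by_cases h : (D : ℝ) = 0
  · rw [h]; simp
  · field_simp

lemma RR_le {δ : ℝ} (hδ : 0 < δ) {Q : ℕ} (hQ : 1 ≤ Q) (D : ℤ) : |RR δ Q D| ≤ 1 / (δ * Q) := by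
  have hQ' : (0 : ℝ) < Q := by positivity
  rw [RR_eq hQ, abs_mul, abs_of_pos (by positivity : 0 < 1 / (Q : ℝ))]
  calc 1 / (Q : ℝ) * |rho δ ((D : ℝ) / Q) / ((D : ℝ) / Q)| ≤ 1 / Q * (1 / δ) :=
        mul_le_mul_of_nonneg_left (rho_div_le hδ) (by positivity)
    _ = _ := by field_simp

lemma RR_lip {δ : ℝ} (hδ : 0 < δ) {Q : ℕ} (hQ : 1 ≤ Q) (D D' : ℤ) {ε : ℝ}
    (h : |(D : ℝ) - D'| ≤ ε * Q) : |RR δ Q D - RR δ Q D'| ≤ 2 * ε / (δ ^ 2 * Q) := by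
  have hQ' : (0 : ℝ) < Q := by positivity
  rw [RR_eq hQ, RR_eq hQ, ← mul_sub, abs_mul, abs_of_pos (by positivity : 0 < 1 / (Q : ℝ))]
  have h1 : |(D : ℝ) / Q - (D' : ℝ) / Q| ≤ ε := by
    rw [← sub_div, abs_div, abs_of_pos hQ', div_le_iff₀ hQ']
    exact h
  calc 1 / (Q : ℝ) * |rho δ ((D : ℝ) / Q) / ((D : ℝ) / Q) - rho δ ((D' : ℝ) / Q) / ((D' : ℝ) / Q)| ≤
      1 / Q * (2 / δ ^ 2 * |(D : ℝ) / Q - (D' : ℝ) / Q|) :=
        mul_le_mul_of_nonneg_left (rho_lip hδ _ _) (by positivity)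
    _ ≤ 1 / Q * (2 / δ ^ 2 * ε) := by gcongr
    _ = _ := by field_simp

lemma RR_zero {δ : ℝ} (hδ : 0 < δ) {Q : ℕ} (hQ : 1 ≤ Q) {D : ℤ} (h : (D : ℝ) ≤ δ * Q) :
    RR δ Q D = 0 := by
  have hQ' : (0 : ℝ) < Q := by positivity
  unfold RR
  rw [rho_zero hδ (by rw [div_le_iff₀ hQ']; exact h), zero_div]

/-! ### The weights -/

lemma psi_nonneg (x : ℝ) : 0 ≤ psi x := sq_nonneg _

lemma psi_le {x : ℝ} (hx : 0 ≤ x) : psi x ≤ 16 := by
  unfold psi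
  have h1 : 0 ≤ max 0 (4 - x) := le_max_left _ _
  have h2 : max 0 (4 - x) ≤ 4 := max_le (by norm_num) (by linarith)
  nlinarith

lemma ps_le {X : ℝ} (hX : 0 ≤ X) (w₁ w₂ : Qd t c) (m₁ m₂ : ℕ) : |ps X w₁ w₂ m₁ m₂| ≤ 16 := by
  unfold ps
  rw [abs_of_nonneg (psi_nonneg _)]
  exact psi_le (by positivity)

lemma th_nonneg (χ : DirichletCharacter ℂ f) (Q : ℕ) (m : ℤ) : 0 ≤ th χ Q m := by
  unfold th
  split_ifs with h
  · apply Real.log_nonneg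
    have : (1 : ℤ) ≤ m := h.1
    exact_mod_cast this
  · exact le_rfl

lemma ta_le {a : ℕ → ℝ} (ha : ∀ m, |a m| ≤ 1) (χ : DirichletCharacter ℂ f) (Q : ℕ) (m : ℤ) :
    |ta χ a Q m| ≤ th χ Q m := by
  unfold ta
  rw [abs_mul, abs_of_nonneg (th_nonneg χ Q m)]
  calc |a m.toNat| * th χ Q m ≤ 1 * th χ Q m :=
        mul_le_mul_of_nonneg_right (ha _) (th_nonneg χ Q m)
    _ = _ := one_mul _

lemma th_sum (χ : DirichletCharacter ℂ f) (Q : ℕ) : ∑ m ∈ Ioc Q (2 * Q), th χ Q m ≤ 3 * Q := by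
  have h1 : ∑ m ∈ Ioc Q (2 * Q), th χ Q m ≤
      ∑ m ∈ (Ioc 0 (2 * Q)).filter Nat.Prime, Real.log m := by
    rw [sum_filter]
    refine le_trans ?_ (sum_le_sum_of_subset_of_nonneg (s := Ioc Q (2 * Q)) ?_ ?_)
    · refine sum_le_sum fun m hm => ?_
      unfold th
      split_ifs with h1 h2 h2
      · simp
      · exfalso
        apply h2
        have := h1.2
        unfold PQ at this
        rw [mem_filter] at this
        simpa using this.2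
      · exact Real.log_natCast_nonneg m
      · exact le_rfl
    · intro m hm
      rw [mem_Ioc] at hm ⊢
      omega
    · intro m _ _
      split_ifs
      · exact Real.log_natCast_nonneg m
      · exact le_rfl
  have h2 := Chebyshev.theta_le_log4_mul_x (x := ((2 * Q : ℕ) : ℝ)) (by positivity)
  unfold Chebyshev.theta at h2
  rw [Nat.floor_natCast] at h2
  have h3 : Real.log 4 ≤ 1.4 := by
    have : Real.log 4 = 2 * Real.log 2 := by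
      rw [show (4 : ℝ) = 2 ^ 2 by norm_num, Real.log_pow]; norm_num
    rw [this]
    have := Real.log_two_lt_d9
    linarith
  refine h1.trans (h2.trans ?_)
  push_cast
  have : (0 : ℝ) ≤ Q := by positivity
  nlinarith

lemma th_sum_nonneg (χ : DirichletCharacter ℂ f) (Q : ℕ) : 0 ≤ ∑ m ∈ Ioc Q (2 * Q), th χ Q m :=
  sum_nonneg fun _ _ => th_nonneg _ _ _

/-- general bound for the double sums -/
lemma dbl {a : ℕ → ℝ} (ha : ∀ m, |a m| ≤ 1) (χ : DirichletCharacter ℂ f) (Q : ℕ)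
    (P : ℕ → ℕ → Prop) [∀ m n, Decidable (P m n)] (v : ℕ → ℕ → ℝ) {B : ℝ} (hB : 0 ≤ B)
    (hv : ∀ m₁ ∈ Ioc Q (2 * Q), ∀ m₂ ∈ Ioc Q (2 * Q), |v m₁ m₂| ≤ B) :
    |∑ m₁ ∈ Ioc Q (2 * Q), ∑ m₂ ∈ Ioc Q (2 * Q),
      (if P m₁ m₂ then ta χ a Q m₁ * ta χ a Q m₂ else 0) * v m₁ m₂| ≤ 9 * B * (Q : ℝ) ^ 2 := by
  calc _ ≤ ∑ m₁ ∈ Ioc Q (2 * Q), ∑ m₂ ∈ Ioc Q (2 * Q), (th χ Q m₁ * th χ Q m₂) * B := by
        refine (abs_sum_le_sum_abs _ _).trans (sum_le_sum fun m₁ h1 => ?_)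
        refine (abs_sum_le_sum_abs _ _).trans (sum_le_sum fun m₂ h2 => ?_)
        rw [abs_mul]
        have e1 : |(if P m₁ m₂ then ta χ a Q m₁ * ta χ a Q m₂ else 0)| ≤ th χ Q m₁ * th χ Q m₂ := by
          split_ifs
          · rw [abs_mul]
            exact mul_le_mul (ta_le ha _ _ _) (ta_le ha _ _ _) (abs_nonneg _) (th_nonneg _ _ _)
          · rw [abs_zero]; exact mul_nonneg (th_nonneg _ _ _) (th_nonneg _ _ _)
        exact mul_le_mul e1 (hv m₁ h1 m₂ h2) (abs_nonneg _)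
          (mul_nonneg (th_nonneg _ _ _) (th_nonneg _ _ _))
    _ = (∑ m ∈ Ioc Q (2 * Q), th χ Q m) * (∑ m ∈ Ioc Q (2 * Q), th χ Q m) * B := by
        rw [sum_mul_sum, sum_mul]
        refine sum_congr rfl fun m₁ _ => ?_
        rw [sum_mul]
    _ ≤ (3 * Q) * (3 * Q) * B := by
        have h1 := th_sum χ Q
        have h2 := th_sum_nonneg χ Q
        have h3 : (0 : ℝ) ≤ 3 * Q := by positivity
        exact mul_le_mul_of_nonneg_right (mul_le_mul h1 h1 h2 h3) hB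
    _ = _ := by ring

open scoped Classical in
/-- the double sum in `G0a` -/
noncomputable def TG (χ : DirichletCharacter ℂ f) (a : ℕ → ℝ) (Q : ℕ) (X : ℝ) (g : ℕ)
    (w₁ w₂ : Qd t c) : ℝ :=
  ∑ m₁ ∈ Ioc Q (2 * Q), ∑ m₂ ∈ Ioc Q (2 * Q),
      (if Cg g w₁ w₂ m₁ m₂ then ta χ a Q m₁ * ta χ a Q m₂ else 0) * ps X w₁ w₂ m₁ m₂

/-- the double sum over residue classes -/
noncomputable def WW (χ : DirichletCharacter ℂ f) (a : ℕ → ℝ) (M Q : ℕ) (X : ℝ) (r₁ r₂ : ℕ)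
    (w₁ w₂ : Qd t c) : ℝ :=
  ∑ m₁ ∈ Ioc Q (2 * Q), ∑ m₂ ∈ Ioc Q (2 * Q),
      (if m₁ % M = r₁ ∧ m₂ % M = r₂ then ta χ a Q m₁ * ta χ a Q m₂ else 0) * ps X w₁ w₂ m₁ m₂

lemma TG_le {a : ℕ → ℝ} (ha : ∀ m, |a m| ≤ 1) {Q : ℕ} {X : ℝ} (hX : 0 ≤ X) (g : ℕ)
    (w₁ w₂ : Qd t c) : |TG χ a Q X g w₁ w₂| ≤ 144 * (Q : ℝ) ^ 2 := by
  classical
  unfold TG
  refine (dbl ha χ Q (fun m₁ m₂ => Cg g w₁ w₂ m₁ m₂) (fun m₁ m₂ => ps X w₁ w₂ m₁ m₂)
    (B := 16) (by norm_num) (fun m₁ _ m₂ _ => ps_le hX _ _ _ _)).trans (le_of_eq ?_)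
  ring

lemma WW_le {a : ℕ → ℝ} (ha : ∀ m, |a m| ≤ 1) {M Q : ℕ} {X : ℝ} (hX : 0 ≤ X) (r₁ r₂ : ℕ)
    (w₁ w₂ : Qd t c) : |WW χ a M Q X r₁ r₂ w₁ w₂| ≤ 144 * (Q : ℝ) ^ 2 := by
  unfold WW
  refine (dbl ha χ Q (fun m₁ m₂ => m₁ % M = r₁ ∧ m₂ % M = r₂) (fun m₁ m₂ => ps X w₁ w₂ m₁ m₂)
    (B := 16) (by norm_num) (fun m₁ _ m₂ _ => ps_le hX _ _ _ _)).trans (le_of_eq ?_)
  ring

lemma WW_lip {a : ℕ → ℝ} (ha : ∀ m, |a m| ≤ 1) {M Q : ℕ} {X ε : ℝ} (hε : 0 ≤ ε) (r₁ r₂ : ℕ)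
    (w₁ w₂ w₁' w₂' : Qd t c)
    (h : ∀ m₁ ∈ Ioc Q (2 * Q), ∀ m₂ ∈ Ioc Q (2 * Q),
      |ps X w₁ w₂ m₁ m₂ - ps X w₁' w₂' m₁ m₂| ≤ ε) :
    |WW χ a M Q X r₁ r₂ w₁ w₂ - WW χ a M Q X r₁ r₂ w₁' w₂'| ≤ 9 * ε * (Q : ℝ) ^ 2 := by
  have e : WW χ a M Q X r₁ r₂ w₁ w₂ - WW χ a M Q X r₁ r₂ w₁' w₂' =
      ∑ m₁ ∈ Ioc Q (2 * Q), ∑ m₂ ∈ Ioc Q (2 * Q),
      (if m₁ % M = r₁ ∧ m₂ % M = r₂ then ta χ a Q m₁ * ta χ a Q m₂ else 0) *
        (ps X w₁ w₂ m₁ m₂ - ps X w₁' w₂' m₁ m₂) := by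
    unfold WW
    rw [← sum_sub_distrib]
    refine sum_congr rfl fun m₁ _ => ?_
    rw [← sum_sub_distrib]
    refine sum_congr rfl fun m₂ _ => ?_
    ring
  rw [e]
  exact dbl ha χ Q (fun m₁ m₂ => m₁ % M = r₁ ∧ m₂ % M = r₂)
    (fun m₁ m₂ => ps X w₁ w₂ m₁ m₂ - ps X w₁' w₂' m₁ m₂) hε h

/-! ### Residue classes -/

lemma Cg_mod {g M : ℕ} (hg : g ∣ M) (z w : Qd t c) (m₁ m₂ : ℕ) :
    Cg g z w m₁ m₂ ↔ Cg g z w (m₁ % M) (m₂ % M) := by
  unfold Cg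
  have h1 : ∀ m : ℕ, (g : ℤ) ∣ (m : ℤ) - ((m % M : ℕ) : ℤ) := by
    intro m
    have hM : (g : ℤ) ∣ (M : ℤ) := Int.natCast_dvd_natCast.2 hg
    refine hM.trans ?_
    push_cast
    exact Int.dvd_self_sub_emod
  refine and_congr ?_ ?_
  · exact dvd_sub_congr (by rw [← sub_mul]; exact (h1 m₂).mul_right _)
      (by rw [← sub_mul]; exact (h1 m₁).mul_right _)
  · exact dvd_sub_congr (by rw [← sub_mul]; exact (h1 m₂).mul_right _)
      (by rw [← sub_mul]; exact (h1 m₁).mul_right _)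

lemma Cg_congr {g : ℕ} {z z' w w' : Qd t c} (h1 : (g : ℤ) ∣ z.re - z'.re)
    (h2 : (g : ℤ) ∣ z.im - z'.im) (h3 : (g : ℤ) ∣ w.re - w'.re) (h4 : (g : ℤ) ∣ w.im - w'.im)
    (m₁ m₂ : ℕ) : Cg g z w m₁ m₂ ↔ Cg g z' w' m₁ m₂ := by
  unfold Cg
  refine and_congr ?_ ?_
  · exact dvd_sub_congr (by rw [← mul_sub]; exact h1.mul_left _)
      (by rw [← mul_sub]; exact h3.mul_left _)
  · exact dvd_sub_congr (by rw [← mul_sub]; exact h2.mul_left _)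
      (by rw [← mul_sub]; exact h4.mul_left _)

open scoped Classical in
lemma TG_split {g M : ℕ} (hg : g ∣ M) (hM : 1 ≤ M) (a : ℕ → ℝ) (Q : ℕ) (X : ℝ) (z w : Qd t c) :
    TG χ a Q X g z w = ∑ r ∈ range M ×ˢ range M,
      (if Cg g z w r.1 r.2 then WW χ a M Q X r.1 r.2 z w else 0) := by
  have e1 : ∀ r ∈ range M ×ˢ range M, (if Cg g z w r.1 r.2 then WW χ a M Q X r.1 r.2 z w else 0) =
      ∑ m₁ ∈ Ioc Q (2 * Q), ∑ m₂ ∈ Ioc Q (2 * Q),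
        (if Cg g z w r.1 r.2 then
          ((if m₁ % M = r.1 ∧ m₂ % M = r.2 then ta χ a Q m₁ * ta χ a Q m₂ else 0) *
            ps X z w m₁ m₂) else 0) := by
    intro r _
    unfold WW
    split_ifs with h
    · rfl
    · simp
  rw [sum_congr rfl e1, sum_comm]
  unfold TG
  refine sum_congr rfl fun m₁ _ => ?_
  rw [sum_comm]
  refine sum_congr rfl fun m₂ _ => ?_
  rw [sum_eq_single (m₁ % M, m₂ % M)]
  · simp only [and_self, if_true]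
    by_cases h : Cg g z w m₁ m₂
    · rw [if_pos h, if_pos ((Cg_mod hg z w m₁ m₂).1 h)]
    · rw [if_neg h, if_neg (fun h' => h ((Cg_mod hg z w m₁ m₂).2 h')), zero_mul]
  · intro r _ hr
    split_ifs with h1 h2
    · exfalso
      apply hr
      exact Prod.ext h2.1.symm h2.2.symm
    · simp
    · rfl
  · intro h
    exfalso
    apply h
    rw [mem_product, mem_range, mem_range]
    exact ⟨Nat.mod_lt _ (by omega), Nat.mod_lt _ (by omega)⟩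

lemma dt_congr {m : ℤ} {z z' w w' : Qd t c} (h1 : m ∣ z.re - z'.re) (h2 : m ∣ z.im - z'.im)
    (h3 : m ∣ w.re - w'.re) (h4 : m ∣ w.im - w'.im) : m ∣ dt z w - dt z' w' := by
  have e : dt z w - dt z' w' = (z.re - z'.re) * w.im + z'.re * (w.im - w'.im) -
      ((z.im - z'.im) * w.re + z'.im * (w.re - w'.re)) := by
    unfold dt; ring
  rw [e]
  exact dvd_sub (dvd_add (h1.mul_right _) (h4.mul_left _)) (dvd_add (h2.mul_right _) (h3.mul_left _))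

lemma dvd_dt_congr {m : ℤ} {z z' w w' : Qd t c} (h1 : m ∣ z.re - z'.re) (h2 : m ∣ z.im - z'.im)
    (h3 : m ∣ w.re - w'.re) (h4 : m ∣ w.im - w'.im) : m ∣ dt z w ↔ m ∣ dt z' w' := by
  have h := dt_congr h1 h2 h3 h4
  constructor
  · intro k
    have := dvd_sub k h
    simpa using this
  · intro k
    have := dvd_add k h
    simpa using this

/-- the relation -/
def SS (M h g r₁ r₂ : ℕ) (z w : Qd t c) : Prop :=
  Int.gcd (dt z w) M = g ∧ (h : ℤ) ∣ dt z w ∧ Cg g z w r₁ r₂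

lemma gcd_congr {x y : ℤ} {M : ℤ} (h : M ∣ x - y) : Int.gcd x M = Int.gcd y M := by
  obtain ⟨k, hk⟩ := h
  have : x = y + M * k := by linarith
  rw [this, Int.gcd_add_mul_left_left]

lemma SS_congr {M h g : ℕ} (hg : g ∣ M) (r₁ r₂ : ℕ) {z z' w w' : Qd t c}
    (h1 : ((M * h : ℕ) : ℤ) ∣ z.re - z'.re)
    (h2 : ((M * h : ℕ) : ℤ) ∣ z.im - z'.im) (h3 : ((M * h : ℕ) : ℤ) ∣ w.re - w'.re)
    (h4 : ((M * h : ℕ) : ℤ) ∣ w.im - w'.im) : SS M h g r₁ r₂ z w ↔ SS M h g r₁ r₂ z' w' := by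
  have dM : (M : ℤ) ∣ ((M * h : ℕ) : ℤ) := by push_cast; exact dvd_mul_right _ _
  have dh : (h : ℤ) ∣ ((M * h : ℕ) : ℤ) := by push_cast; exact dvd_mul_left _ _
  have dg : (g : ℤ) ∣ ((M * h : ℕ) : ℤ) := (Int.natCast_dvd_natCast.2 hg).trans dM
  unfold SS
  rw [gcd_congr (dt_congr (dM.trans h1) (dM.trans h2) (dM.trans h3) (dM.trans h4)),
    dvd_dt_congr (dh.trans h1) (dh.trans h2) (dh.trans h3) (dh.trans h4),
    Cg_congr (dg.trans h1) (dg.trans h2) (dg.trans h3) (dg.trans h4)]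

lemma fam {M h g : ℕ} (hM : 1 ≤ M) (hh : 1 ≤ h) (hg : g ∣ M) (r₁ r₂ : ℕ) :
    FamP (M * h) (SS M h g r₁ r₂ : Qd t c → Qd t c → Prop) := by
  refine ⟨Nat.mul_pos (by omega) hh, fun w => ?_, ?_⟩
  · intro z z' h1 h2
    exact SS_congr hg r₁ r₂ h1 h2 (by simp) (by simp)
  · intro z w w' h1 h2
    exact SS_congr hg r₁ r₂ (by simp) (by simp) h1 h2

/-- the kernel -/
noncomputable def ker (χ : DirichletCharacter ℂ f) (a : ℕ → ℝ) (M Q : ℕ) (X δ : ℝ) (h g r₁ r₂ : ℕ)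
    (z w : Qd t c) : ℝ :=
  (Nat.totient g : ℝ) / (Nat.totient h : ℝ) * (RR δ Q (dt z w) * WW χ a M Q X r₁ r₂ z w)

/-- the tail -/
noncomputable def tlT (χ : DirichletCharacter ℂ f) (a : ℕ → ℝ) (M Q : ℕ) (X δ : ℝ) (h₀ : ℕ)
    (z w : Qd t c) : ℝ :=
  RR δ Q (dt z w) * ((Nat.totient (Int.gcd (dt z w) M) : ℝ) * (tl h₀ (dt z w).toNat *
    TG χ a Q X (Int.gcd (dt z w) M) z w))

/-- the index set -/
noncomputable def II (M h₀ : ℕ) : Finset ((ℕ × ℕ) × (ℕ × ℕ)) :=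
  (((Icc 1 h₀).filter Squarefree) ×ˢ M.divisors) ×ˢ (range M ×ˢ range M)

open scoped Classical in
lemma expand {M : ℕ} (hM : 1 ≤ M) {δ : ℝ} (hδ : 0 < δ) {Q : ℕ} (hQ : 1 ≤ Q) (a : ℕ → ℝ) (X : ℝ)
    (h₀ : ℕ) (z w : Qd t c) :
    rho δ ((dt z w : ℝ) / Q) * G0a χ a M Q X z w =
      ∑ k ∈ II M h₀, (if SS M k.1.1 k.1.2 k.2.1 k.2.2 z w then
        ker χ a M Q X δ k.1.1 k.1.2 k.2.1 k.2.2 z w else 0) + tlT χ a M Q X δ h₀ z w := by
  rcases le_or_gt (dt z w) 0 with hd | hd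
  · have hd' : (dt z w : ℝ) ≤ 0 := by exact_mod_cast hd
    have hQ' : (0 : ℝ) < Q := by positivity
    have h1 : RR δ Q (dt z w) = 0 := RR_zero hδ hQ (hd'.trans (by positivity))
    have h2 : rho δ ((dt z w : ℝ) / Q) = 0 := by
      apply rho_zero hδ
      exact (div_nonpos_of_nonpos_of_nonneg hd' hQ'.le).trans hδ.le
    rw [h2, zero_mul]
    unfold tlT ker
    rw [h1]
    simp
  · have h1 : 1 ≤ (dt z w).toNat := by omega
    have hdR : (0 : ℝ) < (dt z w : ℝ) := by exact_mod_cast hd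
    have hg : Nat.gcd (dt z w).toNat M = Int.gcd (dt z w) M := by
      rw [Int.gcd_eq_natAbs]
      congr 1
      omega
    obtain ⟨g, hgd⟩ : ∃ g, Int.gcd (dt z w) M = g := ⟨_, rfl⟩
    have hgM : g ∣ M := by
      rw [← hgd]
      have := Int.gcd_dvd_right (dt z w) (M : ℤ)
      exact_mod_cast this
    have hM0 : M ≠ 0 := by omega
    have hφ : (0 : ℝ) < (Nat.totient (dt z w).toNat : ℝ) := by exact_mod_cast Nat.totient_pos.2 h1
    -- the left side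
    have hL : rho δ ((dt z w : ℝ) / Q) * G0a χ a M Q X z w =
        RR δ Q (dt z w) * ((Nat.totient g : ℝ) *
          (((dt z w).toNat : ℝ) / (Nat.totient (dt z w).toNat : ℝ) * TG χ a Q X g z w)) := by
      unfold G0a TG RR
      rw [hg, hgd, toNat_cast hd]
      field_simp
    rw [hL, split h₀ _ h1]
    unfold tlT
    rw [hgd]
    have hmain : RR δ Q (dt z w) * ((Nat.totient g : ℝ) *
        ((∑ h ∈ (Icc 1 h₀).filter Squarefree,
          (if h ∣ (dt z w).toNat then (1 : ℝ) / Nat.totient h else 0)) * TG χ a Q X g z w)) =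
        ∑ k ∈ II M h₀, (if SS M k.1.1 k.1.2 k.2.1 k.2.2 z w then
        ker χ a M Q X δ k.1.1 k.1.2 k.2.1 k.2.2 z w else 0) := by
      unfold II
      rw [sum_product, sum_product, sum_mul, mul_sum, mul_sum]
      refine sum_congr rfl fun h _ => ?_
      rw [sum_eq_single g]
      · rw [TG_split hgM hM, mul_sum, mul_sum, mul_sum]
        refine sum_congr rfl fun r _ => ?_
        have e1 : h ∣ (dt z w).toNat ↔ (h : ℤ) ∣ dt z w := by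
          rw [← Int.natCast_dvd_natCast, Int.toNat_of_nonneg hd.le]
        unfold ker SS
        by_cases a1 : (h : ℤ) ∣ dt z w
        · by_cases a2 : Cg g z w r.1 r.2
          · rw [if_pos (e1.2 a1), if_pos a2, if_pos ⟨hgd, a1, a2⟩]; ring
          · rw [if_pos (e1.2 a1), if_neg a2, if_neg (fun k : (Int.gcd (dt z w) M = g ∧
              (h : ℤ) ∣ dt z w ∧ Cg g z w r.1 r.2) => a2 k.2.2)]; ring
        · rw [if_neg (fun k => a1 (e1.1 k)), if_neg (fun k : (Int.gcd (dt z w) M = g ∧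
              (h : ℤ) ∣ dt z w ∧ Cg g z w r.1 r.2) => a1 k.2.1)]; ring
      · intro g' _ hg'
        apply sum_eq_zero
        intro r _
        rw [if_neg]
        intro k
        exact hg' (k.1.symm.trans hgd)
      · intro h'
        exact absurd (Nat.mem_divisors.2 ⟨hgM, hM0⟩) h'
    rw [← hmain]
    ring

/-! ### Bounds for the kernel -/

lemma cf_le {M h g : ℕ} (hM : 1 ≤ M) (hh : 1 ≤ h) (hg : g ∣ M) :
    |(Nat.totient g : ℝ) / (Nat.totient h : ℝ)| ≤ M := by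
  have h1 : (1 : ℝ) ≤ Nat.totient h := by exact_mod_cast Nat.totient_pos.2 hh
  have h2 : (Nat.totient g : ℝ) ≤ M := by
    exact_mod_cast (Nat.totient_le g).trans (Nat.le_of_dvd (by omega) hg)
  rw [abs_of_nonneg (by positivity), div_le_iff₀ (by linarith)]
  have h3 : (0 : ℝ) ≤ M := by positivity
  nlinarith

lemma ker_le {a : ℕ → ℝ} (ha : ∀ m, |a m| ≤ 1) {M Q : ℕ} {X δ : ℝ} (hM : 1 ≤ M) (hQ : 1 ≤ Q)
    (hX : 0 ≤ X) (hδ : 0 < δ) {h g : ℕ} (r₁ r₂ : ℕ) (hh : 1 ≤ h) (hg : g ∣ M) (z w : Qd t c) :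
    |ker χ a M Q X δ h g r₁ r₂ z w| ≤ 144 * M / δ * Q := by
  have hQ' : (0 : ℝ) < Q := by positivity
  unfold ker
  rw [abs_mul, abs_mul]
  calc _ ≤ (M : ℝ) * (1 / (δ * Q) * (144 * (Q : ℝ) ^ 2)) := by
        refine mul_le_mul (cf_le hM hh hg) (mul_le_mul (RR_le hδ hQ _) (WW_le ha hX _ _ _ _)
          (abs_nonneg _) (by positivity)) (by positivity) (by positivity)
    _ = _ := by field_simp

lemma ker_var {a : ℕ → ℝ} (ha : ∀ m, |a m| ≤ 1) {M Q : ℕ} {X δ ε : ℝ} (hM : 1 ≤ M) (hQ : 1 ≤ Q)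
    (hX : 0 ≤ X) (hδ : 0 < δ) (hδ1 : δ ≤ 1) (hε : 0 ≤ ε) {h g : ℕ} (r₁ r₂ : ℕ) (hh : 1 ≤ h)
    (hg : g ∣ M) (z w z' w' : Qd t c) (hd : |(dt z w : ℝ) - dt z' w'| ≤ ε * Q)
    (hps : δ * Q ≤ (dt z w : ℝ) → δ * Q ≤ (dt z' w' : ℝ) →
      ∀ m₁ ∈ Ioc Q (2 * Q), ∀ m₂ ∈ Ioc Q (2 * Q), |ps X z w m₁ m₂ - ps X z' w' m₁ m₂| ≤ ε) :
    |ker χ a M Q X δ h g r₁ r₂ z w - ker χ a M Q X δ h g r₁ r₂ z' w'| ≤
      M * (297 * ε / δ ^ 2) * Q := by
  have hQ' : (0 : ℝ) < Q := by positivity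
  have e : ker χ a M Q X δ h g r₁ r₂ z w - ker χ a M Q X δ h g r₁ r₂ z' w' =
      (Nat.totient g : ℝ) / (Nat.totient h : ℝ) *
      ((RR δ Q (dt z w) * WW χ a M Q X r₁ r₂ z w) -
        (RR δ Q (dt z' w') * WW χ a M Q X r₁ r₂ z' w')) := by
    unfold ker; ring
  rw [e, abs_mul, mul_assoc]
  refine mul_le_mul (cf_le hM hh hg) ?_ (abs_nonneg _) (by positivity)
  have hR := RR_lip hδ hQ _ _ hd
  have hW := WW_le (χ := χ) (M := M) (Q := Q) ha hX r₁ r₂ z w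
  have hW' := WW_le (χ := χ) (M := M) (Q := Q) ha hX r₁ r₂ z' w'
  have hbound : 2 * ε / (δ ^ 2 * Q) * (144 * (Q : ℝ) ^ 2) = 288 * ε / δ ^ 2 * Q := by
    field_simp
    ring
  have hle : 288 * ε / δ ^ 2 * Q ≤ 297 * ε / δ ^ 2 * Q := by
    gcongr
    norm_num
  rcases le_or_gt (dt z w : ℝ) (δ * Q) with h1 | h1
  · rw [RR_zero hδ hQ h1, zero_mul, zero_sub, abs_neg, abs_mul]
    rw [RR_zero hδ hQ h1, zero_sub, abs_neg] at hR
    calc _ ≤ 2 * ε / (δ ^ 2 * Q) * (144 * (Q : ℝ) ^ 2) :=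
          mul_le_mul hR hW' (abs_nonneg _) (by positivity)
      _ = 288 * ε / δ ^ 2 * Q := hbound
      _ ≤ _ := hle
  · rcases le_or_gt (dt z' w' : ℝ) (δ * Q) with h2 | h2
    · rw [RR_zero hδ hQ h2, zero_mul, sub_zero, abs_mul]
      rw [RR_zero hδ hQ h2, sub_zero] at hR
      calc _ ≤ 2 * ε / (δ ^ 2 * Q) * (144 * (Q : ℝ) ^ 2) :=
            mul_le_mul hR hW (abs_nonneg _) (by positivity)
        _ = 288 * ε / δ ^ 2 * Q := hbound
        _ ≤ _ := hle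
    · have hWd := WW_lip (χ := χ) (M := M) (Q := Q) (X := X) ha hε r₁ r₂ z w z' w'
        (hps h1.le h2.le)
      have e2 : RR δ Q (dt z w) * WW χ a M Q X r₁ r₂ z w -
          RR δ Q (dt z' w') * WW χ a M Q X r₁ r₂ z' w' =
          (RR δ Q (dt z w) - RR δ Q (dt z' w')) * WW χ a M Q X r₁ r₂ z w +
          RR δ Q (dt z' w') * (WW χ a M Q X r₁ r₂ z w - WW χ a M Q X r₁ r₂ z' w') := by ring
      rw [e2]
      refine (abs_add_le _ _).trans ?_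
      rw [abs_mul, abs_mul]
      have a1 : |RR δ Q (dt z w) - RR δ Q (dt z' w')| * |WW χ a M Q X r₁ r₂ z w| ≤
          288 * ε / δ ^ 2 * Q := by
        rw [← hbound]
        exact mul_le_mul hR hW (abs_nonneg _) (by positivity)
      have a2 : |RR δ Q (dt z' w')| * |WW χ a M Q X r₁ r₂ z w - WW χ a M Q X r₁ r₂ z' w'| ≤
          9 * ε / δ ^ 2 * Q := by
        calc _ ≤ 1 / (δ * Q) * (9 * ε * (Q : ℝ) ^ 2) :=
              mul_le_mul (RR_le hδ hQ _) hWd (abs_nonneg _) (by positivity)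
          _ = 9 * ε / δ * Q := by field_simp
          _ ≤ 9 * ε / δ ^ 2 * Q := by
              have : δ ^ 2 ≤ δ := by nlinarith
              gcongr
      calc _ ≤ 288 * ε / δ ^ 2 * Q + 9 * ε / δ ^ 2 * Q := add_le_add a1 a2
        _ = _ := by ring

section
variable [Fact (t ^ 2 < 4 * c)]

open scoped Classical in
lemma core (HF : Fd t c f χ) (hC : S_CORE t c) (hP : S_PSV t c) {A : Qd t c → ℝ}
    (hA : ∀ z, |A z| ≤ 1) (hM' : Mrs A) {K : ℕ} {κ s₁ s₂ C : ℝ} (hK : 1 ≤ K) (hκ : 0 < κ)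
    (hs₁ : 0 < s₁) (h12 : s₁ < s₂) (hs₂ : s₂ ≤ 1) (hCst : Cst t c χ K κ s₁ s₂ C) {M : ℕ}
    (hM : 1 ≤ M) {δ : ℝ} (hδ : 0 < δ) (hδ1 : δ ≤ 1) {h g : ℕ} (r₁ r₂ : ℕ) (hh : 1 ≤ h)
    (hg : g ∣ M) {ε' : ℝ} (hε' : 0 < ε') :
    ∃ Q₀ : ℕ, ∀ Q : ℕ, Q₀ ≤ Q → ∃ X₀ : ℝ, ∀ X : ℝ, X₀ ≤ X → ∀ a : ℕ → ℝ, (∀ m, |a m| ≤ 1) →
      |∑ e ∈ good t c K κ Q X, ∑ w ∈ cw X s₁ s₂ e.1 e.2, ∑ z ∈ cw X s₁ s₂ e.1 e.2,
        (if SS M h g r₁ r₂ z w then A z * A w * ker χ a M Q X δ h g r₁ r₂ z w else 0)| ≤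
        ε' * X * (Q : ℝ) ^ 2 := by
  have hC1 := hCst.one
  have hMR : (1 : ℝ) ≤ M := by exact_mod_cast hM
  have hB : 0 < 144 * (M : ℝ) / δ := by positivity
  obtain ⟨η, hη, hcore⟩ := hC A hA hM' K κ s₁ s₂ hK hκ hs₁ h12 hs₂ (M * h)
    (SS M h g r₁ r₂) (fam hM hh hg r₁ r₂) (144 * M / δ) ε' hB hε'
  obtain ⟨ε'', hε'', hε2⟩ : ∃ ε'' : ℝ, 0 < ε'' ∧ (M : ℝ) * (297 * ε'' / δ ^ 2) = η := by
    refine ⟨η * δ ^ 2 / (297 * M), by positivity, ?_⟩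
    field_simp
  obtain ⟨ε₁, hε₁, hpsv⟩ := hP C s₁ δ ε'' (by linarith) hs₁ hδ hε''
  obtain ⟨Q₀, hQ₀⟩ := hcore ε₁ hε₁
  refine ⟨max Q₀ 1, fun Q hQ => ?_⟩
  have hQ1 : 1 ≤ Q := (le_max_right _ _).trans hQ
  have hQ1R : (1 : ℝ) ≤ Q := by exact_mod_cast hQ1
  obtain ⟨X₀, hX₀⟩ := hQ₀ Q ((le_max_left _ _).trans hQ)
  refine ⟨max X₀ (max (f * (K * Q : ℝ)) (Q / ε₁)), fun X hX a ha => ?_⟩
  have hXa : X₀ ≤ X := (le_max_left _ _).trans hX
  have hXb : f * (K * Q : ℝ) ≤ X := ((le_max_left _ _).trans (le_max_right _ _)).trans hX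
  have hXc : Q / ε₁ ≤ X := ((le_max_right _ _).trans (le_max_right _ _)).trans hX
  have hXQ : (Q : ℝ) ≤ ε₁ * X := by
    rw [div_le_iff₀ hε₁] at hXc
    linarith
  have hX1 : 1 ≤ ε₁ * X := hQ1R.trans hXQ
  have hX0 : 0 < X := by
    by_contra hcon
    push Not at hcon
    nlinarith
  have hKQ : (0 : ℝ) < K * Q := by
    have : (1 : ℝ) ≤ K := by exact_mod_cast hK
    positivity
  have hY : (f : ℝ) ≤ X / (K * Q) := by rw [le_div_iff₀ hKQ]; exact hXb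
  refine hX₀ X hXa (ker χ a M Q X δ h g r₁ r₂) ?_ ?_
  · intro e _ z _ w _
    exact ker_le ha hM hQ1 hX0.le hδ r₁ r₂ hh hg z w
  · intro e he z hz z' hz' w hw hnm hang
    have hcz := mem_cw.1 hz
    have hcz' := mem_cw.1 hz'
    have hcw := mem_cw.1 hw
    have hee := (mem_good.1 he).1
    have hnmle : ∀ v : Qd t c, v ∈ cw X s₁ s₂ e.1 e.2 → s₁ * X < (nm v : ℝ) ∧ (nm v : ℝ) ≤ X := by
      intro v hv
      have := mem_cw.1 hv
      refine ⟨this.2.1, this.2.2.trans ?_⟩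
      nlinarith
    have hdt : ∀ u v : Qd t c, u ∈ cw X s₁ s₂ e.1 e.2 → v ∈ cw X s₁ s₂ e.1 e.2 →
        |(dt u v : ℝ)| ≤ C * Q := by
      intro u v hu hv
      rw [abs_le]
      have b1 := hCst.dtle Q X hQ1 hXb e he u hu v hv
      have b2 := hCst.dtle Q X hQ1 hXb e he v hv u hu
      have b3 : dt v u = - dt u v := by unfold dt; ring
      rw [b3] at b2
      push_cast at b2
      constructor <;> linarith
    obtain ⟨g1, g2⟩ := hpsv Q X z w z' w hQ1 hX1 hXQ (by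
        intro v hv
        simp only [Set.mem_insert_iff, Set.mem_singleton_iff] at hv
        rcases hv with rfl | rfl | rfl | rfl
        · exact hnmle _ hz
        · exact hnmle _ hw
        · exact hnmle _ hz'
        · exact hnmle _ hw)
      (hdt z w hz hw) (hdt z' w hz' hw) hnm (by rw [sub_self, abs_zero]; linarith)
      (pp_cone HF hY hee hcz.1 hcw.1) (pp_cone HF hY hee hcz'.1 hcw.1) hang
      (by rw [sub_self, abs_zero]; positivity)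
    have := ker_var (χ := χ) ha hM hQ1 hX0.le hδ hδ1 hε''.le r₁ r₂ hh hg z w z' w g1 g2
    rw [hε2] at this
    exact this

lemma tlT_le {a : ℕ → ℝ} (ha : ∀ m, |a m| ≤ 1) {M Q : ℕ} {X δ : ℝ} (hM : 1 ≤ M) (hQ : 1 ≤ Q)
    (hX : 0 ≤ X) (hδ : 0 < δ) (h₀ : ℕ) (z w : Qd t c) :
    |tlT χ a M Q X δ h₀ z w| ≤ if 0 < dt z w then (144 * M / δ * Q) * tl h₀ (dt z w).toNat else 0 := by
  have hQ' : (0 : ℝ) < Q := by positivity
  split_ifs with h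
  · unfold tlT
    have h1 : (Nat.totient (Int.gcd (dt z w) M) : ℝ) ≤ M := by
      have h2 : Int.gcd (dt z w) M ∣ M := by
        have := Int.gcd_dvd_right (dt z w) (M : ℤ)
        exact_mod_cast this
      exact_mod_cast (Nat.totient_le _).trans (Nat.le_of_dvd (by omega) h2)
    rw [abs_mul, abs_mul, abs_mul, abs_of_nonneg (tl_nonneg _ _),
      abs_of_nonneg (by positivity : (0 : ℝ) ≤ (Nat.totient (Int.gcd (dt z w) M) : ℝ))]
    have h3 := tl_nonneg h₀ (dt z w).toNat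
    calc _ ≤ 1 / (δ * Q) * ((M : ℝ) * (tl h₀ (dt z w).toNat * (144 * (Q : ℝ) ^ 2))) := by
          refine mul_le_mul (RR_le hδ hQ _) (mul_le_mul h1 (mul_le_mul_of_nonneg_left
            (TG_le ha hX _ _ _) h3) (mul_nonneg h3 (abs_nonneg _)) (by positivity)) ?_ (by positivity)
          exact mul_nonneg (by positivity) (mul_nonneg h3 (abs_nonneg _))
      _ = _ := by field_simp
  · push Not at h
    have hd' : (dt z w : ℝ) ≤ 0 := by exact_mod_cast h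
    unfold tlT
    rw [RR_zero hδ hQ (hd'.trans (by positivity)), zero_mul, abs_zero]

end

theorem btma {t c : ℤ} {f : ℕ} {χ : DirichletCharacter ℂ f} (hF : Fd t c f χ) (hC : S_CORE t c)
    (hP : S_PSV t c) (h2 : S_JB t c χ) (h4 : S_LN t c) (h5 : S_DTB t c f) : S_BTMa t c χ := by
  classical
  haveI : Fact (t ^ 2 < 4 * c) := ⟨Fd_D hF⟩
  intro A hA hM' K κ s₁ s₂ hK hκ hs₁ h12 hs₂ M δ ε hM hδ hδ1 hε
  obtain ⟨C, hCst⟩ := exists_cst (s₂ := s₂) hF h2 h4 h5 hK hκ hs₁ hs₂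
  have hC1 := hCst.one
  have hK' : (1 : ℝ) ≤ K := by exact_mod_cast hK
  have hMR : (1 : ℝ) ≤ M := by exact_mod_cast hM
  obtain ⟨η, hη, hη'⟩ : ∃ η : ℝ, 0 < η ∧ C ^ 4 * (144 * M / δ) * η ≤ ε / 2 := by
    refine ⟨ε / (2 * (C ^ 4 * (144 * M / δ))), by positivity, le_of_eq ?_⟩
    field_simp
  obtain ⟨h₀, htail⟩ := tail_small hη
  obtain ⟨N, hN⟩ : ∃ N : ℝ, N = ((II M h₀).card : ℝ) := ⟨_, rfl⟩
  have hN0 : 0 ≤ N := by rw [hN]; positivity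
  obtain ⟨ε', hε', hε''⟩ : ∃ ε' : ℝ, 0 < ε' ∧ N * ε' ≤ ε / 2 := by
    refine ⟨ε / (2 * (N + 1)), by positivity, ?_⟩
    rw [mul_div_assoc', div_le_div_iff₀ (by positivity) (by norm_num)]
    nlinarith
  obtain ⟨Q₁, hQ₁⟩ := fin_comb2 (II M h₀)
    (fun k Q X => ∀ a : ℕ → ℝ, (∀ m, |a m| ≤ 1) →
      |∑ e ∈ good t c K κ Q X, ∑ w ∈ cw X s₁ s₂ e.1 e.2, ∑ z ∈ cw X s₁ s₂ e.1 e.2,
        (if SS M k.1.1 k.1.2 k.2.1 k.2.2 z w then
          A z * A w * ker χ a M Q X δ k.1.1 k.1.2 k.2.1 k.2.2 z w else 0)| ≤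
        ε' * X * (Q : ℝ) ^ 2)
    (by
      rintro ⟨⟨h, g⟩, ⟨r₁, r₂⟩⟩ hk
      unfold II at hk
      rw [mem_product, mem_product, mem_filter, mem_Icc, Nat.mem_divisors] at hk
      exact core hF hC hP hA hM' hK hκ hs₁ h12 hs₂ hCst hM hδ hδ1 r₁ r₂ hk.1.1.1.1 hk.1.2.1 hε')
  refine ⟨max Q₁ 1, fun Q hQ => ?_⟩
  have hQ1 : 1 ≤ Q := (le_max_right _ _).trans hQ
  have hQ1R : (1 : ℝ) ≤ Q := by exact_mod_cast hQ1
  obtain ⟨X₁, hX₁⟩ := hQ₁ Q ((le_max_left _ _).trans hQ)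
  refine ⟨max X₁ (f * (K * Q : ℝ)), fun X hX a ha => ?_⟩
  have hXa : X₁ ≤ X := (le_max_left _ _).trans hX
  have hXb : f * (K * Q : ℝ) ≤ X := (le_max_right _ _).trans hX
  have h3f : (3 : ℝ) ≤ f := by exact_mod_cast hF.three
  have hKQ1 : (1 : ℝ) ≤ K * Q := by nlinarith
  have hX1 : 1 ≤ X := by nlinarith
  have hcore := hX₁ X hXa
  have e1 : (∑ e ∈ good t c K κ Q X, ∑ w₁ ∈ cw X s₁ s₂ e.1 e.2, ∑ w₂ ∈ cw X s₁ s₂ e.1 e.2,
      A w₁ * A w₂ * (rho δ ((dt w₁ w₂ : ℝ) / Q) * G0a χ a M Q X w₁ w₂)) =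
      (∑ k ∈ II M h₀, ∑ e ∈ good t c K κ Q X, ∑ w ∈ cw X s₁ s₂ e.1 e.2,
        ∑ z ∈ cw X s₁ s₂ e.1 e.2, (if SS M k.1.1 k.1.2 k.2.1 k.2.2 z w then
          A z * A w * ker χ a M Q X δ k.1.1 k.1.2 k.2.1 k.2.2 z w else 0)) +
      (∑ e ∈ good t c K κ Q X, ∑ w ∈ cw X s₁ s₂ e.1 e.2, ∑ z ∈ cw X s₁ s₂ e.1 e.2,
        A z * A w * tlT χ a M Q X δ h₀ z w) := by
    rw [sum_comm (s := II M h₀), ← sum_add_distrib]
    refine sum_congr rfl fun e _ => ?_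
    rw [sum_comm (s := II M h₀), ← sum_add_distrib, sum_comm]
    refine sum_congr rfl fun w _ => ?_
    rw [sum_comm (s := II M h₀), ← sum_add_distrib]
    refine sum_congr rfl fun z _ => ?_
    rw [expand hM hδ hQ1 a X h₀ z w, mul_add, mul_sum]
    congr 1
    refine sum_congr rfl fun k _ => ?_
    split_ifs <;> simp
  rw [e1]
  have k1 : |∑ k ∈ II M h₀, ∑ e ∈ good t c K κ Q X, ∑ w ∈ cw X s₁ s₂ e.1 e.2,
        ∑ z ∈ cw X s₁ s₂ e.1 e.2, (if SS M k.1.1 k.1.2 k.2.1 k.2.2 z w then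
          A z * A w * ker χ a M Q X δ k.1.1 k.1.2 k.2.1 k.2.2 z w else 0)| ≤
      N * (ε' * X * (Q : ℝ) ^ 2) := by
    refine (abs_sum_le_sum_abs _ _).trans ?_
    rw [hN, ← nsmul_eq_mul]
    exact sum_le_card_nsmul _ _ _ fun k hk => hcore k hk a ha
  have k2 : |∑ e ∈ good t c K κ Q X, ∑ w ∈ cw X s₁ s₂ e.1 e.2, ∑ z ∈ cw X s₁ s₂ e.1 e.2,
        A z * A w * tlT χ a M Q X δ h₀ z w| ≤
      (C ^ 4 * (144 * M / δ) * η) * (X * (Q : ℝ) ^ 2) := by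
    have b1 : |∑ e ∈ good t c K κ Q X, ∑ w ∈ cw X s₁ s₂ e.1 e.2, ∑ z ∈ cw X s₁ s₂ e.1 e.2,
        A z * A w * tlT χ a M Q X δ h₀ z w| ≤
        ∑ e ∈ good t c K κ Q X, ∑ w ∈ cw X s₁ s₂ e.1 e.2, ∑ z ∈ cw X s₁ s₂ e.1 e.2,
        |A z * A w * tlT χ a M Q X δ h₀ z w| := by
      refine (abs_sum_le_sum_abs _ _).trans (sum_le_sum fun e _ => ?_)
      refine (abs_sum_le_sum_abs _ _).trans (sum_le_sum fun w _ => ?_)
      exact abs_sum_le_sum_abs _ _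
    refine b1.trans ?_
    refine (weight_sum hCst hQ1 hXb hX1 (fun m => (144 * M / δ * Q) * tl h₀ m)
      (fun m => mul_nonneg (by positivity) (tl_nonneg _ _)) ⌊C * Q⌋₊ _ ?_).trans ?_
    · intro e he w hw z hz
      refine (aa_aa hA z w _).trans ?_
      refine (tlT_le ha hM hQ1 (by linarith) hδ h₀ z w).trans ?_
      by_cases h0 : 0 < dt z w
      · have h3 := hCst.dtle Q X hQ1 hXb e he z hz w hw
        rw [if_pos h0, if_pos ⟨h0, floor_mem h0 h3⟩]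
      · rw [if_neg h0, if_neg (fun k => h0 k.1)]
    · rw [← mul_sum]
      have h1 := htail ⌊C * Q⌋₊
      have h2 : ((⌊C * Q⌋₊ : ℕ) : ℝ) ≤ C * Q := Nat.floor_le (by positivity)
      have h3 : ∑ D ∈ Icc 1 ⌊C * Q⌋₊, tl h₀ D ≤ η * (C * Q) :=
        h1.trans (mul_le_mul_of_nonneg_left h2 (by linarith))
      calc C ^ 3 * X * (144 * M / δ * Q * ∑ D ∈ Icc 1 ⌊C * Q⌋₊, tl h₀ D) ≤
          C ^ 3 * X * (144 * M / δ * Q * (η * (C * Q))) := by gcongr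
        _ = _ := by ring
  have t6 : 0 ≤ X * (Q : ℝ) ^ 2 := by positivity
  have m1 := mul_le_mul_of_nonneg_right hη' t6
  have m3 := mul_le_mul_of_nonneg_right hε'' t6
  refine (abs_add_le _ _).trans ((add_le_add k1 k2).trans ?_)
  calc N * (ε' * X * (Q : ℝ) ^ 2) + (C ^ 4 * (144 * M / δ) * η) * (X * (Q : ℝ) ^ 2) =
      N * ε' * (X * (Q : ℝ) ^ 2) + (C ^ 4 * (144 * M / δ) * η) * (X * (Q : ℝ) ^ 2) := by ring
    _ ≤ ε / 2 * (X * (Q : ℝ) ^ 2) + ε / 2 * (X * (Q : ℝ) ^ 2) := add_le_add m3 m1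
    _ = _ := by ring

end Pool.Agent.N912.ED.N400ELBTMA
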