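import Mathlib
import Pool.Agent.N912.ED.W699EGLsvA
import Pool.Agent.W333.EC.LsvD

/-! Pairs of primes in residue classes, on average (part 4 of LSV). -/

set_option autoImplicit false

namespace Pool.Agent.N912.ED.W699EG

open Finset
open Pool.Agent.N912.ED.W78EG

variable {e : ℕ} {κ : DirichletCharacter ℂ e}

/-- the contribution of the primes dividing `D` -/
theorem bad_pairs (κ : DirichletCharacter ℂ e) {Q D C₀ c : ℕ} (hQ : 1 ≤ Q) (hC : C₀ ≤ Q) (hD : 1 ≤ D) (hDQ : D ≤ C₀ * Q)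
    (t u : ℕ) :
    ∑ m₁ ∈ Ioc Q t, ∑ m₂ ∈ Ioc Q u, (if ¬ m₁.Coprime D ∧ m₂ ≡ c * m₁ [MOD D] then
      th κ Q (m₁ : ℤ) * th κ Q (m₂ : ℤ) else 0) ≤ Real.log (2 * Q) ^ 2 := by
  have hQ1 : (1 : ℝ) ≤ Q := by exact_mod_cast hQ
  have hL : 0 ≤ Real.log (2 * Q) := Real.log_nonneg (by linarith)
  have h1 : ∀ m₁ ∈ Ioc Q t, ∑ m₂ ∈ Ioc Q u, (if ¬ m₁.Coprime D ∧ m₂ ≡ c * m₁ [MOD D] then
      th κ Q (m₁ : ℤ) * th κ Q (m₂ : ℤ) else 0) ≤
      (if ¬ m₁.Coprime D then th κ Q (m₁ : ℤ) else 0) * Real.log (2 * Q) := by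
    intro m₁ _
    by_cases hm : ¬ m₁.Coprime D
    · rw [if_pos hm]
      by_cases h0 : th κ Q (m₁ : ℤ) = 0
      · rw [h0]; simp
      · have hp := mem_PQ.1 (th_ne h0)
        have hpD : m₁ ∣ D := by
          by_contra hc
          exact hm ((Nat.Prime.coprime_iff_not_dvd hp.2.1).2 hc)
        have h2 : ∀ m₂ ∈ Ioc Q u, (if ¬ m₁.Coprime D ∧ m₂ ≡ c * m₁ [MOD D] then
            th κ Q (m₁ : ℤ) * th κ Q (m₂ : ℤ) else 0) ≤
            if m₂ = m₁ then th κ Q (m₁ : ℤ) * Real.log (2 * Q) else 0 := by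
          intro m₂ _
          by_cases h3 : m₂ = m₁
          · rw [if_pos h3]
            split_ifs
            · exact mul_le_mul_of_nonneg_left (th_le κ hQ m₂) (th_nonneg κ Q m₁)
            · exact mul_nonneg (th_nonneg κ Q m₁) hL
          · rw [if_neg h3]
            split_ifs with h4
            · by_cases h5 : th κ Q (m₂ : ℤ) = 0
              · rw [h5, mul_zero]
              · exfalso
                have hp2 := mem_PQ.1 (th_ne h5)
                have h6 : m₁ ∣ m₂ := by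
                  have h7 : m₂ ≡ c * m₁ [MOD m₁] := h4.2.of_dvd hpD
                  have h8 : c * m₁ ≡ 0 [MOD m₁] := (Nat.modEq_zero_iff_dvd).2 (dvd_mul_left _ _)
                  exact (Nat.modEq_zero_iff_dvd).1 (h7.trans h8)
                exact h3 ((Nat.prime_dvd_prime_iff_eq hp.2.1 hp2.2.1).1 h6).symm
            · exact le_rfl
        refine (sum_le_sum h2).trans ?_
        rw [sum_ite_eq']
        split_ifs
        · exact le_rfl
        · exact mul_nonneg (th_nonneg κ Q m₁) hL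
    · rw [if_neg hm, zero_mul]
      exact le_of_eq (sum_eq_zero fun m₂ _ => if_neg fun h => hm h.1)
  refine (sum_le_sum h1).trans ?_
  rw [← sum_mul, ← sum_filter, sq]
  exact mul_le_mul_of_nonneg_right (bad_sum κ hQ hC hD hDQ t) hL

end Pool.Agent.N912.ED.W699EG
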