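import Mathlib
import Pool.Agent.N912.ED.N498ELlsaA

/-! EL/3 (for helper912), part B: one modulus. -/

set_option autoImplicit false

namespace Pool.Agent.N912.ED.N498EL

open Finset
open Pool.Agent.N912.ED.W78EG
open Pool.Agent.N912.ED.W699EG (mem_PQ th_nat th_nonneg th_ne th_le bad_sum bad_pairs orth)

variable {e : ℕ} {κ : DirichletCharacter ℂ e}

/-- the contribution of the characters of large conductor -/
noncomputable def Fo (u : ℕ → ℝ) (M Q t s D : ℕ) (x : ZMod D) : ℂ :=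
  ∑ χ ∈ Om M D, χ x * (SW u Q t χ * SW u Q s χ⁻¹)

theorem good_eq (u : ℕ → ℝ) {M Q t s D b : ℕ} [NeZero D] (hb : b.Coprime D) :
    ((∑ m₁ ∈ Ioc Q t, ∑ m₂ ∈ Ioc Q s, if m₁.Coprime D ∧ m₂.Coprime D then
      kr M D b m₁ m₂ * (u m₁ * u m₂) else 0 : ℝ) : ℂ) =
      1 / (Nat.totient D : ℂ) * Fo u M Q t s D (b : ZMod D) := by
  have h1 : ∀ m₁ m₂ : ℕ, ((if m₁.Coprime D ∧ m₂.Coprime D then
      kr M D b m₁ m₂ * (u m₁ * u m₂) else 0 : ℝ) : ℂ) =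
      ∑ χ ∈ Om M D, 1 / (Nat.totient D : ℂ) * (χ (b : ZMod D) *
        (((u m₁ : ℂ) * χ (m₁ : ZMod D)) * ((u m₂ : ℂ) * χ⁻¹ (m₂ : ZMod D)))) := by
    intro m₁ m₂
    by_cases hm : m₁.Coprime D ∧ m₂.Coprime D
    · rw [if_pos hm]
      push_cast
      rw [kr_eq hb hm.1 hm.2, mul_sum, sum_mul]
      refine sum_congr rfl fun χ _ => ?_
      ring
    · rw [if_neg hm]
      symm
      rw [Complex.ofReal_zero]
      refine sum_eq_zero fun χ _ => ?_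
      by_cases hm1 : m₁.Coprime D
      · have hm2 : ¬ m₂.Coprime D := fun h => hm ⟨hm1, h⟩
        rw [MulChar.map_nonunit χ⁻¹ (fun hu => hm2 ((ZMod.isUnit_iff_coprime m₂ D).mp hu))]
        simp
      · rw [MulChar.map_nonunit χ (fun hu => hm1 ((ZMod.isUnit_iff_coprime m₁ D).mp hu))]
        simp
  rw [Complex.ofReal_sum]
  simp_rw [Complex.ofReal_sum, h1]
  rw [sum_congr rfl fun m₁ _ => sum_comm, sum_comm]
  unfold Fo
  rw [mul_sum]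
  refine sum_congr rfl fun χ _ => ?_
  unfold SW
  rw [sum_mul_sum, mul_sum, mul_sum]
  refine sum_congr rfl fun m₁ _ => ?_
  rw [mul_sum, mul_sum]

theorem kr_abs {M D b m₁ m₂ : ℕ} (hM : 1 ≤ M) : |kr M D b m₁ m₂| ≤
    (if m₂ ≡ b * m₁ [MOD D] then (1 : ℝ) else 0) + (M : ℝ) / (Nat.totient D : ℝ) := by
  unfold kr
  have h1 : (Nat.totient (Nat.gcd D M) : ℝ) / (Nat.totient D : ℝ) ≤ (M : ℝ) / (Nat.totient D : ℝ) := by
    apply div_le_div_of_nonneg_right _ (Nat.cast_nonneg _)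
    exact_mod_cast (Nat.totient_le _).trans (Nat.gcd_le_right D hM)
  have h0 : (0 : ℝ) ≤ (Nat.totient (Nat.gcd D M) : ℝ) / (Nat.totient D : ℝ) := by positivity
  split_ifs <;> rw [abs_le] <;> constructor <;> linarith

theorem bad_le {u : ℕ → ℝ} {M Q D C₀ b : ℕ} (hu : ∀ m : ℕ, |u m| ≤ th κ Q (m : ℤ)) (hM : 1 ≤ M)
    (hQ : 1 ≤ Q) (hC : C₀ ≤ Q) (hD : 1 ≤ D) (hDQ : D ≤ C₀ * Q) (hb : b.Coprime D) {t s : ℕ}
    (ht : t ≤ 2 * Q) (hs : s ≤ 2 * Q) :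
    |∑ m₁ ∈ Ioc Q t, ∑ m₂ ∈ Ioc Q s, (if m₁.Coprime D ∧ m₂.Coprime D then 0 else
      kr M D b m₁ m₂ * (u m₁ * u m₂))| ≤ Real.log (2 * Q) ^ 2 +
      (M : ℝ) / (Nat.totient D : ℝ) * (2 * (Q * Real.log (2 * Q) ^ 2)) := by
  have hQ1 : (1 : ℝ) ≤ Q := by exact_mod_cast hQ
  set L := Real.log (2 * Q) with hL
  have hL0 : 0 ≤ L := Real.log_nonneg (by linarith)
  set r : ℝ := (M : ℝ) / (Nat.totient D : ℝ) with hr
  have hr0 : 0 ≤ r := by positivity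
  have h1 : ∀ m₁ m₂ : ℕ, |(if m₁.Coprime D ∧ m₂.Coprime D then 0 else
      kr M D b m₁ m₂ * (u m₁ * u m₂))| ≤
      (if ¬ m₁.Coprime D ∧ m₂ ≡ b * m₁ [MOD D] then
        th κ Q (m₁ : ℤ) * th κ Q (m₂ : ℤ) else 0) +
      r * ((if ¬ m₁.Coprime D then th κ Q (m₁ : ℤ) else 0) * th κ Q (m₂ : ℤ) +
        th κ Q (m₁ : ℤ) * (if ¬ m₂.Coprime D then th κ Q (m₂ : ℤ) else 0)) := by
    intro m₁ m₂
    have t1 := th_nonneg κ Q m₁
    have t2 := th_nonneg κ Q m₂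
    have t12 : 0 ≤ th κ Q (m₁ : ℤ) * th κ Q (m₂ : ℤ) := mul_nonneg t1 t2
    by_cases hm : m₁.Coprime D ∧ m₂.Coprime D
    · rw [if_pos hm, abs_zero]
      have s1 : (0 : ℝ) ≤ (if ¬ m₁.Coprime D ∧ m₂ ≡ b * m₁ [MOD D] then
        th κ Q (m₁ : ℤ) * th κ Q (m₂ : ℤ) else 0) := by split_ifs <;> first | exact t12 | exact le_rfl
      have s2 : (0 : ℝ) ≤ (if ¬ m₁.Coprime D then th κ Q (m₁ : ℤ) else 0) := by
        split_ifs <;> first | exact t1 | exact le_rfl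
      have s3 : (0 : ℝ) ≤ (if ¬ m₂.Coprime D then th κ Q (m₂ : ℤ) else 0) := by
        split_ifs <;> first | exact t2 | exact le_rfl
      positivity
    · rw [if_neg hm, abs_mul, abs_mul]
      have s1 : |u m₁| * |u m₂| ≤ th κ Q (m₁ : ℤ) * th κ Q (m₂ : ℤ) :=
        mul_le_mul (hu m₁) (hu m₂) (abs_nonneg _) t1
      have s2 : |kr M D b m₁ m₂| * (|u m₁| * |u m₂|) ≤
          ((if m₂ ≡ b * m₁ [MOD D] then (1 : ℝ) else 0) + r) *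
            (th κ Q (m₁ : ℤ) * th κ Q (m₂ : ℤ)) := by
        apply mul_le_mul (kr_abs hM) s1 (by positivity)
        have : (0 : ℝ) ≤ (if m₂ ≡ b * m₁ [MOD D] then (1 : ℝ) else 0) := by
          split_ifs <;> norm_num
        positivity
      refine s2.trans ?_
      rw [add_mul]
      apply add_le_add
      · by_cases h2 : m₂ ≡ b * m₁ [MOD D]
        · have h3 : ¬ m₁.Coprime D := by
            intro h3
            apply hm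
            refine ⟨h3, ?_⟩
            have h4 : (b * m₁).Coprime D := hb.mul_left h3
            rw [Nat.coprime_iff_gcd_eq_one, h2.gcd_eq]
            exact h4
          rw [if_pos h2, if_pos ⟨h3, h2⟩, one_mul]
        · rw [if_neg h2, if_neg (fun h => h2 h.2), zero_mul]
      · apply mul_le_mul_of_nonneg_left _ hr0
        by_cases h3 : m₁.Coprime D
        · have h4 : ¬ m₂.Coprime D := fun h => hm ⟨h3, h⟩
          rw [if_neg (not_not.2 h3), if_pos h4]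
          linarith
        · rw [if_pos h3]
          have s3 : (0 : ℝ) ≤ (if ¬ m₂.Coprime D then th κ Q (m₂ : ℤ) else 0) := by
            split_ifs <;> first | exact t2 | exact le_rfl
          have s4 := mul_nonneg t1 s3
          linarith
  have h2 : |∑ m₁ ∈ Ioc Q t, ∑ m₂ ∈ Ioc Q s, (if m₁.Coprime D ∧ m₂.Coprime D then 0 else
      kr M D b m₁ m₂ * (u m₁ * u m₂))| ≤ ∑ m₁ ∈ Ioc Q t, ∑ m₂ ∈ Ioc Q s,
      ((if ¬ m₁.Coprime D ∧ m₂ ≡ b * m₁ [MOD D] then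
        th κ Q (m₁ : ℤ) * th κ Q (m₂ : ℤ) else 0) +
      r * ((if ¬ m₁.Coprime D then th κ Q (m₁ : ℤ) else 0) * th κ Q (m₂ : ℤ) +
        th κ Q (m₁ : ℤ) * (if ¬ m₂.Coprime D then th κ Q (m₂ : ℤ) else 0))) := by
    refine (abs_sum_le_sum_abs _ _).trans (sum_le_sum fun m₁ _ => ?_)
    exact (abs_sum_le_sum_abs _ _).trans (sum_le_sum fun m₂ _ => h1 m₁ m₂)
  refine h2.trans ?_
  have h3 : ∑ m₁ ∈ Ioc Q t, ∑ m₂ ∈ Ioc Q s,
      ((if ¬ m₁.Coprime D ∧ m₂ ≡ b * m₁ [MOD D] then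
        th κ Q (m₁ : ℤ) * th κ Q (m₂ : ℤ) else 0) +
      r * ((if ¬ m₁.Coprime D then th κ Q (m₁ : ℤ) else 0) * th κ Q (m₂ : ℤ) +
        th κ Q (m₁ : ℤ) * (if ¬ m₂.Coprime D then th κ Q (m₂ : ℤ) else 0))) =
      (∑ m₁ ∈ Ioc Q t, ∑ m₂ ∈ Ioc Q s, (if ¬ m₁.Coprime D ∧ m₂ ≡ b * m₁ [MOD D] then
        th κ Q (m₁ : ℤ) * th κ Q (m₂ : ℤ) else 0)) +
      r * ((∑ m₁ ∈ Ioc Q t, (if ¬ m₁.Coprime D then th κ Q (m₁ : ℤ) else 0)) *
          (∑ m₂ ∈ Ioc Q s, th κ Q (m₂ : ℤ)) +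
        (∑ m₁ ∈ Ioc Q t, th κ Q (m₁ : ℤ)) *
          (∑ m₂ ∈ Ioc Q s, (if ¬ m₂.Coprime D then th κ Q (m₂ : ℤ) else 0))) := by
    rw [sum_mul_sum, sum_mul_sum, ← sum_add_distrib, mul_sum, ← sum_add_distrib]
    refine sum_congr rfl fun m₁ _ => ?_
    rw [← sum_add_distrib, mul_sum, ← sum_add_distrib]
  rw [h3]
  have b1 := bad_pairs κ (c := b) hQ hC hD hDQ t s
  have b2 := bad_sum κ hQ hC hD hDQ t
  have b3 := bad_sum κ hQ hC hD hDQ s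
  rw [sum_filter] at b2 b3
  have b4 := sum_th_le κ hQ ht
  have b5 := sum_th_le κ hQ hs
  have n2 : 0 ≤ ∑ m₁ ∈ Ioc Q t, (if ¬ m₁.Coprime D then th κ Q (m₁ : ℤ) else 0) :=
    sum_nonneg fun m _ => by split_ifs <;> first | exact th_nonneg κ Q m | exact le_rfl
  have n3 : 0 ≤ ∑ m₁ ∈ Ioc Q s, (if ¬ m₁.Coprime D then th κ Q (m₁ : ℤ) else 0) :=
    sum_nonneg fun m _ => by split_ifs <;> first | exact th_nonneg κ Q m | exact le_rfl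
  have n4 : 0 ≤ ∑ m ∈ Ioc Q t, th κ Q (m : ℤ) := sum_nonneg fun m _ => th_nonneg κ Q m
  have n5 : 0 ≤ ∑ m ∈ Ioc Q s, th κ Q (m : ℤ) := sum_nonneg fun m _ => th_nonneg κ Q m
  have c1 := mul_le_mul b2 b5 n5 hL0
  have c2 := mul_le_mul b4 b3 n3 (by positivity)
  have c3 : (∑ m₁ ∈ Ioc Q t, (if ¬ m₁.Coprime D then th κ Q (m₁ : ℤ) else 0)) *
          (∑ m₂ ∈ Ioc Q s, th κ Q (m₂ : ℤ)) +
        (∑ m₁ ∈ Ioc Q t, th κ Q (m₁ : ℤ)) *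
          (∑ m₂ ∈ Ioc Q s, (if ¬ m₂.Coprime D then th κ Q (m₂ : ℤ) else 0)) ≤
        2 * (Q * L ^ 2) := by
    rw [← hL] at c1 c2
    calc _ ≤ L * (Q * L) + Q * L * L := add_le_add c1 c2
      _ = _ := by ring
  exact add_le_add b1 (mul_le_mul_of_nonneg_left c3 hr0)

theorem EE_le {u : ℕ → ℝ} {M Q D C₀ b : ℕ} (hu : ∀ m : ℕ, |u m| ≤ th κ Q (m : ℤ)) (hM : 1 ≤ M)
    (hQ : 1 ≤ Q) (hC : C₀ ≤ Q) (hD : 1 ≤ D) (hDQ : D ≤ C₀ * Q) (hb : b.Coprime D) {t s : ℕ}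
    (ht : t ≤ 2 * Q) (hs : s ≤ 2 * Q) :
    |∑ m₁ ∈ Ioc Q t, ∑ m₂ ∈ Ioc Q s, kr M D b m₁ m₂ * (u m₁ * u m₂)| ≤ Real.log (2 * Q) ^ 2 +
      (M : ℝ) / (Nat.totient D : ℝ) * (2 * (Q * Real.log (2 * Q) ^ 2)) +
      1 / (Nat.totient D : ℝ) * ‖Fo u M Q t s D (b : ZMod D)‖ := by
  have : NeZero D := ⟨by omega⟩
  have h1 : ∑ m₁ ∈ Ioc Q t, ∑ m₂ ∈ Ioc Q s, kr M D b m₁ m₂ * (u m₁ * u m₂) =
      ∑ m₁ ∈ Ioc Q t, ∑ m₂ ∈ Ioc Q s, (if m₁.Coprime D ∧ m₂.Coprime D then 0 else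
        kr M D b m₁ m₂ * (u m₁ * u m₂)) +
      ∑ m₁ ∈ Ioc Q t, ∑ m₂ ∈ Ioc Q s, (if m₁.Coprime D ∧ m₂.Coprime D then
        kr M D b m₁ m₂ * (u m₁ * u m₂) else 0) := by
    rw [← sum_add_distrib]
    refine sum_congr rfl fun m₁ _ => ?_
    rw [← sum_add_distrib]
    refine sum_congr rfl fun m₂ _ => ?_
    split_ifs <;> simp
  have h2 : |∑ m₁ ∈ Ioc Q t, ∑ m₂ ∈ Ioc Q s, (if m₁.Coprime D ∧ m₂.Coprime D then
        kr M D b m₁ m₂ * (u m₁ * u m₂) else 0)| =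
        1 / (Nat.totient D : ℝ) * ‖Fo u M Q t s D (b : ZMod D)‖ := by
    rw [← Real.norm_eq_abs, ← Complex.norm_real, good_eq u hb, norm_mul]
    congr 1
    rw [norm_div, norm_one, Complex.norm_natCast]
  rw [h1]
  refine (abs_add_le _ _).trans ?_
  rw [h2]
  exact add_le_add (bad_le hu hM hQ hC hD hDQ hb ht hs) le_rfl

/-- the second moment -/
noncomputable def b22 (u : ℕ → ℝ) (M Q t s D : ℕ) : ℝ :=
  ∑ χ ∈ Om M D, ‖SW u Q t χ‖ ^ 2 * ‖SW u Q s χ‖ ^ 2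

theorem b22_nonneg (u : ℕ → ℝ) (M Q t s D : ℕ) : 0 ≤ b22 u M Q t s D :=
  sum_nonneg fun _ _ => by positivity

theorem Fo_sum (u : ℕ → ℝ) (M Q t s D : ℕ) [NeZero D] :
    ∑ c ∈ (range D).filter (fun c => Nat.Coprime c D), ‖Fo u M Q t s D (c : ZMod D)‖ ≤
    Nat.totient D * √(b22 u M Q t s D) := by
  have h1 := Real.sum_mul_le_sqrt_mul_sqrt ((range D).filter (fun c => Nat.Coprime c D))
    (fun _ => (1 : ℝ)) (fun c => ‖Fo u M Q t s D (c : ZMod D)‖)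
  simp only [one_mul, one_pow, sum_const, nsmul_eq_mul, mul_one] at h1
  rw [Pool.Agent.W333.EC.card_res] at h1
  refine h1.trans ?_
  have h2 : ∑ c ∈ (range D).filter (fun c => Nat.Coprime c D),
      ‖Fo u M Q t s D (c : ZMod D)‖ ^ 2 ≤ (Nat.totient D : ℝ) * b22 u M Q t s D := by
    refine (Pool.Agent.W333.EC.sum_cast_le D (fun x => ‖Fo u M Q t s D x‖ ^ 2)
      (fun x => by positivity)).trans ?_
    have h3 := Pool.Agent.W333.EC.parseval (Om M D) (fun χ => SW u Q t χ * SW u Q s χ⁻¹)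
    have h4 : ∑ x : ZMod D, ‖Fo u M Q t s D x‖ ^ 2 =
        ∑ x : ZMod D, ‖∑ χ ∈ Om M D, χ x * (SW u Q t χ * SW u Q s χ⁻¹)‖ ^ 2 := rfl
    rw [h4, h3]
    apply mul_le_mul_of_nonneg_left _ (Nat.cast_nonneg _)
    unfold b22
    refine sum_le_sum fun χ _ => ?_
    rw [norm_mul, norm_SW_inv, mul_pow]
  calc √(Nat.totient D : ℝ) *
      √(∑ c ∈ (range D).filter (fun c => Nat.Coprime c D), ‖Fo u M Q t s D (c : ZMod D)‖ ^ 2) ≤
      √(Nat.totient D : ℝ) * √((Nat.totient D : ℝ) * b22 u M Q t s D) :=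
        mul_le_mul_of_nonneg_left (Real.sqrt_le_sqrt h2) (Real.sqrt_nonneg _)
    _ = Nat.totient D * √(b22 u M Q t s D) := by
        rw [Real.sqrt_mul (Nat.cast_nonneg _), ← mul_assoc, Real.mul_self_sqrt (Nat.cast_nonneg _)]

theorem one_mod {u : ℕ → ℝ} {M Q D C₀ : ℕ} (hu : ∀ m : ℕ, |u m| ≤ th κ Q (m : ℤ)) (hM : 1 ≤ M)
    (hQ : 1 ≤ Q) (hC : C₀ ≤ Q) (hD : 1 ≤ D) (hDQ : D ≤ C₀ * Q) {t s : ℕ}
    (ht : t ≤ 2 * Q) (hs : s ≤ 2 * Q) :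
    ∑ b ∈ (range D).filter (fun b => Nat.Coprime b D),
      |∑ m₁ ∈ Ioc Q t, ∑ m₂ ∈ Ioc Q s, kr M D b m₁ m₂ * (u m₁ * u m₂)| ≤
      ((C₀ * Q : ℕ) : ℝ) * Real.log (2 * Q) ^ 2 + M * (2 * (Q * Real.log (2 * Q) ^ 2)) +
        √(b22 u M Q t s D) := by
  have : NeZero D := ⟨by omega⟩
  have hφ : (0 : ℝ) < Nat.totient D := by exact_mod_cast Nat.totient_pos.2 (by omega)
  have h1 : ∀ b ∈ (range D).filter (fun b => Nat.Coprime b D),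
      |∑ m₁ ∈ Ioc Q t, ∑ m₂ ∈ Ioc Q s, kr M D b m₁ m₂ * (u m₁ * u m₂)| ≤
      (Real.log (2 * Q) ^ 2 + (M : ℝ) / (Nat.totient D : ℝ) * (2 * (Q * Real.log (2 * Q) ^ 2))) +
      1 / (Nat.totient D : ℝ) * ‖Fo u M Q t s D (b : ZMod D)‖ := by
    intro b hb
    rw [mem_filter] at hb
    exact EE_le hu hM hQ hC hD hDQ hb.2 ht hs
  refine (sum_le_sum h1).trans ?_
  rw [sum_add_distrib, sum_const, Pool.Agent.W333.EC.card_res, nsmul_eq_mul, ← mul_sum]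
  have h7 : (Nat.totient D : ℝ) ≤ ((C₀ * Q : ℕ) : ℝ) := by
    exact_mod_cast (Nat.totient_le D).trans hDQ
  have h8 : (Nat.totient D : ℝ) * Real.log (2 * Q) ^ 2 ≤
      ((C₀ * Q : ℕ) : ℝ) * Real.log (2 * Q) ^ 2 :=
    mul_le_mul_of_nonneg_right h7 (by positivity)
  have h9 : (Nat.totient D : ℝ) * (Real.log (2 * Q) ^ 2 +
      (M : ℝ) / (Nat.totient D : ℝ) * (2 * (Q * Real.log (2 * Q) ^ 2))) =
      Nat.totient D * Real.log (2 * Q) ^ 2 + M * (2 * (Q * Real.log (2 * Q) ^ 2)) := by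
    field_simp
  have h10 : 1 / (Nat.totient D : ℝ) *
      ∑ c ∈ (range D).filter (fun c => Nat.Coprime c D), ‖Fo u M Q t s D (c : ZMod D)‖ ≤
      √(b22 u M Q t s D) := by
    rw [one_div, inv_mul_le_iff₀ hφ]
    exact Fo_sum u M Q t s D
  rw [h9]
  linarith

end Pool.Agent.N912.ED.N498EL
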