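import Mathlib
import Pool.Agent.N912.ED.N498ELlsaC

/-! EL/3 (for helper912), part D: `lsa`. -/

set_option autoImplicit false

namespace Pool.Agent.N912.ED.N498EL

open Finset
open Pool.Agent.N912.ED.W78EG
open Pool.Agent.N912.ED.N912EL
open Pool.Agent.N912.ED.W699EG (mem_PQ th_nat th_nonneg th_ne th_le bad_sum bad_pairs orth)

variable {e : ℕ} {κ : DirichletCharacter ℂ e}

theorem P22_large (u : ℕ → ℝ) (Q t s f : ℕ) : P22 u Q t s f ≤
    (PP f (fun ψ => ‖SW u Q t ψ‖ ^ 4) + PP f (fun ψ => ‖SW u Q s ψ‖ ^ 4)) / 2 := by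
  have h1 : P22 u Q t s f ≤ PP f (fun ψ => 1 / 2 * (‖SW u Q t ψ‖ ^ 4 + ‖SW u Q s ψ‖ ^ 4)) := by
    unfold P22
    apply PP_le
    intro ψ
    nlinarith [sq_nonneg (‖SW u Q t ψ‖ ^ 2 - ‖SW u Q s ψ‖ ^ 2)]
  rw [PP_mul, PP_add] at h1
  linarith

theorem P22_small (u : ℕ → ℝ) (Q t s f : ℕ) {b : ℝ} (hb : ∀ ψ : DirichletCharacter ℂ f,
    ‖SW u Q s ψ‖ ≤ b) : P22 u Q t s f ≤ b ^ 2 * PP f (fun ψ => ‖SW u Q t ψ‖ ^ 2) := by
  rw [← PP_mul]
  unfold P22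
  apply PP_le
  intro ψ
  have h1 : ‖SW u Q s ψ‖ ^ 2 ≤ b ^ 2 := pow_le_pow_left₀ (norm_nonneg _) (hb ψ) 2
  have h2 : 0 ≤ ‖SW u Q t ψ‖ ^ 2 := by positivity
  nlinarith

theorem log_large (c : ℝ) : ∃ Q₀ : ℕ, ∀ Q : ℕ, Q₀ ≤ Q → c ≤ Real.log Q := by
  have h := (Real.tendsto_log_atTop.comp
    (tendsto_natCast_atTop_atTop (R := ℝ))).eventually_ge_atTop c
  obtain ⟨Q₀, hQ₀⟩ := Filter.eventually_atTop.1 h
  exact ⟨Q₀, fun Q hQ => hQ₀ Q hQ⟩

theorem ta_le (χ : DirichletCharacter ℂ e) {a : ℕ → ℝ} (ha : ∀ m, |a m| ≤ 1) (Q m : ℕ) :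
    |ta χ a Q (m : ℤ)| ≤ th χ Q (m : ℤ) := by
  unfold ta
  rw [abs_mul, abs_of_nonneg (th_nonneg χ Q m)]
  exact mul_le_of_le_one_left (th_nonneg χ Q m) (ha _)

theorem W_bound (h4 : S_LS4a κ) (hB : S_BES κ) (hS : S_SWC κ) (C₀ : ℕ) (η : ℝ) (hη : 0 < η) :
    ∃ M : ℕ, 1 ≤ M ∧ ∃ Q₀ : ℕ, ∀ Q : ℕ, Q₀ ≤ Q → ∀ a : ℕ → ℝ, (∀ m, |a m| ≤ 1) →
    ∀ x y : ℕ, Q ≤ x → x ≤ 2 * Q → Q ≤ y → y ≤ 2 * Q →
    ∑ D ∈ Icc 1 (C₀ * Q), b22 (fun m => ta κ a Q m) M Q x y D ≤ η * (Q : ℝ) ^ 5 := by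
  obtain ⟨B, C4, Q4, h4'⟩ := h4 C₀ 1
  obtain ⟨CB, QB, hB'⟩ := hB B
  obtain ⟨CS, QS, hS'⟩ := hS.2 0
  obtain ⟨K, hK⟩ := exists_nat_ge (12 * C₀ * (|CS| + 1) ^ 2 * |CB| / η + 1)
  obtain ⟨Q5, hQ5⟩ := Pool.Agent.W333.EC.log_pow_le 4 (576 * C₀ ^ 2 / η)
  obtain ⟨Q6, hQ6⟩ := Pool.Agent.W333.EC.log_pow_le B 1
  obtain ⟨Q7, hQ7⟩ := log_large (12 * C₀ * |C4| / η)
  have hK1 : (1 : ℝ) ≤ K := by
    have : 0 ≤ 12 * C₀ * (|CS| + 1) ^ 2 * |CB| / η := by positivity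
    linarith
  have hK0 : (0 : ℝ) < K := by linarith
  have hKn : 1 ≤ K := by exact_mod_cast hK1
  refine ⟨K.factorial, Nat.factorial_pos K, max (max (max Q4 QB) (max QS Q5))
    (max (max Q6 Q7) (C₀ + 3)), fun Q hQ a ha x y hx1 hx2 hy1 hy2 => ?_⟩
  have g4 : Q4 ≤ Q := by omega
  have gB : QB ≤ Q := by omega
  have gS : QS ≤ Q := by omega
  have g5 : Q5 ≤ Q := by omega
  have g6 : Q6 ≤ Q := by omega
  have g7 : Q7 ≤ Q := by omega
  have hQC : C₀ ≤ Q := by omega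
  have hQn : 3 ≤ Q := by omega
  have hQ1 : 1 ≤ Q := by omega
  have hQpos : (0 : ℝ) < Q := by exact_mod_cast (by omega : 0 < Q)
  have hQr : (3 : ℝ) ≤ Q := by exact_mod_cast hQn
  set l := Real.log Q with hl
  have hl1 : 1 ≤ l := by
    have h1 : Real.log (Real.exp 1) ≤ Real.log Q := by
      apply Real.log_le_log (Real.exp_pos _)
      have := Real.exp_one_lt_d9
      linarith
    rwa [Real.log_exp] at h1
  have hl0 : 0 < l := by linarith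
  set L := Real.log (2 * Q) with hL
  have hL0 : 0 ≤ L := Real.log_nonneg (by linarith)
  have hL2 : L ≤ 2 * l := by
    rw [hL, Real.log_mul (by norm_num) hQpos.ne']
    have h3 : Real.log 2 ≤ Real.log Q := Real.log_le_log (by norm_num) (by linarith)
    linarith
  set u : ℕ → ℝ := fun m => ta κ a Q m with hu'
  have hu : ∀ m : ℕ, |u m| ≤ th κ Q (m : ℤ) := fun m => ta_le κ ha Q m
  have hsum := b22_sum (M := K.factorial) hu hQ1 hQC hx2 hy2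
  set N := C₀ * Q with hN
  have hNr : (N : ℝ) = C₀ * Q := by rw [hN]; push_cast; ring
  have hN0 : (0 : ℝ) ≤ N := Nat.cast_nonneg N
  set b : ℝ := (|CS| + 1) * Q with hb
  have hyb : ∀ {f : ℕ} (ψ : DirichletCharacter ℂ f), ‖SW u Q y ψ‖ ≤ b := by
    intro f ψ
    refine (SW_le hu ψ).trans ?_
    have h1 := (abs_le.1 (hS' Q gS y hy1 hy2)).2
    rw [pow_zero, div_one] at h1
    have h2 : CS * Q ≤ |CS| * Q := mul_le_mul_of_nonneg_right (le_abs_self CS) hQpos.le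
    have h3 : (y : ℝ) ≤ 2 * Q := by exact_mod_cast hy2
    rw [hb]
    linarith
  -- the two ranges
  have e1 : ∑ f ∈ (Icc 1 N).filter (fun f => ¬ f ∣ K.factorial), (N : ℝ) / f * P22 u Q x y f ≤
      N * (|C4| * (Q : ℝ) ^ 4 / l) + N / K * (b ^ 2 * (|CB| * (Q : ℝ) ^ 2)) := by
    rw [← sum_filter_add_sum_filter_not ((Icc 1 N).filter (fun f => ¬ f ∣ K.factorial))
      (fun f : ℕ => l ^ B < (f : ℝ))]
    apply add_le_add
    · have s1 : ∀ f ∈ ((Icc 1 N).filter (fun f => ¬ f ∣ K.factorial)).filter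
          (fun f : ℕ => l ^ B < (f : ℝ)), (N : ℝ) / f * P22 u Q x y f ≤
          N * (1 / (Nat.totient f : ℝ) * ((PP f (fun ψ => ‖SW u Q x ψ‖ ^ 4) +
            PP f (fun ψ => ‖SW u Q y ψ‖ ^ 4)) / 2)) := by
        intro f hf
        rw [mem_filter, mem_filter, mem_Icc] at hf
        have hf1 : (0 : ℝ) < f := by exact_mod_cast (by omega : 0 < f)
        have htf : (0 : ℝ) < Nat.totient f := by exact_mod_cast Nat.totient_pos.2 (by omega)
        have h1 : (1 : ℝ) / f ≤ 1 / (Nat.totient f : ℝ) := by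
          apply one_div_le_one_div_of_le htf
          exact_mod_cast Nat.totient_le f
        have h2 := P22_large u Q x y f
        have h3 := P22_nonneg u Q x y f
        calc (N : ℝ) / f * P22 u Q x y f = N * (1 / f * P22 u Q x y f) := by ring
          _ ≤ _ := by
            apply mul_le_mul_of_nonneg_left _ hN0
            exact mul_le_mul h1 h2 h3 (by positivity)
      refine (sum_le_sum s1).trans ?_
      have s2 : ∑ f ∈ ((Icc 1 N).filter (fun f => ¬ f ∣ K.factorial)).filter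
          (fun f : ℕ => l ^ B < (f : ℝ)),
          (N : ℝ) * (1 / (Nat.totient f : ℝ) * ((PP f (fun ψ => ‖SW u Q x ψ‖ ^ 4) +
            PP f (fun ψ => ‖SW u Q y ψ‖ ^ 4)) / 2)) ≤
          ∑ f ∈ (Icc 1 N).filter (fun f : ℕ => l ^ B < (f : ℝ)),
          (N : ℝ) * (1 / (Nat.totient f : ℝ) * ((PP f (fun ψ => ‖SW u Q x ψ‖ ^ 4) +
            PP f (fun ψ => ‖SW u Q y ψ‖ ^ 4)) / 2)) := by
        apply sum_le_sum_of_subset_of_nonneg
        · intro f hf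
          rw [mem_filter, mem_filter] at hf
          rw [mem_filter]
          exact ⟨hf.1.1, hf.2⟩
        · intro f _ _
          have p1 := PP_nonneg f (fun ψ => ‖SW u Q x ψ‖ ^ 4) (fun _ => by positivity)
          have p2 := PP_nonneg f (fun ψ => ‖SW u Q y ψ‖ ^ 4) (fun _ => by positivity)
          positivity
      refine s2.trans ?_
      rw [← mul_sum]
      apply mul_le_mul_of_nonneg_left _ hN0
      have s3 : ∀ z : ℕ, Q ≤ z → z ≤ 2 * Q →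
          ∑ f ∈ (Icc 1 N).filter (fun f : ℕ => l ^ B < (f : ℝ)),
            1 / (Nat.totient f : ℝ) * PP f (fun ψ => ‖SW u Q z ψ‖ ^ 4) ≤
            |C4| * (Q : ℝ) ^ 4 / l := by
        intro z hz1 hz2
        have h1 := h4' Q g4 a ha z hz1 hz2
        have h2 : C4 * (Q : ℝ) ^ 4 / l ^ 1 ≤ |C4| * (Q : ℝ) ^ 4 / l := by
          rw [pow_one]
          apply div_le_div_of_nonneg_right _ hl0.le
          exact mul_le_mul_of_nonneg_right (le_abs_self C4) (by positivity)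
        exact h1.trans h2
      have s4 := s3 x hx1 hx2
      have s5 := s3 y hy1 hy2
      have s6 : ∑ f ∈ (Icc 1 N).filter (fun f : ℕ => l ^ B < (f : ℝ)),
          (1 / (Nat.totient f : ℝ) * ((PP f (fun ψ => ‖SW u Q x ψ‖ ^ 4) +
            PP f (fun ψ => ‖SW u Q y ψ‖ ^ 4)) / 2)) =
          (∑ f ∈ (Icc 1 N).filter (fun f : ℕ => l ^ B < (f : ℝ)),
            1 / (Nat.totient f : ℝ) * PP f (fun ψ => ‖SW u Q x ψ‖ ^ 4) +
          ∑ f ∈ (Icc 1 N).filter (fun f : ℕ => l ^ B < (f : ℝ)),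
            1 / (Nat.totient f : ℝ) * PP f (fun ψ => ‖SW u Q y ψ‖ ^ 4)) / 2 := by
        rw [← sum_add_distrib, sum_div]
        refine sum_congr rfl fun f _ => ?_
        ring
      rw [s6]
      linarith
    · have hlB : l ^ B ≤ Q := by
        have := hQ6 Q g6
        rw [← hl, one_mul] at this
        exact this
      have s1 : ∀ f ∈ ((Icc 1 N).filter (fun f => ¬ f ∣ K.factorial)).filter
          (fun f : ℕ => ¬ l ^ B < (f : ℝ)), (N : ℝ) / f * P22 u Q x y f ≤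
          N / K * (b ^ 2 * PP f (fun ψ => ‖SW u Q x ψ‖ ^ 2)) := by
        intro f hf
        rw [mem_filter, mem_filter, mem_Icc] at hf
        have hf1 : (0 : ℝ) < f := by exact_mod_cast (by omega : 0 < f)
        have hfK : (K : ℝ) ≤ f := by
          have : K < f := by
            by_contra hc
            exact hf.1.2 (Nat.dvd_factorial (by omega) (by omega))
          exact_mod_cast this.le
        have h2 := P22_small u Q x y f (fun ψ => hyb ψ)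
        have h3 := P22_nonneg u Q x y f
        have h1 : (N : ℝ) / f ≤ N / K := div_le_div_of_nonneg_left hN0 hK0 hfK
        exact mul_le_mul h1 h2 h3 (by positivity)
      refine (sum_le_sum s1).trans ?_
      have s2 : ∑ f ∈ ((Icc 1 N).filter (fun f => ¬ f ∣ K.factorial)).filter
          (fun f : ℕ => ¬ l ^ B < (f : ℝ)),
          (N : ℝ) / K * (b ^ 2 * PP f (fun ψ => ‖SW u Q x ψ‖ ^ 2)) ≤
          ∑ f ∈ (Icc 1 Q).filter (fun f : ℕ => (f : ℝ) ≤ l ^ B),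
          (N : ℝ) / K * (b ^ 2 * PP f (fun ψ => ‖SW u Q x ψ‖ ^ 2)) := by
        apply sum_le_sum_of_subset_of_nonneg
        · intro f hf
          rw [mem_filter, mem_filter, mem_Icc] at hf
          rw [mem_filter, mem_Icc]
          have h1 : (f : ℝ) ≤ l ^ B := not_lt.1 hf.2
          refine ⟨⟨hf.1.1.1, ?_⟩, h1⟩
          exact_mod_cast h1.trans hlB
        · intro f _ _
          have p1 := PP_nonneg f (fun ψ => ‖SW u Q x ψ‖ ^ 2) (fun _ => by positivity)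
          positivity
      refine s2.trans ?_
      rw [← mul_sum, ← mul_sum]
      apply mul_le_mul_of_nonneg_left _ (by positivity)
      apply mul_le_mul_of_nonneg_left _ (by positivity)
      have h1 := hB' Q gB a ha x hx1 hx2
      have h2 : CB * (Q : ℝ) ^ 2 ≤ |CB| * (Q : ℝ) ^ 2 :=
        mul_le_mul_of_nonneg_right (le_abs_self CB) (by positivity)
      exact h1.trans h2
  refine hsum.trans ?_
  have t1 : 4 * (N * (|C4| * (Q : ℝ) ^ 4 / l)) ≤ η / 3 * (Q : ℝ) ^ 5 := by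
    have h1 := hQ7 Q g7
    rw [← hl, div_le_iff₀ hη] at h1
    have h2 : 4 * (N * (|C4| * (Q : ℝ) ^ 4 / l)) = (12 * C₀ * |C4|) / 3 * (Q : ℝ) ^ 5 / l := by
      rw [hNr]; ring
    rw [h2, div_le_iff₀ hl0]
    have h3 : 0 ≤ (Q : ℝ) ^ 5 := by positivity
    nlinarith
  have t2 : 4 * (N / K * (b ^ 2 * (|CB| * (Q : ℝ) ^ 2))) ≤ η / 3 * (Q : ℝ) ^ 5 := by
    have h1 : 12 * C₀ * (|CS| + 1) ^ 2 * |CB| ≤ K * η := by
      rw [← div_le_iff₀ hη]
      linarith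
    have h2 : 4 * (N / K * (b ^ 2 * (|CB| * (Q : ℝ) ^ 2))) =
        (12 * C₀ * (|CS| + 1) ^ 2 * |CB|) / 3 * (Q : ℝ) ^ 5 / K := by
      rw [hNr, hb]; ring
    rw [h2, div_le_iff₀ hK0]
    have h3 : 0 ≤ (Q : ℝ) ^ 5 := by positivity
    nlinarith
  have t3 : 12 * (C₀ : ℝ) ^ 2 * (Q : ℝ) ^ 4 * L ^ 4 ≤ η / 3 * (Q : ℝ) ^ 5 := by
    have h1 := hQ5 Q g5
    rw [← hl] at h1
    have h2 : L ^ 4 ≤ (2 * l) ^ 4 := pow_le_pow_left₀ hL0 hL2 4
    have h3 : 12 * (C₀ : ℝ) ^ 2 * (Q : ℝ) ^ 4 * L ^ 4 ≤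
        12 * (C₀ : ℝ) ^ 2 * (Q : ℝ) ^ 4 * (2 * l) ^ 4 :=
      mul_le_mul_of_nonneg_left h2 (by positivity)
    refine h3.trans ?_
    have h4 : 12 * (C₀ : ℝ) ^ 2 * (Q : ℝ) ^ 4 * (2 * l) ^ 4 =
        η / 3 * (Q : ℝ) ^ 4 * (576 * C₀ ^ 2 / η * l ^ 4) := by
      field_simp
      ring
    rw [h4]
    calc η / 3 * (Q : ℝ) ^ 4 * (576 * C₀ ^ 2 / η * l ^ 4) ≤ η / 3 * (Q : ℝ) ^ 4 * Q :=
          mul_le_mul_of_nonneg_left h1 (by positivity)
      _ = _ := by ring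
  linarith

theorem lsa {t c : ℤ} {f : ℕ} {χ : DirichletCharacter ℂ f} (_hF : Fd t c f χ) (h4 : S_LS4a χ)
    (hB : S_BES χ) (hS : S_SWC χ) : S_LSa χ := by
  intro C₀ δ ε _ hε
  set η : ℝ := ε ^ 2 / (4 * (C₀ + 1)) with hη'
  have hη : 0 < η := by positivity
  obtain ⟨M, hM, Q1, hW⟩ := W_bound h4 hB hS C₀ η hη
  obtain ⟨Q2, hQ2⟩ := Pool.Agent.W333.EC.log_pow_le 2 (8 * (C₀ ^ 2 + 2 * C₀ * M) / ε)
  refine ⟨M, hM, max (max Q1 Q2) (C₀ + 3), fun Q hQ a ha x y hx1 hx2 hy1 hy2 => ?_⟩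
  have g1 : Q1 ≤ Q := by omega
  have g2 : Q2 ≤ Q := by omega
  have hQC : C₀ ≤ Q := by omega
  have hQn : 3 ≤ Q := by omega
  have hQ1 : 1 ≤ Q := by omega
  have hQpos : (0 : ℝ) < Q := by exact_mod_cast (by omega : 0 < Q)
  have hQr : (3 : ℝ) ≤ Q := by exact_mod_cast hQn
  set l := Real.log Q with hl
  set L := Real.log (2 * Q) with hL
  have hL0 : 0 ≤ L := Real.log_nonneg (by linarith)
  have hL2 : L ≤ 2 * l := by
    rw [hL, Real.log_mul (by norm_num) hQpos.ne']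
    have h3 : Real.log 2 ≤ Real.log Q := Real.log_le_log (by norm_num) (by linarith)
    linarith
  set u : ℕ → ℝ := fun m => ta χ a Q m with hu'
  have hu : ∀ m : ℕ, |u m| ≤ th χ Q (m : ℤ) := fun m => ta_le χ ha Q m
  set N := C₀ * Q with hN
  have hNr : (N : ℝ) = C₀ * Q := by rw [hN]; push_cast; ring
  have hN0 : (0 : ℝ) ≤ N := Nat.cast_nonneg N
  have h1 : ∑ D ∈ (Icc 1 N).filter (fun D : ℕ => δ * Q ≤ (D : ℝ)),
      ∑ b ∈ (range D).filter (fun b => Nat.Coprime b D), |EEa χ a M Q D b x y| ≤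
      ∑ D ∈ Icc 1 N, ((N : ℝ) * L ^ 2 + M * (2 * (Q * L ^ 2)) + √(b22 u M Q x y D)) := by
    refine (sum_le_sum_of_subset_of_nonneg (filter_subset _ _) fun D _ _ =>
      sum_nonneg fun b _ => abs_nonneg _).trans ?_
    refine sum_le_sum fun D hD => ?_
    rw [mem_Icc] at hD
    exact one_mod hu hM hQ1 hQC hD.1 hD.2 hx2 hy2
  refine h1.trans ?_
  rw [sum_add_distrib, sum_const, Nat.card_Icc, Nat.add_sub_cancel, nsmul_eq_mul]
  have h2 : ∑ D ∈ Icc 1 N, √(b22 u M Q x y D) ≤ ε / 2 * (Q : ℝ) ^ 3 := by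
    have h5 := Real.sum_mul_le_sqrt_mul_sqrt (Icc 1 N) (fun _ => (1 : ℝ))
      (fun D => √(b22 u M Q x y D))
    simp only [one_mul, one_pow, sum_const, nsmul_eq_mul, mul_one, Nat.card_Icc,
      Nat.add_sub_cancel] at h5
    refine h5.trans ?_
    rw [← Real.sqrt_mul hN0]
    rw [Real.sqrt_le_left (by positivity)]
    have h6 : ∑ D ∈ Icc 1 N, √(b22 u M Q x y D) ^ 2 = ∑ D ∈ Icc 1 N, b22 u M Q x y D :=
      sum_congr rfl fun D _ => Real.sq_sqrt (b22_nonneg u M Q x y D)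
    rw [h6]
    have h7 := hW Q g1 a ha x y hx1 hx2 hy1 hy2
    have h8 : (N : ℝ) * ∑ D ∈ Icc 1 N, b22 u M Q x y D ≤ N * (η * (Q : ℝ) ^ 5) :=
      mul_le_mul_of_nonneg_left h7 hN0
    refine h8.trans ?_
    have h9 : (C₀ : ℝ) * η ≤ ε ^ 2 / 4 := by
      rw [hη']
      rw [← mul_div_assoc, div_le_div_iff₀ (by positivity) (by norm_num)]
      have : 0 ≤ ε ^ 2 := by positivity
      nlinarith
    calc (N : ℝ) * (η * (Q : ℝ) ^ 5) = (C₀ * η) * (Q : ℝ) ^ 6 := by rw [hNr]; ring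
      _ ≤ ε ^ 2 / 4 * (Q : ℝ) ^ 6 := mul_le_mul_of_nonneg_right h9 (by positivity)
      _ = _ := by ring
  have h3 : (N : ℝ) * (N * L ^ 2 + M * (2 * (Q * L ^ 2))) ≤ ε / 2 * (Q : ℝ) ^ 3 := by
    have h4 := hQ2 Q g2
    rw [← hl] at h4
    have h5 : L ^ 2 ≤ (2 * l) ^ 2 := pow_le_pow_left₀ hL0 hL2 2
    have h6 : (N : ℝ) * (N * L ^ 2 + M * (2 * (Q * L ^ 2))) =
        (C₀ ^ 2 + 2 * C₀ * M) * (Q : ℝ) ^ 2 * L ^ 2 := by rw [hNr]; ring
    rw [h6]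
    calc (C₀ ^ 2 + 2 * C₀ * M) * (Q : ℝ) ^ 2 * L ^ 2 ≤
        (C₀ ^ 2 + 2 * C₀ * M) * (Q : ℝ) ^ 2 * (2 * l) ^ 2 :=
          mul_le_mul_of_nonneg_left h5 (by positivity)
      _ = ε / 2 * (Q : ℝ) ^ 2 * (8 * (C₀ ^ 2 + 2 * C₀ * M) / ε * l ^ 2) := by
          field_simp
          ring
      _ ≤ ε / 2 * (Q : ℝ) ^ 2 * Q := mul_le_mul_of_nonneg_left h4 (by positivity)
      _ = _ := by ring
  linarith

end Pool.Agent.N912.ED.N498EL
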