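import Pool.Agent.N912.ED.N912ELStm
import Pool.Agent.N912.ED.W150EGLS4

/-!
Project EL (helper912), EL/1: the fourth moment large sieve with coefficients (port of
`Pool/Agent/W150/EG/LS4.lean`).
-/

set_option autoImplicit false

namespace Pool.Agent.N912.ED.N776EL1

open Finset Filter
open Pool.Agent.N912.ED.W78EG
open Pool.Agent.W154.EC (abel_bound)
open Pool.Agent.N912.ED.W150EG (th_nat PP mem_PP fiber_card)
open Pool.Agent.N912.ED.N912EL

variable {f : ℕ} (χ : DirichletCharacter ℂ f) (a : ℕ → ℝ)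

/-- the coefficients of the square -/
noncomputable def bb (Q t n : ℕ) : ℝ :=
  ∑ e ∈ (PP χ Q t ×ˢ PP χ Q t).filter (fun e => e.1 * e.2 = n),
    (a e.1 * Real.log e.1) * (a e.2 * Real.log e.2)

theorem sum_eq (Q t q : ℕ) (ψ : DirichletCharacter ℂ q) :
    ∑ m ∈ Ioc Q t, (ta χ a Q m : ℂ) * ψ (m : ZMod q) =
      ∑ m ∈ PP χ Q t, ((a m * Real.log m : ℝ) : ℂ) * ψ (m : ZMod q) := by
  unfold PP
  rw [sum_filter]
  refine sum_congr rfl (fun m _ => ?_)
  unfold ta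
  rw [th_nat, Int.toNat_natCast]
  by_cases h : m ∈ PQ χ Q
  · rw [if_pos h, if_pos h]
  · rw [if_neg h, if_neg h]; simp

theorem sq_eq (Q t q : ℕ) (ht : t ≤ 2 * Q) (ψ : DirichletCharacter ℂ q) :
    (∑ m ∈ PP χ Q t, ((a m * Real.log m : ℝ) : ℂ) * ψ (m : ZMod q)) ^ 2 =
      ∑ n ∈ Icc 1 (4 * Q ^ 2), ((bb χ a Q t n : ℝ) : ℂ) * ψ (n : ZMod q) := by
  have hmaps : ∀ e ∈ PP χ Q t ×ˢ PP χ Q t, e.1 * e.2 ∈ Icc 1 (4 * Q ^ 2) := by
    intro e he
    rw [mem_product] at he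
    obtain ⟨h1, h2, h3⟩ := mem_PP χ ht he.1
    obtain ⟨h4, h5, h6⟩ := mem_PP χ ht he.2
    rw [mem_Icc]
    refine ⟨Nat.mul_pos h3.pos h6.pos, ?_⟩
    calc e.1 * e.2 ≤ (2 * Q) * (2 * Q) := Nat.mul_le_mul h2 h5
      _ = 4 * Q ^ 2 := by ring
  rw [sq, sum_mul_sum, ← sum_product', ← sum_fiberwise_of_maps_to hmaps]
  refine sum_congr rfl (fun n _ => ?_)
  unfold bb
  rw [Complex.ofReal_sum, sum_mul]
  refine sum_congr rfl (fun e he => ?_)
  rw [mem_filter] at he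
  rw [← he.2, Nat.cast_mul, map_mul]
  push_cast
  ring

theorem sum_bb_sq (ha : ∀ m, |a m| ≤ 1) (Q t : ℕ) (hQ : 1 ≤ Q) (ht : t ≤ 2 * Q) :
    ∑ n ∈ Icc 1 (4 * Q ^ 2), ‖((bb χ a Q t n : ℝ) : ℂ)‖ ^ 2 ≤ 2 * (Q : ℝ) ^ 2 * Real.log (2 * Q) ^ 4 := by
  have hmaps : ∀ e ∈ PP χ Q t ×ˢ PP χ Q t, e.1 * e.2 ∈ Icc 1 (4 * Q ^ 2) := by
    intro e he
    rw [mem_product] at he
    obtain ⟨h1, h2, h3⟩ := mem_PP χ ht he.1
    obtain ⟨h4, h5, h6⟩ := mem_PP χ ht he.2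
    rw [mem_Icc]
    refine ⟨Nat.mul_pos h3.pos h6.pos, ?_⟩
    calc e.1 * e.2 ≤ (2 * Q) * (2 * Q) := Nat.mul_le_mul h2 h5
      _ = 4 * Q ^ 2 := by ring
  have hQ1 : (1 : ℝ) ≤ Q := by exact_mod_cast hQ
  have hlog : ∀ m ∈ PP χ Q t, 0 ≤ Real.log m ∧ Real.log m ≤ Real.log (2 * Q) := by
    intro m hm
    obtain ⟨h1, h2, h3⟩ := mem_PP χ ht hm
    have hm1 : (1 : ℝ) ≤ m := by exact_mod_cast h3.one_le
    refine ⟨Real.log_nonneg hm1, Real.log_le_log (by linarith) ?_⟩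
    exact_mod_cast h2
  have hcard : ((PP χ Q t).card : ℝ) ≤ Q := by
    have : (PP χ Q t).card ≤ Q := by
      calc (PP χ Q t).card ≤ (Ioc Q t).card := card_filter_le _ _
        _ = t - Q := by simp
        _ ≤ Q := by omega
    exact_mod_cast this
  calc ∑ n ∈ Icc 1 (4 * Q ^ 2), ‖((bb χ a Q t n : ℝ) : ℂ)‖ ^ 2
      = ∑ n ∈ Icc 1 (4 * Q ^ 2), (bb χ a Q t n) ^ 2 := by
        refine sum_congr rfl (fun n _ => ?_)
        rw [Complex.norm_real, Real.norm_eq_abs, sq_abs]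
    _ ≤ ∑ n ∈ Icc 1 (4 * Q ^ 2), 2 *
        ∑ e ∈ (PP χ Q t ×ˢ PP χ Q t).filter (fun e => e.1 * e.2 = n),
          ((a e.1 * Real.log e.1) * (a e.2 * Real.log e.2)) ^ 2 := by
        refine sum_le_sum (fun n _ => ?_)
        unfold bb
        refine le_trans sq_sum_le_card_mul_sum_sq ?_
        refine mul_le_mul_of_nonneg_right ?_ (sum_nonneg (fun _ _ => sq_nonneg _))
        exact_mod_cast fiber_card χ Q t n ht
    _ = 2 * ∑ e ∈ PP χ Q t ×ˢ PP χ Q t, ((a e.1 * Real.log e.1) * (a e.2 * Real.log e.2)) ^ 2 := by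
        rw [← mul_sum, sum_fiberwise_of_maps_to hmaps]
    _ ≤ 2 * ∑ _e ∈ PP χ Q t ×ˢ PP χ Q t, Real.log (2 * Q) ^ 4 := by
        refine mul_le_mul_of_nonneg_left (sum_le_sum (fun e he => ?_)) (by norm_num)
        rw [mem_product] at he
        obtain ⟨a1, a2⟩ := hlog _ he.1
        obtain ⟨a3, a4⟩ := hlog _ he.2
        have b1 : |a e.1 * Real.log e.1| ≤ Real.log (2 * Q) := by
          rw [abs_mul, abs_of_nonneg a1]
          calc |a e.1| * Real.log e.1 ≤ 1 * Real.log e.1 :=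
                mul_le_mul_of_nonneg_right (ha _) a1
            _ ≤ _ := by rw [one_mul]; exact a2
        have b2 : |a e.2 * Real.log e.2| ≤ Real.log (2 * Q) := by
          rw [abs_mul, abs_of_nonneg a3]
          calc |a e.2| * Real.log e.2 ≤ 1 * Real.log e.2 :=
                mul_le_mul_of_nonneg_right (ha _) a3
            _ ≤ _ := by rw [one_mul]; exact a4
        have h5 : |(a e.1 * Real.log e.1) * (a e.2 * Real.log e.2)| ≤
            Real.log (2 * Q) * Real.log (2 * Q) := by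
          rw [abs_mul]
          exact mul_le_mul b1 b2 (abs_nonneg _) ((abs_nonneg _).trans b1)
        have h6 := pow_le_pow_left₀ (abs_nonneg _) h5 2
        rw [sq_abs] at h6
        calc ((a e.1 * Real.log e.1) * (a e.2 * Real.log e.2)) ^ 2
            ≤ (Real.log (2 * Q) * Real.log (2 * Q)) ^ 2 := h6
          _ = Real.log (2 * Q) ^ 4 := by ring
    _ = 2 * ((PP χ Q t).card : ℝ) ^ 2 * Real.log (2 * Q) ^ 4 := by
        rw [sum_const, card_product, nsmul_eq_mul]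
        push_cast
        ring
    _ ≤ 2 * (Q : ℝ) ^ 2 * Real.log (2 * Q) ^ 4 := by
        refine mul_le_mul_of_nonneg_right ?_ (by positivity)
        refine mul_le_mul_of_nonneg_left ?_ (by norm_num)
        exact pow_le_pow_left₀ (Nat.cast_nonneg _) hcard 2

open scoped Classical in
/-- the fourth moment at the modulus `q` -/
noncomputable def S4 (Q t q : ℕ) : ℝ :=
  ∑ ψ ∈ (univ : Finset (DirichletCharacter ℂ q)).filter (fun ψ => ψ.IsPrimitive),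
      ‖∑ m ∈ Ioc Q t, (ta χ a Q m : ℂ) * ψ (m : ZMod q)‖ ^ 4

theorem S4_nonneg (Q t q : ℕ) : 0 ≤ S4 χ a Q t q := sum_nonneg (fun _ _ => by positivity)

theorem large_sieve (ha : ∀ m, |a m| ≤ 1) (Q t F : ℕ) (hQ : 1 ≤ Q) (ht : t ≤ 2 * Q) :
    ∑ q ∈ Icc 1 F, ((q : ℝ) / (Nat.totient q : ℝ)) * S4 χ a Q t q ≤
      6 * (4 * (Q : ℝ) ^ 2 + (F : ℝ) ^ 2) * (2 * (Q : ℝ) ^ 2 * Real.log (2 * Q) ^ 4) := by
  have h := Pool.Agent.Helper112.mult_large_sieve (4 * Q ^ 2) F (fun n => ((bb χ a Q t n : ℝ) : ℂ))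
  have h2 := sum_bb_sq χ a ha Q t hQ ht
  have e1 : ∑ q ∈ Icc 1 F, ((q : ℝ) / (Nat.totient q : ℝ)) * S4 χ a Q t q =
      ∑ g ∈ Icc 1 F, ((g : ℝ) / (Nat.totient g : ℝ)) *
      (open scoped Classical in
        ∑ ψ ∈ (univ : Finset (DirichletCharacter ℂ g)).filter (fun ψ => ψ.IsPrimitive),
        ‖∑ n ∈ Icc 1 (4 * Q ^ 2), ((bb χ a Q t n : ℝ) : ℂ) * ψ (n : ZMod g)‖ ^ 2) := by
    refine sum_congr rfl (fun q _ => ?_)
    congr 1
    unfold S4
    refine sum_congr rfl (fun ψ _ => ?_)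
    rw [sum_eq, ← sq_eq χ a Q t q ht ψ, norm_pow, ← pow_mul]
  rw [e1]
  refine h.trans ?_
  have e2 : ((4 * Q ^ 2 : ℕ) : ℝ) = 4 * (Q : ℝ) ^ 2 := by push_cast; ring
  rw [e2]
  exact mul_le_mul_of_nonneg_left h2 (by positivity)

theorem ls4a : S_LS4a χ := by
  intro C₀ A
  rcases Nat.eq_zero_or_pos C₀ with hC | hC
  · subst hC
    refine ⟨0, 1, 1, ?_⟩
    intro Q hQ a _ t _ _
    simp only [zero_mul]
    rw [show (Icc 1 0 : Finset ℕ) = ∅ from rfl, filter_empty, sum_empty]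
    have : 0 ≤ Real.log Q := Real.log_natCast_nonneg Q
    positivity
  · -- size conditions
    have hlo : (fun x : ℝ => Real.log x ^ (A + 4)) =o[atTop] (id : ℝ → ℝ) :=
      Real.isLittleO_pow_log_id_atTop
    have hev : ∀ᶠ x : ℝ in atTop, Real.log x ^ (A + 4) ≤ x := by
      filter_upwards [hlo.bound one_pos, eventually_ge_atTop (1 : ℝ)] with x hx hx1
      rw [one_mul, Real.norm_eq_abs, id, Real.norm_eq_abs, abs_of_nonneg (by linarith : 0 ≤ x)] at hx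
      exact (le_abs_self _).trans hx
    obtain ⟨Q₁, hQ₁⟩ := (tendsto_natCast_atTop_atTop.eventually hev).exists_forall_of_atTop
    refine ⟨A + 4, 192 * (8 + 2 * C₀), max Q₁ 3, ?_⟩
    intro Q hQ a ha t hQt ht
    have hQ3 : 3 ≤ Q := le_trans (le_max_right _ _) hQ
    have hQ1 : 1 ≤ Q := by omega
    have hQr : (3 : ℝ) ≤ Q := by exact_mod_cast hQ3
    have hlogQ : 1 ≤ Real.log Q := by
      have : Real.log (Real.exp 1) ≤ Real.log Q := by
        refine Real.log_le_log (Real.exp_pos _) ?_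
        have := Real.exp_one_lt_d9
        linarith
      rwa [Real.log_exp] at this
    have hlog0 : 0 < Real.log Q := by linarith
    set l := Real.log Q with hl
    have hlQ : l ^ (A + 4) ≤ Q := hQ₁ Q (le_trans (le_max_left _ _) hQ)
    have hlog2 : Real.log (2 * Q) ≤ 2 * l := by
      rw [Real.log_mul (by norm_num) (by positivity)]
      have : Real.log 2 ≤ l := Real.log_le_log (by norm_num) (by linarith)
      linarith
    have hlog2' : 0 ≤ Real.log (2 * Q) := Real.log_nonneg (by linarith)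
    have hb := abel_bound (l ^ (A + 4)) (4 * (Q : ℝ) ^ 2) (6 * (2 * (Q : ℝ) ^ 2 * Real.log (2 * Q) ^ 4))
      (by positivity) (by positivity) (by positivity) (C₀ * Q) (Nat.mul_pos hC hQ1)
      (fun q => ((q : ℝ) / (Nat.totient q : ℝ)) * S4 χ a Q t q)
      (fun q => mul_nonneg (by positivity) (S4_nonneg χ a Q t q))
      (fun F => by
        refine (large_sieve χ a ha Q t F hQ1 ht).trans (le_of_eq ?_)
        ring)
    have e1 : ∑ q ∈ (Icc 1 (C₀ * Q)).filter (fun q : ℕ => l ^ (A + 4) < (q : ℝ)),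
        1 / (Nat.totient q : ℝ) * S4 χ a Q t q =
        ∑ q ∈ (Icc 1 (C₀ * Q)).filter (fun q : ℕ => l ^ (A + 4) < (q : ℝ)),
          1 / (q : ℝ) * (((q : ℝ) / (Nat.totient q : ℝ)) * S4 χ a Q t q) := by
      refine sum_congr rfl (fun q hq => ?_)
      rw [mem_filter, mem_Icc] at hq
      have hq0 : (q : ℝ) ≠ 0 := by
        have : q ≠ 0 := by omega
        exact_mod_cast this
      field_simp
    have goal1 : ∑ q ∈ (Icc 1 (C₀ * Q)).filter (fun q : ℕ => l ^ (A + 4) < (q : ℝ)),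
        1 / (Nat.totient q : ℝ) * S4 χ a Q t q ≤ 192 * (8 + 2 * C₀) * (Q : ℝ) ^ 4 / l ^ A := by
      rw [e1]
      refine hb.trans ?_
      have hCr : (1 : ℝ) ≤ C₀ := by exact_mod_cast hC
      have hQ0 : (0 : ℝ) < Q := by linarith
      have hLpos : 0 < l ^ (A + 4) := by positivity
      -- the bracket
      have hQL : (Q : ℝ) ≤ (Q : ℝ) ^ 2 / l ^ (A + 4) := by
        rw [le_div_iff₀ hLpos]
        nlinarith
      have hbr : 4 * (Q : ℝ) ^ 2 / l ^ (A + 4) + ((C₀ * Q : ℕ) : ℝ) +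
          4 * (Q : ℝ) ^ 2 / ((C₀ * Q : ℕ) : ℝ) + ((C₀ * Q : ℕ) : ℝ) ≤
          (8 + 2 * C₀) * ((Q : ℝ) ^ 2 / l ^ (A + 4)) := by
        push_cast
        have h1 : 4 * (Q : ℝ) ^ 2 / (C₀ * Q) ≤ 4 * Q := by
          rw [div_le_iff₀ (by positivity)]
          nlinarith
        have h2 : (C₀ : ℝ) * Q ≤ C₀ * ((Q : ℝ) ^ 2 / l ^ (A + 4)) :=
          mul_le_mul_of_nonneg_left hQL (by linarith)
        have h3 : 4 * (Q : ℝ) ^ 2 / l ^ (A + 4) = 4 * ((Q : ℝ) ^ 2 / l ^ (A + 4)) := by ring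
        rw [h3]
        linarith
      have hlog4 : Real.log (2 * Q) ^ 4 ≤ 16 * l ^ 4 := by
        calc Real.log (2 * Q) ^ 4 ≤ (2 * l) ^ 4 := pow_le_pow_left₀ hlog2' hlog2 4
          _ = 16 * l ^ 4 := by ring
      calc 6 * (2 * (Q : ℝ) ^ 2 * Real.log (2 * Q) ^ 4) *
            (4 * (Q : ℝ) ^ 2 / l ^ (A + 4) + ((C₀ * Q : ℕ) : ℝ) +
              4 * (Q : ℝ) ^ 2 / ((C₀ * Q : ℕ) : ℝ) + ((C₀ * Q : ℕ) : ℝ))
          ≤ 6 * (2 * (Q : ℝ) ^ 2 * Real.log (2 * Q) ^ 4) *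
            ((8 + 2 * C₀) * ((Q : ℝ) ^ 2 / l ^ (A + 4))) :=
            mul_le_mul_of_nonneg_left hbr (by positivity)
        _ ≤ 6 * (2 * (Q : ℝ) ^ 2 * (16 * l ^ 4)) *
            ((8 + 2 * C₀) * ((Q : ℝ) ^ 2 / l ^ (A + 4))) := by
            refine mul_le_mul_of_nonneg_right ?_ (by positivity)
            refine mul_le_mul_of_nonneg_left ?_ (by norm_num)
            exact mul_le_mul_of_nonneg_left hlog4 (by positivity)
        _ = 192 * (8 + 2 * C₀) * (Q : ℝ) ^ 4 / l ^ A := by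
            rw [pow_add]
            field_simp
            ring
    exact goal1

end Pool.Agent.N912.ED.N776EL1
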