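import Pool.Agent.N912.ED.N912ELStm

/-!
Project EL (helper912): `Gva = G0a` on average over the pairs in a cone
(port of W239/EG/GG0 by helper239, by helper821).
-/

set_option autoImplicit false

namespace Pool.Agent.N912.ED.N821EL

open Finset Filter
open Pool.Agent.W78.GA (Qd nm prim dt ip lat ball pball edge dedge ang mem_pball)
open Pool.Agent.W78.EC (psi S_ABEL)
open Pool.Agent.N912.ED.W78EG
open Pool.Agent.N912.ED.N912EL

variable {t c : ℤ} {f : ℕ}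

/-- the bound given by summation by parts -/
noncomputable def BB (χ : DirichletCharacter ℂ f) (a : ℕ → ℝ) (M Q D b : ℕ) : ℝ :=
  |EEa χ a M Q D b (2 * Q) (2 * Q)| +
      (∑ i ∈ Ioc Q (2 * Q), (|EEa χ a M Q D b i (2 * Q)| + |EEa χ a M Q D b (2 * Q) i|)) / Q +
      (∑ i ∈ Ioc Q (2 * Q), ∑ u ∈ Ioc Q (2 * Q), |EEa χ a M Q D b i u|) / (Q : ℝ) ^ 2

lemma BB_nonneg (χ : DirichletCharacter ℂ f) (a : ℕ → ℝ) (M Q D b : ℕ) :
    0 ≤ BB χ a M Q D b := by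
  unfold BB
  positivity

/-- one pair -/
lemma pair (χ : DirichletCharacter ℂ f) (h2 : S_ABEL) (h4 : S_GVLa t c χ) {C : ℝ} (hC : 0 < C)
    (h3 : ∀ (Q : ℕ) (X L : ℝ) (w₁ w₂ : Qd t c), 1 ≤ Q → 1 ≤ X → 1 ≤ L →
      (nm w₁ : ℝ) ≤ X → (nm w₂ : ℝ) ≤ X → (Q : ℝ) / L ≤ (dt w₁ w₂ : ℝ) → ∀ Ψ : ℕ → ℕ → ℝ,
      (∀ m₁ m₂, Ψ m₁ m₂ = psi (nm ((m₂ : Qd t c) * w₁ - (m₁ : Qd t c) * w₂) / ((dt w₁ w₂ : ℝ) ^ 2 * X))) →
      ∀ m n, m ∈ Ioc Q (2 * Q) → n ∈ Ioc Q (2 * Q) → |Ψ m n| ≤ C * L ^ 4 ∧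
        |Ψ (m + 1) n - Ψ m n| ≤ C * L ^ 4 / Q ∧ |Ψ m (n + 1) - Ψ m n| ≤ C * L ^ 4 / Q ∧
        |Ψ (m + 1) (n + 1) - Ψ (m + 1) n - Ψ m (n + 1) + Ψ m n| ≤ C * L ^ 4 / (Q : ℝ) ^ 2)
    (a : ℕ → ℝ) (M Q : ℕ) (X L : ℝ) (w₁ w₂ : Qd t c) (hQ : 1 ≤ Q) (hX : 1 ≤ X) (hL : 1 ≤ L)
    (hp₁ : prim w₁)
    (hp₂ : prim w₂) (hw₁ : (nm w₁ : ℝ) ≤ X) (hw₂ : (nm w₂ : ℝ) ≤ X)
    (hd : (Q : ℝ) / L ≤ (dt w₁ w₂ : ℝ)) :
    ∃ b : ℕ, b < (dt w₁ w₂).toNat ∧ Nat.Coprime b (dt w₁ w₂).toNat ∧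
      dt w₁ w₂ ∣ w₂.re - b * w₁.re ∧ dt w₁ w₂ ∣ w₂.im - b * w₁.im ∧
      |Gva χ a Q X w₁ w₂ - G0a χ a M Q X w₁ w₂| ≤
        C * L ^ 4 * BB χ a M Q (dt w₁ w₂).toNat b := by
  have hQ' : (1 : ℝ) ≤ Q := by exact_mod_cast hQ
  have hdpos : 0 < dt w₁ w₂ := by
    have : (0 : ℝ) < (dt w₁ w₂ : ℝ) := lt_of_lt_of_le (by positivity) hd
    exact_mod_cast this
  obtain ⟨b, hc, hcop, hd1, hd2, hxi, hG⟩ := h4 Q X w₁ w₂ hX hp₁ hp₂ hdpos
  refine ⟨b, hc, hcop, hd1, hd2, ?_⟩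
  set D := (dt w₁ w₂).toNat with hD
  have hCg : ∀ m₁ m₂ : ℕ, Cg (Nat.gcd D M) w₁ w₂ m₁ m₂ ↔ m₂ ≡ b * m₁ [MOD Nat.gcd D M] :=
    hxi (Nat.gcd D M) (Nat.gcd_dvd_left D M)
  set Ψ : ℕ → ℕ → ℝ := fun m₁ m₂ =>
    psi (nm ((m₂ : Qd t c) * w₁ - (m₁ : Qd t c) * w₂) / ((dt w₁ w₂ : ℝ) ^ 2 * X)) with hΨ
  set A : ℕ → ℕ → ℝ := fun m n => ((if n ≡ b * m [MOD D] then (1 : ℝ) else 0) -
      (Nat.totient (Nat.gcd D M) : ℝ) / (Nat.totient D : ℝ) *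
        (if n ≡ b * m [MOD Nat.gcd D M] then (1 : ℝ) else 0)) * (ta χ a Q m * ta χ a Q n) with hA
  have hb := h3 Q X L w₁ w₂ hQ hX hL hw₁ hw₂ hd Ψ (fun _ _ => rfl)
  have hab := h2 Q A Ψ (C * L ^ 4) hQ (by positivity) (fun m n hm hn => hb m n hm hn)
    (fun i u => ∑ m ∈ Ioc Q i, ∑ n ∈ Ioc Q u, A m n) (fun _ _ => rfl)
  have hG2 : Gva χ a Q X w₁ w₂ - G0a χ a M Q X w₁ w₂ =
      ∑ m ∈ Ioc Q (2 * Q), ∑ n ∈ Ioc Q (2 * Q), A m n * Ψ m n := by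
    rw [hG]
    unfold G0a
    rw [← hD, Finset.mul_sum, ← Finset.sum_sub_distrib]
    refine Finset.sum_congr rfl fun m _ => ?_
    rw [Finset.mul_sum, ← Finset.sum_sub_distrib]
    refine Finset.sum_congr rfl fun n _ => ?_
    simp only [hA, hΨ, ps, hCg]
    split_ifs <;> ring
  rw [hG2]
  exact hab

/-- sum of the bounds over all classes -/
lemma sum_BB (χ : DirichletCharacter ℂ f) (a : ℕ → ℝ) (M : ℕ) {Q : ℕ} (hQ : 1 ≤ Q) {ι : Type}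
    (T : Finset ι) (d b : ι → ℕ) {R : ℝ}
    (hR : ∀ i u : ℕ, Q ≤ i → i ≤ 2 * Q → Q ≤ u → u ≤ 2 * Q →
      ∑ y ∈ T, |EEa χ a M Q (d y) (b y) i u| ≤ R) :
    ∑ y ∈ T, BB χ a M Q (d y) (b y) ≤ 4 * R := by
  have hQ' : (0 : ℝ) < Q := by exact_mod_cast (by omega : 0 < Q)
  unfold BB
  rw [Finset.sum_add_distrib, Finset.sum_add_distrib, ← Finset.sum_div, ← Finset.sum_div]
  have e1 := hR (2 * Q) (2 * Q) (by omega) le_rfl (by omega) le_rfl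
  have e2 : (∑ y ∈ T, ∑ i ∈ Ioc Q (2 * Q), (|EEa χ a M Q (d y) (b y) i (2 * Q)| +
      |EEa χ a M Q (d y) (b y) (2 * Q) i|)) / Q ≤ 2 * R := by
    rw [div_le_iff₀ hQ', Finset.sum_comm]
    calc ∑ i ∈ Ioc Q (2 * Q), ∑ y ∈ T, (|EEa χ a M Q (d y) (b y) i (2 * Q)| +
          |EEa χ a M Q (d y) (b y) (2 * Q) i|) ≤ ∑ _i ∈ Ioc Q (2 * Q), 2 * R := by
          refine Finset.sum_le_sum fun i ht => ?_
          rw [mem_Ioc] at ht
          rw [Finset.sum_add_distrib]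
          have a1 := hR i (2 * Q) (by omega) (by omega) (by omega) le_rfl
          have a2 := hR (2 * Q) i (by omega) le_rfl (by omega) (by omega)
          linarith
      _ = 2 * R * Q := by
          rw [Finset.sum_const, Nat.card_Ioc, nsmul_eq_mul, show 2 * Q - Q = Q by omega]
          ring
  have e3 : (∑ y ∈ T, ∑ i ∈ Ioc Q (2 * Q), ∑ u ∈ Ioc Q (2 * Q),
      |EEa χ a M Q (d y) (b y) i u|) / (Q : ℝ) ^ 2 ≤ R := by
    rw [div_le_iff₀ (by positivity), Finset.sum_comm]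
    calc ∑ i ∈ Ioc Q (2 * Q), ∑ y ∈ T, ∑ u ∈ Ioc Q (2 * Q), |EEa χ a M Q (d y) (b y) i u|
        ≤ ∑ _i ∈ Ioc Q (2 * Q), ∑ _u ∈ Ioc Q (2 * Q), R := by
          refine Finset.sum_le_sum fun i ht => ?_
          rw [Finset.sum_comm]
          refine Finset.sum_le_sum fun u hu => ?_
          rw [mem_Ioc] at ht hu
          exact hR i u (by omega) (by omega) (by omega) (by omega)
      _ = R * (Q : ℝ) ^ 2 := by
          rw [Finset.sum_const, Finset.sum_const, Nat.card_Ioc, nsmul_eq_mul, nsmul_eq_mul,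
            show 2 * Q - Q = Q by omega]
          ring
  linarith

lemma dt_bound {e : Qd t c × Qd t c} (he : dt e.1 e.2 = 1) {x y x' y' : ℕ} {R : ℝ}
    (hx : (x : ℝ) ^ 2 ≤ R) (hy' : (y' : ℝ) ^ 2 ≤ R) :
    ((dt ((x : Qd t c) * e.1 + (y : Qd t c) * e.2) ((x' : Qd t c) * e.1 + (y' : Qd t c) * e.2) : ℤ) : ℝ) ≤ R := by
  have h1 : dt ((x : Qd t c) * e.1 + (y : Qd t c) * e.2) ((x' : Qd t c) * e.1 + (y' : Qd t c) * e.2) =
      ((x : ℤ) * y' - y * x') * dt e.1 e.2 := by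
    unfold dt
    simp only [QuadraticAlgebra.re_add, QuadraticAlgebra.im_add, QuadraticAlgebra.re_mul,
      QuadraticAlgebra.im_mul, QuadraticAlgebra.re_natCast, QuadraticAlgebra.im_natCast]
    ring
  rw [h1, he]
  push_cast
  have h2 : (x : ℝ) * y' ≤ R := by nlinarith [sq_nonneg ((x : ℝ) - y')]
  have h3 : (0 : ℝ) ≤ (y : ℝ) * x' := by positivity
  linarith

theorem gga {χ : DirichletCharacter ℂ f} (hF : Fd t c f χ) (h1 : S_LSa χ)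
    (h2 : Pool.Agent.W78.EC.S_ABEL) (h3 : S_PSID t c) (h4 : S_GVLa t c χ) (h5 : S_MULT t c f)
    (h6 : S_DTB t c f) : S_GGa t c χ := by
  classical
  intro K κ s₁ δ ε hK hκ hs₁ hδ hδ1 hε
  obtain ⟨C, hC, hpsi⟩ := h3
  set C0 : ℕ := ⌈(K : ℝ) / κ⌉₊ with hC0
  set L : ℝ := 1 / δ with hLdef
  have hL1 : 1 ≤ L := by
    rw [hLdef, le_div_iff₀ hδ]
    linarith
  have hL0 : 0 < L := by linarith
  have hdL : ∀ x : ℝ, x / L = δ * x := by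
    intro x
    rw [hLdef]
    field_simp
  have hK' : (1 : ℝ) ≤ K := by exact_mod_cast hK
  set Mu : ℝ := (4 * ((K : ℝ) / κ * L) + 1) ^ 4 with hMu
  have hMu0 : 0 < Mu := by positivity
  set G : ℝ := Mu * (C * L ^ 4 * 4) with hG
  have hG0 : 0 < G := by positivity
  obtain ⟨M, hM, Q1, hLS⟩ := h1 C0 δ (ε / G) hδ (by positivity)
  refine ⟨M, hM, max Q1 1, fun Q hQ0 a ha1 X hX e he => ?_⟩
  have hQ1 : Q1 ≤ Q := (le_max_left _ _).trans hQ0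
  have hQ : 1 ≤ Q := (le_max_right _ _).trans hQ0
  have hQ' : (1 : ℝ) ≤ Q := by exact_mod_cast hQ
  have hQpos : (0 : ℝ) < Q := by linarith
  have hf3 : (3 : ℝ) ≤ f := by exact_mod_cast hF.three
  have hKQ : (1 : ℝ) ≤ K * Q := by nlinarith
  have hX1 : 1 ≤ X := by nlinarith
  have hD01 : t ^ 2 < 4 * c := by
    have h7 := hF.disc
    have h8 := hF.three
    omega
  have hΔ : (0 : ℝ) < Q / L := by positivity
  -- the edge
  have hedge : dt e.1 e.2 = 1 := by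
    unfold good at he
    rw [mem_filter] at he
    have h := he.1
    unfold edge at h
    rw [mem_filter] at h
    exact h.2.1
  obtain ⟨-, hdtb⟩ := h6 K κ Q X hK hκ hQ hX e he
  set S := cw X s₁ 1 e.1 e.2 with hS
  have hScone : ∀ w ∈ S, w ∈ cone X e.1 e.2 := by
    intro w hw
    rw [hS] at hw
    unfold cw at hw
    exact (mem_filter.1 hw).1
  have hprim : ∀ w ∈ S, prim w ∧ (nm w : ℝ) ≤ X := by
    intro w hw
    have := hScone w hw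
    unfold cone at this
    rw [mem_filter, mem_pball hD01] at this
    exact this.1
  set P := (S ×ˢ S).filter (fun w => (Q : ℝ) / L ≤ (dt w.1 w.2 : ℝ)) with hP
  have hsum : (∑ w₁ ∈ S, ∑ w₂ ∈ S, if δ * Q ≤ (dt w₁ w₂ : ℝ) then
      |Gva χ a Q X w₁ w₂ - G0a χ a M Q X w₁ w₂| else 0) =
      ∑ w ∈ P, |Gva χ a Q X w.1 w.2 - G0a χ a M Q X w.1 w.2| := by
    rw [hP, Finset.sum_filter, Finset.sum_product]
    simp only [hdL]
  rw [hsum]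
  have hpair : ∀ w ∈ P, ∃ b : ℕ, b < (dt w.1 w.2).toNat ∧ Nat.Coprime b (dt w.1 w.2).toNat ∧
      dt w.1 w.2 ∣ w.2.re - b * w.1.re ∧ dt w.1 w.2 ∣ w.2.im - b * w.1.im ∧
      |Gva χ a Q X w.1 w.2 - G0a χ a M Q X w.1 w.2| ≤
        C * L ^ 4 * BB χ a M Q (dt w.1 w.2).toNat b := by
    intro w hw
    rw [hP, mem_filter, mem_product] at hw
    obtain ⟨⟨ha, hb⟩, hd⟩ := hw
    exact pair χ h2 h4 hC hpsi a M Q X L w.1 w.2 hQ hX1 hL1 (hprim _ ha).1 (hprim _ hb).1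
      (hprim _ ha).2 (hprim _ hb).2 hd
  choose! cc hcc using hpair
  set T : Finset (Σ _ : ℕ, ℕ) :=
    ((Icc 1 (C0 * Q)).filter (fun D : ℕ => δ * Q ≤ (D : ℝ))).sigma
    (fun D => (range D).filter (fun b => Nat.Coprime b D)) with hT
  set F : Qd t c × Qd t c → (Σ _ : ℕ, ℕ) := fun w => ⟨(dt w.1 w.2).toNat, cc w⟩ with hF
  have hDpos : ∀ w ∈ P, 0 < dt w.1 w.2 := by
    intro w hw
    rw [hP, mem_filter] at hw
    have : (0 : ℝ) < (dt w.1 w.2 : ℝ) := lt_of_lt_of_le hΔ hw.2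
    exact_mod_cast this
  have hmaps : ∀ w ∈ P, F w ∈ T := by
    intro w hw
    have h0 := hDpos w hw
    obtain ⟨hc1, hc2, -⟩ := hcc w hw
    rw [hP, mem_filter, mem_product] at hw
    obtain ⟨⟨ha, hb⟩, hd⟩ := hw
    rw [hT, mem_sigma, mem_filter, mem_Icc, mem_filter, mem_range]
    refine ⟨⟨⟨?_, ?_⟩, ?_⟩, hc1, hc2⟩
    · show 1 ≤ (dt w.1 w.2).toNat
      omega
    · show (dt w.1 w.2).toNat ≤ C0 * Q
      obtain ⟨x, y, -, -, hx, -, hw1⟩ := hdtb _ (hScone _ ha)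
      obtain ⟨x', y', -, -, -, hy', hw2⟩ := hdtb _ (hScone _ hb)
      have hb1 := dt_bound (y := y) (x' := x') hedge hx hy'
      rw [← hw1, ← hw2] at hb1
      have hb2 : (K : ℝ) * Q / κ ≤ (C0 : ℝ) * Q := by
        have : (K : ℝ) / κ ≤ C0 := Nat.le_ceil _
        calc (K : ℝ) * Q / κ = (K : ℝ) / κ * Q := by ring
          _ ≤ _ := mul_le_mul_of_nonneg_right this hQpos.le
      have hb3 : ((dt w.1 w.2 : ℤ) : ℝ) ≤ ((C0 * Q : ℕ) : ℝ) := by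
        push_cast
        linarith
      have hb4 : dt w.1 w.2 ≤ ((C0 * Q : ℕ) : ℤ) := by exact_mod_cast hb3
      omega
    · show δ * Q ≤ (((dt w.1 w.2).toNat : ℕ) : ℝ)
      have e3 : (((dt w.1 w.2).toNat : ℕ) : ℝ) = (dt w.1 w.2 : ℝ) := by
        exact_mod_cast Int.toNat_of_nonneg h0.le
      rw [e3, ← hdL]
      exact hd
  have hfib : ∀ y ∈ T, ((P.filter (fun w => F w = y)).card : ℝ) ≤ Mu := by
    intro y hy
    rcases (P.filter (fun w => F w = y)).eq_empty_or_nonempty with h0 | ⟨w0, hw0⟩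
    · rw [h0, card_empty, Nat.cast_zero]
      exact hMu0.le
    · rw [mem_filter] at hw0
      obtain ⟨hw0, hFw0⟩ := hw0
      have hy1 : 1 ≤ y.1 := by
        rw [hT, mem_sigma, mem_filter, mem_Icc] at hy
        exact hy.1.1.1
      have hyD : (Q : ℝ) / L ≤ (y.1 : ℝ) := by
        rw [hT, mem_sigma, mem_filter] at hy
        rw [hdL]
        exact hy.1.2
      have hsub : P.filter (fun w => F w = y) ⊆
          (cone X e.1 e.2 ×ˢ cone X e.1 e.2).filter (fun w => dt w.1 w.2 = (y.1 : ℕ) ∧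
            ((y.1 : ℕ) : ℤ) ∣ w.2.re - ((y.2 : ℕ) : ℤ) * w.1.re ∧
            ((y.1 : ℕ) : ℤ) ∣ w.2.im - ((y.2 : ℕ) : ℤ) * w.1.im) := by
        intro w hw
        rw [mem_filter] at hw
        obtain ⟨hw, hFw⟩ := hw
        obtain ⟨-, -, hc3, hc4, -⟩ := hcc w hw
        have e2 := hDpos w hw
        have e1 : (dt w.1 w.2).toNat = y.1 := by rw [← hFw]
        have e3 : cc w = y.2 := by rw [← hFw]
        have e4 : ((y.1 : ℕ) : ℤ) = dt w.1 w.2 := by omega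
        rw [hP, mem_filter, mem_product] at hw
        rw [mem_filter, mem_product]
        refine ⟨⟨hScone _ hw.1.1, hScone _ hw.1.2⟩, e4.symm, ?_, ?_⟩
        · rw [e4, ← e3]; exact hc3
        · rw [e4, ← e3]; exact hc4
      have hcard := h5 K κ Q X y.1 ((y.2 : ℕ) : ℤ) hK hκ hQ hX hy1 e he
      refine (Nat.cast_le.2 (card_le_card hsub)).trans (hcard.trans ?_)
      rw [hMu]
      have hy0 : (0 : ℝ) < (y.1 : ℝ) := lt_of_lt_of_le hΔ hyD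
      have e5 : 4 * ((K : ℝ) * Q / κ) / (y.1 : ℝ) ≤ 4 * ((K : ℝ) / κ * L) := by
        rw [div_le_iff₀ hy0]
        calc 4 * ((K : ℝ) * Q / κ) = 4 * ((K : ℝ) / κ * L) * (Q / L) := by
              field_simp
          _ ≤ _ := mul_le_mul_of_nonneg_left hyD (by positivity)
      exact pow_le_pow_left₀ (by positivity) (by linarith) 4
  have hR : ∀ i u : ℕ, Q ≤ i → i ≤ 2 * Q → Q ≤ u → u ≤ 2 * Q →
      ∑ y ∈ T, |EEa χ a M Q y.1 y.2 i u| ≤ ε / G * (Q : ℝ) ^ 3 := by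
    intro i u ht1 ht2 hu1 hu2
    rw [hT, Finset.sum_sigma]
    exact hLS Q hQ1 a ha1 i u ht1 ht2 hu1 hu2
  have hBB := sum_BB χ a M hQ T (fun y => y.1) (fun y => y.2) hR
  calc ∑ w ∈ P, |Gva χ a Q X w.1 w.2 - G0a χ a M Q X w.1 w.2|
      ≤ ∑ w ∈ P, C * L ^ 4 * BB χ a M Q (F w).1 (F w).2 :=
        Finset.sum_le_sum fun w hw => (hcc w hw).2.2.2.2
    _ = ∑ y ∈ T, ∑ w ∈ P.filter (fun w => F w = y), C * L ^ 4 * BB χ a M Q (F w).1 (F w).2 :=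
        (Finset.sum_fiberwise_of_maps_to hmaps _).symm
    _ = ∑ y ∈ T, ((P.filter (fun w => F w = y)).card : ℝ) *
          (C * L ^ 4 * BB χ a M Q y.1 y.2) := by
        refine Finset.sum_congr rfl fun y _ => ?_
        rw [← nsmul_eq_mul, ← Finset.sum_const]
        refine Finset.sum_congr rfl fun w hw => ?_
        rw [(mem_filter.1 hw).2]
    _ ≤ ∑ y ∈ T, Mu * (C * L ^ 4 * BB χ a M Q y.1 y.2) := by
        refine Finset.sum_le_sum fun y hy => ?_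
        exact mul_le_mul_of_nonneg_right (hfib y hy)
          (mul_nonneg (by positivity) (BB_nonneg _ _ _ _ _ _))
    _ = Mu * (C * L ^ 4 * ∑ y ∈ T, BB χ a M Q y.1 y.2) := by
        rw [Finset.mul_sum, Finset.mul_sum]
    _ ≤ Mu * (C * L ^ 4 * (4 * (ε / G * (Q : ℝ) ^ 3))) := by
        gcongr
    _ = ε * (Q : ℝ) ^ 3 := by
        have : Mu * (C * L ^ 4 * (4 * (ε / G * (Q : ℝ) ^ 3))) = G * (ε / G) * (Q : ℝ) ^ 3 := by
          rw [hG]; ring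
        rw [this, mul_div_cancel₀ _ hG0.ne']

end Pool.Agent.N912.ED.N821EL
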