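import Pool.Agent.N912.ED.W372EGCell

/-!
Project EG (helper78), BTMX: the core estimate. Port of W125/EC/Core, W672/EX/Btmx.
-/

set_option autoImplicit false
set_option linter.all false

namespace Pool.Agent.N912.ED.W372EG

open Finset Filter
open Pool.Agent.W78.GA
open Pool.Agent.N912.ED.W78EG
open Pool.Agent.W125.EC (cel absS nc FFa mem_cel absS_nonneg sum_cel cellA0 lineSum cellA cellB cellC div_totient sqf_le tl tl_nonneg tail_small avg_le split)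

variable {t c : ℤ} {f : ℕ} {χ : DirichletCharacter ℂ f}

section
variable [Fact (t ^ 2 < 4 * c)]

lemma dt_anti (a b : Qd t c) : dt a b = -dt b a := by unfold dt; ring

open scoped Classical in
/-- number of vectors with small determinant, weighted -/
lemma small_card {K : ℕ} {κ s₁ s₂ C : ℝ} (hC : Cst t c χ K κ s₁ s₂ C) {Q : ℕ} {X : ℝ} (hQ : 1 ≤ Q)
    (hX : f * (K * Q : ℝ) ≤ X) {e : Qd t c × Qd t c} (he : e ∈ good t c K κ Q X) {w : Qd t c}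
    (hw : w ∈ cw X s₁ s₂ e.1 e.2) {thr B : ℝ} (hthr : 0 ≤ thr) (hB : 0 ≤ B) :
    ∑ z ∈ cw X s₁ s₂ e.1 e.2, (if 0 < (dt z w : ℝ) ∧ (dt z w : ℝ) < thr then B else 0) ≤
      C * thr * B := by
  have h1 := lineSum (cw X s₁ s₂ e.1 e.2) (fun z => dt z w) (C := C) (fun m => by
    have := hC.line Q X hQ hX e he w hw (-m)
    refine le_trans (le_of_eq ?_) this
    congr 2
    apply filter_congr
    intro z _
    rw [dt_anti z w]
    constructor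
    · intro h; omega
    · intro h; omega) (fun _ => B) (fun _ => hB) ⌊thr⌋₊
  refine (sum_le_sum fun z _ => ?_).trans (h1.trans ?_)
  · by_cases hc : 0 < (dt z w : ℝ) ∧ (dt z w : ℝ) < thr
    · rw [if_pos hc, if_pos]
      have h2 : 0 < dt z w := by exact_mod_cast hc.1
      refine ⟨h2, ?_⟩
      have h3 : (((dt z w).toNat : ℕ) : ℝ) ≤ thr := by
        have h4 : (((dt z w).toNat : ℕ) : ℤ) = dt z w := Int.toNat_of_nonneg h2.le
        have h5 : (((dt z w).toNat : ℕ) : ℝ) = (dt z w : ℝ) := by exact_mod_cast h4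
        rw [h5]; exact hc.2.le
      have h6 := Nat.le_floor h3
      omega
    · rw [if_neg hc]
      split_ifs
      · exact hB
      · exact le_rfl
  · rw [sum_const, Nat.card_Icc, nsmul_eq_mul, Nat.add_sub_cancel]
    have h2 := Nat.floor_le hthr
    have h3 := hC.one
    calc C * ((⌊thr⌋₊ : ℝ) * B) ≤ C * (thr * B) := by gcongr
      _ = _ := by ring

/-- the hypotheses of the geometry at a given level -/
lemma near_mem {K : ℕ} {κ s₁ s₂ : ℝ} (hK : 1 ≤ K) {Q : ℕ} {X : ℝ} (hQ : 1 ≤ Q)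
    (hX1 : 1 ≤ X) {e : Qd t c × Qd t c}
    (he : e ∈ good t c K κ Q X) {I n : ℕ} {α : ℝ} (hα : 0 ≤ α)
    (hn : 1 ≤ n) (hna : 2 * (2 * Real.pi / n) ≤ α * Q / X) :
    ∀ w ∈ cw X s₁ s₂ e.1 e.2, ∀ z ∈ An t c s₁ s₂ X,
      idx s₁ s₂ X I n z = idx s₁ s₂ X I n w → z ∉ cw X s₁ s₂ e.1 e.2 →
      (dt e.1 w : ℝ) ≤ α * Real.sqrt Q ∨ (dt w e.2 : ℝ) ≤ α * Real.sqrt Q := by
  intro w hw z hz hidx hzV
  have hQ' : (1 : ℝ) ≤ Q := by exact_mod_cast hQ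
  have hK' : (1 : ℝ) ≤ K := by exact_mod_cast hK
  have hX0 : 0 < X := by linarith
  obtain ⟨c1, c2, c3⟩ := mem_cw.1 hw
  rw [mem_cone] at c1
  obtain ⟨⟨p1, p2⟩, p3, p4⟩ := mem_An.1 hz
  have hed := mem_edge.1 (mem_good.1 he).1
  have hang : 2 * |ang z - ang w| ≤ α * Q / X := by
    have := aix_close hn (idx_aix hidx)
    linarith
  have hw0 := prim_ne_zero c1.1.1
  have hz0 := prim_ne_zero p1
  have key : ∀ v : Qd t c, (nm v : ℝ) ≤ X / (K * Q) →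
      Real.sqrt (nm v) * Real.sqrt (nm w) * (α * Q / X) ≤ α * Real.sqrt Q := by
    intro v hv
    have h1 : (nm v : ℝ) ≤ X / Q := by
      refine hv.trans ?_
      apply div_le_div_of_nonneg_left hX0.le (by positivity)
      nlinarith
    have h2 : Real.sqrt (nm v) ≤ Real.sqrt X / Real.sqrt Q := by
      rw [← Real.sqrt_div' _ (by positivity)]
      exact Real.sqrt_le_sqrt h1
    have h3 : Real.sqrt (nm w) ≤ Real.sqrt X := Real.sqrt_le_sqrt c1.1.2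
    have h4 : (0 : ℝ) < Real.sqrt Q := Real.sqrt_pos.2 (by linarith)
    have h5 := Real.mul_self_sqrt (by linarith : (0 : ℝ) ≤ Q)
    have h6 := Real.mul_self_sqrt hX0.le
    calc Real.sqrt (nm v) * Real.sqrt (nm w) * (α * Q / X)
        ≤ (Real.sqrt X / Real.sqrt Q) * Real.sqrt X * (α * Q / X) := by gcongr
      _ = (Real.sqrt X * Real.sqrt X) * (α * (Real.sqrt Q * Real.sqrt Q) / X) / Real.sqrt Q := by
          rw [h5]; ring
      _ = α * Real.sqrt Q := by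
          rw [h6]; field_simp
  by_cases hzc : 0 < dt e.1 z
  · right
    have hz2 : dt z e.2 ≤ 0 := by
      by_contra hc
      push Not at hc
      exact hzV (mem_cw.2 ⟨mem_cone.2 ⟨⟨p1, p2⟩, hzc, hc⟩, p3, p4⟩)
    exact (near_r (prim_ne_zero hed.1.2.1) hw0 hz0 hz2 hang).trans (key _ hed.1.2.2)
  · left
    push Not at hzc
    exact (near_l (prim_ne_zero hed.1.1.1) hw0 hz0 hzc hang).trans (key _ hed.1.1.2)

lemma kk_le {K : ℕ} {κ s₁ s₂ C : ℝ} (hC : Cst t c χ K κ s₁ s₂ C) {Q : ℕ} {X : ℝ} (hQ : 1 ≤ Q)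
    (hX : f * (K * Q : ℝ) ≤ X) {e : Qd t c × Qd t c} (he : e ∈ good t c K κ Q X) {z w : Qd t c}
    (hz : z ∈ cw X s₁ s₂ e.1 e.2) (hw : w ∈ cw X s₁ s₂ e.1 e.2) (hd : 0 < (dt z w : ℝ))
    (hxi : 0 ≤ xi χ z w) : |kk Q X z w| ≤ C * Q := by
  have hd' : 0 < dt z w := by exact_mod_cast hd
  have h4 := hC.jb Q X hQ hX e he z hz w hw hd'
  have h5 : (0 : ℝ) ≤ xi χ z w := by exact_mod_cast hxi
  refine le_trans ?_ h4
  have h6 := abs_nonneg (kk Q X z w)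
  have h7 := mul_nonneg h5 h6
  linarith

/-- a level: the parameters and their relations -/
structure Lev (t c : ℤ) {f : ℕ} (χ : DirichletCharacter ℂ f) (K : ℕ) (κ s₁ s₂ C δ α η : ℝ) (Q : ℕ) (X : ℝ) (I n : ℕ) : Prop where
  hK : 1 ≤ K
  hs₁ : 0 < s₁
  h12 : s₁ < s₂
  hs₂ : s₂ ≤ 1
  hC : Cst t c χ K κ s₁ s₂ C
  hδ : 0 < δ
  hη : 0 ≤ η
  hα : 0 < α
  hαδ : α < δ
  hQ : 1 ≤ Q
  hX : f * (K * Q : ℝ) ≤ X
  hX1 : 1 ≤ X
  hI : 1 ≤ I
  hn : 1 ≤ n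
  hna : 2 * (2 * Real.pi / n) ≤ α * Q / X
  hkk : ∀ e ∈ good t c K κ Q X, ∀ z ∈ cw X s₁ s₂ e.1 e.2, ∀ z' ∈ cw X s₁ s₂ e.1 e.2,
    ∀ w ∈ cw X s₁ s₂ e.1 e.2, δ * Q ≤ (dt z w : ℝ) → δ * Q ≤ (dt z' w : ℝ) →
    idx s₁ s₂ X I n z = idx s₁ s₂ X I n z' → |kk Q X z w - kk Q X z' w| ≤ η

lemma cw_An {s₁ s₂ X : ℝ} (a b : Qd t c) : cw X s₁ s₂ a b ⊆ An t c s₁ s₂ X := by
  intro z hz
  obtain ⟨c1, c2, c3⟩ := mem_cw.1 hz
  rw [mem_cone] at c1
  exact mem_An.2 ⟨c1.1, c2, c3⟩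

open scoped Classical in
lemma one_cellX {aa : Qd t c → ℝ} (ha : ∀ z, |aa z| ≤ 1) {K : ℕ} {κ s₁ s₂ C δ α η : ℝ} {Q : ℕ} {X : ℝ} {I n : ℕ}
    (L : Lev t c χ K κ s₁ s₂ C δ α η Q X I n) {M : ℕ} {S : Qd t c → Qd t c → Prop} (hF : Fam χ M S)
    {e : Qd t c × Qd t c} (he : e ∈ good t c K κ Q X) {w : Qd t c} (hw : w ∈ cw X s₁ s₂ e.1 e.2) (p : ℕ × ℕ) :
    |∑ z ∈ cel (cw X s₁ s₂ e.1 e.2) (idx s₁ s₂ X I n) p,
      (if δ * Q ≤ (dt z w : ℝ) ∧ S z w then aa z * kk Q X z w else 0)| ≤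
      (C * Q) * absS (cw X s₁ s₂ e.1 e.2) (idx s₁ s₂ X I n) p (fun z => S z w)
        aa +
      ∑ z ∈ cel (cw X s₁ s₂ e.1 e.2) (idx s₁ s₂ X I n) p, (η +
        if 0 < (dt z w : ℝ) ∧ (dt z w : ℝ) < δ * Q then C * Q else 0) := by
  have hQ' : (1 : ℝ) ≤ Q := by exact_mod_cast L.hQ
  have hC1 := L.hC.one
  have hδ := L.hδ
  have hX0 : 0 < X := by linarith [L.hX1]
  apply cellA (cw X s₁ s₂ e.1 e.2) (idx s₁ s₂ X I n) p (fun z => S z w)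
        (fun z => (dt z w : ℝ)) (fun z => kk Q X z w) aa L.hη (by positivity)
        (fun z => ha z) (by positivity)
  · intro z hz hS hd
    rw [mem_cel] at hz
    exact kk_le L.hC L.hQ L.hX he hz.1 hw hd (hF.xi0 z w hS)
  · intro z hz z' hz' hS hS' hd hd'
    rw [mem_cel] at hz hz'
    exact L.hkk e he z hz.1 z' hz'.1 w hw hd hd' (hz.2.trans hz'.2.symm)
  · intro z hz z' hz' hd
    rw [mem_cel] at hz hz'
    have c1 := (mem_cone.1 (mem_cw.1 hz.1).1).1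
    have d1 := (mem_cone.1 (mem_cw.1 hz'.1).1).1
    have f1 := (mem_cone.1 (mem_cw.1 hw).1).1
    have hid := idx_aix (hz.2.trans hz'.2.symm)
    have := close_pos (w := w) (z := z) (z' := z') (prim_ne_zero f1.1)
          (prim_ne_zero c1.1) (prim_ne_zero d1.1) (X := X) (α := α) (δ := δ) (q := (Q : ℝ)) hX0
          (by linarith) L.hαδ hδ hd c1.2 f1.2 (by
            have k1 := aix_close L.hn hid
            have k2 := L.hna
            linarith)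
    exact_mod_cast this

/-- the sum over the full cells -/
noncomputable def FFX (aa : Qd t c → ℝ) (s₁ s₂ X : ℝ) (I n : ℕ) (S : Qd t c → Qd t c → Prop) (e : Qd t c × Qd t c) (w : Qd t c) : ℝ :=
  FFa (An t c s₁ s₂ X) (cw X s₁ s₂ e.1 e.2) (idx s₁ s₂ X I n) (range I ×ˢ range (n + 1))
    (fun z => S z w) aa

open scoped Classical in
lemma one_pairX {aa : Qd t c → ℝ} (ha : ∀ z, |aa z| ≤ 1) {K : ℕ} {κ s₁ s₂ C δ α η : ℝ} {Q : ℕ} {X : ℝ} {I n : ℕ}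
    (L : Lev t c χ K κ s₁ s₂ C δ α η Q X I n) {M : ℕ} {S : Qd t c → Qd t c → Prop} (hF : Fam χ M S)
    {e : Qd t c × Qd t c} (he : e ∈ good t c K κ Q X) {w : Qd t c} (hw : w ∈ cw X s₁ s₂ e.1 e.2) :
    |∑ z ∈ cw X s₁ s₂ e.1 e.2,
      (if δ * Q ≤ (dt z w : ℝ) ∧ S z w then aa z * aa w * kk Q X z w else 0)| ≤
      (C * Q) * (C * Real.sqrt Q * (α * Real.sqrt Q)) + (C * Q) * FFX aa s₁ s₂ X I n S e w +
      (η * (C * Q) + C * (δ * Q) * (C * Q)) := by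
  have hQ' : (1 : ℝ) ≤ Q := by exact_mod_cast L.hQ
  have hC1 := L.hC.one
  have hδ := L.hδ
  have hα := L.hα
  have hX0 : 0 < X := by linarith [L.hX1]
  have hCQ : 0 ≤ C * Q := by positivity
  have hmaps : ∀ z ∈ cw X s₁ s₂ e.1 e.2, idx s₁ s₂ X I n z ∈ range I ×ˢ range (n + 1) :=
    fun z hz => idx_mem L.hI hX0 L.h12 (cw_An _ _ hz)
  have e1 : ∑ z ∈ cw X s₁ s₂ e.1 e.2,
      (if δ * Q ≤ (dt z w : ℝ) ∧ S z w then aa z * aa w * kk Q X z w else 0) =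
      aa w * ∑ p ∈ range I ×ˢ range (n + 1),
        ∑ z ∈ cel (cw X s₁ s₂ e.1 e.2) (idx s₁ s₂ X I n) p,
      (if δ * Q ≤ (dt z w : ℝ) ∧ S z w then aa z * kk Q X z w else 0) := by
    rw [sum_cel hmaps, mul_sum]
    refine sum_congr rfl fun z _ => ?_
    rw [mul_ite, mul_zero]
    congr 1
    ring
  rw [e1, abs_mul]
  refine (mul_le_of_le_one_left (abs_nonneg _) (ha w)).trans ?_
  have hsum1 : ∑ p ∈ range I ×ˢ range (n + 1),
      ∑ z ∈ cel (cw X s₁ s₂ e.1 e.2) (idx s₁ s₂ X I n) p, (η +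
        if 0 < (dt z w : ℝ) ∧ (dt z w : ℝ) < δ * Q then C * Q else 0) ≤
        η * (C * Q) + C * (δ * Q) * (C * Q) := by
    rw [sum_cel hmaps, sum_add_distrib, sum_const, nsmul_eq_mul]
    refine add_le_add ?_ ?_
    · rw [mul_comm]
      exact mul_le_mul_of_nonneg_left (L.hC.vcard Q X L.hQ L.hX e he) L.hη
    · exact small_card L.hC L.hQ L.hX he hw (by positivity) (by positivity)
  have hB := cellB (An t c s₁ s₂ X) (cw X s₁ s₂ e.1 e.2) (cw_An _ _) (idx s₁ s₂ X I n)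
      (range I ×ˢ range (n + 1)) (fun z hz => idx_mem L.hI hX0 L.h12 hz) (fun z => S z w)
      (fun w => (dt e.1 w : ℝ) ≤ α * Real.sqrt Q ∨ (dt w e.2 : ℝ) ≤ α * Real.sqrt Q)
      aa (fun z => ha z)
      (near_mem L.hK L.hQ L.hX1 he hα.le L.hn L.hna)
  have hnc0 := L.hC.near Q X L.hQ L.hX e he (α * Real.sqrt Q) (by positivity)
  have hnc : nc (cw X s₁ s₂ e.1 e.2)
      (fun w => (dt e.1 w : ℝ) ≤ α * Real.sqrt Q ∨ (dt w e.2 : ℝ) ≤ α * Real.sqrt Q) ≤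
      C * Real.sqrt Q * (α * Real.sqrt Q) := by
    refine le_trans (le_of_eq ?_) hnc0
    unfold nc
    congr!
  have hsc : |∑ p ∈ range I ×ˢ range (n + 1),
        ∑ z ∈ cel (cw X s₁ s₂ e.1 e.2) (idx s₁ s₂ X I n) p,
      (if δ * Q ≤ (dt z w : ℝ) ∧ S z w then aa z * kk Q X z w else 0)| ≤
      (C * Q) * ∑ p ∈ range I ×ˢ range (n + 1),
        absS (cw X s₁ s₂ e.1 e.2) (idx s₁ s₂ X I n) p (fun z => S z w) aa +
      ∑ p ∈ range I ×ˢ range (n + 1),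
      ∑ z ∈ cel (cw X s₁ s₂ e.1 e.2) (idx s₁ s₂ X I n) p, (η +
        if 0 < (dt z w : ℝ) ∧ (dt z w : ℝ) < δ * Q then C * Q else 0) := by
    refine (abs_sum_le_sum_abs _ _).trans ?_
    rw [mul_sum, ← sum_add_distrib]
    exact sum_le_sum fun p _ => one_cellX ha L hF he hw p
  have k1 := mul_le_mul_of_nonneg_left hB hCQ
  have k2 := mul_le_mul_of_nonneg_left hnc hCQ
  rw [mul_add] at k1
  unfold FFX
  linarith

open scoped Classical in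
lemma all_pairsX {aa : Qd t c → ℝ} (ha : ∀ z, |aa z| ≤ 1) {K : ℕ} {κ s₁ s₂ C δ α η : ℝ} {Q : ℕ} {X : ℝ} {I n : ℕ}
    (L : Lev t c χ K κ s₁ s₂ C δ α η Q X I n) {M : ℕ} {S : Qd t c → Qd t c → Prop} (hF : Fam χ M S) {T : ℝ}
    (hmrs : ∑ p ∈ range I ×ˢ range (n + 1), ∑ r ∈ RR t c M,
        absS (An t c s₁ s₂ X) (idx s₁ s₂ X I n) p (fun z => S z r) aa ≤ T) :
    |∑ e ∈ good t c K κ Q X, ∑ w ∈ cw X s₁ s₂ e.1 e.2, ∑ z ∈ cw X s₁ s₂ e.1 e.2,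
      (if δ * Q ≤ (dt z w : ℝ) ∧ S z w then aa z * aa w * kk Q X z w else 0)| ≤
      (C * (X / Q)) * ((C * Q) * ((C * Q) * (C * Real.sqrt Q * (α * Real.sqrt Q)) +
      (η * (C * Q) + C * (δ * Q) * (C * Q)))) + (C * Q) * ((C * Q) * T) := by
  have hQ' : (1 : ℝ) ≤ Q := by exact_mod_cast L.hQ
  have hC1 := L.hC.one
  have hδ := L.hδ
  have hα := L.hα
  have hη := L.hη
  have hX0 : 0 < X := by linarith [L.hX1]
  have hCQ : 0 ≤ C * Q := by positivity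
  have hCsum := cellC (An t c s₁ s₂ X) (good t c K κ Q X) (fun e => cw X s₁ s₂ e.1 e.2)
    (idx s₁ s₂ X I n) (range I ×ˢ range (n + 1)) (RR t c M) S aa (B := C * Q)
    (fun e he => L.hC.vcard Q X L.hQ L.hX e he) hCQ (RR_spec hF) (by
      intro e he f hf z hze hzf
      have h6 := mem_cone.1 (mem_cw.1 hze).1
      have h7 := mem_cone.1 (mem_cw.1 hzf).1
      exact edge_unique (mem_good.1 he).1 (mem_good.1 hf).1 h6.2.1 h6.2.2 h7.2.1 h7.2.2)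
  have hFs : ∑ e ∈ good t c K κ Q X, ∑ w ∈ cw X s₁ s₂ e.1 e.2, FFX aa s₁ s₂ X I n S e w ≤ (C * Q) * T :=
    hCsum.trans (mul_le_mul_of_nonneg_left hmrs hCQ)
  obtain ⟨A, hA⟩ : ∃ A : ℝ, A = (C * Q) * (C * Real.sqrt Q * (α * Real.sqrt Q)) +
      (η * (C * Q) + C * (δ * Q) * (C * Q)) := ⟨_, rfl⟩
  have hA0 : 0 ≤ A := by rw [hA]; positivity
  rw [← hA]
  have hconst : ∑ e ∈ good t c K κ Q X, ∑ _w ∈ cw X s₁ s₂ e.1 e.2, A ≤
      (C * (X / Q)) * ((C * Q) * A) := by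
    calc ∑ e ∈ good t c K κ Q X, ∑ _w ∈ cw X s₁ s₂ e.1 e.2, A ≤
          ∑ _e ∈ good t c K κ Q X, (C * Q) * A := by
          refine sum_le_sum fun e he => ?_
          rw [sum_const, nsmul_eq_mul]
          exact mul_le_mul_of_nonneg_right (L.hC.vcard Q X L.hQ L.hX e he) hA0
      _ = ((good t c K κ Q X).card : ℝ) * ((C * Q) * A) := by rw [sum_const, nsmul_eq_mul]
      _ ≤ _ := mul_le_mul_of_nonneg_right (L.hC.gcard Q X L.hQ L.hX) (by positivity)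
  have h1 : |∑ e ∈ good t c K κ Q X, ∑ w ∈ cw X s₁ s₂ e.1 e.2, ∑ z ∈ cw X s₁ s₂ e.1 e.2,
      (if δ * Q ≤ (dt z w : ℝ) ∧ S z w then aa z * aa w * kk Q X z w else 0)| ≤
      ∑ e ∈ good t c K κ Q X, ∑ w ∈ cw X s₁ s₂ e.1 e.2, (A + (C * Q) * FFX aa s₁ s₂ X I n S e w) := by
    refine (abs_sum_le_sum_abs _ _).trans (sum_le_sum fun e he => ?_)
    refine (abs_sum_le_sum_abs _ _).trans (sum_le_sum fun w hw => ?_)
    have := one_pairX ha L hF he hw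
    linarith
  refine h1.trans ?_
  have h2 : ∑ e ∈ good t c K κ Q X, ∑ w ∈ cw X s₁ s₂ e.1 e.2,
      (A + (C * Q) * FFX aa s₁ s₂ X I n S e w) =
      (∑ e ∈ good t c K κ Q X, ∑ _w ∈ cw X s₁ s₂ e.1 e.2, A) +
      (C * Q) * ∑ e ∈ good t c K κ Q X, ∑ w ∈ cw X s₁ s₂ e.1 e.2, FFX aa s₁ s₂ X I n S e w := by
    rw [mul_sum, ← sum_add_distrib]
    refine sum_congr rfl fun e _ => ?_
    rw [mul_sum, ← sum_add_distrib]
  rw [h2]
  exact add_le_add hconst (mul_le_mul_of_nonneg_left hFs hCQ)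

open scoped Classical in
theorem coreX (HF : Fd t c f χ) {aa : Qd t c → ℝ} (ha : ∀ z, |aa z| ≤ 1) (h1 : Mrs aa) (h3 : S_JV t c) {K : ℕ} {κ s₁ s₂ C : ℝ} (hK : 1 ≤ K) (hs₁ : 0 < s₁)
    (h12 : s₁ < s₂) (hs₂ : s₂ ≤ 1) (hC : Cst t c χ K κ s₁ s₂ C) {M : ℕ} {S : Qd t c → Qd t c → Prop}
    (hF : Fam χ M S) {δ ε : ℝ} (hδ : 0 < δ) (hε : 0 < ε) :
    ∃ Q₀ : ℕ, ∀ Q : ℕ, Q₀ ≤ Q → ∃ X₀ : ℝ, ∀ X : ℝ, X₀ ≤ X →
      |∑ e ∈ good t c K κ Q X, ∑ w ∈ cw X s₁ s₂ e.1 e.2, ∑ z ∈ cw X s₁ s₂ e.1 e.2,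
        (if δ * Q ≤ (dt z w : ℝ) ∧ S z w then aa z * aa w * kk Q X z w else 0)| ≤
      (C ^ 4 * δ + ε) * X * (Q : ℝ) ^ 2 := by
  have hC1 := hC.one
  have hC0 : 0 < C := by linarith
  have hK' : (1 : ℝ) ≤ K := by exact_mod_cast hK
  have hpi := Real.pi_pos
  obtain ⟨εJ, hεJ0, hεJ⟩ : ∃ εJ : ℝ, 0 < εJ ∧ C ^ 3 * εJ = ε / 3 :=
    ⟨ε / (3 * C ^ 3), by positivity, by field_simp⟩
  obtain ⟨ε₁, hε₁, hJV⟩ := h3 C s₁ δ εJ hC0 hs₁ hδ hεJ0
  obtain ⟨α, hα0, hα1, hα2, hα3⟩ : ∃ α : ℝ, 0 < α ∧ α ≤ ε₁ ∧ α ≤ δ / 2 ∧ C ^ 4 * α ≤ ε / 3 := by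
    refine ⟨min (min ε₁ (δ / 2)) (ε / (3 * C ^ 4)), by positivity,
      (min_le_left _ _).trans (min_le_left _ _), (min_le_left _ _).trans (min_le_right _ _), ?_⟩
    calc C ^ 4 * min (min ε₁ (δ / 2)) (ε / (3 * C ^ 4)) ≤ C ^ 4 * (ε / (3 * C ^ 4)) := by
          gcongr
          exact min_le_right _ _
      _ = ε / 3 := by field_simp
  obtain ⟨I, hI1, hIε⟩ : ∃ I : ℕ, 1 ≤ I ∧ (s₂ - s₁) / I ≤ ε₁ := by
    refine ⟨⌈1 / ε₁⌉₊ + 1, by omega, ?_⟩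
    have hI0 : (0 : ℝ) < ((⌈1 / ε₁⌉₊ + 1 : ℕ) : ℝ) := by positivity
    rw [div_le_iff₀ hI0]
    have h : 1 / ε₁ ≤ ((⌈1 / ε₁⌉₊ + 1 : ℕ) : ℝ) := by
      push_cast
      linarith [Nat.le_ceil (1 / ε₁)]
    rw [div_le_iff₀ hε₁] at h
    linarith
  set N : ℝ := ((range I ×ˢ RR t c M).card : ℝ) with hN
  have hN0 : 0 ≤ N := by positivity
  obtain ⟨εM, hεM0, hεM⟩ : ∃ εM : ℝ, 0 < εM ∧ C ^ 2 * N * εM ≤ ε / 3 := by
    refine ⟨ε / (3 * C ^ 2 * (N + 1)), by positivity, ?_⟩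
    rw [mul_div_assoc', div_le_div_iff₀ (by positivity) (by norm_num)]
    nlinarith [mul_pos hε (by positivity : 0 < C ^ 2)]
  obtain ⟨H, hH, X₁, hMRS⟩ := mrs_allX h1 hF hs₁ h12 hs₂ hI1 hεM0
  refine ⟨⌈8 * Real.pi * H / α⌉₊ + 1, fun Q hQ0 => ?_⟩
  have hQ : 1 ≤ Q := by omega
  have hQ' : (1 : ℝ) ≤ Q := by exact_mod_cast hQ
  have hQH : 8 * Real.pi * H / α ≤ Q := by
    refine (Nat.le_ceil _).trans ?_
    exact_mod_cast (by omega : ⌈8 * Real.pi * H / α⌉₊ ≤ Q)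
  refine ⟨max (max X₁ (2 * H)) (max (f * (K * Q : ℝ)) (Q / ε₁)), fun X hX => ?_⟩
  have hX1 : X₁ ≤ X := ((le_max_left _ _).trans (le_max_left _ _)).trans hX
  have hX2 : 2 * H ≤ X := ((le_max_right _ _).trans (le_max_left _ _)).trans hX
  have hX3 : f * (K * Q : ℝ) ≤ X := ((le_max_left _ _).trans (le_max_right _ _)).trans hX
  have hX4 : (Q : ℝ) / ε₁ ≤ X := ((le_max_right _ _).trans (le_max_right _ _)).trans hX
  have hXQ : (Q : ℝ) ≤ ε₁ * X := by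
    rw [div_le_iff₀ hε₁] at hX4
    linarith
  have h3f : (3 : ℝ) ≤ f := by exact_mod_cast HF.three
  have hKQ1 : (1 : ℝ) ≤ K * Q := by nlinarith
  have hXone : 1 ≤ X := by nlinarith
  have hX0 : 0 < X := by linarith
  obtain ⟨n, hn1, hna, hnH⟩ : ∃ n : ℕ, 1 ≤ n ∧ 2 * (2 * Real.pi / n) ≤ α * Q / X ∧ n * H ≤ X := by
    have hn0 : 0 < 4 * Real.pi * X / (α * Q) := by positivity
    have hn1 : 1 ≤ ⌈4 * Real.pi * X / (α * Q)⌉₊ := Nat.ceil_pos.2 hn0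
    have hn' : (0 : ℝ) < ⌈4 * Real.pi * X / (α * Q)⌉₊ := by exact_mod_cast hn1
    refine ⟨⌈4 * Real.pi * X / (α * Q)⌉₊, hn1, ?_, ?_⟩
    · rw [← mul_div_assoc, div_le_div_iff₀ hn' hX0]
      have h := Nat.le_ceil (4 * Real.pi * X / (α * Q))
      rw [div_le_iff₀ (by positivity)] at h
      linarith
    · have h : (⌈4 * Real.pi * X / (α * Q)⌉₊ : ℝ) < 4 * Real.pi * X / (α * Q) + 1 :=
        Nat.ceil_lt_add_one hn0.le
      have h2 : 4 * Real.pi * X / (α * Q) * H ≤ X / 2 := by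
        rw [div_le_iff₀ hα0] at hQH
        have e : 4 * Real.pi * X / (α * Q) * H = (8 * Real.pi * H) * X / (2 * (α * Q)) := by
          rw [div_mul_eq_mul_div, div_eq_div_iff (by positivity) (by positivity)]
          ring
        rw [e, div_le_div_iff₀ (by positivity) (by norm_num)]
        have h3 := mul_le_mul_of_nonneg_right hQH hX0.le
        linarith
      have h4 : (⌈4 * Real.pi * X / (α * Q)⌉₊ : ℝ) * H ≤
          (4 * Real.pi * X / (α * Q) + 1) * H := mul_le_mul_of_nonneg_right h.le (by linarith)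
      linarith
  have hmrs := hMRS X hX1 n hn1 hnH
  have L : Lev t c χ K κ s₁ s₂ C δ α (εJ * Q) Q X I n := by
    refine ⟨hK, hs₁, h12, hs₂, hC, hδ, by positivity, hα0, by linarith, hQ, hX3, hXone, hI1, hn1,
      hna, ?_⟩
    intro e he z hz z' hz' w hw hd hd' hid
    have he1 := (mem_good.1 he).1
    obtain ⟨c1, c2, c3⟩ := mem_cw.1 hz
    obtain ⟨d1, d2, d3⟩ := mem_cw.1 hz'
    obtain ⟨f1, f2, f3⟩ := mem_cw.1 hw
    have g1 := idx_shell hI1 hX0 h12 c2 d2 hid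
    have g2 : |ang z - ang z'| ≤ α * Q / X := by
      have k1 := aix_close hn1 (idx_aix hid)
      have k2 : 0 ≤ 2 * Real.pi / n := by positivity
      linarith
    have hYf : (f : ℝ) ≤ X / (K * Q) := by
      rw [le_div_iff₀ (by positivity)]
      exact hX3
    have g3 : (s₂ - s₁) / I * X ≤ ε₁ * X := mul_le_mul_of_nonneg_right hIε hX0.le
    have g4 : α * Q / X ≤ ε₁ * Q / X := by gcongr
    have g5 : 0 ≤ ε₁ * X := by positivity
    have g6 : 0 ≤ ε₁ * Q / X := by positivity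
    refine hJV Q X z w z' w hQ (by linarith) hXQ ?_ hd (hC.dtle Q X hQ hX3 e he z hz w hw) hd'
      (hC.dtle Q X hQ hX3 e he z' hz' w hw) (g1.trans g3) ?_ (pp_cone HF hYf he1 c1 f1)
      (pp_cone HF hYf he1 d1 f1) (g2.trans g4) ?_
    · intro v hv
      simp only [Set.mem_insert_iff, Set.mem_singleton_iff] at hv
      rcases hv with hv | hv | hv | hv <;> rw [hv]
      · exact ⟨c2, (mem_cone.1 c1).1.2⟩
      · exact ⟨f2, (mem_cone.1 f1).1.2⟩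
      · exact ⟨d2, (mem_cone.1 d1).1.2⟩
      · exact ⟨f2, (mem_cone.1 f1).1.2⟩
    · rw [sub_self, abs_zero]; exact g5
    · rw [sub_self, abs_zero]; exact g6
  refine (all_pairsX ha L hF hmrs).trans ?_
  have hsq := Real.mul_self_sqrt (by linarith : (0 : ℝ) ≤ Q)
  have hA₁e : C * Q * (C * Real.sqrt Q * (α * Real.sqrt Q)) = C ^ 2 * α * (Q : ℝ) ^ 2 := by
    calc C * Q * (C * Real.sqrt Q * (α * Real.sqrt Q)) =
        C ^ 2 * α * Q * (Real.sqrt Q * Real.sqrt Q) := by ring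
      _ = _ := by rw [hsq]; ring
  rw [hA₁e]
  have t6 : 0 ≤ X * (Q : ℝ) ^ 2 := by positivity
  have t1 : (C * (X / Q)) * ((C * Q) * (C ^ 2 * α * (Q : ℝ) ^ 2 +
      (εJ * Q * (C * Q) + C * (δ * Q) * (C * Q)))) =
      (C ^ 4 * α + C ^ 3 * εJ + C ^ 4 * δ) * (X * (Q : ℝ) ^ 2) := by
    field_simp
    ring
  have t4 : (C * Q) * ((C * Q) * (N * (εM * X))) = (C ^ 2 * N * εM) * (X * (Q : ℝ) ^ 2) := by
    ring
  rw [t1, t4, hεJ]
  have t7 := mul_le_mul_of_nonneg_right hεM t6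
  have t8 := mul_le_mul_of_nonneg_right hα3 t6
  linarith

end

end Pool.Agent.N912.ED.W372EG
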