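import Pool.Agent.N912.ED.N912ELStm
import Pool.Agent.N912.ED.W372EGCore

/-!
Project EL (helper912), task EL/7: bilinear sums with a kernel which is almost constant on small
cells. Port of `W372/EG/Core` (helper866).
-/

set_option autoImplicit false
set_option linter.all false

namespace Pool.Agent.N912.ED.N866EL

open Finset Filter
open Pool.Agent.W78.GA
open Pool.Agent.N912.ED.W78EG
open Pool.Agent.N912.ED.W372EG
open Pool.Agent.N912.ED.N912EL (FamP S_CORE)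
open Pool.Agent.W125.EC (cel absS nc FFa mem_cel absS_nonneg sum_cel cellA0 cellB cellC)

variable {t c : ℤ} {f : ℕ} {χ : DirichletCharacter ℂ f}

/-- the library's periodic families, for the trivial character -/
lemma toFam {M : ℕ} {S : Qd t c → Qd t c → Prop} (h : FamP M S) :
    Fam (1 : DirichletCharacter ℂ 1) M S := by
  refine ⟨h.M1, h.cls, h.per, fun z w _ => ?_⟩
  unfold xi
  rw [if_pos (by simp), if_pos]
  · norm_num
  · refine ⟨0, ?_, by simp, by simp⟩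
    have h1 : (((0 : ℕ) : ZMod 1)) = 1 := Subsingleton.elim _ _
    rw [h1, map_one]

section
variable [Fact (t ^ 2 < 4 * c)]

/-- a level: the parameters and their relations -/
structure Lvk (t c : ℤ) {f : ℕ} (χ : DirichletCharacter ℂ f) (K : ℕ) (κ s₁ s₂ C α η B : ℝ) (Q : ℕ)
    (X : ℝ) (I n : ℕ) (k : Qd t c → Qd t c → ℝ) : Prop where
  hK : 1 ≤ K
  h12 : s₁ < s₂
  hC : Cst t c χ K κ s₁ s₂ C
  hη : 0 ≤ η
  hB : 0 ≤ B
  hα : 0 < α
  hQ : 1 ≤ Q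
  hX : f * (K * Q : ℝ) ≤ X
  hX1 : 1 ≤ X
  hI : 1 ≤ I
  hn : 1 ≤ n
  hna : 2 * (2 * Real.pi / n) ≤ α * Q / X
  hkb : ∀ e ∈ good t c K κ Q X, ∀ z ∈ cw X s₁ s₂ e.1 e.2, ∀ w ∈ cw X s₁ s₂ e.1 e.2, |k z w| ≤ B
  hkk : ∀ e ∈ good t c K κ Q X, ∀ z ∈ cw X s₁ s₂ e.1 e.2, ∀ z' ∈ cw X s₁ s₂ e.1 e.2,
    ∀ w ∈ cw X s₁ s₂ e.1 e.2,
    idx s₁ s₂ X I n z = idx s₁ s₂ X I n z' → |k z w - k z' w| ≤ η

open scoped Classical in
lemma one_cell {aa : Qd t c → ℝ} (ha : ∀ z, |aa z| ≤ 1) {K : ℕ} {κ s₁ s₂ C α η B : ℝ} {Q : ℕ}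
    {X : ℝ} {I n : ℕ} {k : Qd t c → Qd t c → ℝ}
    (L : Lvk t c χ K κ s₁ s₂ C α η B Q X I n k) (S : Qd t c → Qd t c → Prop)
    {e : Qd t c × Qd t c} (he : e ∈ good t c K κ Q X) {w : Qd t c} (hw : w ∈ cw X s₁ s₂ e.1 e.2)
    (p : ℕ × ℕ) :
    |∑ z ∈ cel (cw X s₁ s₂ e.1 e.2) (idx s₁ s₂ X I n) p,
      (if S z w then aa z * k z w else 0)| ≤
      B * absS (cw X s₁ s₂ e.1 e.2) (idx s₁ s₂ X I n) p (fun z => S z w) aa +
      ∑ z ∈ cel (cw X s₁ s₂ e.1 e.2) (idx s₁ s₂ X I n) p, η := by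
  have h := cellA0 (cel (cw X s₁ s₂ e.1 e.2) (idx s₁ s₂ X I n) p) (fun z => S z w)
    (fun _ => (1 : ℝ)) (fun z => k z w) aa (thr := 1) L.hη L.hB ha one_pos
    (fun z hz _ _ => L.hkb e he z (mem_cel.1 hz).1 w hw)
    (fun z hz z' hz' _ _ _ _ => L.hkk e he z (mem_cel.1 hz).1 z' (mem_cel.1 hz').1 w hw
      ((mem_cel.1 hz).2.trans (mem_cel.1 hz').2.symm))
    (fun _ _ _ _ _ => one_pos)
  simpa [absS] using h

open scoped Classical in
lemma one_pair {aa : Qd t c → ℝ} (ha : ∀ z, |aa z| ≤ 1) {K : ℕ} {κ s₁ s₂ C α η B : ℝ} {Q : ℕ}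
    {X : ℝ} {I n : ℕ} {k : Qd t c → Qd t c → ℝ}
    (L : Lvk t c χ K κ s₁ s₂ C α η B Q X I n k) (S : Qd t c → Qd t c → Prop)
    {e : Qd t c × Qd t c} (he : e ∈ good t c K κ Q X) {w : Qd t c} (hw : w ∈ cw X s₁ s₂ e.1 e.2) :
    |∑ z ∈ cw X s₁ s₂ e.1 e.2, (if S z w then aa z * aa w * k z w else 0)| ≤
      B * (C * Real.sqrt Q * (α * Real.sqrt Q)) + B * FFX aa s₁ s₂ X I n S e w + η * (C * Q) := by
  have hQ' : (1 : ℝ) ≤ Q := by exact_mod_cast L.hQ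
  have hC1 := L.hC.one
  have hα := L.hα
  have hX0 : 0 < X := by linarith [L.hX1]
  have hmaps : ∀ z ∈ cw X s₁ s₂ e.1 e.2, idx s₁ s₂ X I n z ∈ range I ×ˢ range (n + 1) :=
    fun z hz => idx_mem L.hI hX0 L.h12 (cw_An _ _ hz)
  have e1 : ∑ z ∈ cw X s₁ s₂ e.1 e.2, (if S z w then aa z * aa w * k z w else 0) =
      aa w * ∑ p ∈ range I ×ˢ range (n + 1),
        ∑ z ∈ cel (cw X s₁ s₂ e.1 e.2) (idx s₁ s₂ X I n) p,
      (if S z w then aa z * k z w else 0) := by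
    rw [sum_cel hmaps, mul_sum]
    refine sum_congr rfl fun z _ => ?_
    rw [mul_ite, mul_zero]
    congr 1
    ring
  rw [e1, abs_mul]
  refine (mul_le_of_le_one_left (abs_nonneg _) (ha w)).trans ?_
  have hsum1 : ∑ p ∈ range I ×ˢ range (n + 1),
      ∑ z ∈ cel (cw X s₁ s₂ e.1 e.2) (idx s₁ s₂ X I n) p, η ≤ η * (C * Q) := by
    rw [sum_cel hmaps, sum_const, nsmul_eq_mul, mul_comm]
    exact mul_le_mul_of_nonneg_left (L.hC.vcard Q X L.hQ L.hX e he) L.hη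
  have hB := cellB (An t c s₁ s₂ X) (cw X s₁ s₂ e.1 e.2) (cw_An _ _) (idx s₁ s₂ X I n)
      (range I ×ˢ range (n + 1)) (fun z hz => idx_mem L.hI hX0 L.h12 hz) (fun z => S z w)
      (fun w => (dt e.1 w : ℝ) ≤ α * Real.sqrt Q ∨ (dt w e.2 : ℝ) ≤ α * Real.sqrt Q)
      aa (fun z => ha z)
      (near_mem L.hK L.hQ L.hX1 he hα.le L.hn L.hna)
  have hnc0 := L.hC.near Q X L.hQ L.hX e he (α * Real.sqrt Q) (by positivity)
  have hnc : nc (cw X s₁ s₂ e.1 e.2)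
      (fun w => (dt e.1 w : ℝ) ≤ α * Real.sqrt Q ∨ (dt w e.2 : ℝ) ≤ α * Real.sqrt Q) ≤
      C * Real.sqrt Q * (α * Real.sqrt Q) := by
    refine le_trans (le_of_eq ?_) hnc0
    unfold nc
    congr!
  have hsc : |∑ p ∈ range I ×ˢ range (n + 1),
        ∑ z ∈ cel (cw X s₁ s₂ e.1 e.2) (idx s₁ s₂ X I n) p,
      (if S z w then aa z * k z w else 0)| ≤
      B * ∑ p ∈ range I ×ˢ range (n + 1),
        absS (cw X s₁ s₂ e.1 e.2) (idx s₁ s₂ X I n) p (fun z => S z w) aa +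
      ∑ p ∈ range I ×ˢ range (n + 1),
      ∑ z ∈ cel (cw X s₁ s₂ e.1 e.2) (idx s₁ s₂ X I n) p, η := by
    refine (abs_sum_le_sum_abs _ _).trans ?_
    rw [mul_sum, ← sum_add_distrib]
    exact sum_le_sum fun p _ => one_cell ha L S he hw p
  have k1 := mul_le_mul_of_nonneg_left hB L.hB
  have k2 := mul_le_mul_of_nonneg_left hnc L.hB
  rw [mul_add] at k1
  unfold FFX
  linarith

open scoped Classical in
lemma all_pairs {aa : Qd t c → ℝ} (ha : ∀ z, |aa z| ≤ 1) {K : ℕ} {κ s₁ s₂ C α η B : ℝ} {Q : ℕ}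
    {X : ℝ} {I n : ℕ} {k : Qd t c → Qd t c → ℝ}
    (L : Lvk t c χ K κ s₁ s₂ C α η B Q X I n k) {M : ℕ} {S : Qd t c → Qd t c → Prop}
    (hF : FamP M S) {T : ℝ}
    (hmrs : ∑ p ∈ range I ×ˢ range (n + 1), ∑ r ∈ RR t c M,
        absS (An t c s₁ s₂ X) (idx s₁ s₂ X I n) p (fun z => S z r) aa ≤ T) :
    |∑ e ∈ good t c K κ Q X, ∑ w ∈ cw X s₁ s₂ e.1 e.2, ∑ z ∈ cw X s₁ s₂ e.1 e.2,
      (if S z w then aa z * aa w * k z w else 0)| ≤
      (C * (X / Q)) * ((C * Q) * (B * (C * Real.sqrt Q * (α * Real.sqrt Q)) + η * (C * Q))) +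
        B * ((C * Q) * T) := by
  have hQ' : (1 : ℝ) ≤ Q := by exact_mod_cast L.hQ
  have hC1 := L.hC.one
  have hα := L.hα
  have hη := L.hη
  have hB := L.hB
  have hX0 : 0 < X := by linarith [L.hX1]
  have hCQ : 0 ≤ C * Q := by positivity
  have hCsum := cellC (An t c s₁ s₂ X) (good t c K κ Q X) (fun e => cw X s₁ s₂ e.1 e.2)
    (idx s₁ s₂ X I n) (range I ×ˢ range (n + 1)) (RR t c M) S aa (B := C * Q)
    (fun e he => L.hC.vcard Q X L.hQ L.hX e he) hCQ (RR_spec (toFam hF)) (by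
      intro e he f hf z hze hzf
      have h6 := mem_cone.1 (mem_cw.1 hze).1
      have h7 := mem_cone.1 (mem_cw.1 hzf).1
      exact edge_unique (mem_good.1 he).1 (mem_good.1 hf).1 h6.2.1 h6.2.2 h7.2.1 h7.2.2)
  have hFs : ∑ e ∈ good t c K κ Q X, ∑ w ∈ cw X s₁ s₂ e.1 e.2, FFX aa s₁ s₂ X I n S e w ≤
      (C * Q) * T := hCsum.trans (mul_le_mul_of_nonneg_left hmrs hCQ)
  obtain ⟨A, hA⟩ : ∃ A : ℝ, A = B * (C * Real.sqrt Q * (α * Real.sqrt Q)) + η * (C * Q) := ⟨_, rfl⟩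
  have hA0 : 0 ≤ A := by rw [hA]; positivity
  rw [← hA]
  have hconst : ∑ e ∈ good t c K κ Q X, ∑ _w ∈ cw X s₁ s₂ e.1 e.2, A ≤
      (C * (X / Q)) * ((C * Q) * A) := by
    calc ∑ e ∈ good t c K κ Q X, ∑ _w ∈ cw X s₁ s₂ e.1 e.2, A ≤
          ∑ _e ∈ good t c K κ Q X, (C * Q) * A := by
          refine sum_le_sum fun e he => ?_
          rw [sum_const, nsmul_eq_mul]
          exact mul_le_mul_of_nonneg_right (L.hC.vcard Q X L.hQ L.hX e he) hA0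
      _ = ((good t c K κ Q X).card : ℝ) * ((C * Q) * A) := by rw [sum_const, nsmul_eq_mul]
      _ ≤ _ := mul_le_mul_of_nonneg_right (L.hC.gcard Q X L.hQ L.hX) (by positivity)
  have h1 : |∑ e ∈ good t c K κ Q X, ∑ w ∈ cw X s₁ s₂ e.1 e.2, ∑ z ∈ cw X s₁ s₂ e.1 e.2,
      (if S z w then aa z * aa w * k z w else 0)| ≤
      ∑ e ∈ good t c K κ Q X, ∑ w ∈ cw X s₁ s₂ e.1 e.2, (A + B * FFX aa s₁ s₂ X I n S e w) := by
    refine (abs_sum_le_sum_abs _ _).trans (sum_le_sum fun e he => ?_)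
    refine (abs_sum_le_sum_abs _ _).trans (sum_le_sum fun w hw => ?_)
    have := one_pair ha L S he hw
    linarith
  refine h1.trans ?_
  have h2 : ∑ e ∈ good t c K κ Q X, ∑ w ∈ cw X s₁ s₂ e.1 e.2,
      (A + B * FFX aa s₁ s₂ X I n S e w) =
      (∑ e ∈ good t c K κ Q X, ∑ _w ∈ cw X s₁ s₂ e.1 e.2, A) +
      B * ∑ e ∈ good t c K κ Q X, ∑ w ∈ cw X s₁ s₂ e.1 e.2, FFX aa s₁ s₂ X I n S e w := by
    rw [mul_sum, ← sum_add_distrib]
    refine sum_congr rfl fun e _ => ?_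
    rw [mul_sum, ← sum_add_distrib]
  rw [h2]
  exact add_le_add hconst (mul_le_mul_of_nonneg_left hFs hB)

end

open scoped Classical in
/-- **EL/7**: bilinear sums with a kernel which is almost constant on small cells -/
theorem core {t c : ℤ} {f : ℕ} {χ : DirichletCharacter ℂ f} (HF : Fd t c f χ) (h2 : S_JB t c χ)
    (h4 : S_LN t c) (h5 : S_DTB t c f) : S_CORE t c := by
  have h3f : (3 : ℝ) ≤ f := by exact_mod_cast HF.three
  haveI : Fact (t ^ 2 < 4 * c) := ⟨by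
    have h1 := HF.disc
    have h2 : (3 : ℤ) ≤ f := by exact_mod_cast HF.three
    linarith⟩
  intro A hA h1 K κ s₁ s₂ hK hκ hs₁ h12 hs₂ M S hF B ε hB hε
  obtain ⟨C, hC⟩ := exists_cst HF h2 h4 h5 hK hκ hs₁ hs₂
  have hC1 := hC.one
  have hC0 : 0 < C := by linarith
  have hK' : (1 : ℝ) ≤ K := by exact_mod_cast hK
  have hpi := Real.pi_pos
  refine ⟨ε / (3 * C ^ 3), by positivity, fun ε₁ hε₁ => ?_⟩
  obtain ⟨α, hα0, hα1, hα3⟩ : ∃ α : ℝ, 0 < α ∧ α ≤ ε₁ ∧ C ^ 3 * B * α ≤ ε / 3 := by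
    refine ⟨min ε₁ (ε / (3 * C ^ 3 * B)), by positivity, min_le_left _ _, ?_⟩
    calc C ^ 3 * B * min ε₁ (ε / (3 * C ^ 3 * B)) ≤ C ^ 3 * B * (ε / (3 * C ^ 3 * B)) := by
          gcongr
          exact min_le_right _ _
      _ = ε / 3 := by field_simp
  obtain ⟨I, hI1, hIε⟩ : ∃ I : ℕ, 1 ≤ I ∧ (s₂ - s₁) / I ≤ ε₁ := by
    refine ⟨⌈1 / ε₁⌉₊ + 1, by omega, ?_⟩
    have hI0 : (0 : ℝ) < ((⌈1 / ε₁⌉₊ + 1 : ℕ) : ℝ) := by positivity
    rw [div_le_iff₀ hI0]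
    have h : 1 / ε₁ ≤ ((⌈1 / ε₁⌉₊ + 1 : ℕ) : ℝ) := by
      push_cast
      linarith [Nat.le_ceil (1 / ε₁)]
    rw [div_le_iff₀ hε₁] at h
    linarith
  set N : ℝ := ((range I ×ˢ RR t c M).card : ℝ) with hN
  have hN0 : 0 ≤ N := by positivity
  obtain ⟨εM, hεM0, hεM⟩ : ∃ εM : ℝ, 0 < εM ∧ B * C * N * εM ≤ ε / 3 := by
    refine ⟨ε / (3 * (B * C) * (N + 1)), by positivity, ?_⟩
    rw [mul_div_assoc', div_le_div_iff₀ (by positivity) (by norm_num)]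
    nlinarith [mul_pos hε (mul_pos hB hC0)]
  obtain ⟨H, hH, X₁, hMRS⟩ := mrs_allX h1 (toFam hF) hs₁ h12 hs₂ hI1 hεM0
  refine ⟨⌈8 * Real.pi * H / α⌉₊ + 1, fun Q hQ0 => ?_⟩
  have hQ : 1 ≤ Q := by omega
  have hQ' : (1 : ℝ) ≤ Q := by exact_mod_cast hQ
  have hQH : 8 * Real.pi * H / α ≤ Q := by
    refine (Nat.le_ceil _).trans ?_
    exact_mod_cast (by omega : ⌈8 * Real.pi * H / α⌉₊ ≤ Q)
  refine ⟨max (max X₁ (2 * H)) (f * (K * Q : ℝ)), fun X hX k hk1 hk2 => ?_⟩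
  have hX1 : X₁ ≤ X := ((le_max_left _ _).trans (le_max_left _ _)).trans hX
  have hX2 : 2 * H ≤ X := ((le_max_right _ _).trans (le_max_left _ _)).trans hX
  have hX3 : f * (K * Q : ℝ) ≤ X := (le_max_right _ _).trans hX
  have hKQ1 : (1 : ℝ) ≤ K * Q := by nlinarith
  have hXone : 1 ≤ X := by nlinarith
  have hX0 : 0 < X := by linarith
  obtain ⟨n, hn1, hna, hnH⟩ : ∃ n : ℕ, 1 ≤ n ∧ 2 * (2 * Real.pi / n) ≤ α * Q / X ∧ n * H ≤ X := by
    have hn0 : 0 < 4 * Real.pi * X / (α * Q) := by positivity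
    have hn1 : 1 ≤ ⌈4 * Real.pi * X / (α * Q)⌉₊ := Nat.ceil_pos.2 hn0
    have hn' : (0 : ℝ) < ⌈4 * Real.pi * X / (α * Q)⌉₊ := by exact_mod_cast hn1
    refine ⟨⌈4 * Real.pi * X / (α * Q)⌉₊, hn1, ?_, ?_⟩
    · rw [← mul_div_assoc, div_le_div_iff₀ hn' hX0]
      have h := Nat.le_ceil (4 * Real.pi * X / (α * Q))
      rw [div_le_iff₀ (by positivity)] at h
      linarith
    · have h : (⌈4 * Real.pi * X / (α * Q)⌉₊ : ℝ) < 4 * Real.pi * X / (α * Q) + 1 :=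
        Nat.ceil_lt_add_one hn0.le
      have h2 : 4 * Real.pi * X / (α * Q) * H ≤ X / 2 := by
        rw [div_le_iff₀ hα0] at hQH
        have e : 4 * Real.pi * X / (α * Q) * H = (8 * Real.pi * H) * X / (2 * (α * Q)) := by
          rw [div_mul_eq_mul_div, div_eq_div_iff (by positivity) (by positivity)]
          ring
        rw [e, div_le_div_iff₀ (by positivity) (by norm_num)]
        have h3 := mul_le_mul_of_nonneg_right hQH hX0.le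
        linarith
      have h4 : (⌈4 * Real.pi * X / (α * Q)⌉₊ : ℝ) * H ≤
          (4 * Real.pi * X / (α * Q) + 1) * H := mul_le_mul_of_nonneg_right h.le (by linarith)
      linarith
  have hmrs := hMRS X hX1 n hn1 hnH
  have L : Lvk t c χ K κ s₁ s₂ C α (ε / (3 * C ^ 3) * Q) (B * Q) Q X I n k := by
    refine ⟨hK, h12, hC, by positivity, by positivity, hα0, hQ, hX3, hXone, hI1, hn1, hna, hk1, ?_⟩
    intro e he z hz z' hz' w hw hid
    obtain ⟨c1, c2, c3⟩ := mem_cw.1 hz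
    obtain ⟨d1, d2, d3⟩ := mem_cw.1 hz'
    have g1 := idx_shell hI1 hX0 h12 c2 d2 hid
    have g2 : |ang z - ang z'| ≤ α * Q / X := by
      have k1 := aix_close hn1 (idx_aix hid)
      have k2 : 0 ≤ 2 * Real.pi / n := by positivity
      linarith
    have g3 : (s₂ - s₁) / I * X ≤ ε₁ * X := mul_le_mul_of_nonneg_right hIε hX0.le
    have g4 : α * Q / X ≤ ε₁ * Q / X := by gcongr
    exact hk2 e he z hz z' hz' w hw (g1.trans g3) (g2.trans g4)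
  refine (all_pairs hA L hF hmrs).trans ?_
  have hsq := Real.mul_self_sqrt (by linarith : (0 : ℝ) ≤ Q)
  have hA₁e : B * Q * (C * Real.sqrt Q * (α * Real.sqrt Q)) = B * C * α * (Q : ℝ) ^ 2 := by
    calc B * Q * (C * Real.sqrt Q * (α * Real.sqrt Q)) =
        B * C * α * Q * (Real.sqrt Q * Real.sqrt Q) := by ring
      _ = _ := by rw [hsq]; ring
  rw [hA₁e]
  have t6 : 0 ≤ X * (Q : ℝ) ^ 2 := by positivity
  have t1 : (C * (X / Q)) * ((C * Q) * (B * C * α * (Q : ℝ) ^ 2 +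
      ε / (3 * C ^ 3) * Q * (C * Q))) =
      (C ^ 3 * B * α + ε / 3) * (X * (Q : ℝ) ^ 2) := by
    field_simp
  have t4 : (B * Q) * ((C * Q) * (N * (εM * X))) = (B * C * N * εM) * (X * (Q : ℝ) ^ 2) := by
    ring
  rw [t1, t4]
  have t7 := mul_le_mul_of_nonneg_right hεM t6
  have t8 := mul_le_mul_of_nonneg_right hα3 t6
  linarith

end Pool.Agent.N912.ED.N866EL
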