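import Pool.Agent.N912.ED.W78EGDefs
import Pool.Agent.W883.EC.M5b

/-!
Project EG, part MRSX: sums over sectors (port of `Pool.Agent.W915.EX.Mrsx`).
-/

set_option autoImplicit false

namespace Pool.Agent.N912.ED.W12EGMrsx

open Finset
open Pool.Agent.H376R2.MR (FK)
open Pool.Agent.H376R2.MR
open Pool.Agent.W78.GA
open Pool.Agent.W78.EC (Rw)
open Pool.Agent.W251.EX (GW)
open Pool.Agent.N912.ED.W78EG
open Pool.Agent.W251.GX (Cm)
open Pool.Agent.W883.EC (Ph Ph_nonneg Ph_le Ph_lip Ph_zero_left Ph_zero_right Ph_one wq wq_rw wq_val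
  fiber_le low sqrt_small ang_main Bd ex)

variable {t c : ℤ}

lemma pball_count (hD : t ^ 2 < 4 * c) : ∃ κ C : ℝ, 0 < κ ∧ 0 < C ∧
    (∀ X : ℝ, 1 ≤ X → ((pball t c X).card : ℝ) ≤ (κ + C) * X) ∧
    (∀ A B : ℝ, 1 ≤ A → A ≤ B →
      (((pball t c B).filter (fun z => A < (nm z : ℝ))).card : ℝ) ≤
        κ * (B - A) + 2 * C * Real.sqrt B) := by
  obtain ⟨C, hC, hlat, _⟩ := Pool.Agent.W45.GA.lat hD
  have hk : 0 < kap t c := by
    unfold kap
    have hpi := Real.pi_pos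
    have h0 : (0 : ℝ) < 4 * (c : ℝ) - (t : ℝ) ^ 2 := by
      have h1 : ((t ^ 2 : ℤ) : ℝ) < ((4 * c : ℤ) : ℝ) := by exact_mod_cast hD
      push_cast at h1
      linarith
    have : 0 < Real.sqrt (4 * (c : ℝ) - (t : ℝ) ^ 2) := Real.sqrt_pos.2 h0
    positivity
  have hcount : ∀ X : ℝ, 1 ≤ X → |((ball t c X).card : ℝ) - kap t c * X| ≤ C * Real.sqrt X := by
    intro X hX
    have h := hlat X 1 0 hX le_rfl
    have h1 : (ball t c X).filter (lat 1 0) = ball t c X := by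
      apply Finset.filter_true_of_mem
      intro z _
      unfold lat
      simp
    rw [h1] at h
    simpa using h
  refine ⟨kap t c, C, hk, hC, ?_, ?_⟩
  · intro X hX
    have h1 := (abs_le.1 (hcount X hX)).2
    have h2 : ((pball t c X).card : ℝ) ≤ ((ball t c X).card : ℝ) := by
      exact_mod_cast Finset.card_filter_le _ _
    have h3 : Real.sqrt X ≤ X := by
      rw [Real.sqrt_le_left (by linarith)]
      nlinarith
    have h4 : C * Real.sqrt X ≤ C * X := mul_le_mul_of_nonneg_left h3 hC.le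
    linarith
  · intro A B hA hAB
    have h1 := (abs_le.1 (hcount B (hA.trans hAB))).2
    have h2 := (abs_le.1 (hcount A hA)).1
    have hsub : ball t c A ⊆ ball t c B := by
      intro z hz
      rw [mem_ball hD] at hz ⊢
      exact ⟨hz.1, hz.2.trans hAB⟩
    have h3 : ((pball t c B).filter (fun z => A < (nm z : ℝ))).card ≤
        (ball t c B \ ball t c A).card := by
      apply Finset.card_le_card
      intro z hz
      rw [mem_filter, mem_pball hD] at hz
      rw [mem_sdiff, mem_ball hD, mem_ball hD]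
      refine ⟨⟨(one_le_nm hD).2 (prim_ne_zero hz.1.1), hz.1.2⟩, ?_⟩
      rintro ⟨_, h⟩
      linarith [hz.2]
    rw [Finset.card_sdiff_of_subset hsub] at h3
    have h4 : (((pball t c B).filter (fun z => A < (nm z : ℝ))).card : ℝ) ≤
        ((ball t c B).card : ℝ) - ((ball t c A).card : ℝ) := by
      have h5 : (ball t c A).card ≤ (ball t c B).card := Finset.card_le_card hsub
      have h6 : (((ball t c B).card - (ball t c A).card : ℕ) : ℝ) =
        ((ball t c B).card : ℝ) - ((ball t c A).card : ℝ) := Nat.cast_sub h5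
      rw [← h6]
      exact_mod_cast h3
    have h5 : Real.sqrt A ≤ Real.sqrt B := Real.sqrt_le_sqrt hAB
    have h6 : C * Real.sqrt A ≤ C * Real.sqrt B := mul_le_mul_of_nonneg_left h5 hC.le
    linarith

open scoped Classical in
/-- the points near the boundaries of the arcs -/
lemma bad_count (hD : t ^ 2 < 4 * c) : ∃ C : ℝ, 0 < C ∧ ∀ (X δ : ℝ) (n : ℕ), 1 ≤ X → 0 ≤ δ → δ ≤ Real.pi →
    (((pball t c X).filter (fun z => Bd n δ (ang z))).card : ℝ) ≤
      ((n : ℝ) + 1) * (C * (X * δ + 1)) := by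
  obtain ⟨C, hC, h⟩ := Pool.Agent.W803.GA.sect hD
  refine ⟨C, hC, ?_⟩
  intro X δ n hX hδ hδ'
  have hsub : ((pball t c X).filter (fun z => Bd n δ (ang z))) ⊆
      (range (n + 1)).biUnion (fun j => (pball t c X).filter (fun z => ∃ i : ℤ,
        |ang z - (-Real.pi + 2 * Real.pi * j / n) + 2 * Real.pi * i| ≤ δ)) := by
    intro z hz
    rw [mem_filter] at hz
    obtain ⟨hz1, j, hj, hz2⟩ := hz
    rw [mem_biUnion]
    refine ⟨j, hj, ?_⟩
    rw [mem_filter]
    refine ⟨hz1, 0, ?_⟩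
    rw [Int.cast_zero, mul_zero, add_zero]
    exact hz2
  have h1 := (Finset.card_le_card hsub).trans Finset.card_biUnion_le
  have h2 : (((pball t c X).filter (fun z => Bd n δ (ang z))).card : ℝ) ≤
      ∑ j ∈ range (n + 1), (((pball t c X).filter (fun z => ∃ i : ℤ,
        |ang z - (-Real.pi + 2 * Real.pi * j / n) + 2 * Real.pi * i| ≤ δ)).card : ℝ) := by
    exact_mod_cast h1
  have h3 : ∑ j ∈ range (n + 1), (((pball t c X).filter (fun z => ∃ i : ℤ,
        |ang z - (-Real.pi + 2 * Real.pi * j / n) + 2 * Real.pi * i| ≤ δ)).card : ℝ) ≤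
      ∑ _j ∈ range (n + 1), C * (X * δ + 1) := by
    refine Finset.sum_le_sum fun j _ => ?_
    have h4 := h X δ (-Real.pi + 2 * Real.pi * j / n) hX hδ hδ'
    convert h4
  rw [Finset.sum_const, card_range, nsmul_eq_mul] at h3
  push_cast at h3
  exact h2.trans h3

/-- hypotheses on a real function -/
structure HA (A : Qd t c → ℝ) : Prop where
  bd : ∀ z, |A z| ≤ 1
  mr : ∀ (M : ℕ) (S : Qd t c → Prop), 1 ≤ M → Per M S → ∀ (Λ : ℝ) (wt : ℝ → ℝ), Rw Λ wt →
    ∀ η : ℝ, 0 < η → ∃ h : ℝ, 1 ≤ h ∧ ∃ Y₀ : ℝ, ∀ Y : ℝ, Y₀ ≤ Y →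
      ∑ k ∈ (FK ⌊Y / h⌋₊).erase 0, ‖GW wt (FS S (fun z => (A z : ℂ))) Y k‖ ^ 2 ≤ η
  m0 : ∀ (M : ℕ) (S : Qd t c → Prop), 1 ≤ M → Per M S → ∀ (Λ : ℝ) (wt : ℝ → ℝ), Rw Λ wt →
    ∀ η : ℝ, 0 < η → ∃ Y₀ : ℝ, ∀ Y : ℝ, Y₀ ≤ Y →
      ‖GW wt (FS S (fun z => (A z : ℂ))) Y 0‖ ≤ η

open scoped Classical in
/-- the sum in `S_MRS` -/
noncomputable def TS (A : Qd t c → ℝ) (S : Qd t c → Prop) (σ X : ℝ) (n : ℕ) : ℝ :=
  ∑ j ∈ range (n + 1), |∑ z ∈ (pball t c X).filter
      (fun z => σ * X < (nm z : ℝ) ∧ S z ∧ aix n z = (j : ℤ)), A z|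

open scoped Classical in
/-- the smoothed coefficients -/
noncomputable def av' (A : Qd t c → ℝ) (S : Qd t c → Prop) (σ τ X : ℝ) (z : Qd t c) : ℝ :=
  if S z then A z * Ph σ τ ((nm z : ℝ) / X) else 0

lemma av'_le {A : Qd t c → ℝ} (hA : ∀ z, |A z| ≤ 1) (S : Qd t c → Prop) (σ τ X : ℝ) (z : Qd t c) : |av' A S σ τ X z| ≤ 1 := by
  unfold av'
  split_ifs
  · rw [abs_mul, abs_of_nonneg (Ph_nonneg _ _ _)]
    calc _ ≤ (1 : ℝ) * 1 := mul_le_mul (hA z) (Ph_le _ _ _) (Ph_nonneg _ _ _) zero_le_one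
      _ = 1 := one_mul 1
  · simp

/-- the Fourier coefficients of the smoothed sum -/
lemma GS_eq (hD : t ^ 2 < 4 * c) (A : Qd t c → ℝ) (S : Qd t c → Prop) {σ τ X : ℝ} (hτ : 0 < τ) (hX : 0 < X) (k : ℤ) :
    ∑ z ∈ pball t c X, (av' A S σ τ X z : ℂ) * ex (k * ang z) = (X : ℂ) * GW (wq σ τ) (FS S (fun z => (A z : ℂ))) X k := by
  classical
  have he : (1 : ℝ) ≤ Real.exp 1 := Real.one_le_exp zero_le_one
  unfold GW DPG FS
  rw [Finset.mul_sum]
  have hsub : pball t c X ⊆ pball t c (Real.exp 1 * X) := by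
    intro z hz
    rw [mem_pball hD] at hz ⊢
    refine ⟨hz.1, hz.2.trans ?_⟩
    nlinarith
  rw [← Finset.sum_subset hsub]
  · refine Finset.sum_congr rfl fun z hz => ?_
    rw [mem_pball hD] at hz
    have hz0 := prim_ne_zero hz.1
    have hz1 : (0 : ℝ) < nm z := nm_posR hD hz0
    rw [ps_eq_exp hD hz0]
    unfold av' ex
    beta_reduce
    by_cases hS : S z
    · rw [if_pos hS, if_pos hS, ← wq_val (σ := σ) hτ hX hz1]
      push_cast
      ring
    · rw [if_neg hS, if_neg hS]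
      simp
  · intro z hz hz'
    rw [mem_pball hD] at hz hz'
    have hz0 := prim_ne_zero hz.1
    have hz1 : (0 : ℝ) < nm z := nm_posR hD hz0
    have h1 : X < nm z := by
      by_contra hcon
      exact hz' ⟨hz.1, not_lt.1 hcon⟩
    beta_reduce
    by_cases hS : S z
    · rw [if_pos hS]
      have h2 := wq_val (σ := σ) hτ hX hz1
      rw [Ph_zero_right hτ ((one_le_div hX).2 h1.le)] at h2
      have h3 : wq σ τ (Real.log (nm z) - Real.log X) / (nm z : ℝ) = 0 := by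
        rcases mul_eq_zero.1 h2 with h | h
        · exact absurd h hX.ne'
        · exact h
      rw [h3]
      simp
    · rw [if_neg hS]
      simp

/-- smoothing -/
lemma smooth (hD : t ^ 2 < 4 * c) {A : Qd t c → ℝ} (hA : ∀ z, |A z| ≤ 1) (S : Qd t c → Prop) {σ τ X : ℝ} (hτ : 0 < τ) (hX : 0 < X) (n : ℕ) :
    TS A S σ X n ≤ ∑ j ∈ range (n + 1), |∑ z ∈ (pball t c X).filter (fun z => aix n z = (j : ℤ)),
      av' A S σ τ X z| +
      (((pball t c ((σ + τ) * X)).filter (fun z => σ * X < (nm z : ℝ))).card +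
      ((pball t c X).filter (fun z => (1 - τ) * X < (nm z : ℝ))).card : ℝ) := by
  classical
  set cz : Qd t c → ℝ := fun z => (if (σ * X < (nm z : ℝ) ∧ nm z ≤ (σ + τ) * X) then 1 else 0) +
    (if ((1 - τ) * X < (nm z : ℝ)) then 1 else 0) with hcz
  have hc0 : ∀ z, 0 ≤ cz z := by
    intro z
    simp only [hcz]
    split_ifs <;> norm_num
  have hpt : ∀ z ∈ pball t c X,
      |(if (σ * X < (nm z : ℝ) ∧ S z) then A z else 0) - av' A S σ τ X z| ≤ cz z := by
    intro z hz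
    rw [mem_pball hD] at hz
    unfold av'
    by_cases hS : S z
    · rw [if_pos hS]
      by_cases h1 : σ * X < (nm z : ℝ)
      · rw [if_pos ⟨h1, hS⟩]
        have h2 : A z - A z * Ph σ τ ((nm z : ℝ) / X) =
            A z * (1 - Ph σ τ ((nm z : ℝ) / X)) := by ring
        rw [h2, abs_mul]
        have h3 := Ph_nonneg σ τ ((nm z : ℝ) / X)
        have h4 := Ph_le σ τ ((nm z : ℝ) / X)
        rw [abs_of_nonneg (by linarith : (0 : ℝ) ≤ 1 - Ph σ τ ((nm z : ℝ) / X))]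
        refine (mul_le_mul_of_nonneg_right (hA z) (by linarith)).trans ?_
        rw [one_mul]
        by_cases h5 : nm z ≤ (σ + τ) * X
        · simp only [hcz]
          rw [if_pos ⟨h1, h5⟩]
          split_ifs <;> linarith
        · by_cases h6 : (1 - τ) * X < (nm z : ℝ)
          · simp only [hcz]
            rw [if_pos h6]
            split_ifs <;> linarith
          · push Not at h5 h6
            have h7 : Ph σ τ ((nm z : ℝ) / X) = 1 := by
              apply Ph_one hτ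
              · rw [le_div_iff₀ hX]
                exact h5.le
              · rw [div_le_iff₀ hX]
                exact h6
            rw [h7, sub_self]
            exact hc0 z
      · rw [if_neg (fun h => h1 h.1)]
        have h2 : Ph σ τ ((nm z : ℝ) / X) = 0 := by
          apply Ph_zero_left hτ
          rw [div_le_iff₀ hX]
          exact not_lt.1 h1
        rw [h2, mul_zero, sub_zero, abs_zero]
        exact hc0 z
    · rw [if_neg hS, if_neg (fun h => hS h.2), sub_zero, abs_zero]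
      exact hc0 z
  have hsum : ∑ z ∈ pball t c X, cz z ≤
      (((pball t c ((σ + τ) * X)).filter (fun z => σ * X < (nm z : ℝ))).card +
      ((pball t c X).filter (fun z => (1 - τ) * X < (nm z : ℝ))).card : ℝ) := by
    simp only [hcz]
    rw [Finset.sum_add_distrib, ← Finset.sum_filter, ← Finset.sum_filter, Finset.sum_const,
      Finset.sum_const, nsmul_eq_mul, nsmul_eq_mul, mul_one, mul_one]
    refine add_le_add ?_ le_rfl
    have : ((pball t c X).filter (fun z => σ * X < (nm z : ℝ) ∧ nm z ≤ (σ + τ) * X)).card ≤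
        ((pball t c ((σ + τ) * X)).filter (fun z => σ * X < (nm z : ℝ))).card := by
      apply Finset.card_le_card
      intro z hz
      rw [mem_filter, mem_pball hD] at hz ⊢
      exact ⟨⟨hz.1.1, hz.2.2⟩, hz.2.1⟩
    exact_mod_cast this
  have h1 : ∀ j ∈ range (n + 1), |∑ z ∈ (pball t c X).filter
      (fun z => σ * X < (nm z : ℝ) ∧ S z ∧ aix n z = (j : ℤ)), A z| ≤
      |∑ z ∈ (pball t c X).filter (fun z => aix n z = (j : ℤ)), av' A S σ τ X z| +
      ∑ z ∈ (pball t c X).filter (fun z => aix n z = (j : ℤ)), cz z := by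
    intro j _
    have h2 : ∑ z ∈ (pball t c X).filter
        (fun z => σ * X < (nm z : ℝ) ∧ S z ∧ aix n z = (j : ℤ)), A z =
        ∑ z ∈ (pball t c X).filter (fun z => aix n z = (j : ℤ)), av' A S σ τ X z +
        ∑ z ∈ (pball t c X).filter (fun z => aix n z = (j : ℤ)),
          ((if (σ * X < (nm z : ℝ) ∧ S z) then A z else 0) - av' A S σ τ X z) := by
      rw [← Finset.sum_add_distrib, Finset.sum_filter, Finset.sum_filter]
      refine Finset.sum_congr rfl fun z _ => ?_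
      by_cases ha : aix n z = (j : ℤ)
      · rw [if_pos ha]
        by_cases hb : σ * X < (nm z : ℝ) ∧ S z
        · rw [if_pos ⟨hb.1, hb.2, ha⟩, if_pos hb]
          ring
        · rw [if_neg (fun h => hb ⟨h.1, h.2.1⟩), if_neg hb]
          ring
      · rw [if_neg ha, if_neg (fun h => ha h.2.2)]
    rw [h2]
    refine (abs_add_le _ _).trans (add_le_add le_rfl ?_)
    refine (Finset.abs_sum_le_sum_abs _ _).trans (Finset.sum_le_sum fun z hz => ?_)
    exact hpt z (Finset.mem_filter.1 hz).1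
  unfold TS
  refine (Finset.sum_le_sum h1).trans ?_
  rw [Finset.sum_add_distrib]
  refine add_le_add le_rfl ?_
  exact (fiber_le (pball t c X) (aix n) cz (fun z _ => hc0 z) n).trans hsum

/-- the statement for `1/2 ≤ σ` -/
lemma base (hD : t ^ 2 < 4 * c) {A : Qd t c → ℝ} (hA : HA A) (M : ℕ) (S : Qd t c → Prop) (hM : 1 ≤ M)
    (hS : Per M S) (σ : ℝ) (hσ : 1 / 2 ≤ σ) (hσ1 : σ < 1) (ε : ℝ) (hε : 0 < ε) :
    ∃ H : ℝ, 1 ≤ H ∧ ∃ X₀ : ℝ, ∀ X : ℝ, X₀ ≤ X → ∀ n : ℕ, 1 ≤ n → n * H ≤ X →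
      TS A S σ X n ≤ ε * X := by
  classical
  obtain ⟨κ, C, hκ, hC, hcard, hshell⟩ := pball_count hD
  obtain ⟨C', hC', hbad⟩ := bad_count hD
  have hpi := Real.pi_gt_three
  set τ : ℝ := min ((1 - σ) / 2) (ε / (16 * κ)) with hτdef
  have hτ : 0 < τ := lt_min (by linarith) (by positivity)
  have hτ1 : τ ≤ (1 - σ) / 2 := min_le_left _ _
  have hτ2 : τ ≤ ε / (16 * κ) := min_le_right _ _
  have hτ3 : κ * τ ≤ ε / 16 := by
    calc κ * τ ≤ κ * (ε / (16 * κ)) := mul_le_mul_of_nonneg_left hτ2 hκ.le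
      _ = ε / 16 := by field_simp
  have hrw := wq_rw hσ hτ
  obtain ⟨h, hh, Y₀, hY⟩ := hA.mr M S hM hS _ _ hrw (ε ^ 2 / 32) (by positivity)
  obtain ⟨Y₁, hY'⟩ := hA.m0 M S hM hS _ _ hrw (ε / 8) (by positivity)
  set c₁ : ℝ := 23552 * (κ + C) * h ^ 2 / ε with hc₁
  have hc₁0 : 0 ≤ c₁ := by positivity
  set H₁ : ℝ := 1 + c₁ with hH₁
  have hH₁1 : 1 ≤ H₁ := by linarith
  set H : ℝ := 1 + 32 * C' * (H₁ + 1) / ε with hHdef
  have hH0 : 0 ≤ 32 * C' * (H₁ + 1) / ε := by positivity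
  have hH1 : 1 ≤ H := by linarith
  refine ⟨H, hH1, max (max Y₀ Y₁) (max (8 * h) (max H₁ (max 2 ((4 * C / (ε / 8)) ^ 2)))), ?_⟩
  intro X hX n hn hnH
  have hX1 : Y₀ ≤ X := le_trans (le_trans (le_max_left _ _) (le_max_left _ _)) hX
  have hX2 : Y₁ ≤ X := le_trans (le_trans (le_max_right _ _) (le_max_left _ _)) hX
  have hX' := le_trans (le_max_right _ _) hX
  have hX3 : 8 * h ≤ X := le_trans (le_max_left _ _) hX'
  have hX'' := le_trans (le_max_right _ _) hX'
  have hX4 : H₁ ≤ X := le_trans (le_max_left _ _) hX''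
  have hX''' := le_trans (le_max_right _ _) hX''
  have hX5 : 2 ≤ X := le_trans (le_max_left _ _) hX'''
  have hX6 : (4 * C / (ε / 8)) ^ 2 ≤ X := le_trans (le_max_right _ _) hX'''
  have hX0 : 0 < X := by linarith
  have hh0 : 0 < h := by linarith
  -- the low frequencies
  set K : ℕ := ⌊X / (4 * h)⌋₊ with hK
  have hq : 2 ≤ X / (4 * h) := by
    rw [le_div_iff₀ (by positivity)]
    linarith
  have hK1 : 1 ≤ K := Nat.le_floor (by push_cast; linarith)
  have hKge : X / (8 * h) ≤ K := by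
    have e1 : X / (4 * h) < K + 1 := Nat.lt_floor_add_one _
    have e2 : X / (8 * h) = X / (4 * h) / 2 := by field_simp; norm_num
    rw [e2]
    linarith
  set δ : ℝ := H₁ / X with hδ
  have hδ0 : 0 < δ := by positivity
  have hδ1 : δ ≤ 1 := (div_le_one hX0).2 hX4
  have hXδ : X * δ = H₁ := by rw [hδ]; field_simp
  have hsm := smooth hD hA.bd (S := S) (σ := σ) hτ hX0 n
  have hang := ang_main (pball t c X) (fun z => ang z) (av' A S σ τ X)
    (fun z _ => ⟨Complex.neg_pi_lt_arg _, Complex.arg_le_pi _⟩) (fun z _ => av'_le hA.bd S σ τ X z)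
    K n hK1 hn δ hδ0
  -- E1
  have hE1 : ((((pball t c ((σ + τ) * X)).filter (fun z => σ * X < (nm z : ℝ))).card : ℝ) +
      ((pball t c X).filter (fun z => (1 - τ) * X < (nm z : ℝ))).card) ≤ ε / 4 * X := by
    have a1 : 1 / 2 * X ≤ σ * X := mul_le_mul_of_nonneg_right hσ hX0.le
    have a2 : 0 < τ * X := mul_pos hτ hX0
    have a3 : (σ + τ) * X ≤ 1 * X := mul_le_mul_of_nonneg_right (by linarith) hX0.le
    have a4 : (1 / 2) * X ≤ (1 - τ) * X := mul_le_mul_of_nonneg_right (by linarith) hX0.le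
    have a5 : (σ + τ) * X = σ * X + τ * X := by ring
    have a6 : (1 - τ) * X = X - τ * X := by ring
    have e1 := hshell (σ * X) ((σ + τ) * X) (by linarith) (by linarith)
    have e2 := hshell ((1 - τ) * X) X (by linarith) (by linarith)
    have e3 : Real.sqrt ((σ + τ) * X) ≤ Real.sqrt X := Real.sqrt_le_sqrt (by linarith)
    have e4 : 2 * C * Real.sqrt ((σ + τ) * X) ≤ 2 * C * Real.sqrt X :=
      mul_le_mul_of_nonneg_left e3 (by positivity)
    have e5 := sqrt_small (C := 4 * C) (ε := ε / 8) (by positivity) hX0 hX6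
    have e6 : κ * τ * X ≤ ε / 16 * X := mul_le_mul_of_nonneg_right hτ3 hX0.le
    have e7 : κ * ((σ + τ) * X - σ * X) = κ * τ * X := by ring
    have e8 : κ * (X - (1 - τ) * X) = κ * τ * X := by ring
    rw [e7] at e1
    rw [e8] at e2
    linarith
  -- E2
  have hE2 : Real.sqrt (∑ k ∈ FK (2 * K + 1), ‖∑ z ∈ pball t c X,
      (av' A S σ τ X z : ℂ) * ex (k * ang z)‖ ^ 2) ≤ ε / 4 * X := by
    have e1 : ∑ k ∈ FK (2 * K + 1), ‖∑ z ∈ pball t c X,
        (av' A S σ τ X z : ℂ) * ex (k * ang z)‖ ^ 2 =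
        X ^ 2 * ∑ k ∈ FK (2 * K + 1), ‖GW (wq σ τ) (FS S (fun z => (A z : ℂ))) X k‖ ^ 2 := by
      rw [Finset.mul_sum]
      refine Finset.sum_congr rfl fun k _ => ?_
      rw [GS_eq hD A S hτ hX0, norm_mul, mul_pow, Complex.norm_real, Real.norm_eq_abs, sq_abs]
    have e2 := low hh hX3 (fun k => ‖GW (wq σ τ) (FS S (fun z => (A z : ℂ))) X k‖ ^ 2) (fun k => by positivity)
      (hY X hX1) (η₂ := ε ^ 2 / 64) (by
        have e3 := hY' X hX2
        have e4 : ‖GW (wq σ τ) (FS S (fun z => (A z : ℂ))) X 0‖ ^ 2 ≤ (ε / 8) ^ 2 := pow_le_pow_left₀ (norm_nonneg _) e3 2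
        calc ‖GW (wq σ τ) (FS S (fun z => (A z : ℂ))) X 0‖ ^ 2 ≤ (ε / 8) ^ 2 := e4
          _ = ε ^ 2 / 64 := by ring)
    rw [e1]
    apply Real.sqrt_le_iff.2
    refine ⟨by positivity, ?_⟩
    calc X ^ 2 * ∑ k ∈ FK (2 * K + 1), ‖GW (wq σ τ) (FS S (fun z => (A z : ℂ))) X k‖ ^ 2
        ≤ X ^ 2 * (ε ^ 2 / 32 + ε ^ 2 / 64) := mul_le_mul_of_nonneg_left e2 (by positivity)
      _ ≤ (ε / 4 * X) ^ 2 := by
        have e5 : (ε / 4 * X) ^ 2 - X ^ 2 * (ε ^ 2 / 32 + ε ^ 2 / 64) = (ε * X) ^ 2 / 64 := by ring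
        have e6 : 0 ≤ (ε * X) ^ 2 / 64 := by positivity
        linarith
  -- E3
  have hE3 : 2 * (((pball t c X).filter (fun z => Bd n δ (ang z))).card : ℝ) ≤ ε / 8 * X := by
    have e1 := hbad X δ n (by linarith) hδ0.le (by linarith)
    rw [hXδ] at e1
    have hn1 : (1 : ℝ) ≤ n := by exact_mod_cast hn
    have e2 : ((n : ℝ) + 1) * (C' * (H₁ + 1)) ≤ (2 * n) * (C' * (H₁ + 1)) :=
      mul_le_mul_of_nonneg_right (by linarith) (by positivity)
    have e3 : 32 * C' * (H₁ + 1) / ε ≤ H := by linarith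
    have e4 : 32 * C' * (H₁ + 1) ≤ ε * H := by
      rw [div_le_iff₀ hε] at e3
      linarith
    have e5 : (n : ℝ) * (32 * C' * (H₁ + 1)) ≤ n * (ε * H) :=
      mul_le_mul_of_nonneg_left e4 (by positivity)
    have e6 : ε * (n * H) ≤ ε * X := mul_le_mul_of_nonneg_left hnH hε.le
    have e7 : (n : ℝ) * (ε * H) = ε * (n * H) := by ring
    have e8 : (2 * (n : ℝ)) * (C' * (H₁ + 1)) = (n * (32 * C' * (H₁ + 1))) / 16 := by ring
    linarith
  -- E4
  have hE4 : 2 * ((pball t c X).card : ℝ) * (23 / (K * δ) ^ 2) ≤ ε / 8 * X := by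
    have e1 := hcard X (by linarith)
    have e2 : H₁ / (8 * h) ≤ K * δ := by
      calc H₁ / (8 * h) = X / (8 * h) * δ := by rw [hδ]; field_simp
        _ ≤ K * δ := mul_le_mul_of_nonneg_right hKge hδ0.le
    have e3 : (H₁ / (8 * h)) ^ 2 ≤ (K * δ) ^ 2 := pow_le_pow_left₀ (by positivity) e2 2
    have e4 : c₁ ≤ H₁ ^ 2 := by
      have e10 : H₁ * 1 ≤ H₁ * H₁ := mul_le_mul_of_nonneg_left hH₁1 (by linarith)
      rw [sq]
      linarith
    have e5 : c₁ / (64 * h ^ 2) ≤ (K * δ) ^ 2 := by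
      refine le_trans ?_ e3
      rw [div_pow]
      have : (8 * h) ^ 2 = 64 * h ^ 2 := by ring
      rw [this]
      exact div_le_div_of_nonneg_right e4 (by positivity)
    have e6 : c₁ / (64 * h ^ 2) = 368 * (κ + C) / ε := by
      rw [hc₁]
      field_simp
      norm_num
    rw [e6] at e5
    have e7 : 0 < 368 * (κ + C) / ε := by positivity
    have e8 : 23 / (K * δ) ^ 2 ≤ 23 / (368 * (κ + C) / ε) :=
      div_le_div_of_nonneg_left (by norm_num) e7 e5
    have e9 : 23 / (368 * (κ + C) / ε) = ε / (16 * (κ + C)) := by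
      field_simp
      norm_num
    rw [e9] at e8
    calc 2 * ((pball t c X).card : ℝ) * (23 / (K * δ) ^ 2)
        ≤ 2 * ((κ + C) * X) * (ε / (16 * (κ + C))) := by
          refine mul_le_mul (by linarith) e8 (by positivity) (by positivity)
      _ = ε / 8 * X := by
          field_simp
          norm_num
  have hfin : ∑ j ∈ range (n + 1), |∑ z ∈ (pball t c X).filter (fun z => aix n z = (j : ℤ)),
      av' A S σ τ X z| ≤ ε / 4 * X + ε / 8 * X + ε / 8 * X := by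
    refine le_trans ?_ (add_le_add (add_le_add hE2 hE3) hE4)
    exact hang
  have hεX : 0 ≤ ε * X := by positivity
  linarith

lemma TS_split (hD : t ^ 2 < 4 * c) (A : Qd t c → ℝ) (S : Qd t c → Prop) {σ X : ℝ} (hσ : σ ≤ 1 / 2) (hX : 0 < X) (n : ℕ) :
    TS A S σ X n ≤ TS A S (2 * σ) (X / 2) n + TS A S (1 / 2) X n := by
  classical
  unfold TS
  rw [← Finset.sum_add_distrib]
  refine Finset.sum_le_sum fun j _ => ?_
  refine le_trans (le_of_eq ?_) (abs_add_le _ _)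
  congr 1
  have h1 : ∑ z ∈ (pball t c (X / 2)).filter
      (fun z => 2 * σ * (X / 2) < (nm z : ℝ) ∧ S z ∧ aix n z = (j : ℤ)), A z =
      ∑ z ∈ (pball t c X).filter (fun z => ((nm z : ℝ) ≤ X / 2) ∧
        (σ * X < (nm z : ℝ) ∧ S z ∧ aix n z = (j : ℤ))), A z := by
    refine Finset.sum_congr ?_ fun _ _ => rfl
    ext z
    rw [mem_filter, mem_filter, mem_pball hD, mem_pball hD]
    have e : 2 * σ * (X / 2) = σ * X := by ring
    rw [e]
    constructor
    · rintro ⟨⟨a, b⟩, c⟩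
      exact ⟨⟨a, by linarith⟩, b, c⟩
    · rintro ⟨⟨a, b⟩, c, d⟩
      exact ⟨⟨a, c⟩, d⟩
  rw [h1, Finset.sum_filter, Finset.sum_filter, Finset.sum_filter, ← Finset.sum_add_distrib]
  refine Finset.sum_congr rfl fun z _ => ?_
  by_cases ha : S z ∧ aix n z = (j : ℤ)
  · by_cases hb : (nm z : ℝ) ≤ X / 2
    · have hc : ¬ (1 / 2 * X < (nm z : ℝ)) := by linarith
      have hc' : ¬ (1 / 2 * X < (nm z : ℝ) ∧ S z ∧ aix n z = (j : ℤ)) := fun h => hc h.1
      rw [if_neg hc', add_zero]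
      by_cases hd : σ * X < (nm z : ℝ)
      · rw [if_pos ⟨hd, ha⟩, if_pos ⟨hb, hd, ha⟩]
      · rw [if_neg (fun h => hd h.1), if_neg (fun h => hd h.2.1)]
    · have hc : 1 / 2 * X < (nm z : ℝ) := by linarith
      have hd : σ * X < (nm z : ℝ) := by
        have hd' : σ * X ≤ 1 / 2 * X := mul_le_mul_of_nonneg_right hσ hX.le
        linarith
      rw [if_pos ⟨hd, ha⟩, if_neg (fun h => hb h.1), if_pos ⟨hc, ha⟩, zero_add]
  · rw [if_neg (fun h => ha h.2), if_neg (fun h => ha h.2.2), if_neg (fun h => ha h.2), add_zero]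

lemma steps (hD : t ^ 2 < 4 * c) {A : Qd t c → ℝ} (hA : HA A) (M : ℕ) (S : Qd t c → Prop) (hM : 1 ≤ M)
    (hS : Per M S) (k : ℕ) : ∀ σ : ℝ, 1 / 2 ^ (k + 1) ≤ σ → σ < 1 → ∀ ε : ℝ, 0 < ε →
    ∃ H : ℝ, 1 ≤ H ∧ ∃ X₀ : ℝ, ∀ X : ℝ, X₀ ≤ X → ∀ n : ℕ, 1 ≤ n → n * H ≤ X →
      TS A S σ X n ≤ ε * X := by
  induction k with
  | zero =>
    intro σ hσ hσ1 ε hε
    rw [zero_add, pow_one] at hσ
    exact base hD hA M S hM hS σ hσ hσ1 ε hε
  | succ k ih =>
    intro σ hσ hσ1 ε hε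
    by_cases hc : 1 / 2 ≤ σ
    · exact base hD hA M S hM hS σ hc hσ1 ε hε
    · push Not at hc
      have hσ2 : 1 / 2 ^ (k + 1) ≤ 2 * σ := by
        have e : (1 : ℝ) / 2 ^ (k + 1) = 2 * (1 / 2 ^ (k + 1 + 1)) := by
          rw [pow_succ (2 : ℝ) (k + 1)]
          field_simp
        rw [e]
        linarith
      obtain ⟨H, hH, X₀, hX₀⟩ := ih (2 * σ) hσ2 (by linarith) (ε / 2) (by positivity)
      obtain ⟨H', hH', X₀', hX₀'⟩ := base hD hA M S hM hS (1 / 2) le_rfl (by norm_num)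
        (ε / 2) (by positivity)
      refine ⟨max (2 * H) H', le_max_of_le_right hH', max 1 (max (2 * X₀) X₀'), ?_⟩
      intro X hX n hn hnX
      have hX1 : 1 ≤ X := le_trans (le_max_left _ _) hX
      have hX' := le_trans (le_max_right _ _) hX
      have hX2 : 2 * X₀ ≤ X := le_trans (le_max_left _ _) hX'
      have hX3 : X₀' ≤ X := le_trans (le_max_right _ _) hX'
      have hn0 : (0 : ℝ) ≤ n := Nat.cast_nonneg n
      have e1 : (n : ℝ) * (2 * H) ≤ n * max (2 * H) H' :=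
        mul_le_mul_of_nonneg_left (le_max_left _ _) hn0
      have e2 : (n : ℝ) * H' ≤ n * max (2 * H) H' :=
        mul_le_mul_of_nonneg_left (le_max_right _ _) hn0
      have e3 := hX₀ (X / 2) (by linarith) n hn (by linarith)
      have e4 := hX₀' X hX3 n hn (by linarith)
      have e5 := TS_split hD A S hc.le (by linarith : 0 < X) n
      have e6 : 0 < ε * X := by positivity
      linarith

/-- MRS -/
theorem mrsA (hD : t ^ 2 < 4 * c) {A : Qd t c → ℝ} (hA : HA A) : Mrs A := by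
  intro M S hM hS σ hσ hσ1 ε hε
  obtain ⟨k, hk⟩ := exists_pow_lt_of_lt_one hσ (by norm_num : (1 / 2 : ℝ) < 1)
  have hk' : 1 / 2 ^ (k + 1) ≤ σ := by
    have e1 : (1 : ℝ) / 2 ^ (k + 1) ≤ (1 / 2) ^ k := by
      rw [one_div_pow]
      apply one_div_le_one_div_of_le (by positivity)
      exact pow_le_pow_right₀ (by norm_num) (by omega)
    linarith
  exact steps hD hA M S hM hS k σ hk' hσ1 ε hε


/-! ### real and imaginary parts -/

lemma cm_norm {N : ℕ} {F : Qd t c → ℂ} (h : Cm N F) (z : Qd t c) : ‖F z‖ = 1 := by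
  have h1 := congrArg norm (h.pow z)
  rw [norm_pow, norm_one] at h1
  exact (pow_eq_one_iff_of_nonneg (norm_nonneg _) (Nat.one_le_iff_ne_zero.1 h.pos)).1 h1

lemma cm_conj {N : ℕ} {F : Qd t c → ℂ} (h : Cm N F) : Cm N (fun z => starRingEnd ℂ (F z)) where
  pos := h.pos
  mul z w hz hw := by rw [h.mul z w hz hw, map_mul]
  pow z := by rw [← map_pow, h.pow z, map_one]

lemma apd_conj {N : ℕ} {F : Qd t c → ℂ} (h : Apd N F) : Apd N (fun z => starRingEnd ℂ (F z)) where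
  cm := cm_conj h.cm
  mean M r₁ r₂ hM ε hε := by
    obtain ⟨X₀, hX⟩ := h.mean M r₁ r₂ hM ε hε
    refine ⟨X₀, fun X hX' => ?_⟩
    rw [← map_sum, RCLike.norm_conj]
    exact hX X hX'

lemma gw_lin (S : Qd t c → Prop) (F G : Qd t c → ℂ) (A : Qd t c → ℝ) (c e : ℂ)
    (hA : ∀ z, (A z : ℂ) = c * (F z + e * G z)) (wt : ℝ → ℝ) (Y : ℝ) (k : ℤ) :
    GW wt (FS S (fun z => (A z : ℂ))) Y k = c * (GW wt (FS S F) Y k + e * GW wt (FS S G) Y k) := by
  unfold GW DPG
  rw [Finset.mul_sum, ← Finset.sum_add_distrib, Finset.mul_sum]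
  refine Finset.sum_congr rfl fun z _ => ?_
  unfold FS
  by_cases hS : S z
  · simp only [if_pos hS, hA z]
    ring
  · simp only [if_neg hS]
    ring

lemma gw_bd (S : Qd t c → Prop) (F G : Qd t c → ℂ) (A : Qd t c → ℝ) (c e : ℂ) (hc : ‖c‖ = 1 / 2)
    (he : ‖e‖ = 1) (hA : ∀ z, (A z : ℂ) = c * (F z + e * G z)) (wt : ℝ → ℝ) (Y : ℝ) (k : ℤ) :
    ‖GW wt (FS S (fun z => (A z : ℂ))) Y k‖ ≤
      (‖GW wt (FS S F) Y k‖ + ‖GW wt (FS S G) Y k‖) / 2 := by
  rw [gw_lin S F G A c e hA, norm_mul, hc]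
  have h1 := norm_add_le (GW wt (FS S F) Y k) (e * GW wt (FS S G) Y k)
  rw [norm_mul, he, one_mul] at h1
  linarith

lemma ha_of (h1 : S_MRX t c) (h2 : S_MW0X t c) {N : ℕ} {F : Qd t c → ℂ} (h : Apd N F) (A : Qd t c → ℝ) (c e : ℂ)
    (hc : ‖c‖ = 1 / 2) (he : ‖e‖ = 1)
    (hA : ∀ z, (A z : ℂ) = c * (F z + e * starRingEnd ℂ (F z))) : HA A where
  bd z := by
    have h3 : |A z| = ‖(A z : ℂ)‖ := by rw [Complex.norm_real, Real.norm_eq_abs]
    rw [h3, hA z, norm_mul, hc]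
    have h4 := norm_add_le (F z) (e * starRingEnd ℂ (F z))
    rw [norm_mul, he, one_mul, RCLike.norm_conj, cm_norm h.cm z] at h4
    linarith
  mr M S hM hS Λ wt hw η hη := by
    obtain ⟨a, ha, Y₀, hY₀⟩ := h1 N F h.cm M S hM hS Λ wt hw η hη
    obtain ⟨b, hb, Y₁, hY₁⟩ := h1 N _ (cm_conj h.cm) M S hM hS Λ wt hw η hη
    refine ⟨max a b, le_max_of_le_left ha, max 0 (max Y₀ Y₁), fun Y hY => ?_⟩
    have y0 : 0 ≤ Y := (le_max_left _ _).trans hY
    have y1 : Y₀ ≤ Y := (le_max_left _ _).trans ((le_max_right _ _).trans hY)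
    have y2 : Y₁ ≤ Y := (le_max_right _ _).trans ((le_max_right _ _).trans hY)
    have sub : ∀ x : ℝ, 1 ≤ x → x ≤ max a b →
        (FK ⌊Y / max a b⌋₊).erase 0 ⊆ (FK ⌊Y / x⌋₊).erase 0 := by
      intro x hx hx'
      apply Finset.erase_subset_erase
      have h3 : ⌊Y / max a b⌋₊ ≤ ⌊Y / x⌋₊ :=
        Nat.floor_le_floor (div_le_div_of_nonneg_left y0 (by linarith) hx')
      unfold FK
      apply Finset.Ioo_subset_Ioo
      · have : ((⌊Y / max a b⌋₊ : ℕ) : ℤ) ≤ (⌊Y / x⌋₊ : ℤ) := by exact_mod_cast h3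
        linarith
      · exact_mod_cast h3
    have s1 := (Finset.sum_le_sum_of_subset_of_nonneg (sub a ha (le_max_left _ _))
      (fun k _ _ => by positivity)).trans (hY₀ Y y1)
    have s2 := (Finset.sum_le_sum_of_subset_of_nonneg (sub b hb (le_max_right _ _))
      (fun k _ _ => by positivity)).trans (hY₁ Y y2)
    calc ∑ k ∈ (FK ⌊Y / max a b⌋₊).erase 0, ‖GW wt (FS S (fun z => (A z : ℂ))) Y k‖ ^ 2
        ≤ ∑ k ∈ (FK ⌊Y / max a b⌋₊).erase 0, (1 / 2 * ‖GW wt (FS S F) Y k‖ ^ 2 +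
          1 / 2 * ‖GW wt (FS S (fun z => starRingEnd ℂ (F z))) Y k‖ ^ 2) := by
          refine Finset.sum_le_sum fun k _ => ?_
          have h5 := gw_bd S F (fun z => starRingEnd ℂ (F z)) A c e hc he hA wt Y k
          have h6 := pow_le_pow_left₀ (norm_nonneg _) h5 2
          refine h6.trans ?_
          nlinarith [sq_nonneg (‖GW wt (FS S F) Y k‖ -
            ‖GW wt (FS S (fun z => starRingEnd ℂ (F z))) Y k‖)]
      _ = 1 / 2 * ∑ k ∈ (FK ⌊Y / max a b⌋₊).erase 0, ‖GW wt (FS S F) Y k‖ ^ 2 +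
          1 / 2 * ∑ k ∈ (FK ⌊Y / max a b⌋₊).erase 0,
            ‖GW wt (FS S (fun z => starRingEnd ℂ (F z))) Y k‖ ^ 2 := by
          rw [Finset.sum_add_distrib, Finset.mul_sum, Finset.mul_sum]
      _ ≤ 1 / 2 * η + 1 / 2 * η := by linarith
      _ = η := by ring
  m0 M S hM hS Λ wt hw η hη := by
    obtain ⟨Y₀, hY₀⟩ := h2 N F h M S hM hS Λ wt hw η hη
    obtain ⟨Y₁, hY₁⟩ := h2 N _ (apd_conj h) M S hM hS Λ wt hw η hη
    refine ⟨max Y₀ Y₁, fun Y hY => ?_⟩
    have y1 := hY₀ Y ((le_max_left _ _).trans hY)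
    have y2 := hY₁ Y ((le_max_right _ _).trans hY)
    have h5 := gw_bd S F (fun z => starRingEnd ℂ (F z)) A c e hc he hA wt Y 0
    linarith

/-- MRSX -/
theorem mrsx (hD : t ^ 2 < 4 * c) (h1 : S_MRX t c) (h2 : S_MW0X t c) : S_MRSX t c := by
  intro N F hF
  constructor
  · refine mrsA hD (ha_of h1 h2 hF _ (1 / 2) 1 (by simp) (by simp) fun z => ?_)
    rw [one_mul, Complex.add_conj]
    push_cast
    ring
  · refine mrsA hD (ha_of h1 h2 hF _ (-Complex.I / 2) (-1) (by simp) (by simp) fun z => ?_)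
    have h3 : F z + -1 * starRingEnd ℂ (F z) = 2 * (F z).im * Complex.I := by
      rw [neg_one_mul, ← sub_eq_add_neg, Complex.sub_conj]
      push_cast
      ring
    rw [h3]
    linear_combination ((F z).im : ℂ) * Complex.I_sq

end Pool.Agent.N912.ED.W12EGMrsx
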