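import Pool.Agent.N912.ED.W78EGDefs
import Pool.Agent.W496.EG.Eleg

/-!
# EG-MRX: the Matomaki-Radziwill theorem in all residue classes (port of `W378.EX.Mrx`)
-/

set_option autoImplicit false

namespace Pool.Agent.N912.ED.W496EG

open Finset
open Pool.Agent.H376R2.MR (FK)
open Pool.Agent.W78.GA (Qd nm prim Ele DPG pball ps)
open Pool.Agent.W78.EC (Rw)
open Pool.Agent.W251.GX (Cm)
open Pool.Agent.W251.EX (GW Tx S_MRG)
open Pool.Agent.N912.ED.W78EG

variable {t c : ℤ}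

open scoped Classical in
/-- the indicator function of `S` -/
noncomputable def iS (S : Qd t c → Prop) (z : Qd t c) : ℂ := if S z then 1 else 0

theorem iS_congr {S : Qd t c → Prop} {z z' : Qd t c} (h : S z ↔ S z') : iS S z = iS S z' := by
  unfold iS
  by_cases h1 : S z
  · rw [if_pos h1, if_pos (h.1 h1)]
  · rw [if_neg h1, if_neg (fun h2 => h1 (h.2 h2))]

theorem iS_norm (S : Qd t c → Prop) (z : Qd t c) : ‖iS S z‖ ≤ 1 := by
  unfold iS
  split_ifs <;> simp

/-- the component of the indicator function of `S` with the character `χ` -/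
noncomputable def sc (Q : ℕ) [NeZero Q] (S : Qd t c → Prop) (χ : DirichletCharacter ℂ Q) (z : Qd t c) :
    ℂ := (1 / (Q.totient : ℂ)) * ∑ x : (ZMod Q)ˣ, χ ((x⁻¹ : (ZMod Q)ˣ) : ZMod Q) *
      iS S ((((x : ZMod Q).val : ℤ) : Qd t c) * z)

variable {Q : ℕ} [NeZero Q] {S : Qd t c → Prop}

omit [NeZero Q] in
theorem per_int (hS : Per Q S) {a b : ℤ} (h : (a : ZMod Q) = (b : ZMod Q)) (z : Qd t c) :
    S ((a : Qd t c) * z) ↔ S ((b : Qd t c) * z) := by
  have h' : (Q : ℤ) ∣ b - a := (ZMod.intCast_eq_intCast_iff_dvd_sub a b Q).1 h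
  obtain ⟨k, hk⟩ := h'
  apply hS
  · refine ⟨-(k * z.re), ?_⟩
    simp only [QuadraticAlgebra.re_mul, QuadraticAlgebra.re_intCast,
      QuadraticAlgebra.im_intCast, Int.cast_id]
    linear_combination (-z.re) * hk
  · refine ⟨-(k * z.im), ?_⟩
    simp only [QuadraticAlgebra.im_mul, QuadraticAlgebra.re_intCast,
      QuadraticAlgebra.im_intCast, Int.cast_id]
    linear_combination (-z.im) * hk

theorem sc_per (hS : Per Q S) (χ : DirichletCharacter ℂ Q) {z z' : Qd t c}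
    (h1 : (Q : ℤ) ∣ z.re - z'.re) (h2 : (Q : ℤ) ∣ z.im - z'.im) : sc Q S χ z = sc Q S χ z' := by
  unfold sc
  congr 1
  refine Finset.sum_congr rfl fun x _ => ?_
  congr 1
  apply iS_congr
  obtain ⟨k, hk⟩ := h1
  obtain ⟨l, hl⟩ := h2
  apply hS
  · refine ⟨((x : ZMod Q).val : ℤ) * k, ?_⟩
    simp only [QuadraticAlgebra.re_mul, QuadraticAlgebra.re_intCast,
      QuadraticAlgebra.im_intCast, Int.cast_id]
    linear_combination (((x : ZMod Q).val : ℤ)) * hk
  · refine ⟨((x : ZMod Q).val : ℤ) * l, ?_⟩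
    simp only [QuadraticAlgebra.im_mul, QuadraticAlgebra.re_intCast,
      QuadraticAlgebra.im_intCast, Int.cast_id]
    linear_combination (((x : ZMod Q).val : ℤ)) * hl

theorem sc_scal (hS : Per Q S) (χ : DirichletCharacter ℂ Q) {y : ℤ} (hy : IsUnit (y : ZMod Q))
    (z : Qd t c) : sc Q S χ ((y : Qd t c) * z) = χ (y : ZMod Q) * sc Q S χ z := by
  obtain ⟨u, hu⟩ := hy
  unfold sc
  rw [mul_left_comm]
  congr 1
  rw [Finset.mul_sum]
  refine Fintype.sum_equiv (Equiv.mulRight u) _ _ fun x => ?_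
  rw [← mul_assoc (χ (y : ZMod Q))]
  congr 1
  · rw [← map_mul, Equiv.coe_mulRight, ← hu, ← Units.val_mul]
    congr 2
    rw [mul_inv, mul_comm x⁻¹, mul_inv_cancel_left]
  · rw [← mul_assoc, ← Int.cast_mul]
    apply iS_congr
    apply per_int hS
    rw [Equiv.coe_mulRight, Int.cast_mul, Int.cast_natCast, Int.cast_natCast,
      ZMod.natCast_zmod_val, ZMod.natCast_zmod_val, Units.val_mul, hu]

theorem sc_norm (χ : DirichletCharacter ℂ Q) (z : Qd t c) : ‖sc Q S χ z‖ ≤ 1 := by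
  have hQ : 0 < Q.totient := Nat.totient_pos.2 (Nat.pos_of_ne_zero (NeZero.ne Q))
  unfold sc
  rw [norm_mul, norm_div, norm_one, Complex.norm_natCast]
  have h1 : ‖∑ x : (ZMod Q)ˣ, χ ((x⁻¹ : (ZMod Q)ˣ) : ZMod Q) *
      iS S ((((x : ZMod Q).val : ℤ) : Qd t c) * z)‖ ≤ Q.totient := by
    refine (norm_sum_le _ _).trans ?_
    refine (Finset.sum_le_card_nsmul _ _ 1 ?_).trans ?_
    · intro x _
      rw [norm_mul]
      exact mul_le_one₀ (χ.norm_le_one _) (norm_nonneg _) (iS_norm _ _)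
    · rw [Finset.card_univ, ZMod.card_units_eq_totient, nsmul_eq_mul, mul_one]
  have h2 : (0 : ℝ) < Q.totient := by exact_mod_cast hQ
  calc 1 / (Q.totient : ℝ) * _ ≤ 1 / (Q.totient : ℝ) * Q.totient :=
        mul_le_mul_of_nonneg_left h1 (by positivity)
    _ = 1 := by field_simp

theorem sc_sum (hS : Per Q S) (z : Qd t c) :
    ∑ χ : DirichletCharacter ℂ Q, sc Q S χ z = iS S z := by
  have hQ : 0 < Q.totient := Nat.totient_pos.2 (Nat.pos_of_ne_zero (NeZero.ne Q))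
  have hQ' : (Q.totient : ℂ) ≠ 0 := by exact_mod_cast hQ.ne'
  unfold sc
  rw [← Finset.mul_sum, Finset.sum_comm]
  have h1 : ∀ x : (ZMod Q)ˣ, ∑ χ : DirichletCharacter ℂ Q,
      χ ((x⁻¹ : (ZMod Q)ˣ) : ZMod Q) * iS S ((((x : ZMod Q).val : ℤ) : Qd t c) * z) =
      if x = 1 then (Q.totient : ℂ) * iS S z else 0 := by
    intro x
    rw [← Finset.sum_mul, DirichletCharacter.sum_characters_eq]
    by_cases hx : x = 1
    · subst hx
      rw [if_pos (by simp), if_pos rfl]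
      congr 1
      have h2 := per_int hS (a := (((1 : (ZMod Q)ˣ) : ZMod Q).val : ℤ)) (b := 1) (by
        rw [Int.cast_natCast, ZMod.natCast_zmod_val, Units.val_one, Int.cast_one]) z
      rw [iS_congr h2, Int.cast_one, one_mul]
    · rw [if_neg hx, if_neg, zero_mul]
      intro h
      apply hx
      rw [← inv_eq_one]
      exact Units.ext (by rw [h, Units.val_one])
  rw [Finset.sum_congr rfl fun x _ => h1 x, Finset.sum_ite_eq' Finset.univ (1 : (ZMod Q)ˣ),
    if_pos (Finset.mem_univ _), ← mul_assoc, one_div, inv_mul_cancel₀ hQ', one_mul]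

theorem prim_ne {z : Qd t c} (h : prim z) : z ≠ 0 := by
  rintro rfl
  unfold prim at h
  simp at h

theorem nm_zero' : nm (0 : Qd t c) = 0 := by
  unfold nm
  simp

open scoped Classical in
/-- the twisted function -/
noncomputable def F' (Q : ℕ) [NeZero Q] (F : Qd t c → ℂ) (χ : DirichletCharacter ℂ Q) (z : Qd t c) : ℂ :=
  F z * (if IsUnit ((z.re : ℤ) : ZMod Q) then χ ((z.re : ℤ) : ZMod Q) else 1)

theorem cm_norm {N : ℕ} {F : Qd t c → ℂ} (hF : Cm N F) (z : Qd t c) : ‖F z‖ = 1 :=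
  Complex.norm_eq_one_of_pow_eq_one (hF.pow z) (by have := hF.pos; omega)

theorem cm_one {N : ℕ} {F : Qd t c → ℂ} (hF : Cm N F) : F 1 = 1 := by
  have h1 := hF.mul 1 1 one_ne_zero one_ne_zero
  rw [one_mul] at h1
  have h2 : F 1 ≠ 0 := by
    intro h
    have := cm_norm hF 1
    rw [h, norm_zero] at this
    exact zero_ne_one this
  exact (mul_eq_left₀ h2).1 h1.symm

theorem F'_pow {N : ℕ} {F : Qd t c → ℂ} (hF : Cm N F) (χ : DirichletCharacter ℂ Q) (z : Qd t c) :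
    F' Q F χ z ^ (N * Q.totient) = 1 := by
  classical
  unfold F'
  rw [mul_pow, pow_mul, hF.pow z, one_pow, one_mul]
  split_ifs with h
  · obtain ⟨u, hu⟩ := h
    rw [← hu, ← map_pow, mul_comm, pow_mul, ← Units.val_pow_eq_pow_val, ZMod.pow_totient,
      Units.val_one, one_pow, map_one]
  · rw [one_pow]

theorem tx (hS : Per Q S) {Ap Bp M : ℕ → Prop} {E : ℕ} {ρ : ℕ → ℤ} {ϖ : ℕ → Qd t c}
    (hE : Ele t c Ap Bp M E ρ ϖ)
    (hAB : ∀ p, Ap p ∨ Bp p → Nat.Coprime p Q)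
    (hc : ∀ m, M m → (Q : ℤ) ∣ (ϖ m).im ∧ IsCoprime (ϖ m).re (Q : ℤ))
    {N : ℕ} {F : Qd t c → ℂ} (hF : Cm N F) (χ : DirichletCharacter ℂ Q) :
    Tx M ϖ (F' Q F χ) (fun n => F (n : Qd t c) * χ (n : ZMod Q)) (fun z => sc Q S χ z * F z) where
  bd := fun z => by
    rw [norm_mul, cm_norm hF, mul_one]
    exact sc_norm χ z
  bb := fun n => by
    rw [norm_mul, cm_norm hF, one_mul]
    exact χ.norm_le_one _
  one := by
    rw [Nat.cast_one, Nat.cast_one, cm_one hF, map_one, one_mul]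
  mul := by
    classical
    intro m n u z hm hnm hu hz heq
    obtain ⟨p, p', hp, hp', hmp, _, _⟩ := hE.fac m hm
    have pp := (hE.prA p hp).1
    have pp' := (hE.prB p' hp').1
    have hn : Nat.Coprime n Q :=
      Nat.Coprime.coprime_dvd_left (by rw [← hmp]; exact hnm)
        (Nat.Coprime.mul_left (hAB p (Or.inl hp)) (hAB p' (Or.inr hp')))
    obtain ⟨⟨y, hy⟩, hx⟩ := hc m hm
    have hnm' := (hE.elt m hm).1
    have hm0 : m ≠ 0 := by rw [hmp]; exact Nat.mul_ne_zero pp.ne_zero pp'.ne_zero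
    have hϖ : ϖ m ≠ 0 := by
      intro h
      rw [h, nm_zero'] at hnm'
      exact hm0 hnm'.symm
    have hn0 : (n : Qd t c) ≠ 0 := by
      intro h
      have h1 : ((n : Qd t c)).re = (0 : Qd t c).re := by rw [h]
      rw [QuadraticAlgebra.re_natCast, QuadraticAlgebra.re_zero] at h1
      have h2 : n = 0 := by exact_mod_cast h1
      rw [h2] at hnm
      exact hm0 (Nat.eq_zero_of_zero_dvd hnm)
    -- the functions `F`
    have e1 : F (ϖ m) * F u = F (n : Qd t c) * F z := by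
      rw [← hF.mul _ _ hϖ (prim_ne hu), ← hF.mul _ _ hn0 (prim_ne hz), heq]
    -- the functions `sc`
    have hxu : IsUnit (((ϖ m).re : ℤ) : ZMod Q) :=
      (ZMod.coe_int_isUnit_iff_isCoprime _ _).2 hx.symm
    have hnu : IsUnit (((n : ℤ)) : ZMod Q) :=
      (ZMod.coe_int_isUnit_iff_isCoprime _ _).2 (Nat.isCoprime_iff_coprime.2 hn).symm
    have e2 : sc Q S χ (ϖ m * u) = χ (((ϖ m).re : ℤ) : ZMod Q) * sc Q S χ u := by
      rw [← sc_scal hS χ hxu u]
      apply sc_per hS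
      · refine ⟨-(c * y * u.im), ?_⟩
        simp only [QuadraticAlgebra.re_mul, QuadraticAlgebra.re_intCast,
          QuadraticAlgebra.im_intCast, Int.cast_id]
        rw [hy]
        ring
      · refine ⟨y * (u.re + t * u.im), ?_⟩
        simp only [QuadraticAlgebra.im_mul, QuadraticAlgebra.re_intCast,
          QuadraticAlgebra.im_intCast, Int.cast_id]
        rw [hy]
        ring
    have e3 : sc Q S χ ((n : Qd t c) * z) = χ (n : ZMod Q) * sc Q S χ z := by
      have h := sc_scal hS χ hnu z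
      rw [Int.cast_natCast, Int.cast_natCast] at h
      exact h
    rw [heq, e3] at e2
    have e4 : F' Q F χ (ϖ m) = F (ϖ m) * χ (((ϖ m).re : ℤ) : ZMod Q) := by
      unfold F'
      rw [if_pos hxu]
    rw [e4]
    linear_combination (χ (((ϖ m).re : ℤ) : ZMod Q) * sc Q S χ u) * e1 -
      (F (n : Qd t c) * F z) * e2

theorem GW_sum (wt : ℝ → ℝ) (hS : Per Q S) (F : Qd t c → ℂ) (Y : ℝ) (k : ℤ) :
    GW wt (FS S F) Y k = ∑ χ : DirichletCharacter ℂ Q, GW wt (fun z => sc Q S χ z * F z) Y k := by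
  classical
  unfold GW DPG
  rw [Finset.sum_comm]
  refine Finset.sum_congr rfl fun z _ => ?_
  rw [← Finset.sum_mul, ← Finset.sum_mul, ← Finset.sum_mul, sc_sum hS]
  unfold FS iS
  by_cases hz : S z
  · simp only [hz, if_true, one_mul]
  · simp only [hz, if_false, zero_mul]

theorem FK_mono {a b : ℕ} (h : a ≤ b) : FK a ⊆ FK b := by
  unfold FK
  intro x hx
  rw [mem_Ioo] at hx ⊢
  omega

theorem mrx {f : ℕ} {χ₀ : DirichletCharacter ℂ f} (hFd : Fd t c f χ₀) (h : S_MRG t c) :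
    S_MRX t c := by
  classical
  intro N F hF M S hM hS Λ wt hw η hη
  have hD : t ^ 2 < 4 * c := by
    have h1 := hFd.disc
    have h2 := hFd.three
    have h3 : (3 : ℤ) ≤ f := by exact_mod_cast h2
    linarith
  have : NeZero M := ⟨by omega⟩
  have hS' : Per M S := hS
  obtain ⟨Ap, Bp, M', E, ρ, ϖ, hE, hp, hc⟩ := Pool.Agent.W496.EG.eleg hD M hM
  have hn0 : 0 < Fintype.card (DirichletCharacter ℂ M) := Fintype.card_pos
  obtain ⟨n, hn⟩ : ∃ n : ℝ, n = (Fintype.card (DirichletCharacter ℂ M) : ℝ) := ⟨_, rfl⟩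
  have hnpos : 0 < n := by rw [hn]; exact_mod_cast hn0
  have hpow : 1 ≤ N * M.totient :=
    Nat.mul_pos hF.pos (Nat.totient_pos.2 hM)
  have key : ∀ χ : DirichletCharacter ℂ M, ∃ h : ℝ, 1 ≤ h ∧ ∃ Y₀ : ℝ, ∀ Y : ℝ, Y₀ ≤ Y →
      ∑ k ∈ (FK ⌊Y / h⌋₊).erase 0, ‖GW wt (fun z => sc M S χ z * F z) Y k‖ ^ 2 ≤
        η / n ^ 2 := fun χ =>
    h Ap Bp M' E ρ ϖ hE _ (F' M F χ) _ _ hpow (F'_pow hF χ) (tx hS' hE hp hc hF χ) Λ wt hw
      (η / n ^ 2) (by positivity)
  choose hh hh1 Y₀ hY using key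
  refine ⟨∑ χ, hh χ, ?_, ∑ χ, |Y₀ χ|, ?_⟩
  · obtain ⟨χ₀⟩ : Nonempty (DirichletCharacter ℂ M) := Fintype.card_pos_iff.1 hn0
    exact (hh1 χ₀).trans (Finset.single_le_sum (f := hh)
      (fun χ _ => zero_le_one.trans (hh1 χ)) (Finset.mem_univ χ₀))
  · intro Y hYY
    have hY0 : 0 ≤ Y := (Finset.sum_nonneg fun χ _ => abs_nonneg (Y₀ χ)).trans hYY
    have hle : ∀ χ, hh χ ≤ ∑ χ, hh χ := fun χ => Finset.single_le_sum (f := hh)
      (fun χ _ => zero_le_one.trans (hh1 χ)) (Finset.mem_univ χ)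
    have hYle : ∀ χ, Y₀ χ ≤ Y := fun χ => (le_abs_self _).trans
      ((Finset.single_le_sum (f := fun χ => |Y₀ χ|) (fun χ _ => abs_nonneg _)
        (Finset.mem_univ χ)).trans hYY)
    have h1 : ∀ k : ℤ, ‖GW wt (FS S F) Y k‖ ^ 2 ≤
        n * ∑ χ : DirichletCharacter ℂ M,
          ‖GW wt (fun z => sc M S χ z * F z) Y k‖ ^ 2 := by
      intro k
      rw [GW_sum wt hS' F Y k]
      refine (pow_le_pow_left₀ (norm_nonneg _) (norm_sum_le _ _) 2).trans ?_
      have := sq_sum_le_card_mul_sum_sq (s := (Finset.univ : Finset (DirichletCharacter ℂ M)))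
        (f := fun χ => ‖GW wt (fun z => sc M S χ z * F z) Y k‖)
      rw [Finset.card_univ, ← hn] at this
      exact this
    calc ∑ k ∈ (FK ⌊Y / ∑ χ, hh χ⌋₊).erase 0, ‖GW wt (FS S F) Y k‖ ^ 2
        ≤ ∑ k ∈ (FK ⌊Y / ∑ χ, hh χ⌋₊).erase 0, n * ∑ χ : DirichletCharacter ℂ M,
          ‖GW wt (fun z => sc M S χ z * F z) Y k‖ ^ 2 :=
          Finset.sum_le_sum fun k _ => h1 k
      _ = n * ∑ χ : DirichletCharacter ℂ M, ∑ k ∈ (FK ⌊Y / ∑ χ, hh χ⌋₊).erase 0,
          ‖GW wt (fun z => sc M S χ z * F z) Y k‖ ^ 2 := by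
          rw [← Finset.mul_sum, Finset.sum_comm]
      _ ≤ n * ∑ χ : DirichletCharacter ℂ M, η / n ^ 2 := by
          refine mul_le_mul_of_nonneg_left (Finset.sum_le_sum fun χ _ => ?_) hnpos.le
          refine (Finset.sum_le_sum_of_subset_of_nonneg ?_ fun _ _ _ => by positivity).trans
            (hY χ Y (hYle χ))
          refine Finset.erase_subset_erase _ (FK_mono ?_)
          apply Nat.floor_le_floor
          exact div_le_div_of_nonneg_left hY0 (by have := hh1 χ; linarith) (hle χ)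
      _ = η := by
          rw [Finset.sum_const, Finset.card_univ, nsmul_eq_mul, ← hn]
          field_simp

end Pool.Agent.N912.ED.W496EG
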