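import Pool.Agent.W251.EX.AllA
import Pool.Agent.N912.ED.Em2
import Pool.Agent.N912.ED.W496EGMrx
import Pool.Agent.N912.ED.W60EGMW0X
import Pool.Agent.N912.ED.W12EGMrsx
import Pool.Agent.N912.ED.W164EGPsid
import Pool.Agent.N912.ED.W804EGB6
import Pool.Agent.N912.ED.N776EL1
import Pool.Agent.N912.ED.N79ELbes
import Pool.Agent.N912.ED.N498ELlsa
import Pool.Agent.N912.ED.N475EL4
import Pool.Agent.N912.ED.N821EL5
import Pool.Agent.N912.ED.N348ELPsv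
import Pool.Agent.N912.ED.N866ELcore
import Pool.Agent.N912.ED.N400ELBTMA
import Pool.Agent.N912.ED.W131EGJB
import Pool.Agent.N912.ED.N222EL10
import Pool.Agent.N507.EM.Losp

/-!
Project EM (helper912): assembly of the bilinear estimate for all imaginary quadratic orders.
-/

set_option autoImplicit false

namespace Pool.Agent.N912.ED

open Finset Filter
open Pool.Agent.W78.GA (Qd nm prim dt ip ball pball)
open Pool.Agent.W251.GX (Cm)
open Pool.Agent.N912.ED.W78EG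
open Pool.Agent.N912.ED.N912EL

variable {t c : ℤ} {f : ℕ} {χ : DirichletCharacter ℂ f}

lemma cm_norm {N : ℕ} {F : Qd t c → ℂ} (h : Cm N F) (z : Qd t c) : ‖F z‖ = 1 :=
  Complex.norm_eq_one_of_pow_eq_one (h.pow z) (Nat.one_le_iff_ne_zero.1 h.pos)

/-- restriction to a residue class -/
theorem mrs_cl {A : Qd t c → ℝ} (h : Mrs A) {q : ℕ} (hq : 1 ≤ q) (β : Qd t c) : Mrs (cl q β A) := by
  classical
  intro M S hM hS σ hσ hσ1 ε hε
  have hper : Per (M * q) (fun z => S z ∧ ((q : ℤ) ∣ z.re - β.re ∧ (q : ℤ) ∣ z.im - β.im)) := by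
    intro z z' h1 h2
    have hMd : (M : ℤ) ∣ ((M * q : ℕ) : ℤ) := ⟨q, by push_cast; ring⟩
    have hqd : (q : ℤ) ∣ ((M * q : ℕ) : ℤ) := ⟨M, by push_cast; ring⟩
    have e1 := hS z z' (hMd.trans h1) (hMd.trans h2)
    have e2 := hqd.trans h1
    have e3 := hqd.trans h2
    have e4 : (q : ℤ) ∣ z.re - β.re ↔ (q : ℤ) ∣ z'.re - β.re := by
      have : z.re - β.re = (z.re - z'.re) + (z'.re - β.re) := by ring
      rw [this]
      exact dvd_add_right e2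
    have e5 : (q : ℤ) ∣ z.im - β.im ↔ (q : ℤ) ∣ z'.im - β.im := by
      have : z.im - β.im = (z.im - z'.im) + (z'.im - β.im) := by ring
      rw [this]
      exact dvd_add_right e3
    exact and_congr e1 (and_congr e4 e5)
  obtain ⟨H, hH, X₀, h3⟩ := h (M * q) _ (Nat.mul_pos hM hq) hper σ hσ hσ1 ε hε
  refine ⟨H, hH, X₀, fun X hX n hn hnX => ?_⟩
  refine le_trans (le_of_eq ?_) (h3 X hX n hn hnX)
  refine sum_congr rfl fun j _ => ?_
  congr 1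
  unfold cl
  rw [← sum_filter, filter_filter]
  refine sum_congr ?_ fun _ _ => rfl
  ext z
  simp only [mem_filter]
  refine and_congr_right fun _ => ?_
  constructor
  · rintro ⟨⟨h4, h5, h6⟩, h7⟩
    exact ⟨h4, ⟨h5, h7⟩, h6⟩
  · rintro ⟨h4, ⟨h5, h7⟩, h6⟩
    exact ⟨⟨h4, h5, h6⟩, h7⟩

lemma cl_le {A : Qd t c → ℝ} (h : ∀ z, |A z| ≤ 1) (q : ℕ) (β : Qd t c) (z : Qd t c) :
    |cl q β A z| ≤ 1 := by
  classical
  unfold cl
  split_ifs
  · exact h z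
  · simp

theorem mrgG (hD : t ^ 2 < 4 * c) : Pool.Agent.W251.EX.S_MRG t c := by
  have hlat : Pool.Agent.W78.GA.S_LAT t c := Pool.Agent.W45.GA.lat hD
  have hred : Pool.Agent.W78.GA.S_RED t c := Pool.Agent.W322.GA.red hD
  have hlati : Pool.Agent.W78.GA.S_LATI t c := Pool.Agent.W322.GA.lati_of hD hlat hred
  have hls : Pool.Agent.W78.GA.S_LS t c := Pool.Agent.W327.GA.ls hD
  have hang : Pool.Agent.W78.GA.S_ANG t c :=
    Pool.Agent.W397.GA.ang_of (Pool.Agent.W327.GA.ang1 hD) (Pool.Agent.W397.GA.ang2 hD)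
  have hangi : Pool.Agent.W78.GA.S_ANGI t c := Pool.Agent.W322.GA.angi_of hD hang hred
  have hmach : Pool.Agent.W78.GA.S_MACH := Pool.Agent.W586.GA.mach_of Pool.Agent.W240.GA.leva
    Pool.Agent.W240.GA.levb Pool.Agent.W397.GA.s_cnt Pool.Agent.W586.GA.upart
  exact Pool.Agent.W279.EX.mrg hD hmach
    (Pool.Agent.W311.EX.decx hD hlat hlati (Pool.Agent.W999.GA.tk_of hD hlat hlati))
    (Pool.Agent.W55.EX.mom0x hD hls hlat) (Pool.Agent.W565.GX.momp hD hls)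
    (Pool.Agent.W55.EX.momx hD hls hlat hlati)
    (Pool.Agent.W191.GA.sparse_of hD hang hlat) hls
    (Pool.Agent.W721.EX.cellx hD
      (Pool.Agent.W194.GA.sele_of hD hangi hlat (Pool.Agent.W109.GA.selb hD))) hlat

theorem hDG (hF : Fd t c f χ) : t ^ 2 < 4 * c := by
  have h1 := hF.disc
  have h2 : (3 : ℤ) ≤ f := by exact_mod_cast hF.three
  linarith

theorem mrsxG (hF : Fd t c f χ) : S_MRSX t c :=
  Pool.Agent.N912.ED.W12EGMrsx.mrsx (hDG hF)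
    (Pool.Agent.N912.ED.W496EG.mrx hF (mrgG (hDG hF)))
    (Pool.Agent.N912.ED.W60EG.mw0x (hDG hF))

theorem dtbG (hF : Fd t c f χ) : S_DTB t c f := Pool.Agent.N912.ED.W804EG.dtb hF

theorem lnG (hF : Fd t c f χ) : S_LN t c := Pool.Agent.N912.ED.W804EG.ln (hDG hF)

theorem lsaG (hF : Fd t c f χ) : S_LSa χ :=
  Pool.Agent.N912.ED.N498EL.lsa hF (Pool.Agent.N912.ED.N776EL1.ls4a χ)
    (Pool.Agent.N912.ED.N79ELbes.bes hF (swc χ)) (swc χ)

theorem ggaG (hF : Fd t c f χ) : S_GGa t c χ :=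
  Pool.Agent.N912.ED.N821EL.gga hF (lsaG hF) Pool.Agent.W52.EC.abel
    (Pool.Agent.N912.ED.W164EG.psid (hDG hF))
    (Pool.Agent.N912.ED.N475EL4.gvla hF) (Pool.Agent.N912.ED.W804EG.mult hF) (dtbG hF)

theorem btmaG (hF : Fd t c f χ) : S_BTMa t c χ :=
  Pool.Agent.N912.ED.N400ELBTMA.btma hF
    (Pool.Agent.N912.ED.N866EL.core hF (Pool.Agent.N912.ED.W131EG.jb hF) (lnG hF) (dtbG hF))
    (Pool.Agent.N912.ED.N348EL.psv hF) (Pool.Agent.N912.ED.W131EG.jb hF) (lnG hF) (dtbG hF)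

/-- the bilinear estimate with arbitrary coefficients -/
theorem btaG (hF : Fd t c f χ) (hs : S_SML t c χ) : S_BTa t c χ :=
  Pool.Agent.N912.ED.N222EL10.bta hF hs (ggaG hF) (btmaG hF) (lnG hF) (dtbG hF)

theorem btclG (hF : Fd t c f χ) (hs : S_SML t c χ) (N : ℕ) (F : Qd t c → ℂ) (h : Apd N F) (q : ℕ)
    (β : Qd t c) (hq : 1 ≤ q) :
    Bta χ (cl q β (fun z => (F z).re)) ∧ Bta χ (cl q β (fun z => (F z).im)) := by
  obtain ⟨h4, h5⟩ := mrsxG hF N F h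
  have h6 : ∀ z, |(F z).re| ≤ 1 := fun z =>
    (Complex.abs_re_le_norm _).trans (cm_norm h.cm z).le
  have h7 : ∀ z, |(F z).im| ≤ 1 := fun z =>
    (Complex.abs_im_le_norm _).trans (cm_norm h.cm z).le
  exact ⟨btaG hF hs _ (cl_le h6 q β) (mrs_cl h4 hq β), btaG hF hs _ (cl_le h7 q β) (mrs_cl h5 hq β)⟩

/-- the pairs of prime determinant -/
theorem em2G (hF : Fd t c f χ) (hs : S_SML t c χ) (N : ℕ) (F : Qd t c → ℂ) (h : Apd N F) {q : ℕ}
    (hq : 1 ≤ q) (u : ℤ) (s₁ s₂ s₃ s₄ : ℝ)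
    (g1 : 0 < s₁) (g3 : 0 < s₃) (g4 : s₃ < s₄) (g5 : s₄ ≤ 1) (ε : ℝ) (hε : 0 < ε) :
    ∃ Q₀ : ℕ, ∀ Q : ℕ, Q₀ ≤ Q → ∃ X₀ : ℝ, ∀ X : ℝ, X₀ ≤ X →
      ∀ α : Qd t c → ℂ, (∀ z, ‖α z‖ ≤ 1) →
      ∑ p ∈ PQ χ Q, Real.log p *
        ‖∑ x ∈ PD t c s₁ s₂ s₃ s₄ X p, α x.1 * ((iq q u x.1 x.2 : ℂ) * F x.2)‖ ≤ ε * X * Q :=
  em2 hF (fun z => (cm_norm h.cm z).le) hq (fun β => btclG hF hs N F h q β hq)
    (Pool.Agent.N507.EM.losp hF) u s₁ s₂ s₃ s₄ g1 g3 g4 g5 ε hε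

end Pool.Agent.N912.ED
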