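import Pool.Agent.N912.ED.W465EGLoss1

/-!
Project EG (helper78), part F2: few pairs are lost (S_LOSS). Port of `W721.EC.Loss`.
-/

set_option autoImplicit false

namespace Pool.Agent.N912.ED.W465EGL

open Finset Filter
open Pool.Agent.W78.GA Pool.Agent.N912.ED.W78EG

variable {t c : ℤ} {f : ℕ} {χ : DirichletCharacter ℂ f}

/-- the pairs considered -/
structure Pd (s Z : ℝ) (e : Qd t c × Qd t c) : Prop where
  p1 : prim e.1
  p2 : prim e.2
  n1 : (nm e.1 : ℝ) ≤ Z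
  n2 : (nm e.2 : ℝ) ≤ Z
  d : dt e.1 e.2 = 1
  i : 0 < pp e.1 e.2
  l1 : s * Z < (nm e.1 : ℝ)
  l2 : s * Z < (nm e.2 : ℝ)

lemma Pd.pp_ge (hF : Fd t c f χ) {s Z : ℝ} {e : Qd t c × Qd t c} (h : Pd s Z e)
    (hs : f ≤ s * Z) : s * Z ≤ (pp e.1 e.2 : ℝ) := by
  by_contra hc
  push Not at hc
  have hf3 : (3 : ℝ) ≤ f := by exact_mod_cast hF.three
  have h1 := nm_nmR hF e.1 e.2
  rw [h.d] at h1
  have h2 : (0 : ℝ) < pp e.1 e.2 := by exact_mod_cast h.i
  have h3 : (pp e.1 e.2 : ℝ) ^ 2 < (s * Z) ^ 2 := by nlinarith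
  have h4 : (s * Z) * (s * Z) < (nm e.1 : ℝ) * nm e.2 :=
    mul_lt_mul'' h.l1 h.l2 (by linarith) (by linarith)
  push_cast at h1
  nlinarith

lemma partner1 (hF : Fd t c f χ) {s Z : ℝ} (hZ : 0 < Z) (hs0 : 0 < s) (hs : f ≤ s * Z)
    (D : Finset (Qd t c × Qd t c))
    (V : Finset (Qd t c)) (h : ∀ e ∈ D, Pd s Z e) (hV : ∀ e ∈ D, e.1 ∈ V) :
    D.card ≤ (⌊2 / s⌋₊ + 1) * V.card := by
  classical
  have hf3 : (3 : ℝ) ≤ f := by exact_mod_cast hF.three
  apply card_le_mul_card_image_of_maps_to (f := Prod.fst) hV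
  intro v _
  have e1 : ((D.filter (fun e => e.1 = v)).image Prod.snd).card =
      (D.filter (fun e => e.1 = v)).card := by
    apply card_image_of_injOn
    intro e he f hf hef
    rw [mem_coe, mem_filter] at he hf
    exact Prod.ext (by rw [he.2, hf.2]) hef
  rw [← e1]
  have key := sep hF (g := v) (q := 1) (p := 1) (Z := Z) (A := 0) (L := 1 / (s * Z)) one_pos nm_one
    ((D.filter (fun e => e.1 = v)).image Prod.snd) hZ (by
      intro w hw
      rw [mem_image] at hw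
      obtain ⟨e, he, rfl⟩ := hw
      rw [mem_filter] at he
      obtain ⟨he, rfl⟩ := he
      have hp := h e he
      have hi := hp.pp_ge hF hs
      rw [one_mul]
      refine ⟨hp.p2, hp.n2, hp.i, ?_, ?_⟩
      · rw [hp.d]; simp
      · rw [hp.d]
        push_cast
        rw [zero_add, div_mul_eq_mul_div, le_div_iff₀ (by linarith)]
        linarith)
  have e2 : 1 / (s * Z) * (2 * Z) = 2 / s := by field_simp
  rwa [e2] at key

lemma partner2 (hF : Fd t c f χ) {s Z : ℝ} (hZ : 0 < Z) (hs0 : 0 < s) (hs : f ≤ s * Z)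
    (D : Finset (Qd t c × Qd t c))
    (V : Finset (Qd t c)) (h : ∀ e ∈ D, Pd s Z e) (hV : ∀ e ∈ D, e.2 ∈ V) :
    D.card ≤ (⌊2 / s⌋₊ + 1) * V.card := by
  classical
  have hf3 : (3 : ℝ) ≤ f := by exact_mod_cast hF.three
  apply card_le_mul_card_image_of_maps_to (f := Prod.snd) hV
  intro v _
  have e1 : ((D.filter (fun e => e.2 = v)).image Prod.fst).card =
      (D.filter (fun e => e.2 = v)).card := by
    apply card_image_of_injOn
    intro e he f hf hef
    rw [mem_coe, mem_filter] at he hf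
    exact Prod.ext hef (by rw [he.2, hf.2])
  rw [← e1]
  have key := sep hF (g := v) (q := 1) (p := 1) (Z := Z) (A := -(1 / (s * Z))) (L := 1 / (s * Z))
    one_pos nm_one ((D.filter (fun e => e.2 = v)).image Prod.fst) hZ (by
      intro w hw
      rw [mem_image] at hw
      obtain ⟨e, he, rfl⟩ := hw
      rw [mem_filter] at he
      obtain ⟨he, rfl⟩ := he
      have hp := h e he
      have hi := hp.pp_ge hF hs
      rw [one_mul, pp_comm e.2 e.1, dt_swap e.2 e.1, hp.d]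
      have h5 : (1 : ℝ) ≤ 1 / (s * Z) * pp e.1 e.2 := by
        rw [div_mul_eq_mul_div, le_div_iff₀ (by linarith)]
        linarith
      refine ⟨hp.p1, hp.n1, hp.i, ?_, ?_⟩
      · push_cast
        linarith
      · push_cast
        linarith)
  have e2 : 1 / (s * Z) * (2 * Z) = 2 / s := by field_simp
  rwa [e2] at key

lemma plk (hD : t ^ 2 < 4 * c) (x y b : Qd t c) :
    dt x y * pp b x = 2 * (dt b y * nm x) + dt x b * pp x y := by
  rw [nmZ hD]; simp only [ppZ, dtZ]; ring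

lemma typeb (hF : Fd t c f χ) {s Z : ℝ} {e : Qd t c × Qd t c} (he : Pd s Z e) (hs : f ≤ s * Z)
    {p : ℕ} {q b : Qd t c}
    (hp : 0 < p) (hq : nm q = p) (h1 : 0 < dt (q * e.1) b) (h2 : 0 < dt b (q * e.2)) :
    0 < pp b (q * e.1) ∧ -(1 / (s * Z)) * pp b (q * e.1) ≤ dt b (q * e.1) ∧
      (dt b (q * e.1) : ℝ) ≤ 0 := by
  have hD := hD_of hF
  have hf3 : (3 : ℝ) ≤ f := by exact_mod_cast hF.three
  have hi := he.pp_ge hF hs
  have hpZ : (0 : ℤ) < p := by exact_mod_cast hp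
  have e1 := plk hD (q * e.1) (q * e.2) b
  rw [dt_mul hD, pp_mul hD, he.d, hq, nm_mul, hq] at e1
  have hn : 0 < nm e.1 := nm_pos hD (prim_ne_zero he.p1)
  have hnZ : (0 : ℤ) < nm e.1 := by exact_mod_cast hn
  have e2 : (p : ℤ) * (pp b (q * e.1) - dt (q * e.1) b * pp e.1 e.2) =
      p * (2 * (dt b (q * e.2) * nm e.1)) := by
    push_cast at e1
    linear_combination e1
  have e3 : pp b (q * e.1) - dt (q * e.1) b * pp e.1 e.2 = 2 * (dt b (q * e.2) * nm e.1) :=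
    mul_left_cancel₀ hpZ.ne' e2
  have e4 : 0 < dt b (q * e.2) * nm e.1 := mul_pos h2 hnZ
  have e5 : dt (q * e.1) b * pp e.1 e.2 < pp b (q * e.1) := by linarith
  have e6 : 0 < dt (q * e.1) b * pp e.1 e.2 := mul_pos h1 he.i
  have e7 : dt b (q * e.1) = -dt (q * e.1) b := dt_swap _ _
  refine ⟨by linarith, ?_, ?_⟩
  · rw [e7]
    push_cast
    have e8 : (dt (q * e.1) b : ℝ) * pp e.1 e.2 ≤ pp b (q * e.1) := by exact_mod_cast e5.le
    have e9 : (0 : ℝ) < dt (q * e.1) b := by exact_mod_cast h1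
    have e10 : (dt (q * e.1) b : ℝ) * (s * Z) ≤ dt (q * e.1) b * pp e.1 e.2 := by gcongr
    have e11 : (dt (q * e.1) b : ℝ) ≤ 1 / (s * Z) * pp b (q * e.1) := by
      rw [div_mul_eq_mul_div, le_div_iff₀ (by linarith)]
      linarith
    linarith
  · rw [e7]
    push_cast
    have e9 : (0 : ℝ) < dt (q * e.1) b := by exact_mod_cast h1
    linarith

lemma edge_pp (hF : Fd t c f χ) {Y : ℝ} (hY : f ≤ Y) {e : Qd t c × Qd t c}
    (he : e ∈ edge t c Y) : 1 ≤ pp e.1 e.2 := by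
  have hD := hD_of hF
  have hf3 : (3 : ℝ) ≤ f := by exact_mod_cast hF.three
  rw [mem_edge hD] at he
  obtain ⟨⟨⟨p1, n1⟩, ⟨p2, n2⟩⟩, hd, hs⟩ := he
  by_contra hc
  push Not at hc
  have h1 : (nm (e.1 + e.2) : ℝ) = nm e.1 + nm e.2 + pp e.1 e.2 := by
    exact_mod_cast nm_add' hD e.1 e.2
  have h2 := nm_nmR hF e.1 e.2
  rw [hd] at h2
  push_cast at h2
  have h3 : pp e.1 e.2 ≤ 0 := by omega
  have h3R : (pp e.1 e.2 : ℝ) ≤ 0 := by exact_mod_cast h3
  have h4 : -(pp e.1 e.2 : ℝ) < nm e.1 := by linarith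
  have h5 : -(pp e.1 e.2 : ℝ) < nm e.2 := by linarith
  have h6 : (-(pp e.1 e.2 : ℝ)) * (-(pp e.1 e.2 : ℝ)) ≤ (nm e.1 : ℝ) * nm e.2 :=
    mul_le_mul h4.le h5.le (by linarith) (by positivity)
  have h7 : 3 * ((nm e.1 : ℝ) * nm e.2) ≤ f := by nlinarith
  have a1 : (1 : ℝ) ≤ nm e.1 := by exact_mod_cast nm_pos hD (prim_ne_zero p1)
  have a2 : (1 : ℝ) ≤ nm e.2 := by exact_mod_cast nm_pos hD (prim_ne_zero p2)
  have h8 : (nm e.1 : ℝ) + nm e.2 ≤ nm e.1 * nm e.2 + 1 := by nlinarith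
  linarith

lemma plk2 (hD : t ^ 2 < 4 * c) {a b : Qd t c} (h : dt a b = 1) (z : Qd t c) :
    pp a z = 2 * (dt z b * nm a) + dt a z * pp a b := by
  have : dt a b * pp a z = 2 * (dt z b * nm a) + dt a z * pp a b := by
    rw [nmZ hD]; simp only [ppZ, dtZ]; ring
  rw [h, one_mul] at this
  exact this

/-- number of the vectors in the cone over an edge -/
lemma countc (hF : Fd t c f χ) {Y : ℝ} (hY : f ≤ Y) {g : Qd t c × Qd t c} (hg : g ∈ edge t c Y)
    {p : ℕ} {q : Qd t c} {Z : ℝ}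
    (hp : 0 < p) (hq : nm q = p) (hZ : 0 < Z) (V : Finset (Qd t c))
    (hV : ∀ v ∈ V, prim v ∧ (nm v : ℝ) ≤ Z ∧ 0 < dt g.1 (q * v) ∧ 0 < dt (q * v) g.2) :
    (V.card : ℝ) ≤ (1 + f) * Z / (Real.sqrt (nm g.1) * Real.sqrt (nm g.2)) + 1 := by
  have hD := hD_of hF
  have hf3 : (3 : ℝ) ≤ f := by exact_mod_cast hF.three
  have hi := edge_pp hF hY hg
  have hg' := (mem_edge hD).1 hg
  have hiR : (1 : ℝ) ≤ pp g.1 g.2 := by exact_mod_cast hi
  have ha : 0 < nm g.1 := nm_pos hD (prim_ne_zero hg'.1.1.1)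
  have hb : 0 < nm g.2 := nm_pos hD (prim_ne_zero hg'.1.2.1)
  have haR : (0 : ℝ) < nm g.1 := by exact_mod_cast ha
  have hbR : (0 : ℝ) < nm g.2 := by exact_mod_cast hb
  have key := sep hF (g := g.1) (q := q) (p := p) (Z := Z) (A := 0) (L := 1 / pp g.1 g.2) hp hq
    V hZ (by
      intro v hv
      obtain ⟨k1, k2, k3, k4⟩ := hV v hv
      have e1 := plk2 hD hg'.2.1 (q * v)
      have e2 : 0 < dt (q * v) g.2 * nm g.1 := mul_pos k4 (by exact_mod_cast ha)
      have e3 : 0 < dt g.1 (q * v) * pp g.1 g.2 := mul_pos k3 (by linarith)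
      refine ⟨k1, k2, by linarith, ?_, ?_⟩
      · rw [zero_mul]; exact_mod_cast k3.le
      · rw [zero_add, div_mul_eq_mul_div, le_div_iff₀ (by linarith), one_mul]
        have : dt g.1 (q * v) * pp g.1 g.2 ≤ pp g.1 (q * v) := by linarith
        exact_mod_cast this)
  have h1 : (V.card : ℝ) ≤ ⌊1 / (pp g.1 g.2 : ℝ) * (2 * Z)⌋₊ + 1 := by exact_mod_cast key
  have h2 : (⌊1 / (pp g.1 g.2 : ℝ) * (2 * Z)⌋₊ : ℝ) ≤ 1 / (pp g.1 g.2 : ℝ) * (2 * Z) :=
    Nat.floor_le (by positivity)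
  have h3 := nm_nmR hF g.1 g.2
  rw [hg'.2.1] at h3
  have h4 : Real.sqrt (nm g.1) * Real.sqrt (nm g.2) ≤ (1 + f) / 2 * pp g.1 g.2 := by
    rw [← Real.sqrt_mul haR.le]
    apply Real.sqrt_le_iff.2
    constructor
    · positivity
    · push_cast at h3
      have e1 : (1 : ℝ) ≤ (pp g.1 g.2 : ℝ) ^ 2 := by nlinarith
      have e2 : (f : ℝ) * 1 ≤ f * (pp g.1 g.2 : ℝ) ^ 2 := by gcongr
      have e3 : 4 * ((nm g.1 : ℝ) * nm g.2) ≤ (1 + f) * (pp g.1 g.2 : ℝ) ^ 2 := by nlinarith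
      have e4 : (1 + (f : ℝ)) * (pp g.1 g.2 : ℝ) ^ 2 ≤ (1 + f) * (1 + f) * (pp g.1 g.2 : ℝ) ^ 2 := by
        gcongr
        nlinarith
      have e5 : ((1 + (f : ℝ)) / 2 * pp g.1 g.2) ^ 2 =
          (1 + f) * (1 + f) * (pp g.1 g.2 : ℝ) ^ 2 / 4 := by ring
      rw [e5]
      linarith
  have h5 : 1 / (pp g.1 g.2 : ℝ) * (2 * Z) ≤
      (1 + f) * Z / (Real.sqrt (nm g.1) * Real.sqrt (nm g.2)) := by
    rw [div_mul_eq_mul_div, one_mul, div_le_div_iff₀ (by linarith)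
      (mul_pos (Real.sqrt_pos.2 haR) (Real.sqrt_pos.2 hbR))]
    have e1 : 2 * Z * (Real.sqrt (nm g.1) * Real.sqrt (nm g.2)) ≤
        2 * Z * ((1 + f) / 2 * pp g.1 g.2) := by gcongr
    have e2 : 2 * Z * ((1 + f) / 2 * pp g.1 g.2) = (1 + f) * Z * pp g.1 g.2 := by ring
    linarith
  linarith

lemma nm_add_le2 (hD : t ^ 2 < 4 * c) (a b : Qd t c) :
    (nm (a + b) : ℝ) ≤ 2 * nm a + 2 * nm b := by
  have h1 : (nm (a + b) : ℝ) + nm (a - b) = 2 * nm a + 2 * nm b := by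
    rw [nmR hD, nmR hD, nmR hD, nmR hD]
    simp only [QuadraticAlgebra.re_add, QuadraticAlgebra.im_add, QuadraticAlgebra.re_sub,
      QuadraticAlgebra.im_sub]
    push_cast
    ring
  have h2 : (0 : ℝ) ≤ nm (a - b) := by positivity
  linarith

lemma fst_inj (hD : t ^ 2 < 4 * c) {Y : ℝ} :
    Set.InjOn (Prod.fst : Qd t c × Qd t c → Qd t c) (edge t c Y : Finset (Qd t c × Qd t c)) := by
  intro e he f hf hef
  rw [mem_coe] at he hf
  have he' := (mem_edge hD).1 he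
  have hf' := (mem_edge hD).1 hf
  set N : ℤ := |dt e.2 f.2| + 1 with hN
  have hN1 : 0 < N := by have := abs_nonneg (dt e.2 f.2); linarith
  have hN2 : 0 < N + dt e.2 f.2 := by have := neg_abs_le (dt e.2 f.2); linarith
  have hfd : dt e.1 f.2 = 1 := by rw [hef]; exact hf'.2.1
  set z : Qd t c := ⟨N * e.1.re + e.2.re, N * e.1.im + e.2.im⟩ with hz
  have z1 : dt e.1 z = dt e.1 e.2 := by rw [hz]; simp only [dtZ]; ring
  have z2 : dt z e.2 = N * dt e.1 e.2 := by rw [hz]; simp only [dtZ]; ring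
  have z3 : dt z f.2 = N * dt e.1 f.2 + dt e.2 f.2 := by rw [hz]; simp only [dtZ]; ring
  apply edge_unique hD he hf (z := z)
  · rw [z1, he'.2.1]; norm_num
  · rw [z2, he'.2.1]; linarith
  · rw [← hef, z1, he'.2.1]; norm_num
  · rw [z3, hfd]; linarith

lemma snd_inj (hD : t ^ 2 < 4 * c) {Y : ℝ} :
    Set.InjOn (Prod.snd : Qd t c × Qd t c → Qd t c) (edge t c Y : Finset (Qd t c × Qd t c)) := by
  intro e he f hf hef
  rw [mem_coe] at he hf
  have he' := (mem_edge hD).1 he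
  have hf' := (mem_edge hD).1 hf
  set N : ℤ := |dt f.1 e.1| + 1 with hN
  have hN1 : 0 < N := by have := abs_nonneg (dt f.1 e.1); linarith
  have hN2 : 0 < N + dt f.1 e.1 := by have := neg_abs_le (dt f.1 e.1); linarith
  have hfd : dt f.1 e.2 = 1 := by rw [hef]; exact hf'.2.1
  set z : Qd t c := ⟨e.1.re + N * e.2.re, e.1.im + N * e.2.im⟩ with hz
  have z1 : dt e.1 z = N * dt e.1 e.2 := by rw [hz]; simp only [dtZ]; ring
  have z2 : dt z e.2 = dt e.1 e.2 := by rw [hz]; simp only [dtZ]; ring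
  have z3 : dt f.1 z = N * dt f.1 e.2 + dt f.1 e.1 := by rw [hz]; simp only [dtZ]; ring
  apply edge_unique hD he hf (z := z)
  · rw [z1, he'.2.1]; linarith
  · rw [z2, he'.2.1]; norm_num
  · rw [z3, hfd]; linarith
  · rw [← hef, z2, he'.2.1]; norm_num

/-- sum over the bad edges -/
lemma sumE (hF : Fd t c f χ) {Y κ Z : ℝ} (hY : f ≤ Y) (hκ : 0 < κ) (hκ4 : κ ≤ 1 / 4) (hZ : 0 < Z)
    (E : Finset (Qd t c × Qd t c)) (φ ψ : Qd t c × Qd t c → Qd t c) (hE : ∀ g ∈ E, g ∈ edge t c Y)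
    (hφ : Set.InjOn φ (edge t c Y : Finset (Qd t c × Qd t c)))
    (hφψ : ∀ g ∈ E, (φ g = g.1 ∧ ψ g = g.2) ∨ (φ g = g.2 ∧ ψ g = g.1))
    (hb : ∀ g ∈ E, (nm (φ g) : ℝ) ≤ κ * Y) :
    ∑ g ∈ E, ((1 + f) * Z / (Real.sqrt (nm g.1) * Real.sqrt (nm g.2)) + 1) ≤
      128 * (1 + f) * Z * Real.sqrt κ + 16 * (κ * Y) := by
  classical
  have hD := hD_of hF
  have hf3 : (3 : ℝ) ≤ f := by exact_mod_cast hF.three
  have hY0 : 0 < Y := by linarith
  have hsY : 0 < Real.sqrt Y := Real.sqrt_pos.2 hY0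
  have h1 : ∀ g ∈ E, (1 + f) * Z / (Real.sqrt (nm g.1) * Real.sqrt (nm g.2)) + 1 ≤
      2 * (1 + f) * Z / Real.sqrt Y * (1 / Real.sqrt (nm (φ g))) + 1 := by
    intro g hg
    have hg' := (mem_edge hD).1 (hE g hg)
    have h2 := nm_add_le2 hD g.1 g.2
    have h3 := hb g hg
    have h3' : κ * Y ≤ 1 / 4 * Y := by gcongr
    have h4 : Y / 4 ≤ (nm (ψ g) : ℝ) := by
      rcases hφψ g hg with ⟨k1, k2⟩ | ⟨k1, k2⟩ <;> rw [k1] at h3 <;> rw [k2] <;>
        linarith [hg'.2.2]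
    have h5 : Real.sqrt Y / 2 ≤ Real.sqrt (nm (ψ g)) := by
      have : Real.sqrt (Y / 4) ≤ Real.sqrt (nm (ψ g)) := Real.sqrt_le_sqrt h4
      rw [Real.sqrt_div (by linarith), show (4 : ℝ) = 2 ^ 2 by norm_num,
        Real.sqrt_sq (by norm_num)] at this
      exact this
    have h6 : Real.sqrt (nm g.1) * Real.sqrt (nm g.2) =
        Real.sqrt (nm (φ g)) * Real.sqrt (nm (ψ g)) := by
      rcases hφψ g hg with ⟨k1, k2⟩ | ⟨k1, k2⟩ <;> rw [k1, k2]
      rw [mul_comm]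
    have ha : (0 : ℝ) < nm g.1 := nm_posR hD (prim_ne_zero hg'.1.1.1)
    have hb' : (0 : ℝ) < nm g.2 := nm_posR hD (prim_ne_zero hg'.1.2.1)
    have h7 : (0 : ℝ) < nm (φ g) := by
      rcases hφψ g hg with ⟨k1, k2⟩ | ⟨k1, k2⟩ <;> rw [k1] <;> assumption
    have h8 : 0 < Real.sqrt (nm (φ g)) := Real.sqrt_pos.2 h7
    rw [h6]
    have h9 : (1 + f) * Z / (Real.sqrt (nm (φ g)) * Real.sqrt (nm (ψ g))) ≤
        (1 + f) * Z / (Real.sqrt (nm (φ g)) * (Real.sqrt Y / 2)) := by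
      apply div_le_div_of_nonneg_left (by positivity) (by positivity)
      gcongr
    have h10 : (1 + f) * Z / (Real.sqrt (nm (φ g)) * (Real.sqrt Y / 2)) =
        2 * (1 + f) * Z / Real.sqrt Y * (1 / Real.sqrt (nm (φ g))) := by
      field_simp
    linarith
  have h2 : ∑ g ∈ E, (2 * (1 + f) * Z / Real.sqrt Y * (1 / Real.sqrt (nm (φ g))) + 1) =
      ∑ a ∈ E.image φ, (2 * (1 + f) * Z / Real.sqrt Y * (1 / Real.sqrt (nm a)) + 1) := by
    rw [sum_image]
    intro e he g hg heg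
    exact hφ (hE e he) (hE g hg) heg
  have h3 : E.image φ ⊆ ball t c (κ * Y) := by
    intro a ha
    rw [mem_image] at ha
    obtain ⟨g, hg, rfl⟩ := ha
    rw [mem_ball hD]
    refine ⟨?_, hb g hg⟩
    have hg' := (mem_edge hD).1 (hE g hg)
    have ha := nm_pos hD (prim_ne_zero hg'.1.1.1)
    have hb' := nm_pos hD (prim_ne_zero hg'.1.2.1)
    rcases hφψ g hg with ⟨k1, k2⟩ | ⟨k1, k2⟩ <;> rw [k1] <;> omega
  have h4 : ∑ a ∈ E.image φ, (2 * (1 + f) * Z / Real.sqrt Y * (1 / Real.sqrt (nm a)) + 1) ≤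
      ∑ a ∈ ball t c (κ * Y), (2 * (1 + f) * Z / Real.sqrt Y * (1 / Real.sqrt (nm a)) + 1) := by
    apply sum_le_sum_of_subset_of_nonneg h3
    intro a _ _
    positivity
  have h5 : ∑ a ∈ ball t c (κ * Y), (2 * (1 + f) * Z / Real.sqrt Y * (1 / Real.sqrt (nm a)) + 1) =
      2 * (1 + f) * Z / Real.sqrt Y * ∑ a ∈ ball t c (κ * Y), 1 / Real.sqrt (nm a) +
        (ball t c (κ * Y)).card := by
    rw [sum_add_distrib, mul_sum, sum_const, nsmul_eq_mul, mul_one]
  have hκY : 0 ≤ κ * Y := by positivity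
  have h6 := sum_inv' hF hκY
  have h7 := card_ball hF hκY
  have h8 : 2 * (1 + f) * Z / Real.sqrt Y * ∑ a ∈ ball t c (κ * Y), 1 / Real.sqrt (nm a) ≤
      2 * (1 + f) * Z / Real.sqrt Y * (64 * Real.sqrt (κ * Y)) := by gcongr
  have h9 : 2 * (1 + f) * Z / Real.sqrt Y * (64 * Real.sqrt (κ * Y)) =
      128 * (1 + f) * Z * Real.sqrt κ := by
    rw [Real.sqrt_mul hκ.le]
    field_simp
    ring
  calc ∑ g ∈ E, ((1 + f) * Z / (Real.sqrt (nm g.1) * Real.sqrt (nm g.2)) + 1)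
      ≤ ∑ g ∈ E, (2 * (1 + f) * Z / Real.sqrt Y * (1 / Real.sqrt (nm (φ g))) + 1) :=
        sum_le_sum h1
    _ ≤ 128 * (1 + f) * Z * Real.sqrt κ + 16 * (κ * Y) := by rw [h2]; linarith

/-- vectors which are not primitive after multiplication -/
lemma notprim (hF : Fd t c f χ) {p : ℕ} (hp : p.Prime) {q : Qd t c} (hq : nm q = p) {Z : ℝ}
    (hZ : 0 ≤ Z) (A : Finset (Qd t c))
    (hA : ∀ v ∈ A, prim v ∧ (nm v : ℝ) ≤ Z ∧ ¬ prim (q * v)) :
    (A.card : ℝ) ≤ 16 * (Z / p) := by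
  classical
  have hD := hD_of hF
  have hpR : (0 : ℝ) < p := by exact_mod_cast hp.pos
  have h1 : A ⊆ (ball t c (Z / p)).image (fun u => star q * u) := by
    intro v hv
    obtain ⟨h1, h2, h3⟩ := hA v hv
    rw [prim_iff] at h3
    push Not at h3
    obtain ⟨l, hl, hlv⟩ := h3
    have h4 : (l : Qd t c) ∣ ((p : ℕ) : Qd t c) * v := by
      have e1 : ((p : ℕ) : Qd t c) * v = star q * (q * v) := by
        rw [← mul_assoc, star_mul_self' hD, hq]
      rw [e1]
      exact hlv.mul_left _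
    have h5 : l = p := by
      by_contra hne
      have h6 : IsCoprime (l : ℤ) (p : ℤ) := by
        rw [Nat.isCoprime_iff_coprime]
        exact (Nat.coprime_primes hl hp).2 hne
      rw [natCast_dvd] at h4
      simp only [QuadraticAlgebra.re_mul, QuadraticAlgebra.im_mul, QuadraticAlgebra.re_natCast,
        QuadraticAlgebra.im_natCast] at h4
      have h7 : (l : ℤ) ∣ (p : ℤ) * v.re := by
        have := h4.1
        simpa using this
      have h8 : (l : ℤ) ∣ (p : ℤ) * v.im := by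
        have := h4.2
        simpa using this
      exact prim_iff.1 h1 l hl (natCast_dvd.2 ⟨h6.dvd_of_dvd_mul_left h7,
        h6.dvd_of_dvd_mul_left h8⟩)
    rw [h5] at hlv
    obtain ⟨u, hu⟩ := hlv
    have h6 : v = star q * u := by
      have e1 : ((p : ℕ) : Qd t c) * v = ((p : ℕ) : Qd t c) * (star q * u) := by
        have e2 : ((p : ℕ) : Qd t c) * v = star q * (q * v) := by
          rw [← mul_assoc, star_mul_self' hD, hq]
        rw [e2, hu]; ring
      have hpZ : (p : ℤ) ≠ 0 := by exact_mod_cast hp.ne_zero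
      have e3 := congrArg QuadraticAlgebra.re e1
      have e4 := congrArg QuadraticAlgebra.im e1
      rw [QuadraticAlgebra.re_mul, QuadraticAlgebra.re_mul] at e3
      rw [QuadraticAlgebra.im_mul, QuadraticAlgebra.im_mul] at e4
      simp only [QuadraticAlgebra.re_natCast, QuadraticAlgebra.im_natCast, zero_mul, mul_zero,
        add_zero] at e3 e4
      exact QuadraticAlgebra.ext (mul_left_cancel₀ hpZ e3) (mul_left_cancel₀ hpZ e4)
    rw [mem_image]
    refine ⟨u, ?_, h6.symm⟩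
    rw [mem_ball hD]
    have h7 : nm v = p * nm u := by rw [h6, nm_mul, nm_star, hq]
    have h8 := nm_pos hD (prim_ne_zero h1)
    constructor
    · rw [h7] at h8
      exact Nat.pos_of_mul_pos_left h8
    · rw [le_div_iff₀ hpR]
      rw [h7] at h2
      push_cast at h2
      linarith
  have h2 : A.card ≤ (ball t c (Z / p)).card := (card_le_card h1).trans card_image_le
  have h3 : (A.card : ℝ) ≤ (ball t c (Z / p)).card := by exact_mod_cast h2
  exact h3.trans (card_ball hF (by positivity))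

lemma classify (hF : Fd t c f χ) {K Q p : ℕ} {κ s X : ℝ} {q : Qd t c} (hp : 0 < p) (hq : nm q = p)
    {e : Qd t c × Qd t c}
    (he : Pd s (X / p) e) (hY1 : f ≤ X / (K * Q)) (hYs : X / (K * Q) ≤ s * X)
    (hn : ¬ InG K κ Q X q e) (h1 : prim (q * e.1)) (h2 : prim (q * e.2)) :
    (∃ b ∈ pball t c (X / (K * Q)), 0 < dt (q * e.1) b ∧ 0 < dt b (q * e.2)) ∨
    (∃ g ∈ edge t c (X / (K * Q)), ((nm g.1 : ℝ) ≤ κ * (X / (K * Q)) ∨
      (nm g.2 : ℝ) ≤ κ * (X / (K * Q))) ∧ 0 < dt g.1 (q * e.1) ∧ 0 < dt (q * e.1) g.2) := by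
  have hD := hD_of hF
  have hpR : (0 : ℝ) < p := by exact_mod_cast hp
  have hpZ : (0 : ℤ) < p := by exact_mod_cast hp
  have n1 : (nm (q * e.1) : ℝ) = p * nm e.1 := by rw [nm_mul, hq]; push_cast; ring
  have n2 : (nm (q * e.2) : ℝ) = p * nm e.2 := by rw [nm_mul, hq]; push_cast; ring
  have eX : (p : ℝ) * (X / p) = X := by field_simp
  have l1 : X / (K * Q) < (nm (q * e.1) : ℝ) := by
    rw [n1]
    have : (p : ℝ) * (s * (X / p)) < p * nm e.1 := by
      have := he.l1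
      gcongr
    have e2 : (p : ℝ) * (s * (X / p)) = s * X := by rw [← eX]; field_simp
    linarith
  have l2 : X / (K * Q) < (nm (q * e.2) : ℝ) := by
    rw [n2]
    have : (p : ℝ) * (s * (X / p)) < p * nm e.2 := by
      have := he.l2
      gcongr
    have e2 : (p : ℝ) * (s * (X / p)) = s * X := by rw [← eX]; field_simp
    linarith
  have u1 : (nm (q * e.1) : ℝ) ≤ X := by
    have := he.n1
    calc (nm (q * e.1) : ℝ) = p * nm e.1 := n1
      _ ≤ p * (X / p) := by gcongr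
      _ = X := eX
  have u2 : (nm (q * e.2) : ℝ) ≤ X := by
    have := he.n2
    calc (nm (q * e.2) : ℝ) = p * nm e.2 := n2
      _ ≤ p * (X / p) := by gcongr
      _ = X := eX
  obtain ⟨g, hg, k1, k2⟩ := exists_edge hF hY1 h1 l1
  have hg' := (mem_edge hD).1 hg
  rcases lt_trichotomy (dt g.2 (q * e.2)) 0 with h | h | h
  · right
    refine ⟨g, hg, ?_, k1, k2⟩
    by_contra hc
    push Not at hc
    apply hn
    refine ⟨g, ?_, ?_, ?_⟩
    · unfold good
      rw [mem_filter]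
      exact ⟨hg, hc⟩
    · rw [mem_cone hD]
      exact ⟨⟨h1, u1⟩, k1, k2⟩
    · rw [mem_cone hD]
      have h3 : 0 < dt (q * e.2) g.2 := by rw [dt_swap]; linarith
      refine ⟨⟨h2, u2⟩, ?_, h3⟩
      have e1 : dt g.1 (q * e.2) * dt (q * e.1) g.2 = dt g.1 g.2 * dt (q * e.1) (q * e.2) +
          dt g.1 (q * e.1) * dt (q * e.2) g.2 := by
        simp only [dtZ]; ring
      rw [hg'.2.1, dt_mul hD, he.d, hq] at e1
      have e2 : 0 < dt g.1 (q * e.2) * dt (q * e.1) g.2 := by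
        rw [e1]
        have := mul_pos k1 h3
        linarith
      exact pos_of_mul_pos_left e2 k2.le
  · exfalso
    have : (nm (q * e.2) : ℝ) = nm g.2 := by
      rcases par_eq hg'.1.2.1 h2 h with h' | h'
      · rw [h']
      · rw [h', nm_neg]
    linarith [hg'.1.2.2]
  · left
    refine ⟨g.2, ?_, k2, h⟩
    rw [mem_pball hD]
    exact hg'.1.2

lemma count (hF : Fd t c f χ) {K Q p : ℕ} {κ s X : ℝ} {q : Qd t c} (hp : p.Prime) (hq : nm q = p)
    (hs0 : 0 < s)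
    (hs : f ≤ s * (X / p)) (hκ : 0 < κ) (hκ4 : κ ≤ 1 / 4) (hY2 : f ≤ X / (K * Q))
    (hYs : X / (K * Q) ≤ s * X) (D : Finset (Qd t c × Qd t c)) (hDD : ∀ e ∈ D, Pd s (X / p) e)
    (hn : ∀ e ∈ D, ¬ InG K κ Q X q e) :
    (D.card : ℝ) ≤ (⌊2 / s⌋₊ + 1) * (32 * (X / p / p) + 16 * (X / (K * Q)) * (⌊2 / s⌋₊ + 1) +
      2 * (128 * (1 + f) * (X / p) * Real.sqrt κ + 16 * (κ * (X / (K * Q))))) := by
  classical
  have hD := hD_of hF
  have hf3 : (3 : ℝ) ≤ f := by exact_mod_cast hF.three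
  set B : ℕ := ⌊2 / s⌋₊ + 1 with hB
  set Z : ℝ := X / p with hZd
  set Y : ℝ := X / (K * Q) with hYd
  have hZ : 0 < Z := by
    by_contra hc
    push Not at hc
    nlinarith
  set A : Finset (Qd t c) := (pball t c Z).filter (fun v => ¬ prim (q * v)) with hA
  set Vb : Finset (Qd t c) := (pball t c Y).biUnion (fun b => (pball t c Z).filter (fun v =>
    0 < pp b (q * v) ∧ -(1 / (s * Z)) * pp b (q * v) ≤ dt b (q * v) ∧
      (dt b (q * v) : ℝ) ≤ 0)) with hVb
  set E1 : Finset (Qd t c × Qd t c) := (edge t c Y).filter (fun g => (nm g.1 : ℝ) ≤ κ * Y) with hE1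
  set E2 : Finset (Qd t c × Qd t c) := (edge t c Y).filter (fun g => (nm g.2 : ℝ) ≤ κ * Y) with hE2
  set W : Qd t c × Qd t c → Finset (Qd t c) := fun g => (pball t c Z).filter (fun v =>
    0 < dt g.1 (q * v) ∧ 0 < dt (q * v) g.2) with hW
  have hAc : (A.card : ℝ) ≤ 16 * (Z / p) := by
    apply notprim hF hp hq hZ.le
    intro v hv
    rw [hA, mem_filter, mem_pball hD] at hv
    exact ⟨hv.1.1, hv.1.2, hv.2⟩
  have hVbc : (Vb.card : ℝ) ≤ 16 * Y * B := by
    have h1 : Vb.card ≤ (pball t c Y).card * B := by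
      rw [hVb]
      apply card_biUnion_le_card_mul
      intro b _
      have key := sep hF (g := b) (q := q) (p := p) (Z := Z) (A := -(1 / (s * Z)))
        (L := 1 / (s * Z)) hp.pos hq ((pball t c Z).filter (fun v =>
          0 < pp b (q * v) ∧ -(1 / (s * Z)) * pp b (q * v) ≤ dt b (q * v) ∧
          (dt b (q * v) : ℝ) ≤ 0)) hZ (by
          intro v hv
          rw [mem_filter, mem_pball hD] at hv
          obtain ⟨⟨k1, k2⟩, k3, k4, k5⟩ := hv
          refine ⟨k1, k2, k3, k4, ?_⟩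
          rw [neg_add_cancel, zero_mul]
          exact k5)
      have e2 : 1 / (s * Z) * (2 * Z) = 2 / s := by field_simp
      rwa [e2] at key
    have h2 : (Vb.card : ℝ) ≤ (pball t c Y).card * B := by exact_mod_cast h1
    have h3 : ((pball t c Y).card : ℝ) ≤ 16 * Y := by
      refine le_trans ?_ (card_ball hF (by linarith))
      unfold pball
      exact_mod_cast card_filter_le _ _
    refine h2.trans ?_
    gcongr
  have hWc : ∀ E : Finset (Qd t c × Qd t c), (∀ g ∈ E, g ∈ edge t c Y) →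
      ((E.biUnion W).card : ℝ) ≤
      ∑ g ∈ E, ((1 + f) * Z / (Real.sqrt (nm g.1) * Real.sqrt (nm g.2)) + 1) := by
    intro E hE
    have h1 : ((E.biUnion W).card : ℝ) ≤ ∑ g ∈ E, ((W g).card : ℝ) := by
      exact_mod_cast card_biUnion_le
    refine h1.trans (sum_le_sum ?_)
    intro g hg
    apply countc hF hY2 (hE g hg) hp.pos hq hZ
    intro v hv
    rw [hW] at hv
    simp only at hv
    rw [mem_filter, mem_pball hD] at hv
    exact ⟨hv.1.1, hv.1.2, hv.2.1, hv.2.2⟩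
  have hE1e : ∀ g ∈ E1, g ∈ edge t c Y := fun g hg => (mem_filter.1 hg).1
  have hE2e : ∀ g ∈ E2, g ∈ edge t c Y := fun g hg => (mem_filter.1 hg).1
  have h1 : ((E1.biUnion W).card : ℝ) ≤ 128 * (1 + f) * Z * Real.sqrt κ + 16 * (κ * Y) :=
    (hWc E1 hE1e).trans (sumE hF hY2 hκ hκ4 hZ E1 Prod.fst Prod.snd hE1e (fst_inj hD)
      (fun g _ => Or.inl ⟨rfl, rfl⟩) (fun g hg => (mem_filter.1 hg).2))
  have h2 : ((E2.biUnion W).card : ℝ) ≤ 128 * (1 + f) * Z * Real.sqrt κ + 16 * (κ * Y) :=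
    (hWc E2 hE2e).trans (sumE hF hY2 hκ hκ4 hZ E2 Prod.snd Prod.fst hE2e (snd_inj hD)
      (fun g _ => Or.inr ⟨rfl, rfl⟩) (fun g hg => (mem_filter.1 hg).2))
  set V1 : Finset (Qd t c) := A ∪ (Vb ∪ (E1.biUnion W ∪ E2.biUnion W)) with hV1
  have hV1c : (V1.card : ℝ) ≤ A.card + (Vb.card + ((E1.biUnion W).card + (E2.biUnion W).card)) := by
    have e1 := card_union_le A (Vb ∪ (E1.biUnion W ∪ E2.biUnion W))
    have e2 := card_union_le Vb (E1.biUnion W ∪ E2.biUnion W)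
    have e3 := card_union_le (E1.biUnion W) (E2.biUnion W)
    have e4 : V1.card ≤ A.card + (Vb.card + ((E1.biUnion W).card + (E2.biUnion W).card)) := by
      rw [hV1]; omega
    exact_mod_cast e4
  have hcover : ∀ e ∈ D, e.1 ∈ V1 ∨ e.2 ∈ A := by
    intro e he
    have hP := hDD e he
    by_cases q2 : prim (q * e.2)
    · left
      rw [hV1, mem_union, mem_union, mem_union]
      by_cases q1 : prim (q * e.1)
      · right
        rcases classify hF hp.pos hq hP hY2 hYs (hn e he) q1 q2 with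
          ⟨b, hb, k1, k2⟩ | ⟨g, hg, hs', k1, k2⟩
        · left
          rw [hVb, mem_biUnion]
          refine ⟨b, hb, ?_⟩
          rw [mem_filter, mem_pball hD]
          exact ⟨⟨hP.p1, hP.n1⟩, typeb hF hP hs hp.pos hq k1 k2⟩
        · right
          rcases hs' with h | h
          · left
            rw [mem_biUnion]
            refine ⟨g, mem_filter.2 ⟨hg, h⟩, ?_⟩
            rw [hW]
            simp only
            rw [mem_filter, mem_pball hD]
            exact ⟨⟨hP.p1, hP.n1⟩, k1, k2⟩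
          · right
            rw [mem_biUnion]
            refine ⟨g, mem_filter.2 ⟨hg, h⟩, ?_⟩
            rw [hW]
            simp only
            rw [mem_filter, mem_pball hD]
            exact ⟨⟨hP.p1, hP.n1⟩, k1, k2⟩
      · left
        rw [hA, mem_filter, mem_pball hD]
        exact ⟨⟨hP.p1, hP.n1⟩, q1⟩
    · right
      rw [hA, mem_filter, mem_pball hD]
      exact ⟨⟨hP.p2, hP.n2⟩, q2⟩
  have hD1 : D.card ≤ B * V1.card + B * A.card := by
    have e1 : D.card ≤ (D.filter (fun e => e.1 ∈ V1)).card + (D.filter (fun e => e.2 ∈ A)).card := by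
      refine le_trans (card_le_card ?_) (card_union_le _ _)
      intro e he
      rw [mem_union, mem_filter, mem_filter]
      rcases hcover e he with h | h
      · left; exact ⟨he, h⟩
      · right; exact ⟨he, h⟩
    have e2 := partner1 hF hZ hs0 hs (D.filter (fun e => e.1 ∈ V1)) V1
      (fun e he => hDD e (mem_filter.1 he).1) (fun e he => (mem_filter.1 he).2)
    have e3 := partner2 hF hZ hs0 hs (D.filter (fun e => e.2 ∈ A)) A
      (fun e he => hDD e (mem_filter.1 he).1) (fun e he => (mem_filter.1 he).2)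
    rw [← hB] at e2 e3
    omega
  have hD1R : (D.card : ℝ) ≤ B * V1.card + B * A.card := by exact_mod_cast hD1
  have hBR : (B : ℝ) = (⌊2 / s⌋₊ : ℝ) + 1 := by rw [hB]; push_cast; ring
  rw [← hBR]
  have hV1c2 : (V1.card : ℝ) + A.card ≤ 32 * (Z / p) + 16 * Y * B +
      2 * (128 * (1 + f) * Z * Real.sqrt κ + 16 * (κ * Y)) := by linarith
  calc (D.card : ℝ) ≤ B * V1.card + B * A.card := hD1R
    _ = B * ((V1.card : ℝ) + A.card) := by ring
    _ ≤ _ := by gcongr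

lemma fin_a {C D Z Q ε : ℝ} (hZ : 0 < Z) (hQ : 0 < Q) (h : 3 * C < Q * ε) (hD : D = C * Z) :
    D / Q ≤ ε / 3 * Z := by
  rw [div_le_iff₀ hQ, hD]
  have h1 := mul_le_mul_of_nonneg_right h.le hZ.le
  linarith

lemma fin_b {X K Q p : ℝ} (hX : 0 < X) (hK : 0 < K) (hQ : 0 < Q) (hp : 0 < p) (hp2 : p ≤ 2 * Q) :
    X / (K * Q) ≤ 2 * (X / p) / K := by
  have h1 : X / Q ≤ 2 * (X / p) := by
    rw [div_le_iff₀ hQ]
    have h2 : X / p * p ≤ X / p * (2 * Q) := by gcongr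
    have h3 : X / p * p = X := by field_simp
    linarith
  have h2 : X / (K * Q) = X / Q / K := by rw [div_div, mul_comm]
  rw [h2]
  gcongr

theorem loss (hF : Fd t c f χ) : S_LOSS t c χ := by
  classical
  have hD := hD_of hF
  have hf3 : (3 : ℝ) ≤ f := by exact_mod_cast hF.three
  intro s ε hs hε
  set B : ℝ := (⌊2 / s⌋₊ : ℝ) + 1 with hB
  have hB0 : 0 < B := by positivity
  obtain ⟨K₁, hK₁⟩ := exists_nat_gt (max (1 / s) (max 1 (96 * B * B / ε)))
  refine ⟨K₁, fun K hK => ?_⟩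
  have hKR : (K₁ : ℝ) ≤ K := by exact_mod_cast hK
  have hK1 : 1 / s < K := lt_of_lt_of_le (lt_of_le_of_lt (le_max_left _ _) hK₁) hKR
  have hK2 : 1 < (K : ℝ) := lt_of_lt_of_le (lt_of_le_of_lt
    ((le_max_left _ _).trans (le_max_right _ _)) hK₁) hKR
  have hK3 : 96 * B * B / ε < K := lt_of_lt_of_le (lt_of_le_of_lt
    ((le_max_right _ _).trans (le_max_right _ _)) hK₁) hKR
  have hK0 : (0 : ℝ) < K := by linarith
  refine ⟨min (1 / 4) ((ε / (960 * (1 + f) * B)) ^ 2), by positivity, fun κ hκ hκ' => ?_⟩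
  have hκ4 : κ ≤ 1 / 4 := hκ'.trans (min_le_left _ _)
  have hκs : Real.sqrt κ ≤ ε / (960 * (1 + f) * B) := by
    rw [Real.sqrt_le_left (by positivity)]
    exact hκ'.trans (min_le_right _ _)
  have hκκ : κ ≤ Real.sqrt κ := by
    rw [Real.le_sqrt' hκ]
    nlinarith
  obtain ⟨Q₀, hQ₀⟩ := exists_nat_gt (max 1 (96 * B / ε))
  refine ⟨Q₀, fun Q hQ => ?_⟩
  have hQR : (Q₀ : ℝ) ≤ Q := by exact_mod_cast hQ
  have hQ1 : (1 : ℝ) < Q := lt_of_lt_of_le (lt_of_le_of_lt (le_max_left _ _) hQ₀) hQR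
  have hQ2 : 96 * B / ε < (Q : ℝ) := lt_of_lt_of_le (lt_of_le_of_lt (le_max_right _ _) hQ₀) hQR
  refine ⟨max (2 * f * Q / s) (f * (K * Q)), fun X hX p hp q hq => ?_⟩
  have hX1 : 2 * f * Q / s ≤ X := (le_max_left _ _).trans hX
  have hX2 : f * (K * Q) ≤ X := (le_max_right _ _).trans hX
  unfold PQ at hp
  rw [mem_filter, mem_Ioc] at hp
  obtain ⟨⟨hp1, hp2⟩, hpp, -⟩ := hp
  have hp1R : (Q : ℝ) < p := by exact_mod_cast hp1
  have hp2R : (p : ℝ) ≤ 2 * Q := by exact_mod_cast hp2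
  have hpR : (0 : ℝ) < p := by linarith
  have hX0 : 0 < X := lt_of_lt_of_le (by positivity) hX2
  have hZ0 : 0 < X / p := by positivity
  have h1 := count hF (K := K) (Q := Q) (p := p) (κ := κ) (s := s) (X := X) (q := q) hpp hq hs
    (by
      have e1 : 2 * f * Q ≤ X * s := by rwa [div_le_iff₀ hs] at hX1
      rw [mul_div_assoc', le_div_iff₀ hpR]
      have e2 : (f : ℝ) * p ≤ f * (2 * Q) := by gcongr
      linarith)
    hκ hκ4 (by rw [le_div_iff₀ (by positivity)]; exact hX2)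
    (by
      rw [div_le_iff₀ (by positivity)]
      have e1 : 1 < s * K := by rwa [div_lt_iff₀ hs, mul_comm] at hK1
      have e2 : 1 * 1 ≤ (s * K) * Q := mul_le_mul e1.le hQ1.le zero_le_one (by positivity)
      have e3 : X * 1 ≤ X * ((s * K) * Q) := by
        apply mul_le_mul_of_nonneg_left _ hX0.le
        linarith
      linarith)
    ((dedge t c (X / p)).filter (fun e => 0 < pp e.1 e.2 ∧ s * (X / p) < (nm e.1 : ℝ) ∧
      s * (X / p) < (nm e.2 : ℝ) ∧ ¬ InG K κ Q X q e))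
    (by
      intro e he
      unfold dedge at he
      rw [mem_filter, mem_filter, mem_product, mem_pball hD, mem_pball hD] at he
      obtain ⟨⟨⟨⟨k1, k2⟩, ⟨k3, k4⟩⟩, k5⟩, k6, k7, k8, k9⟩ := he
      exact ⟨k1, k3, k2, k4, k5, k6, k7, k8⟩)
    (by
      intro e he
      rw [mem_filter] at he
      exact he.2.2.2.2)
  refine h1.trans ?_
  rw [← hB]
  set Z : ℝ := X / p with hZ
  have hY : X / (K * Q) ≤ 2 * Z / K := by
    exact fin_b hX0 hK0 (by linarith) hpR hp2R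
  have hY' : X / (K * Q) ≤ 2 * Z := by
    refine hY.trans ?_
    rw [div_le_iff₀ hK0]
    have e1 : 2 * Z * 1 ≤ 2 * Z * K := by gcongr
    linarith
  have hZp : Z / p ≤ Z / Q := by
    apply div_le_div_of_nonneg_left hZ0.le (by linarith) hp1R.le
  have t1 : B * (32 * (Z / p)) ≤ ε / 3 * Z := by
    have e1 : B * (32 * (Z / p)) ≤ B * (32 * (Z / Q)) := by gcongr
    have e2 : B * (32 * (Z / Q)) = 32 * B * Z / Q := by ring
    have e3 : 32 * B * Z / Q ≤ ε / 3 * Z := by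
      rw [div_lt_iff₀ hε] at hQ2
      exact fin_a (C := 32 * B) hZ0 (by linarith) (by linarith) rfl
    linarith
  have t2 : B * (16 * (X / (K * Q)) * B) ≤ ε / 3 * Z := by
    have e1 : B * (16 * (X / (K * Q)) * B) ≤ B * (16 * (2 * Z / K) * B) := by gcongr
    have e2 : B * (16 * (2 * Z / K) * B) = 32 * B * B * Z / K := by ring
    have e3 : 32 * B * B * Z / K ≤ ε / 3 * Z := by
      rw [div_lt_iff₀ hε] at hK3
      exact fin_a (C := 32 * B * B) hZ0 hK0 (by linarith) rfl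
    linarith
  have t3 : B * (2 * (128 * (1 + f) * Z * Real.sqrt κ + 16 * (κ * (X / (K * Q))))) ≤
      ε / 3 * Z := by
    have e1 : κ * (X / (K * Q)) ≤ Real.sqrt κ * (2 * Z) := by gcongr
    have e2 : B * (2 * (128 * (1 + f) * Z * Real.sqrt κ + 16 * (κ * (X / (K * Q))))) ≤
        B * (2 * (128 * (1 + f) * Z * Real.sqrt κ + 16 * (Real.sqrt κ * (2 * Z)))) := by gcongr
    have e3 : B * (2 * (128 * (1 + f) * Z * Real.sqrt κ + 16 * (Real.sqrt κ * (2 * Z)))) =
        (256 * (1 + f) + 64) * (B * Z * Real.sqrt κ) := by ring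
    have e3' : (256 * (1 + (f : ℝ)) + 64) * (B * Z * Real.sqrt κ) ≤
        (320 * (1 + f)) * (B * Z * Real.sqrt κ) := by
      gcongr
      linarith
    have e4 : (320 * (1 + (f : ℝ))) * (B * Z * Real.sqrt κ) ≤
        (320 * (1 + f)) * (B * Z * (ε / (960 * (1 + f) * B))) := by gcongr
    have e5 : (320 * (1 + (f : ℝ))) * (B * Z * (ε / (960 * (1 + f) * B))) = ε / 3 * Z := by
      field_simp
      ring
    linarith
  calc B * (32 * (Z / p) + 16 * (X / (K * Q)) * B +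
      2 * (128 * (1 + f) * Z * Real.sqrt κ + 16 * (κ * (X / (K * Q)))))
      = B * (32 * (Z / p)) + B * (16 * (X / (K * Q)) * B) +
        B * (2 * (128 * (1 + f) * Z * Real.sqrt κ + 16 * (κ * (X / (K * Q))))) := by ring
    _ ≤ ε * Z := by linarith

end Pool.Agent.N912.ED.W465EGL
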