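import Pool.Agent.N912.ED.Stm4
import Pool.Agent.N912.ED.W465EGLoss
import Pool.Agent.N912.ED.Swc

/-!
Project EM (helper912): from the bilinear estimate over the cones of good Farey edges to the sum over
all pairs of prime determinant in given windows.
-/

set_option autoImplicit false

namespace Pool.Agent.N912.ED

open Finset Filter
open Pool.Agent.W78.GA (Qd nm prim dt ip ball pball mem_ball mem_pball edge one_le_nm prim_ne_zero)
open Pool.Agent.N912.ED.W78EG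
open Pool.Agent.N912.ED.N912EL
open Pool.Agent.N912.ED.W465EGL

variable {t c : ℤ} {f : ℕ} {χ : DirichletCharacter ℂ f}

open scoped Classical in
/-- the pairs of determinant `m` with positive inner product and norms in given windows -/
noncomputable def PD (t c : ℤ) (s₁ s₂ s₃ s₄ X : ℝ) (m : ℤ) : Finset (Qd t c × Qd t c) :=
  (ball t c X ×ˢ ball t c X).filter (fun e => dt e.1 e.2 = m ∧ 0 < pp e.1 e.2 ∧
    (s₁ * X < (nm e.1 : ℝ) ∧ (nm e.1 : ℝ) ≤ s₂ * X) ∧ s₃ * X < (nm e.2 : ℝ) ∧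
    (nm e.2 : ℝ) ≤ s₄ * X)

/-- both elements are in the cone over a good edge -/
def InC (K : ℕ) (κ : ℝ) (Q : ℕ) (X : ℝ) (e : Qd t c × Qd t c) : Prop :=
  ∃ g ∈ good t c K κ Q X, e.1 ∈ cone X g.1 g.2 ∧ e.2 ∈ cone X g.1 g.2

theorem ta_sum (χ : DirichletCharacter ℂ f) (a : ℕ → ℝ) (Q : ℕ) (m : ℤ) :
    ta χ a Q m = ∑ p ∈ PQ χ Q, if m = (p : ℤ) then a p * Real.log p else 0 := by
  classical
  unfold ta th
  by_cases h : 0 < m ∧ m.toNat ∈ PQ χ Q
  · rw [if_pos h, sum_eq_single m.toNat]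
    · have e : ((m.toNat : ℕ) : ℤ) = m := Int.toNat_of_nonneg h.1.le
      rw [if_pos e.symm]
      have e2 : (m : ℝ) = ((m.toNat : ℕ) : ℝ) := by exact_mod_cast e.symm
      rw [e2]
    · intro p _ hp
      rw [if_neg]
      rintro rfl
      exact hp (by simp)
    · exact fun h2 => absurd h.2 h2
  · rw [if_neg h, mul_zero]
    symm
    apply sum_eq_zero
    intro p hp
    rw [if_neg]
    rintro rfl
    apply h
    have hp2 : 0 < p := by
      unfold PQ at hp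
      rw [mem_filter, mem_Ioc] at hp
      omega
    exact ⟨by exact_mod_cast hp2, by simpa using hp⟩

/-- inner products in a cone are positive -/
theorem pp_cone (hF : Fd t c f χ) {Y X : ℝ} (hY : f ≤ Y) {e : Qd t c × Qd t c}
    (he : e ∈ edge t c Y) {v w : Qd t c} (hv : v ∈ cone X e.1 e.2) (hw : w ∈ cone X e.1 e.2) :
    0 < pp v w := by
  have hD := hD_of hF
  have h1 := edge_pp hF hY he
  rw [mem_edge hD] at he
  obtain ⟨⟨⟨pa, na⟩, ⟨pb, nb⟩⟩, hab, -⟩ := he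
  rw [mem_cone hD] at hv hw
  obtain ⟨e1, e2⟩ := decomp hab v
  obtain ⟨e3, e4⟩ := decomp hab w
  have ha : (0 : ℤ) < nm e.1 := by
    have := (one_le_nm hD).2 (prim_ne_zero pa)
    exact_mod_cast this
  have hb : (0 : ℤ) < nm e.2 := by
    have := (one_le_nm hD).2 (prim_ne_zero pb)
    exact_mod_cast this
  have key : pp v w = 2 * (dt v e.2 * dt w e.2 * nm e.1) + 2 * (dt e.1 v * dt e.1 w * nm e.2) +
      (dt v e.2 * dt e.1 w + dt e.1 v * dt w e.2) * pp e.1 e.2 := by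
    generalize dt v e.2 = x₁ at e1 e2
    generalize dt e.1 v = y₁ at e1 e2
    generalize dt w e.2 = x₂ at e3 e4
    generalize dt e.1 w = y₂ at e3 e4
    rw [ppZ, ppZ, nmZ hD, nmZ hD, e1, e2, e3, e4]
    ring
  rw [key]
  have k1 : 0 < dt v e.2 * dt w e.2 * nm e.1 := mul_pos (mul_pos hv.2.2 hw.2.2) ha
  have k2 : 0 < dt e.1 v * dt e.1 w * nm e.2 := mul_pos (mul_pos hv.2.1 hw.2.1) hb
  have k3 : 0 < (dt v e.2 * dt e.1 w + dt e.1 v * dt w e.2) * pp e.1 e.2 :=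
    mul_pos (add_pos (mul_pos hv.2.2 hw.2.1) (mul_pos hv.2.1 hw.2.2)) (by omega)
  linarith

open scoped Classical in
/-- the sum over the cones over good edges -/
theorem sum_good (hF : Fd t c f χ) {K Q : ℕ} {κ X s₁ s₂ s₃ s₄ : ℝ} (hY : f ≤ X / (K * Q))
    (m : ℤ) (G : Qd t c → Qd t c → ℝ) :
    ∑ e ∈ good t c K κ Q X, ∑ v ∈ cone X e.1 e.2, ∑ w ∈ cw X s₃ s₄ e.1 e.2,
      (if dt v w = m then (if s₁ * X < (nm v : ℝ) ∧ (nm v : ℝ) ≤ s₂ * X then G v w else 0) else 0) =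
    ∑ x ∈ (PD t c s₁ s₂ s₃ s₄ X m).filter (InC K κ Q X), G x.1 x.2 := by
  have hD := hD_of hF
  have e1 : ∀ e ∈ good t c K κ Q X, ∑ v ∈ cone X e.1 e.2, ∑ w ∈ cw X s₃ s₄ e.1 e.2,
      (if dt v w = m then (if s₁ * X < (nm v : ℝ) ∧ (nm v : ℝ) ≤ s₂ * X then G v w else 0) else 0) =
      ∑ x ∈ (PD t c s₁ s₂ s₃ s₄ X m).filter (fun x => x.1 ∈ cone X e.1 e.2 ∧
        x.2 ∈ cone X e.1 e.2), G x.1 x.2 := by
    intro e he
    rw [← sum_product', ← sum_filter_add_sum_filter_not (cone X e.1 e.2 ×ˢ cw X s₃ s₄ e.1 e.2)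
      (fun x => dt x.1 x.2 = m ∧ (s₁ * X < (nm x.1 : ℝ) ∧ (nm x.1 : ℝ) ≤ s₂ * X))]
    have A1 : ∑ x ∈ (cone X e.1 e.2 ×ˢ cw X s₃ s₄ e.1 e.2).filter
        (fun x => ¬ (dt x.1 x.2 = m ∧ (s₁ * X < (nm x.1 : ℝ) ∧ (nm x.1 : ℝ) ≤ s₂ * X))),
        (if dt x.1 x.2 = m then (if s₁ * X < (nm x.1 : ℝ) ∧ (nm x.1 : ℝ) ≤ s₂ * X then
          G x.1 x.2 else 0) else 0) = 0 := by
      apply sum_eq_zero
      intro x hx
      rw [mem_filter] at hx
      by_cases h1 : dt x.1 x.2 = m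
      · rw [if_pos h1, if_neg fun h2 => hx.2 ⟨h1, h2⟩]
      · rw [if_neg h1]
    rw [A1, add_zero]
    refine sum_congr ?_ fun x hx => ?_
    · ext x
      rw [mem_filter, mem_filter, mem_product]
      unfold PD
      rw [mem_filter, mem_product]
      have hg : e ∈ edge t c (X / (K * Q)) := by
        unfold good at he
        exact (mem_filter.1 he).1
      constructor
      · rintro ⟨⟨h1, h2⟩, h3, h4⟩
        unfold cw at h2
        rw [mem_filter] at h2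
        have h1' := (mem_cone hD).1 h1
        have h2' := (mem_cone hD).1 h2.1
        refine ⟨⟨⟨?_, ?_⟩, h3, pp_cone hF hY hg h1 h2.1, h4, h2.2⟩, h1, h2.1⟩
        · rw [mem_ball hD]
          exact ⟨(one_le_nm hD).2 (prim_ne_zero h1'.1.1), h1'.1.2⟩
        · rw [mem_ball hD]
          exact ⟨(one_le_nm hD).2 (prim_ne_zero h2'.1.1), h2'.1.2⟩
      · rintro ⟨⟨_, h3, _, h4, h5⟩, h1, h2⟩
        refine ⟨⟨h1, ?_⟩, h3, h4⟩
        unfold cw
        rw [mem_filter]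
        exact ⟨h2, h5⟩
    · rw [mem_filter] at hx
      unfold PD at hx
      rw [mem_filter] at hx
      rw [if_pos hx.1.2.1, if_pos hx.1.2.2.2.1]
  rw [sum_congr rfl e1]
  rw [← sum_biUnion]
  · refine sum_congr ?_ fun _ _ => rfl
    ext x
    rw [mem_biUnion, mem_filter]
    unfold InC
    constructor
    · rintro ⟨g, hg, hx⟩
      rw [mem_filter] at hx
      exact ⟨hx.1, g, hg, hx.2⟩
    · rintro ⟨h1, g, hg, hx⟩
      exact ⟨g, hg, mem_filter.2 ⟨h1, hx⟩⟩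
  · intro e he g hg hne
    rw [mem_coe] at he hg
    rw [Function.onFun, disjoint_left]
    intro x hx hx'
    rw [mem_filter] at hx hx'
    apply hne
    have h1 := (mem_cone hD).1 hx.2.1
    have h2 := (mem_cone hD).1 hx'.2.1
    unfold good at he hg
    exact edge_unique hD (mem_filter.1 he).1 (mem_filter.1 hg).1 h1.2.1 h1.2.2 h2.2.1 h2.2.2

theorem card_log (χ : DirichletCharacter ℂ f) : ∃ C : ℝ, 1 ≤ C ∧ ∃ Q₀ : ℕ, ∀ Q : ℕ, Q₀ ≤ Q →
    ∑ p ∈ PQ χ Q, Real.log p ≤ C * Q := by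
  obtain ⟨C, Q₀, h⟩ := part2 χ 0
  refine ⟨|C| + 1, by have := abs_nonneg C; linarith, Q₀, fun Q hQ => ?_⟩
  have h1 := (abs_le.1 (h Q hQ (2 * Q) (by omega) le_rfl)).2
  rw [pow_zero, div_one] at h1
  have e : ∑ m ∈ Ioc Q (2 * Q), th χ Q m = ∑ p ∈ PQ χ Q, Real.log p := by
    unfold PQ
    rw [sum_filter]
    refine sum_congr rfl fun m hm => ?_
    rw [mem_Ioc] at hm
    rw [th_nat χ Q m hm.1 hm.2]
    simp
  rw [e] at h1
  push_cast at h1
  have h2 : C * Q ≤ |C| * Q := mul_le_mul_of_nonneg_right (le_abs_self C) (Nat.cast_nonneg Q)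
  linarith

/-- the bilinear estimate for the pairs of prime determinant -/
theorem em1 (hF : Fd t c f χ) {A : Qd t c → ℝ} (hA : ∀ z, |A z| ≤ 1) (hB : Bta χ A)
    (hL : S_LOSP t c) (s₁ s₂ s₃ s₄ : ℝ) (g1 : 0 < s₁) (g3 : 0 < s₃)
    (g4 : s₃ < s₄) (g5 : s₄ ≤ 1) (ε : ℝ) (hε : 0 < ε) :
    ∃ Q₀ : ℕ, ∀ Q : ℕ, Q₀ ≤ Q → ∃ X₀ : ℝ, ∀ X : ℝ, X₀ ≤ X → ∀ a : ℕ → ℝ, (∀ m, |a m| ≤ 1) →
      ∀ α : Qd t c → ℝ, (∀ z, |α z| ≤ 1) →
      |∑ p ∈ PQ χ Q, a p * Real.log p * ∑ x ∈ PD t c s₁ s₂ s₃ s₄ X p, α x.1 * A x.2| ≤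
        ε * X * Q := by
  classical
  have hD := hD_of hF
  obtain ⟨C, hC, Q₁, h1⟩ := card_log χ
  obtain ⟨K₀, hK⟩ := hL (min s₁ s₃) (ε / (2 * C)) (lt_min g1 g3) (by positivity)
  obtain ⟨κ₀, hκ₀, h2⟩ := hK (max K₀ 1) (le_max_left _ _)
  obtain ⟨Q₂, h3⟩ := h2 κ₀ hκ₀ le_rfl
  obtain ⟨Q₃, h4⟩ := hB (max K₀ 1) κ₀ s₁ s₃ s₄ (ε / 2) (le_max_right _ _) hκ₀ g1 g3 g4 g5
    (by positivity)
  set K : ℕ := max K₀ 1 with hKd
  have hK1 : 1 ≤ K := le_max_right _ _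
  refine ⟨max (max Q₁ Q₂) (max Q₃ 1), fun Q hQ => ?_⟩
  have hQ1 : Q₁ ≤ Q := ((le_max_left _ _).trans (le_max_left _ _)).trans hQ
  have hQ2 : Q₂ ≤ Q := ((le_max_right _ _).trans (le_max_left _ _)).trans hQ
  have hQ3 : Q₃ ≤ Q := ((le_max_left _ _).trans (le_max_right _ _)).trans hQ
  have hQ4 : 1 ≤ Q := ((le_max_right _ _).trans (le_max_right _ _)).trans hQ
  obtain ⟨X₁, h5⟩ := h3 Q hQ2
  obtain ⟨X₂, h6⟩ := h4 Q hQ3
  refine ⟨max (max X₁ X₂) (max 1 (f * (K * Q))), fun X hX a ha α hα => ?_⟩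
  have hX1 : X₁ ≤ X := ((le_max_left _ _).trans (le_max_left _ _)).trans hX
  have hX2 : X₂ ≤ X := ((le_max_right _ _).trans (le_max_left _ _)).trans hX
  have hX3 : 1 ≤ X := ((le_max_left _ _).trans (le_max_right _ _)).trans hX
  have hX4 : f * (K * Q) ≤ X := ((le_max_right _ _).trans (le_max_right _ _)).trans hX
  have hKQ : (0 : ℝ) < K * Q := by
    have e1 : (0 : ℝ) < K := by exact_mod_cast hK1
    have e2 : (0 : ℝ) < Q := by exact_mod_cast hQ4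
    positivity
  have hY : f ≤ X / (K * Q) := by
    rw [le_div_iff₀ hKQ]
    exact hX4
  -- the sum over the good cones
  set α' : Qd t c → ℝ := fun z => if s₁ * X < (nm z : ℝ) ∧ (nm z : ℝ) ≤ s₂ * X then α z else 0
    with hα'
  have h7 := h6 X hX2 a ha α' (fun z => by
    rw [hα']
    dsimp only
    split_ifs
    · exact hα z
    · simp) (fun z hz => by
    rw [hα'] at hz
    dsimp only at hz
    split_ifs at hz with h
    · exact h.1
    · exact absurd rfl hz)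
  have e1 : ∑ e ∈ good t c K κ₀ Q X, ∑ v ∈ cone X e.1 e.2, ∑ w ∈ cw X s₃ s₄ e.1 e.2,
      α' v * A w * ta χ a Q (dt v w) = ∑ p ∈ PQ χ Q, a p * Real.log p *
        ∑ x ∈ (PD t c s₁ s₂ s₃ s₄ X p).filter (InC K κ₀ Q X), α x.1 * A x.2 := by
    have e2 : ∀ p ∈ PQ χ Q, a p * Real.log p *
        ∑ x ∈ (PD t c s₁ s₂ s₃ s₄ X p).filter (InC K κ₀ Q X), α x.1 * A x.2 =
        ∑ e ∈ good t c K κ₀ Q X, ∑ v ∈ cone X e.1 e.2, ∑ w ∈ cw X s₃ s₄ e.1 e.2,
          (if dt v w = p then a p * Real.log p else 0) * (α' v * A w) := by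
      intro p _
      rw [← sum_good hF hY (p : ℤ) (fun v w => α v * A w), mul_sum]
      refine sum_congr rfl fun e _ => ?_
      rw [mul_sum]
      refine sum_congr rfl fun v _ => ?_
      rw [mul_sum]
      refine sum_congr rfl fun w _ => ?_
      rw [hα']
      dsimp only
      split_ifs <;> ring
    rw [sum_congr rfl e2]
    symm
    rw [sum_comm]
    refine sum_congr rfl fun e _ => ?_
    rw [sum_comm]
    refine sum_congr rfl fun v _ => ?_
    rw [sum_comm]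
    refine sum_congr rfl fun w _ => ?_
    rw [← sum_mul, ← ta_sum]
    ring
  rw [e1] at h7
  -- the other pairs
  have e3 : ∀ p ∈ PQ χ Q, |a p * Real.log p * ∑ x ∈ PD t c s₁ s₂ s₃ s₄ X p, α x.1 * A x.2 -
      a p * Real.log p * ∑ x ∈ (PD t c s₁ s₂ s₃ s₄ X p).filter (InC K κ₀ Q X),
        α x.1 * A x.2| ≤ Real.log p * (ε / (2 * C) * X) := by
    intro p hp
    unfold PQ at hp
    rw [mem_filter, mem_Ioc] at hp
    have hl : 0 ≤ Real.log p := Real.log_natCast_nonneg p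
    rw [← mul_sub, ← sum_filter_add_sum_filter_not (PD t c s₁ s₂ s₃ s₄ X p) (InC K κ₀ Q X),
      add_sub_cancel_left, abs_mul, abs_mul, abs_of_nonneg hl]
    have k1 : |∑ x ∈ (PD t c s₁ s₂ s₃ s₄ X p).filter (fun x => ¬ InC K κ₀ Q X x),
        α x.1 * A x.2| ≤ ε / (2 * C) * X := by
      refine (abs_sum_le_sum_abs _ _).trans ?_
      have k2 : ∀ x ∈ (PD t c s₁ s₂ s₃ s₄ X p).filter (fun x => ¬ InC K κ₀ Q X x),
          |α x.1 * A x.2| ≤ 1 := by
        intro x _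
        rw [abs_mul]
        exact mul_le_one₀ (hα _) (abs_nonneg _) (hA _)
      refine (sum_le_sum k2).trans ?_
      rw [sum_const, nsmul_eq_mul, mul_one]
      refine le_trans ?_ (h5 X hX1 p hp.2.1 hp.1.1 hp.1.2)
      refine Nat.cast_le.2 (card_le_card fun x hx => ?_)
      unfold PD at hx
      rw [mem_filter, mem_filter] at hx
      rw [mem_filter]
      obtain ⟨⟨m1, m2, m3, m4, m5⟩, m6⟩ := hx
      have hX0 : 0 ≤ X := by linarith
      refine ⟨m1, m2, m3, ?_, ?_, m6⟩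
      · exact lt_of_le_of_lt (mul_le_mul_of_nonneg_right (min_le_left _ _) hX0) m4.1
      · exact lt_of_le_of_lt (mul_le_mul_of_nonneg_right (min_le_right _ _) hX0) m5.1
    have k3 : |a p| * Real.log p ≤ Real.log p := by
      calc |a p| * Real.log p ≤ 1 * Real.log p := mul_le_mul_of_nonneg_right (ha p) hl
        _ = Real.log p := one_mul _
    exact mul_le_mul k3 k1 (abs_nonneg _) hl
  have e4 : |∑ p ∈ PQ χ Q, a p * Real.log p * ∑ x ∈ PD t c s₁ s₂ s₃ s₄ X p, α x.1 * A x.2 -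
      ∑ p ∈ PQ χ Q, a p * Real.log p *
        ∑ x ∈ (PD t c s₁ s₂ s₃ s₄ X p).filter (InC K κ₀ Q X), α x.1 * A x.2| ≤ ε / 2 * X * Q := by
    rw [← sum_sub_distrib (s := PQ χ Q)]
    refine (abs_sum_le_sum_abs _ _).trans ((sum_le_sum e3).trans ?_)
    rw [← sum_mul]
    have hC0 : 0 < C := by linarith
    have hXe : 0 ≤ ε / (2 * C) * X := by positivity
    calc (∑ p ∈ PQ χ Q, Real.log p) * (ε / (2 * C) * X) ≤ C * Q * (ε / (2 * C) * X) :=
          mul_le_mul_of_nonneg_right (h1 Q hQ1) hXe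
      _ = ε / 2 * X * Q := by field_simp
  have e5 := abs_le.1 e4
  have e6 := abs_le.1 h7
  rw [abs_le]
  constructor <;> nlinarith [e5.1, e5.2, e6.1, e6.2]

end Pool.Agent.N912.ED
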