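import Pool.Agent.N912.ED.All
import Pool.Agent.N296.EM.Sml
import Pool.Agent.V11296.CV2

/-!
Project EM (helper912): general windows, residue classes depending on the prime, and functions with
values in a finite abelian group.
-/

set_option autoImplicit false

namespace Pool.Agent.N912.ED

open Finset Filter
open Pool.Agent.W78.GA (Qd nm prim dt ip ball pball mem_ball mem_pball edge one_le_nm prim_ne_zero)
open Pool.Agent.W251.GX (Cm)
open Pool.Agent.N912.ED.W78EG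
open Pool.Agent.N912.ED.N912EL
open Pool.Agent.V11296.CV (chpow chnrm nt ind_eq)

variable {t c : ℤ} {f : ℕ} {χ : DirichletCharacter ℂ f}

/-- `em2G` with arbitrary windows and a residue class which depends on the prime -/
theorem em3 (hF : Fd t c f χ) (N : ℕ) (F : Qd t c → ℂ) (h : Apd N F) {q : ℕ}
    (hq : 1 ≤ q) (s₁ s₂ s₃ s₄ : ℝ)
    (g1 : 0 < s₁) (g3 : 0 < s₃) (g4 : s₃ < s₄) (L : ℝ) (hL1 : 1 ≤ L) (hL4 : s₄ ≤ L)
    (ε : ℝ) (hε : 0 < ε) :
    ∃ Q₀ : ℕ, ∀ Q : ℕ, Q₀ ≤ Q → ∃ X₀ : ℝ, ∀ X : ℝ, X₀ ≤ X →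
      ∀ (u : ℕ → ℤ) (α : Qd t c → ℂ), (∀ z, ‖α z‖ ≤ 1) →
      ∑ p ∈ PQ χ Q, Real.log p *
        ‖∑ x ∈ PD t c (s₁ / L) (s₂ / L) (s₃ / L) (s₄ / L) (L * X) p,
          α x.1 * ((iq q (u p) x.1 x.2 : ℂ) * F x.2)‖ ≤ ε * X * Q := by
  have hL : 0 < L := by linarith
  have hq0 : (0 : ℝ) < q := by exact_mod_cast hq
  have h1 : ∀ i : ℕ, ∃ Q₀ : ℕ, ∀ Q : ℕ, Q₀ ≤ Q → ∃ X₀ : ℝ, ∀ X : ℝ, X₀ ≤ X →
      ∀ α : Qd t c → ℂ, (∀ z, ‖α z‖ ≤ 1) →
      ∑ p ∈ PQ χ Q, Real.log p *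
        ‖∑ x ∈ PD t c (s₁ / L) (s₂ / L) (s₃ / L) (s₄ / L) X p,
          α x.1 * ((iq q (i : ℤ) x.1 x.2 : ℂ) * F x.2)‖ ≤ (ε / (q * L)) * X * Q := fun i =>
    em2G hF (Pool.Agent.N296.EM.sml hF) N F h hq (i : ℤ) (s₁ / L) (s₂ / L) (s₃ / L) (s₄ / L)
      (by positivity) (by positivity) (div_lt_div_of_pos_right g4 hL) ((div_le_one hL).2 hL4)
      (ε / (q * L)) (by positivity)
  choose Q₀ hQ₀ using h1
  refine ⟨(range q).sup Q₀, fun Q hQ => ?_⟩
  have h2 : ∀ i : ℕ, ∃ X₀ : ℝ, i ∈ range q → ∀ X : ℝ, X₀ ≤ X →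
      ∀ α : Qd t c → ℂ, (∀ z, ‖α z‖ ≤ 1) →
      ∑ p ∈ PQ χ Q, Real.log p *
        ‖∑ x ∈ PD t c (s₁ / L) (s₂ / L) (s₃ / L) (s₄ / L) X p,
          α x.1 * ((iq q (i : ℤ) x.1 x.2 : ℂ) * F x.2)‖ ≤ (ε / (q * L)) * X * Q := by
    intro i
    by_cases hi : i ∈ range q
    · obtain ⟨X₀, h3⟩ := hQ₀ i Q ((Finset.le_sup hi).trans hQ)
      exact ⟨X₀, fun _ => h3⟩
    · exact ⟨0, fun h => absurd h hi⟩
  choose X₀ hX₀ using h2
  obtain ⟨B, hB⟩ : ∃ B : ℝ, ∀ i ∈ range q, X₀ i ≤ B := by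
    refine ⟨∑ i ∈ range q, |X₀ i|, fun i hi => ?_⟩
    exact (le_abs_self _).trans (single_le_sum (f := fun i => |X₀ i|) (fun _ _ => abs_nonneg _) hi)
  refine ⟨max B 0, fun X hX u α hα => ?_⟩
  have hX0 : 0 ≤ X := (le_max_right _ _).trans hX
  have hBX : B ≤ L * X := by
    have h3 : B ≤ X := (le_max_left _ _).trans hX
    have h4 : X ≤ L * X := le_mul_of_one_le_left hX0 hL1
    linarith
  have hlog : ∀ p : ℕ, 0 ≤ Real.log p := fun p => Real.log_natCast_nonneg p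
  calc ∑ p ∈ PQ χ Q, Real.log p *
        ‖∑ x ∈ PD t c (s₁ / L) (s₂ / L) (s₃ / L) (s₄ / L) (L * X) p,
          α x.1 * ((iq q (u p) x.1 x.2 : ℂ) * F x.2)‖
      ≤ ∑ p ∈ PQ χ Q, ∑ i ∈ range q, Real.log p *
        ‖∑ x ∈ PD t c (s₁ / L) (s₂ / L) (s₃ / L) (s₄ / L) (L * X) p,
          α x.1 * ((iq q (i : ℤ) x.1 x.2 : ℂ) * F x.2)‖ := by
        refine sum_le_sum fun p _ => ?_
        have hqz : (0 : ℤ) < q := by exact_mod_cast hq
        have h5 : (u p % q).toNat ∈ range q := by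
          rw [mem_range]
          have := Int.emod_lt_of_pos (u p) hqz
          have := Int.emod_nonneg (u p) hqz.ne'
          omega
        have h6 : ∀ x : Qd t c × Qd t c, iq q (u p) x.1 x.2 =
            iq q ((u p % q).toNat : ℤ) x.1 x.2 := by
          intro x
          unfold iq
          rw [Int.toNat_of_nonneg (Int.emod_nonneg (u p) hqz.ne')]
          have e : ((q : ℤ) ∣ ip x.1 x.2 - u p) ↔ (q : ℤ) ∣ ip x.1 x.2 - u p % q := by
            have e1 : ip x.1 x.2 - u p % q = (ip x.1 x.2 - u p) + q * (u p / q) := by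
              have := Int.emod_add_mul_ediv (u p) q
              linarith
            rw [e1]
            exact (dvd_add_left (dvd_mul_right _ _)).symm
          simp only [e]
        simp only [h6]
        exact single_le_sum (f := fun i : ℕ => Real.log p *
          ‖∑ x ∈ PD t c (s₁ / L) (s₂ / L) (s₃ / L) (s₄ / L) (L * X) p,
            α x.1 * ((iq q (i : ℤ) x.1 x.2 : ℂ) * F x.2)‖)
          (fun _ _ => mul_nonneg (hlog p) (norm_nonneg _)) h5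
    _ = ∑ i ∈ range q, ∑ p ∈ PQ χ Q, Real.log p *
        ‖∑ x ∈ PD t c (s₁ / L) (s₂ / L) (s₃ / L) (s₄ / L) (L * X) p,
          α x.1 * ((iq q (i : ℤ) x.1 x.2 : ℂ) * F x.2)‖ := sum_comm
    _ ≤ ∑ i ∈ range q, (ε / (q * L)) * (L * X) * Q :=
        sum_le_sum fun i hi => hX₀ i hi (L * X) ((hB i hi).trans hBX) α hα
    _ = ε * X * Q := by
        rw [sum_const, card_range, nsmul_eq_mul]
        field_simp

section

variable {A : Type} [AddCommGroup A] [Finite A]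

open scoped Classical in
/-- Fourier analysis on the group of values -/
theorem four {ι : Type} (T : Finset ι) (a : ι → ℂ) (Φ : ι → A) (g : A) :
    ‖∑ x ∈ T, a x * ((if Φ x = g then (1 : ℂ) else 0) - 1 / (Nat.card A : ℂ))‖ ≤
      ∑ ψ ∈ nt (⊤ : AddSubgroup A), ‖∑ x ∈ T, a x * ψ (Φ x)‖ := by
  have h1 : ∑ x ∈ T, a x * ((if Φ x = g then (1 : ℂ) else 0) - 1 / (Nat.card A : ℂ)) =
      1 / (Nat.card A : ℂ) * ∑ ψ ∈ nt (⊤ : AddSubgroup A), ψ (-g) * ∑ x ∈ T, a x * ψ (Φ x) := by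
    have h2 : ∀ x ∈ T, a x * ((if Φ x = g then (1 : ℂ) else 0) - 1 / (Nat.card A : ℂ)) =
        1 / (Nat.card A : ℂ) * ∑ ψ ∈ nt (⊤ : AddSubgroup A), ψ (-g) * (a x * ψ (Φ x)) := by
      intro x _
      have h4 := ind_eq (⊤ : AddSubgroup A) (Φ x - g) (AddSubgroup.mem_top _)
      simp only [sub_eq_zero, AddSubgroup.card_top] at h4
      rw [h4, mul_left_comm, mul_sum]
      refine congrArg _ (sum_congr rfl fun ψ _ => ?_)
      have h5 : ψ (Φ x - g) = ψ (-g) * ψ (Φ x) := by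
        rw [← AddChar.map_add_eq_mul]
        congr 1
        abel
      rw [h5]
      ring
    rw [sum_congr rfl h2, ← mul_sum, sum_comm]
    refine congrArg _ (sum_congr rfl fun ψ _ => ?_)
    rw [mul_sum]
  rw [h1, norm_mul]
  have h2 : ‖(1 / (Nat.card A : ℂ) : ℂ)‖ ≤ 1 := by
    rw [norm_div, norm_one, Complex.norm_natCast]
    have : (1 : ℝ) ≤ Nat.card A := by exact_mod_cast (Nat.card_pos (α := A))
    rw [div_le_one (by linarith)]
    exact this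
  calc ‖(1 / (Nat.card A : ℂ) : ℂ)‖ * ‖∑ ψ ∈ nt (⊤ : AddSubgroup A), ψ (-g) *
        ∑ x ∈ T, a x * ψ (Φ x)‖
      ≤ 1 * ‖∑ ψ ∈ nt (⊤ : AddSubgroup A), ψ (-g) * ∑ x ∈ T, a x * ψ (Φ x)‖ :=
        mul_le_mul_of_nonneg_right h2 (norm_nonneg _)
    _ ≤ ∑ ψ ∈ nt (⊤ : AddSubgroup A), ‖ψ (-g) * ∑ x ∈ T, a x * ψ (Φ x)‖ := by
        rw [one_mul]
        exact norm_sum_le _ _
    _ = _ := by
        refine sum_congr rfl fun ψ _ => ?_
        rw [norm_mul, chnrm, one_mul]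

/-- characters of a completely additive function -/
theorem cm_chA {H : Qd t c → A} (h : ∀ z w : Qd t c, z ≠ 0 → w ≠ 0 → H (z * w) = H z + H w)
    (ψ : AddChar A ℂ) : Cm (Nat.card A) (fun z => ψ (H z)) where
  pos := Nat.card_pos
  mul := fun z w hz hw => by rw [h z w hz hw, AddChar.map_add_eq_mul]
  pow := fun z => chpow ψ _

end

end Pool.Agent.N912.ED
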