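import Pool.Agent.N912.ED.Em3

set_option autoImplicit false
set_option maxHeartbeats 400000

namespace Pool.Agent.N912.ED

open Finset Filter
open Pool.Agent.W78.GA (Qd nm prim dt ip ball pball mem_ball mem_pball edge one_le_nm prim_ne_zero)
open Pool.Agent.W251.GX (Cm)
open Pool.Agent.N912.ED.W78EG
open Pool.Agent.N912.ED.N912EL
open Pool.Agent.V11296.CV (chpow chnrm nt ind_eq)

variable {t c : ℤ} {f : ℕ} {χ : DirichletCharacter ℂ f}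

section

variable {A : Type} [AddCommGroup A] [Finite A]

open scoped Classical in
/-- `1_{x = g} - 1/#A` -/
noncomputable def ig (g x : A) : ℂ := (if x = g then (1 : ℂ) else 0) - 1 / (Nat.card A : ℂ)

theorem four' {ι : Type} (T : Finset ι) (a : ι → ℂ) (Φ : ι → A) (g : A) :
    ‖∑ x ∈ T, a x * ig g (Φ x)‖ ≤
      ∑ ψ ∈ nt (⊤ : AddSubgroup A), ‖∑ x ∈ T, a x * ψ (Φ x)‖ := four T a Φ g

/-- the group version -/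
theorem em4 (hF : Fd t c f χ) {H : Qd t c → A}
    (hA : ∀ ψ ∈ nt (⊤ : AddSubgroup A), Apd (Nat.card A) (fun z => ψ (H z))) {q : ℕ}
    (hq : 1 ≤ q) (s₁ s₂ s₃ s₄ : ℝ)
    (g1 : 0 < s₁) (g3 : 0 < s₃) (g4 : s₃ < s₄) (L : ℝ) (hL1 : 1 ≤ L) (hL4 : s₄ ≤ L)
    (ε : ℝ) (hε : 0 < ε) :
    ∃ Q₀ : ℕ, ∀ Q : ℕ, Q₀ ≤ Q → ∃ X₀ : ℝ, ∀ X : ℝ, X₀ ≤ X →
      ∀ (u : ℕ → ℤ) (α : Qd t c → ℂ) (g : A), (∀ z, ‖α z‖ ≤ 1) →
      ∑ p ∈ PQ χ Q, Real.log p *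
        ‖∑ x ∈ PD t c (s₁ / L) (s₂ / L) (s₃ / L) (s₄ / L) (L * X) p,
          (α x.1 * (iq q (u p) x.1 x.2 : ℂ)) * ig g (H x.2)‖ ≤ ε * X * Q := by
  obtain ⟨K, hK⟩ : ∃ K : ℕ, K = (nt (⊤ : AddSubgroup A)).card + 1 := ⟨_, rfl⟩
  have hK0 : (0 : ℝ) < K := by
    rw [hK]
    positivity
  have h1 : ∀ ψ : AddChar A ℂ, ∃ Q₀ : ℕ, ψ ∈ nt (⊤ : AddSubgroup A) → ∀ Q : ℕ, Q₀ ≤ Q →
      ∃ X₀ : ℝ, ∀ X : ℝ, X₀ ≤ X → ∀ (u : ℕ → ℤ) (α : Qd t c → ℂ), (∀ z, ‖α z‖ ≤ 1) →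
      ∑ p ∈ PQ χ Q, Real.log p *
        ‖∑ x ∈ PD t c (s₁ / L) (s₂ / L) (s₃ / L) (s₄ / L) (L * X) p,
          α x.1 * ((iq q (u p) x.1 x.2 : ℂ) * ψ (H x.2))‖ ≤ ε / K * X * Q := by
    intro ψ
    by_cases hψ : ψ ∈ nt (⊤ : AddSubgroup A)
    · obtain ⟨Q₀, h2⟩ := em3 hF (Nat.card A) (fun z => ψ (H z)) (hA ψ hψ) hq s₁ s₂ s₃ s₄ g1 g3 g4
        L hL1 hL4 (ε / K) (by positivity)
      exact ⟨Q₀, fun _ => h2⟩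
    · exact ⟨0, fun h => absurd h hψ⟩
  choose Q₀ hQ₀ using h1
  refine ⟨(nt (⊤ : AddSubgroup A)).sup Q₀, fun Q hQ => ?_⟩
  have h2 : ∀ ψ : AddChar A ℂ, ∃ X₀ : ℝ, ψ ∈ nt (⊤ : AddSubgroup A) →
      ∀ X : ℝ, X₀ ≤ X → ∀ (u : ℕ → ℤ) (α : Qd t c → ℂ), (∀ z, ‖α z‖ ≤ 1) →
      ∑ p ∈ PQ χ Q, Real.log p *
        ‖∑ x ∈ PD t c (s₁ / L) (s₂ / L) (s₃ / L) (s₄ / L) (L * X) p,
          α x.1 * ((iq q (u p) x.1 x.2 : ℂ) * ψ (H x.2))‖ ≤ ε / K * X * Q := by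
    intro ψ
    by_cases hψ : ψ ∈ nt (⊤ : AddSubgroup A)
    · obtain ⟨X₀, h3⟩ := hQ₀ ψ hψ Q ((Finset.le_sup hψ).trans hQ)
      exact ⟨X₀, fun _ => h3⟩
    · exact ⟨0, fun h => absurd h hψ⟩
  choose X₀ hX₀ using h2
  refine ⟨max 0 (∑ ψ ∈ nt (⊤ : AddSubgroup A), |X₀ ψ|), fun X hX u α g hα => ?_⟩
  have hX0 : 0 ≤ X := (le_max_left _ _).trans hX
  have hXψ : ∀ ψ ∈ nt (⊤ : AddSubgroup A), X₀ ψ ≤ X := by
    intro ψ hψ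
    refine le_trans ?_ ((le_max_right _ _).trans hX)
    exact (le_abs_self _).trans (single_le_sum (f := fun ψ => |X₀ ψ|)
      (fun _ _ => abs_nonneg _) hψ)
  calc ∑ p ∈ PQ χ Q, Real.log p *
        ‖∑ x ∈ PD t c (s₁ / L) (s₂ / L) (s₃ / L) (s₄ / L) (L * X) p,
          (α x.1 * (iq q (u p) x.1 x.2 : ℂ)) * ig g (H x.2)‖
      ≤ ∑ p ∈ PQ χ Q, Real.log p * ∑ ψ ∈ nt (⊤ : AddSubgroup A),
        ‖∑ x ∈ PD t c (s₁ / L) (s₂ / L) (s₃ / L) (s₄ / L) (L * X) p,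
          (α x.1 * (iq q (u p) x.1 x.2 : ℂ)) * ψ (H x.2)‖ :=
by
        refine sum_le_sum fun p _ => mul_le_mul_of_nonneg_left ?_ (Real.log_natCast_nonneg p)
        exact four' (PD t c (s₁ / L) (s₂ / L) (s₃ / L) (s₄ / L) (L * X) p)
          (fun x : Qd t c × Qd t c => α x.1 * (iq q (u p) x.1 x.2 : ℂ)) (fun x => H x.2) g
    _ = ∑ ψ ∈ nt (⊤ : AddSubgroup A), ∑ p ∈ PQ χ Q, Real.log p *
        ‖∑ x ∈ PD t c (s₁ / L) (s₂ / L) (s₃ / L) (s₄ / L) (L * X) p,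
          α x.1 * ((iq q (u p) x.1 x.2 : ℂ) * ψ (H x.2))‖ := by
        rw [sum_comm]
        refine sum_congr rfl fun p _ => ?_
        rw [mul_sum]
        refine sum_congr rfl fun ψ _ => ?_
        simp only [mul_assoc]
    _ ≤ ∑ ψ ∈ nt (⊤ : AddSubgroup A), ε / K * X * Q :=
        sum_le_sum fun ψ hψ => hX₀ ψ hψ X (hXψ ψ hψ) u α hα
    _ = (nt (⊤ : AddSubgroup A)).card * (ε / K * X * Q) := by rw [sum_const, nsmul_eq_mul]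
    _ ≤ K * (ε / K * X * Q) := by
        refine mul_le_mul_of_nonneg_right ?_ (by positivity)
        rw [hK]
        push_cast
        linarith
    _ = ε * X * Q := by field_simp

end

end Pool.Agent.N912.ED
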