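import Pool.Agent.N912.ED.N912ELStm
import Pool.Agent.N912.ED.W131EGJB

/-!
Project EL (helper912): the weight is almost constant on small cells (S_PSV), from W131.EG.JB.
-/

set_option autoImplicit false

namespace Pool.Agent.N912.ED.N348EL

open Finset Filter
open Pool.Agent.W78.GA (Qd nm prim dt ip lat ball pball ang tc nm_castR norm_tc tc_re tc_im ip_dt
  nm_mul nm_natCast disc_pos nm_nonneg)
open Pool.Agent.W78.EC (psi)
open Pool.Agent.N912.ED.W78EG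
open Pool.Agent.W683.EC (psi_nonneg psi_le psi_eq_zero psi_lip card_diam sin_lip dd_bound ii_bound
  arg_bound)
open Pool.Agent.N912.ED.W131EG (Fd_hD nm_comb nm_sub_le re_eq im_eq dt_eq pp_sq nm_comb_le)
open Pool.Agent.N912.ED.N912EL

variable {t c : ℤ} {f : ℕ} {χ : DirichletCharacter ℂ f}

theorem psv (hF : Fd t c f χ) : S_PSV t c := by
  have hDD0 := Fd_hD hF
  have hkap : 0 < Real.sqrt (4 * c - t ^ 2) / 2 :=
    div_pos (Real.sqrt_pos.2 (disc_pos hDD0)) (by norm_num)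
  set kap : ℝ := Real.sqrt (4 * c - t ^ 2) / 2 with hkapdef
  intro C₀ s δ ε hC hs hδ hε
  set C₁ : ℝ := C₀ * kap with hC₁
  have hC₁p : 0 < C₁ := by positivity
  set K0 : ℝ := C₁ / s ^ 2 + 2 with hK0
  have hK0p : 0 < K0 := by positivity
  set K1 : ℝ := K0 / kap with hK1
  have hK : 0 < K1 := by positivity
  set cc : ℝ := (2 + 2 * C₁ * K0) / s with hc
  have hcp : 0 < cc := by positivity
  set c2 : ℝ := 8 * (1 + cc) / δ ^ 2 + 32 * C₀ * K1 / δ ^ 4 with hc2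
  have hc2p : 0 < c2 := by positivity
  set F : ℝ := 8 * c2 + K1 with hF
  have hFp : 0 < F := by positivity
  refine ⟨min 1 (min (s / (2 * C₁)) (ε / F)), by positivity, ?_⟩
  intro Q X w₁ w₂ w₁' w₂' hQ hX1 hQX hw hD hD' d1 d2 hI hI' ha1 ha2
  set ε₁ : ℝ := min 1 (min (s / (2 * C₁)) (ε / F)) with hε₁
  have he : 0 < ε₁ := by rw [hε₁]; positivity
  have he1 : ε₁ ≤ 1 := min_le_left _ _
  have he2 : ε₁ ≤ s / (2 * C₁) := (min_le_right _ _).trans (min_le_left _ _)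
  have he3 : ε₁ ≤ ε / F := (min_le_right _ _).trans (min_le_right _ _)
  rw [le_div_iff₀ hFp] at he3
  have hX0 : 0 < X := by
    by_contra hcon
    have := mul_nonpos_of_nonneg_of_nonpos he.le (not_lt.1 hcon)
    linarith
  have hQ0 : (0 : ℝ) < Q := by exact_mod_cast hQ
  obtain ⟨l1, u1⟩ := hw w₁ (by simp)
  obtain ⟨l2, u2⟩ := hw w₂ (by simp)
  obtain ⟨l1', u1'⟩ := hw w₁' (by simp)
  obtain ⟨l2', u2'⟩ := hw w₂' (by simp)
  have hδQ : 0 < δ * Q := by positivity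
  have hS : |Real.sin (ang w₂ - ang w₁) - Real.sin (ang w₂' - ang w₁')| ≤ 2 * ε₁ * Q / X := by
    refine (sin_lip _ _).trans ?_
    have e1 : ang w₂ - ang w₁ - (ang w₂' - ang w₁') = (ang w₂ - ang w₂') - (ang w₁ - ang w₁') := by
      ring
    rw [e1]
    refine (abs_sub _ _).trans ((add_le_add ha2 ha1).trans (le_of_eq ?_))
    ring
  have hDk : |(dt w₁ w₂ : ℝ) * kap - (dt w₁' w₂' : ℝ) * kap| ≤ ε₁ * Q * K0 := by
    rcases le_total 0 (dt w₁ w₂ : ℝ) with h0 | h0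
    · exact dd_bound (C₀ := C₁) (s := s) hC₁p hs he hX0 hQ0 (Real.sqrt_nonneg (nm w₁))
        (Real.sqrt_nonneg (nm w₂)) (Real.sqrt_nonneg (nm w₁')) (Real.sqrt_nonneg (nm w₂'))
        (Real.sq_sqrt (Nat.cast_nonneg _)) (Real.sq_sqrt (Nat.cast_nonneg _))
        (Real.sq_sqrt (Nat.cast_nonneg _)) (Real.sq_sqrt (Nat.cast_nonneg _)) l1 u1 l2 u2 l1' u1'
        l2' u2' d1 d2 (dt_eq hDD0 w₁ w₂) (dt_eq hDD0 w₁' w₂') (by positivity)
        (by rw [hC₁]; rw [abs_of_nonneg h0] at hD; nlinarith) hS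
    · have key := dd_bound (C₀ := C₁) (s := s) (D := -((dt w₁ w₂ : ℝ) * kap))
        (D' := -((dt w₁' w₂' : ℝ) * kap)) (S := -Real.sin (ang w₂ - ang w₁))
        (S' := -Real.sin (ang w₂' - ang w₁')) hC₁p hs he hX0 hQ0 (Real.sqrt_nonneg (nm w₁))
        (Real.sqrt_nonneg (nm w₂)) (Real.sqrt_nonneg (nm w₁')) (Real.sqrt_nonneg (nm w₂'))
        (Real.sq_sqrt (Nat.cast_nonneg _)) (Real.sq_sqrt (Nat.cast_nonneg _))
        (Real.sq_sqrt (Nat.cast_nonneg _)) (Real.sq_sqrt (Nat.cast_nonneg _)) l1 u1 l2 u2 l1' u1'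
        l2' u2' d1 d2 (by rw [dt_eq hDD0 w₁ w₂]; ring) (by rw [dt_eq hDD0 w₁' w₂']; ring)
        (by nlinarith)
        (by rw [hC₁]; rw [abs_of_nonpos h0] at hD; nlinarith)
        (by
          rw [neg_sub_neg, abs_sub_comm]
          exact hS)
      rw [neg_sub_neg, abs_sub_comm] at key
      exact key
  have hDD : |(dt w₁ w₂ : ℝ) - dt w₁' w₂'| ≤ ε₁ * Q * K1 := by
    have e1 : (dt w₁ w₂ : ℝ) * kap - (dt w₁' w₂' : ℝ) * kap =
      ((dt w₁ w₂ : ℝ) - dt w₁' w₂') * kap := by ring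
    rw [e1, abs_mul, abs_of_pos hkap] at hDk
    rw [hK1, ← mul_div_assoc, le_div_iff₀ hkap]
    exact hDk
  refine ⟨hDD.trans ?_, ?_⟩
  · have h1 : ε₁ * K1 ≤ ε := by
      have : ε₁ * K1 ≤ ε₁ * F := mul_le_mul_of_nonneg_left (by rw [hF]; linarith) he.le
      linarith
    calc ε₁ * Q * K1 = (ε₁ * K1) * Q := by ring
      _ ≤ ε * Q := mul_le_mul_of_nonneg_right h1 hQ0.le
  intro hDl hDl'
  have hDu := (le_abs_self (dt w₁ w₂ : ℝ)).trans hD
  have hDu' := (le_abs_self (dt w₁' w₂' : ℝ)).trans hD'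
  have hDp : (0 : ℝ) < dt w₁ w₂ := by linarith
  have hDp' : (0 : ℝ) < dt w₁' w₂' := by linarith
  have hpI : (0 : ℝ) < (pp w₁ w₂ : ℝ) / 2 := by
    have : (0 : ℝ) < (pp w₁ w₂ : ℝ) := by exact_mod_cast hI
    linarith
  have hpI' : (0 : ℝ) < (pp w₁' w₂' : ℝ) / 2 := by
    have : (0 : ℝ) < (pp w₁' w₂' : ℝ) := by exact_mod_cast hI'
    linarith
  have hII : |(pp w₁ w₂ : ℝ) / 2 - (pp w₁' w₂' : ℝ) / 2| ≤ cc * (ε₁ * X) :=
    ii_bound (C₀ := C₁) (s := s) hC₁p hs he he1 he2 hX0 hQ0 hQX hK0p.le l1 l2 u2 l1' u1' l2' d1 d2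
      hpI hpI' (pp_sq hDD0 w₁ w₂) (pp_sq hDD0 w₁' w₂') (by positivity)
      (by rw [hC₁]; nlinarith) (by positivity) (by rw [hC₁]; nlinarith) hDk
  intro m₁ hm₁ m₂ hm₂
  have hm₁' := (Finset.mem_Ioc.1 hm₁).2
  have hm₂' := (Finset.mem_Ioc.1 hm₂).2
  unfold Pool.Agent.N912.ED.N912EL.ps
  refine (psi_lip (by positivity) (by positivity)).trans ?_
  refine (mul_le_mul_of_nonneg_left (arg_bound (C₀ := C₀) (δ := δ) hC hδ he hX0 hQ0 hK.le hcp.le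
      (Nat.cast_nonneg m₁)
      (Nat.cast_nonneg m₂) (by exact_mod_cast hm₁') (by exact_mod_cast hm₂') d1 d2 hII
      (nm_comb hDD0 w₁ w₂ m₁ m₂) (nm_comb hDD0 w₁' w₂' m₁ m₂) (Nat.cast_nonneg _)
      (nm_comb_le hDD0 w₁' w₂' m₁ m₂ Q u1' u2' hm₁' hm₂') hDl hDu hDl' hDu' hDD) (by norm_num)).trans ?_
  rw [← hc2]
  have : ε₁ * (8 * c2) ≤ ε₁ * F := mul_le_mul_of_nonneg_left (by rw [hF]; linarith) he.le
  linarith

end Pool.Agent.N912.ED.N348EL
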