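import Pool.Agent.N912.ED.N912ELStm

/-!
Project EM (helper912): the bilinear estimate for prime determinants in all imaginary quadratic orders,
applied to the polynomials `n^2 + t n p + c p^2`, `p` prime. Statements.
-/

set_option autoImplicit false

namespace Pool.Agent.N912.ED

open Finset Filter
open Pool.Agent.W78.GA (Qd nm prim dt ip ball pball)
open Pool.Agent.N912.ED.W78EG

open scoped Classical in
/-- LOSP: few pairs of prime determinant `p` do not lie in the cone over a good edge -/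
def S_LOSP (t c : ℤ) : Prop := ∀ s ε : ℝ, 0 < s → 0 < ε →
  ∃ K₀ : ℕ, ∀ K : ℕ, K₀ ≤ K → ∃ κ₀ : ℝ, 0 < κ₀ ∧
  ∀ κ : ℝ, 0 < κ → κ ≤ κ₀ → ∃ Q₀ : ℕ, ∀ Q : ℕ, Q₀ ≤ Q → ∃ X₀ : ℝ, ∀ X : ℝ, X₀ ≤ X →
    ∀ p : ℕ, p.Prime → Q < p → p ≤ 2 * Q →
    (((ball t c X ×ˢ ball t c X).filter (fun e => dt e.1 e.2 = p ∧ 0 < pp e.1 e.2 ∧
      s * X < (nm e.1 : ℝ) ∧ s * X < (nm e.2 : ℝ) ∧
      ¬ ∃ g ∈ good t c K κ Q X, e.1 ∈ cone X g.1 g.2 ∧ e.2 ∈ cone X g.1 g.2)).card : ℝ) ≤ ε * X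

end Pool.Agent.N912.ED
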